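import Pool.Agent.H509.Zeta0
import Pool.Graph.R_pool_sql_team_seeded_5cf16337.K3h55.E2.Asm2
import Pool.Graph.R_pool_sql_team_seeded_5cf16337.K3h56.E2.Chi2
import Pool.Graph.R_pool_sql_team_seeded_5cf16337.K3h35.E2.One2
import Pool.Graph.R_pool_sql_team_seeded_5cf16337.K3h77.E2.Minus
import Pool.Graph.R_pool_sql_team_seeded_5cf16337.K3h60.E2.Basis
import Pool.Graph.R_pool_sql_team_seeded_5cf16337.K3h57.E2.Tpart
import Pool.Graph.R_pool_sql_team_seeded_5cf16337.K3h92.E2.Cls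
import Pool.Graph.R_pool_sql_team_seeded_5cf16337.K3h17.E2.Rank
import Pool.Graph.R_pool_sql_team_seeded_5cf16337.K3h23.E2.Gt
import Pool.Graph.R_pool_sql_team_seeded_5cf16337.K3h40.E2.Sind
import Pool.Graph.R_pool_sql_team_seeded_5cf16337.K3h4.E2.Fund
import Pool.Graph.R_pool_sql_team_seeded_5cf16337.K3h64.E2.VAL
import Pool.Graph.R_pool_sql_team_seeded_5cf16337.K3h13.E2.DetIdx
import Pool.Graph.R_pool_sql_team_seeded_5cf16337.K3h11.E2.LimX
import Pool.Graph.R_pool_sql_team_seeded_5cf16337.K3h66.E2.LimX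
import Pool.Graph.R_pool_sql_team_seeded_5cf16337.K3h93.E2.ZProd
import Pool.Graph.R_pool_sql_team_seeded_5cf16337.K3h25.E2.Loc
import Pool.Graph.R_pool_sql_team_seeded_5cf16337.K3h41.E2.Dict
import Pool.Graph.R_pool_sql_team_seeded_5cf16337.K3h72.E2.Frob
import Pool.Graph.R_pool_sql_team_seeded_5cf16337.K3h72.E2.Finw
import Pool.Graph.R_pool_sql_team_seeded_5cf16337.K3h73.E2.Places
import Pool.Graph.R_pool_sql_team_seeded_5cf16337.K3h3.E2.KH
import Pool.Graph.R_pool_sql_team_seeded_5cf16337.K3h50.E2.Inf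
import Pool.Graph.R_pool_sql_team_seeded_5cf16337.K3h36.E2x.FACT

/-!
# Rubin's conjecture for groups of exponent two: assembly of the library bricks
-/

set_option autoImplicit false
set_option linter.unusedSectionVars false

open NumberField IsDedekindDomain Filter Topology

noncomputable section

namespace Pool.Agent.H509.E2

open Pool.Agent.K3h30.RS Pool.Agent.K3h56.E2

theorem sind : S_SIND :=
  Pool.Agent.K3h40.E2.t_SIND Pool.Agent.K3h64.E2.t_VAL Pool.Agent.K3h13.E2.t_DETIDX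

theorem fund : S_FUND := Pool.Agent.K3h4.E2.t_FUND Pool.Agent.K3h64.E2.t_VAL

theorem zprod : S_ZPROD := Pool.Agent.K3h93.E2.t_ZPROD Pool.Agent.K3h25.E2.t_LOC

theorem minus : S_MINUS :=
  Pool.Agent.K3h77.E2.t_MINUS Pool.Agent.H509.Z0.t_ZETA0X zprod Pool.Agent.K3h25.E2.t_LOC
    Pool.Agent.K3h11.E2.t_LIMX sind fund Pool.Agent.K3h36.E2x.t_FACT Pool.Agent.K3h23.E2.t_GT
    Pool.Agent.K3h17.E2.t_RANK Pool.Agent.K3h92.E2.t_CLS

theorem chi2 : S_CHI2 :=
  t_CHI2 Pool.Agent.H509.Z0.t_ZETA0X zprod Pool.Agent.K3h25.E2.t_LOC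
    Pool.Agent.K3h11.E2.t_LIMX Pool.Agent.K3h41.E2.t_DICT
    (Pool.Agent.K3h72.E2.t_FROB Pool.Agent.K3h25.E2.t_LOC)
    (Pool.Agent.K3h72.E2.t_FINW Pool.Agent.K3h25.E2.t_LOC) Pool.Agent.K3h50.E2.t_INFW
    Pool.Agent.K3h50.E2.t_COUNT Pool.Agent.K3h73.E2.t_PLACES minus Pool.Agent.K3h17.E2.t_RANK
    Pool.Agent.K3h3.E2.t_KH Pool.Agent.K3h3.E2.t_AVK Pool.Agent.K3h60.E2.t_BASIS
    Pool.Agent.K3h57.E2.t_TPART

theorem one2 : S_ONE2 :=
  Pool.Agent.K3h35.E2.t_ONE2 Pool.Agent.H509.Z0.t_ZETA0X Pool.Agent.K3h66.E2.t_LIM1X sind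
    Pool.Agent.K3h57.E2.t_TPART Pool.Agent.K3h60.E2.t_BASIS Pool.Agent.K3h17.E2.t_RANK1
    Pool.Agent.K3h3.E2.t_KH1 Pool.Agent.K3h3.E2.t_AVK Pool.Agent.K3h73.E2.t_PLACES

/-- **Rubin's conjecture for groups of exponent two**, if there are enough places in `S` or `T` -/
theorem rubin_exp2 {F H G : Type} [Field F] [NumberField F] [Field H] [NumberField H]
    [Algebra F H] [CommGroup G] [Finite G] [MulSemiringAction G H] [IsGaloisGroup G F H]
    (D : RubinData F H G) (T : Finset (HeightOneSpectrum (𝓞 F))) (hT : D.Allowed T)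
    (hG : ∀ g : G, g * g = 1)
    (h : Nat.card G ∣ 2 ^ ((Fintype.card (InfinitePlace F) + D.S.card - (D.r + 1)) +
      (oddCard T - (D.r + 1)))) : D.Rubin T := by
  refine Pool.Agent.K3h55.E2.t_ASM2 F H G D T hT hG fun χ => ?_
  by_cases hχ : χ = 1
  · subst hχ
    exact one2 F H G D T hT hG h
  · exact chi2 F H G D T hT hG h χ hχ

end Pool.Agent.H509.E2
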