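import Pool.Agent.H509.Main
import Pool.Graph.R_pool_sql_team_seeded_63374d34.N598.ST.Ab

/-!
# Roots which generate abelian extensions
-/

set_option autoImplicit false
set_option linter.unusedSectionVars false
set_option linter.style.haveILetI false

open NumberField IsDedekindDomain

noncomputable section

namespace Pool.Agent.H509

open Pool.Agent.N598.ST (AbRoot AbOm W)

section closure

variable {F Ω : Type} [Field F] [CharZero F] [Field Ω] [Algebra F Ω] [Normal F Ω]

/-- the field of the elements on which any two automorphisms commute -/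
def commField (F Ω : Type) [Field F] [Field Ω] [Algebra F Ω] : IntermediateField F Ω where
  carrier := {z | ∀ σ τ : Ω ≃ₐ[F] Ω, σ (τ z) = τ (σ z)}
  mul_mem' := fun {a b} ha hb σ τ => by simp only [map_mul]; rw [ha, hb]
  add_mem' := fun {a b} ha hb σ τ => by simp only [map_add]; rw [ha, hb]
  algebraMap_mem' := fun a σ τ => by simp only [AlgEquiv.commutes]
  inv_mem' := fun a ha σ τ => by simp only [map_inv₀]; rw [ha]

theorem mem_commField {z : Ω} : z ∈ commField F Ω ↔ ∀ σ τ : Ω ≃ₐ[F] Ω, σ (τ z) = τ (σ z) :=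
  Iff.rfl

theorem commField_normal : Normal F (commField F Ω) := by
  rw [IntermediateField.normal_iff_forall_map_le']
  rintro σ _ ⟨z, hz, rfl⟩
  change z ∈ commField F Ω at hz
  change (σ z : Ω) ∈ commField F Ω
  rw [mem_commField] at hz ⊢
  intro ρ τ
  have h1 := hz (ρ * τ) σ
  have h2 := hz (τ * ρ) σ
  simp only [AlgEquiv.mul_apply] at h1 h2
  rw [h1, h2, hz ρ τ]

theorem commField_abelian : IsAbelianGalois F (commField F Ω) := by
  have := commField_normal (F := F) (Ω := Ω)
  have hg : IsGalois F (commField F Ω) := ⟨⟩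
  refine { is_comm := ⟨fun σ τ => ?_⟩ }
  ext x
  have e : ∀ (σ τ : Gal((commField F Ω)/F)), (σ.liftNormal Ω) ((τ.liftNormal Ω) (x : Ω)) =
      ((σ (τ x) : commField F Ω) : Ω) := by
    intro σ τ
    have h1 := AlgEquiv.liftNormal_commutes τ Ω x
    have h2 := AlgEquiv.liftNormal_commutes σ Ω (τ x)
    change (τ.liftNormal Ω) (x : Ω) = ((τ x : commField F Ω) : Ω) at h1
    change (σ.liftNormal Ω) ((τ x : commField F Ω) : Ω) = ((σ (τ x) : commField F Ω) : Ω) at h2
    rw [h1, h2]
  have h := mem_commField.1 x.2 (σ.liftNormal Ω) (τ.liftNormal Ω)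
  rw [e, e] at h
  exact h

end closure

variable {F H G : Type} [Field F] [NumberField F] [Field H] [NumberField H] [Algebra F H]

theorem normal_closure (F H : Type) [Field F] [NumberField F] [Field H] [NumberField H]
    [Algebra F H] : Normal F (AlgebraicClosure H) := by
  have : Algebra.IsAlgebraic F (AlgebraicClosure H) := Algebra.IsAlgebraic.trans F H _
  have : IsAlgClosure F (AlgebraicClosure H) := ⟨inferInstance, this⟩
  exact IsAlgClosure.normal F _

theorem abOm_of_abRoot {w : ℕ} [IsAbelianGalois F H] {x : H} (h : AbRoot F w x) :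
    AbOm F w x := by
  have := AbRoot.lift (K := F) (F := H) (H := H) (w := w) (k := 1) h
  simpa using this

variable [CommGroup G] [Finite G] [MulSemiringAction G H] [IsGaloisGroup G F H]

theorem galois_of_group (F H G : Type) [Field F] [NumberField F] [Field H] [NumberField H]
    [Algebra F H] [CommGroup G] [Finite G] [MulSemiringAction G H] [IsGaloisGroup G F H] :
    IsAbelianGalois F H := by
  have h1 : IsGalois F H := IsGaloisGroup.isGalois G F H
  refine { is_comm := ⟨fun σ τ => ?_⟩ }
  apply (IsGaloisGroup.mulEquivAlgEquiv G F H).symm.injective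
  rw [map_mul, map_mul, mul_comm]

/-- automorphisms of the algebraic closure act on `H` as elements of `G` -/
theorem exists_restr (G : Type) [CommGroup G] [Finite G] [MulSemiringAction G H]
    [IsGaloisGroup G F H] (σ : AlgebraicClosure H ≃ₐ[F] AlgebraicClosure H) :
    ∃ γ : G, ∀ h : H, σ (algebraMap H _ h) = algebraMap H (AlgebraicClosure H) (γ • h) := by
  have h0 : IsGalois F H := IsGaloisGroup.isGalois G F H
  obtain ⟨γ, hγ⟩ := (IsGaloisGroup.mulEquivAlgEquiv G F H).surjective (σ.restrictNormal H)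
  refine ⟨γ, fun h => ?_⟩
  rw [← AlgEquiv.restrictNormal_commutes σ H h, ← hγ]
  rfl

/-- elements of `G` are restrictions of automorphisms of the algebraic closure -/
theorem exists_lift (F : Type) [Field F] [NumberField F] [Algebra F H] [IsGaloisGroup G F H]
    (γ : G) : ∃ σ : AlgebraicClosure H ≃ₐ[F] AlgebraicClosure H,
      ∀ h : H, σ (algebraMap H _ h) = algebraMap H (AlgebraicClosure H) (γ • h) := by
  have h0 : IsGalois F H := IsGaloisGroup.isGalois G F H
  have := normal_closure F H
  refine ⟨(IsGaloisGroup.mulEquivAlgEquiv G F H γ).liftNormal (AlgebraicClosure H), fun h => ?_⟩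
  rw [AlgEquiv.liftNormal_commutes]
  rfl

theorem mem_commField_of_H (G : Type) [CommGroup G] [Finite G] [MulSemiringAction G H]
    [IsGaloisGroup G F H] (h : H) :
    algebraMap H (AlgebraicClosure H) h ∈ commField F (AlgebraicClosure H) := by
  rw [mem_commField]
  intro σ τ
  obtain ⟨γ, hγ⟩ := exists_restr G σ
  obtain ⟨δ, hδ⟩ := exists_restr G τ
  rw [hδ, hγ, hγ, hδ, ← mul_smul, ← mul_smul, mul_comm]

/-- `AbOm` in terms of commuting automorphisms -/
theorem abOm_iff (G : Type) [CommGroup G] [Finite G] [MulSemiringAction G H]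
    [IsGaloisGroup G F H] {w : ℕ} {x : H} :
    AbOm F w x ↔ ∃ z : AlgebraicClosure H, z ^ w = algebraMap H _ x ∧
      ∀ σ τ : AlgebraicClosure H ≃ₐ[F] AlgebraicClosure H, σ (τ z) = τ (σ z) := by
  have := normal_closure F H
  constructor
  · rintro ⟨E, hE, hH, z, hz, hzx⟩
    exact ⟨z, hzx, fun σ τ => Pool.Agent.N598.ST.comm_of_abelian E σ τ z hz⟩
  · rintro ⟨z, hzx, hz⟩
    exact ⟨commField F (AlgebraicClosure H), commField_abelian, mem_commField_of_H G, z,
      mem_commField.2 hz, hzx⟩

theorem AbOm.smul' {w : ℕ} {x : H} (h : AbOm F w x) (γ : G) : AbOm F w (γ • x) := by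
  rw [abOm_iff G] at h ⊢
  obtain ⟨z, hzx, hz⟩ := h
  obtain ⟨σ, hσ⟩ := exists_lift (H := H) F γ
  refine ⟨σ z, ?_, ?_⟩
  · rw [← map_pow, hzx, hσ]
  · intro ρ τ
    have h1 := hz (ρ * τ) σ
    have h2 := hz (τ * ρ) σ
    simp only [AlgEquiv.mul_apply] at h1 h2
    rw [h1, h2, hz ρ τ]

end Pool.Agent.H509
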