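import Pool.Agent.H509.LamV

/-!
# Rational functionals on the `S`-units
-/

set_option autoImplicit false
set_option linter.unusedSectionVars false
set_option linter.style.haveILetI false

open NumberField IsDedekindDomain Filter Topology

noncomputable section

namespace Pool.Agent.H509

open Pool.Agent.K3h30.RS Pool.Agent.K3h62.RS Pool.Agent.K3h3.RS Pool.Agent.K3h81.RL

variable {F H G : Type} [Field F] [NumberField F] [Field H] [NumberField H] [Algebra F H]
  [CommGroup G] [Finite G] [MulSemiringAction G H]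

theorem powG_add (x : Hˣ) (ρ ρ' : MonoidAlgebra ℤ G) : powG x (ρ + ρ') = powG x ρ * powG x ρ' := by
  letI := Fintype.ofFinite G
  unfold powG
  rw [← Finset.prod_mul_distrib]
  refine Finset.prod_congr rfl fun γ _ => ?_
  rw [MonoidAlgebra.coeff_add, Finsupp.add_apply, zpow_add]

theorem powG_zero (x : Hˣ) : powG x (0 : MonoidAlgebra ℤ G) = 1 := by
  letI := Fintype.ofFinite G
  unfold powG
  refine Finset.prod_eq_one fun γ _ => ?_
  simp

/-- `act` as a homomorphism -/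
def actHom (G : Type) [CommGroup G] [MulSemiringAction G H] (γ : G) : Hˣ →* Hˣ :=
  Units.map (MulSemiringAction.toRingHom G H γ : H →* H)

theorem powG_act (x : Hˣ) (γ : G) (ρ : MonoidAlgebra ℤ G) :
    powG x (MonoidAlgebra.single γ 1 * ρ) = act γ (powG x ρ) := by
  letI := Fintype.ofFinite G
  unfold powG
  have h1 : act γ (∏ δ : G, act δ x ^ (ρ.coeff δ)) = ∏ δ : G, act (γ * δ) x ^ (ρ.coeff δ) := by
    change actHom G γ (∏ δ : G, act δ x ^ (ρ.coeff δ)) = _
    rw [map_prod]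
    refine Finset.prod_congr rfl fun δ _ => ?_
    rw [map_zpow, act_mul]
    rfl
  rw [h1]
  symm
  refine Fintype.prod_equiv (Equiv.mulLeft γ) (fun δ => act (γ * δ) x ^ (ρ.coeff δ))
    (fun δ => act δ x ^ ((MonoidAlgebra.single γ 1 * ρ).coeff δ)) fun δ => ?_
  rw [coeff_single_mul', one_mul, Equiv.coe_mulLeft, inv_mul_cancel_left]

theorem powG_nat (x : Hˣ) (n : ℕ) : powG x (n : MonoidAlgebra ℤ G) = x ^ n := by
  induction n with
  | zero => rw [Nat.cast_zero, powG_zero, pow_zero]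
  | succ n ih =>
    rw [Nat.cast_succ, powG_add, ih, pow_succ]
    congr 1
    have h1 : (1 : MonoidAlgebra ℤ G) = MonoidAlgebra.single 1 1 * 1 := by
      rw [mul_one, MonoidAlgebra.one_def]
    classical
    letI := Fintype.ofFinite G
    unfold powG
    rw [Finset.prod_eq_single (1 : G)]
    · rw [act_one, MonoidAlgebra.one_def]
      simp
    · intro δ _ hδ
      rw [MonoidAlgebra.one_def]
      simp [hδ]
    · intro h
      exact absurd (Finset.mem_univ _) h

theorem tw_act (n : ℕ) (Q : HeightOneSpectrum (𝓞 H)) (y x : Hˣ) (γ : G) :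
    tw G n Q y (act γ x) = act γ (tw G n Q y x) := by
  unfold tw
  rw [ordG_act, powG_act, act_map_mul, act_pow]
  congr 1

theorem tw_mul (n : ℕ) (Q : HeightOneSpectrum (𝓞 H)) (y x x' : Hˣ) :
    tw G n Q y (x * x') = tw G n Q y x * tw G n Q y x' := by
  unfold tw
  rw [ofMul_mul, map_add, powG_add, mul_pow, mul_inv]
  exact mul_mul_mul_comm _ _ _ _

theorem tw_self {n : ℕ} {Q : HeightOneSpectrum (𝓞 H)} {y : Hˣ}
    (hn : ordG G Q (Additive.ofMul y) = (n : MonoidAlgebra ℤ G)) : tw G n Q y y = 1 := by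
  unfold tw
  rw [hn, powG_nat, mul_inv_cancel]

theorem tw_of_ord {n : ℕ} {Q : HeightOneSpectrum (𝓞 H)} {x y : Hˣ}
    (h : ordG G Q (Additive.ofMul x) = 0) : tw G n Q y x = x ^ n := by
  unfold tw
  rw [h, powG_zero, inv_one, mul_one]

theorem mem_U_empty (D : RubinData F H G) {x : Hˣ} (hx : x ∈ US D) : x ∈ D.U ∅ :=
  ⟨hx.1, fun w hw => by
    obtain ⟨v, hv, -⟩ := hw
    rw [Finset.coe_empty] at hv
    exact absurd hv (Set.notMem_empty v)⟩

section

variable [IsGaloisGroup G F H] (D : RubinData F H G)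

/-- the rational extension of a homomorphism on `U_{S,T}` -/
theorem exists_ratExt (T : Finset (HeightOneSpectrum (𝓞 F))) (hT : Disjoint D.S T)
    (Λ : Additive (D.U T) →+ MonoidAlgebra ℚ G)
    (hΛ : ∀ (γ : G) (x y : D.U T), (y : Hˣ) = act γ (x : Hˣ) →
      Λ (Additive.ofMul y) = MonoidAlgebra.single γ 1 * Λ (Additive.ofMul x)) :
    ∃ f : Additive (US D) →+ MonoidAlgebra ℚ G, IsEquiv D f ∧
      ∀ (x : US D) (hx : (x : Hˣ) ∈ D.U T),
        f (Additive.ofMul x) = Λ (Additive.ofMul ⟨(x : Hˣ), hx⟩) := by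
  obtain ⟨m, hm0, hm⟩ := exists_pow_US D T hT
  let f : Additive (US D) →+ MonoidAlgebra ℚ G :=
      { toFun := fun x => ((m : ℚ)⁻¹) • Λ (Additive.ofMul
          ⟨((Additive.toMul x : US D) : Hˣ) ^ m, hm (Additive.toMul x)⟩)
        map_zero' := by
          have : (Additive.ofMul (⟨((Additive.toMul (0 : Additive (US D)) : US D) : Hˣ) ^ m,
              hm (Additive.toMul 0)⟩ : D.U T)) = 0 := by
            apply Additive.toMul.injective
            ext
            simp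
          rw [this, map_zero, smul_zero]
        map_add' := by
          intro x y
          rw [← smul_add, ← map_add]
          congr 2
          apply Additive.toMul.injective
          ext
          simp [mul_pow] }
  have hfm : ∀ (x : US D), Λ (Additive.ofMul ⟨(x : Hˣ) ^ m, hm x⟩) =
        (m : MonoidAlgebra ℚ G) * f (Additive.ofMul x) := by
    intro x
    change _ = (m : MonoidAlgebra ℚ G) * (((m : ℚ)⁻¹) •
      Λ (Additive.ofMul ⟨(x : Hˣ) ^ m, hm x⟩))
    rw [mul_smul_comm]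
    have h3 : (m : MonoidAlgebra ℚ G) = ((m : ℚ)) • (1 : MonoidAlgebra ℚ G) := by
      rw [Algebra.smul_def, mul_one, map_natCast]
    rw [h3, smul_mul_assoc, one_mul, smul_smul, inv_mul_cancel₀ (by positivity), one_smul]
  refine ⟨f, fun γ x y hxy => ?_, fun x hx => ?_⟩
  · apply natCast_cancel hm0
    rw [← hfm, mul_left_comm, ← hfm]
    refine hΛ γ _ _ ?_
    change (y : Hˣ) ^ m = act γ ((x : Hˣ) ^ m)
    rw [hxy, act_pow]
  · apply natCast_cancel hm0
    rw [← hfm]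
    have h3 : (Additive.ofMul (⟨(x : Hˣ) ^ m, hm x⟩ : D.U T)) =
        m • Additive.ofMul (⟨(x : Hˣ), hx⟩ : D.U T) := rfl
    rw [h3, map_nsmul, nsmul_eq_mul]

variable {q : HeightOneSpectrum (𝓞 F)} (hq : q ∉ D.S) (hσ : D.σ q = 1)
  {Q : HeightOneSpectrum (𝓞 H)} (hQ : Above {q} Q)

/-- the map `x ↦ x ^ n y ^ (- ord_Q x)` on the units -/
def twHom {n : ℕ} {y : Hˣ} (hy : y ∈ (addSplit D q hq hσ Q hQ).U ∅)
    (hn : ordG G Q (Additive.ofMul y) = (n : MonoidAlgebra ℤ G)) :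
    Additive (US (addSplit D q hq hσ Q hQ)) →+ Additive (US D) :=
  AddMonoidHom.mk' (fun x => Additive.ofMul ⟨tw G n Q y ((Additive.toMul x :
      US (addSplit D q hq hσ Q hQ)) : Hˣ),
      mem_US_of_mem D ∅ (tw_mem_U D hq hσ hQ ∅ (mem_U_empty _ (Additive.toMul x).2) hy hn)⟩) (by
    intro a b
    apply Additive.toMul.injective
    apply Subtype.ext
    exact tw_mul n Q y _ _)

theorem twHom_apply {n : ℕ} {y : Hˣ} (hy : y ∈ (addSplit D q hq hσ Q hQ).U ∅)
    (hn : ordG G Q (Additive.ofMul y) = (n : MonoidAlgebra ℤ G))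
    (x : US (addSplit D q hq hσ Q hQ)) :
    ((Additive.toMul (twHom D hq hσ hQ hy hn (Additive.ofMul x)) : US D) : Hˣ) =
      tw G n Q y (x : Hˣ) := rfl

variable {n : ℕ} {y : Hˣ} (hy : y ∈ (addSplit D q hq hσ Q hQ).U ∅)
  (hn : ordG G Q (Additive.ofMul y) = (n : MonoidAlgebra ℤ G))
  (g : Additive (US D) →+ MonoidAlgebra ℚ G)

theorem tw_equiv (hg : IsEquiv D g) :
    IsEquiv (addSplit D q hq hσ Q hQ) (g.comp (twHom D hq hσ hQ hy hn)) := by
  intro γ x x' hx
  refine hg γ (Additive.toMul (twHom D hq hσ hQ hy hn (Additive.ofMul x)))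
    (Additive.toMul (twHom D hq hσ hQ hy hn (Additive.ofMul x'))) ?_
  rw [twHom_apply, twHom_apply, hx, tw_act]

theorem tw_int {T : Finset (HeightOneSpectrum (𝓞 F))} (hg : IntOn D T g)
    (hyT : y ∈ (addSplit D q hq hσ Q hQ).U T) :
    IntOn (addSplit D q hq hσ Q hQ) T (g.comp (twHom D hq hσ hQ hy hn)) := by
  intro x hx
  refine hg (Additive.toMul (twHom D hq hσ hQ hy hn (Additive.ofMul x))) ?_
  rw [twHom_apply]
  exact tw_mem_U D hq hσ hQ T hx hyT hn

theorem tw_at_y (hyS : y ∈ US (addSplit D q hq hσ Q hQ)) :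
    (g.comp (twHom D hq hσ hQ hy hn)) (Additive.ofMul ⟨y, hyS⟩) = 0 := by
  have h1 : twHom D hq hσ hQ hy hn (Additive.ofMul ⟨y, hyS⟩) = 0 := by
    apply Additive.toMul.injective
    apply Subtype.ext
    exact tw_self hn
  rw [AddMonoidHom.comp_apply, h1, map_zero]

theorem tw_at (x : US D) (hx : (x : Hˣ) ∈ US (addSplit D q hq hσ Q hQ)) :
    (g.comp (twHom D hq hσ hQ hy hn)) (Additive.ofMul ⟨(x : Hˣ), hx⟩) =
      (n : MonoidAlgebra ℚ G) * g (Additive.ofMul x) := by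
  have h1 : twHom D hq hσ hQ hy hn (Additive.ofMul ⟨(x : Hˣ), hx⟩) = n • Additive.ofMul x := by
    apply Additive.toMul.injective
    apply Subtype.ext
    exact tw_of_ord (ordG_of_mem D hq hQ ∅ (mem_U_empty D x.2))
  rw [AddMonoidHom.comp_apply, h1, map_nsmul, nsmul_eq_mul]

/-- the value of the functionals at `- (1 / n) y ∧ u` -/
theorem asc_wval (hn0 : 0 < n) (hyS : y ∈ US (addSplit D q hq hσ Q hQ))
    (u : Wedge G D.r (D.U ∅)) (f₀ : Additive (US (addSplit D q hq hσ Q hQ)) →+ MonoidAlgebra ℚ G)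
    (g : Fin D.r → Additive (US D) →+ MonoidAlgebra ℚ G) :
    (n : MonoidAlgebra ℚ G) * wval (addSplit D q hq hσ Q hQ) (U_le (addSplit D q hq hσ Q hQ) ∅)
      (Fin.cons f₀ (fun i => (g i).comp (twHom D hq hσ hQ hy hn)) : Fin (D.r + 1) →
        Additive (US (addSplit D q hq hσ Q hQ)) →+ MonoidAlgebra ℚ G)
      (asc (n := n) D hq hσ hQ ∅ hy u) =
    -(f₀ (Additive.ofMul ⟨y, hyS⟩) * ((n : MonoidAlgebra ℚ G) ^ D.r *
      wval D (U_le D ∅) g u)) := by
  unfold wval
  change (n : MonoidAlgebra ℚ G) * ∑ k : Fin u.n, (-((n : ℚ)⁻¹ • u.c k)) *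
    Matrix.det (Matrix.of fun (a b : Fin (D.r + 1)) =>
      (Fin.cons f₀ (fun i => (g i).comp (twHom D hq hσ hQ hy hn)) : Fin (D.r + 1) →
        Additive (US (addSplit D q hq hσ Q hQ)) →+ MonoidAlgebra ℚ G) a
      (Additive.ofMul ⟨(((Fin.cons ⟨y, hy⟩ fun l => ⟨(u.x k l : Hˣ),
        U_le_split D hq hσ hQ ∅ (u.x k l).2⟩) : Fin (D.r + 1) →
        (addSplit D q hq hσ Q hQ).U ∅) b : Hˣ), _⟩)) = _
  rw [Finset.mul_sum, Finset.mul_sum, Finset.mul_sum, ← Finset.sum_neg_distrib]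
  refine Finset.sum_congr rfl fun k _ => ?_
  have h1 : (Matrix.of fun (a b : Fin (D.r + 1)) =>
      (Fin.cons f₀ (fun i => (g i).comp (twHom D hq hσ hQ hy hn)) : Fin (D.r + 1) →
        Additive (US (addSplit D q hq hσ Q hQ)) →+ MonoidAlgebra ℚ G) a
      (Additive.ofMul (⟨(((Fin.cons ⟨y, hy⟩ fun l => ⟨(u.x k l : Hˣ),
        U_le_split D hq hσ hQ ∅ (u.x k l).2⟩) : Fin (D.r + 1) →
        (addSplit D q hq hσ Q hQ).U ∅) b : Hˣ), U_le (addSplit D q hq hσ Q hQ) ∅
          ((Fin.cons ⟨y, hy⟩ fun l => ⟨(u.x k l : Hˣ),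
        U_le_split D hq hσ hQ ∅ (u.x k l).2⟩ : Fin (D.r + 1) →
        (addSplit D q hq hσ Q hQ).U ∅) b).2⟩ : US (addSplit D q hq hσ Q hQ)))) =
      Matrix.of fun a : Fin (D.r + 1) =>
      (Fin.cons ((Fin.cons (f₀ (Additive.ofMul ⟨y, hyS⟩)) (fun _ => 0) :
        Fin (D.r + 1) → MonoidAlgebra ℚ G) a)
        (fun l => (Fin.cons f₀ (fun i => (g i).comp (twHom D hq hσ hQ hy hn)) : Fin (D.r + 1) →
        Additive (US (addSplit D q hq hσ Q hQ)) →+ MonoidAlgebra ℚ G) a (Additive.ofMul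
        ⟨(u.x k l : Hˣ), U_le (addSplit D q hq hσ Q hQ) ∅
          (U_le_split D hq hσ hQ ∅ (u.x k l).2)⟩)) :
          Fin (D.r + 1) → MonoidAlgebra ℚ G) := by
    ext a b : 1
    refine Fin.cases ?_ (fun b => ?_) b
    · simp only [Matrix.of_apply, Fin.cons_zero]
      refine Fin.cases ?_ (fun a => ?_) a
      · rfl
      · exact tw_at_y D hq hσ hQ hy hn (g a) hyS
    · simp only [Matrix.of_apply, Fin.cons_succ]
  refine (congrArg (fun z => (n : MonoidAlgebra ℚ G) * ((-((n : ℚ)⁻¹ • u.c k)) *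
    Matrix.det z)) h1).trans ?_
  rw [det_cons_column, Fin.sum_univ_succ]
  rw [Finset.sum_eq_zero (s := Finset.univ) (f := fun i : Fin D.r => _)]
  · rw [add_zero]
    have h2 : (Matrix.of fun (a b : Fin D.r) =>
        (Fin.cons f₀ (fun i => (g i).comp (twHom D hq hσ hQ hy hn)) : Fin (D.r + 1) →
        Additive (US (addSplit D q hq hσ Q hQ)) →+ MonoidAlgebra ℚ G)
          ((0 : Fin (D.r + 1)).succAbove a) (Additive.ofMul
        ⟨(u.x k b : Hˣ), U_le (addSplit D q hq hσ Q hQ) ∅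
          (U_le_split D hq hσ hQ ∅ (u.x k b).2)⟩)) =
        Matrix.of fun (a b : Fin D.r) => (n : MonoidAlgebra ℚ G) *
          g a (Additive.ofMul ⟨(u.x k b : Hˣ), U_le D ∅ (u.x k b).2⟩) := by
      ext a b : 1
      rw [Matrix.of_apply, Matrix.of_apply, Fin.succAbove_zero, Fin.cons_succ]
      exact tw_at D hq hσ hQ hy hn (g a) ⟨(u.x k b : Hˣ), U_le D ∅ (u.x k b).2⟩ _
    rw [h2, det_natCast_mul]
    have h4 := smul_natCast_mul (R := MonoidAlgebra ℚ G) hn0 1 (u.c k)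
      (f₀ (Additive.ofMul ⟨y, hyS⟩) * ((n : MonoidAlgebra ℚ G) ^ D.r *
        Matrix.det (Matrix.of fun (a b : Fin D.r) =>
          g a (Additive.ofMul ⟨(u.x k b : Hˣ), U_le D ∅ (u.x k b).2⟩))))
    rw [pow_one, pow_one] at h4
    simp only [Fin.val_zero, pow_zero, one_mul, Fin.cons_zero]
    linear_combination -h4
  · intro i _
    rw [Fin.cons_succ, mul_zero, zero_mul]

end

end Pool.Agent.H509
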