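import Pool.Agent.H509.Ab
import Pool.Agent.H509.TwR

/-!
# Roots which generate abelian extensions, II
-/

set_option autoImplicit false
set_option linter.unusedSectionVars false
set_option linter.style.haveILetI false

open NumberField IsDedekindDomain

noncomputable section

namespace Pool.Agent.H509

open Pool.Agent.K3h30.RS Pool.Agent.K3h62.RS Pool.Agent.K3h3.RS Pool.Agent.K3h81.RL
open Pool.Agent.N598.ST (AbRoot AbOm W)

theorem exists_zeta (H : Type) [Field H] [NumberField H] :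
    ∃ ζ : H, IsPrimitiveRoot ζ (Units.torsionOrder H) := by
  obtain ⟨g, hg⟩ := IsCyclic.exists_generator (α := Units.torsion H)
  have h1 : orderOf g = Units.torsionOrder H := by
    rw [orderOf_eq_card_of_forall_mem_zpowers hg]
    rfl
  have h3 : IsPrimitiveRoot g (orderOf g) := IsPrimitiveRoot.orderOf g
  have h4 : IsPrimitiveRoot (g : (𝓞 H)ˣ) (orderOf g) :=
    h3.map_of_injective (f := (Units.torsion H).subtype) Subtype.val_injective
  have h5 : IsPrimitiveRoot ((g : (𝓞 H)ˣ) : 𝓞 H) (orderOf g) := IsPrimitiveRoot.coe_units_iff.2 h4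
  have h6 : IsPrimitiveRoot (algebraMap (𝓞 H) H ((g : (𝓞 H)ˣ) : 𝓞 H)) (orderOf g) :=
    h5.map_of_injective (f := algebraMap (𝓞 H) H) (FaithfulSMul.algebraMap_injective _ _)
  rw [h1] at h6
  exact ⟨_, h6⟩

theorem root_in_H {H : Type} [Field H] [NumberField H] {z : AlgebraicClosure H}
    (hz : z ^ (Units.torsionOrder H) = 1) :
    ∃ h : Hˣ, h ^ (Units.torsionOrder H) = 1 ∧
      algebraMap H (AlgebraicClosure H) (h : H) = z := by
  obtain ⟨ζ, hζ⟩ := exists_zeta H
  have h1 : IsPrimitiveRoot (algebraMap H (AlgebraicClosure H) ζ) (Units.torsionOrder H) :=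
    hζ.map_of_injective (f := algebraMap H (AlgebraicClosure H)) (algebraMap H _).injective
  have : NeZero (Units.torsionOrder H) := ⟨Units.torsionOrder_ne_zero H⟩
  obtain ⟨i, -, hi⟩ := h1.eq_pow_of_pow_eq_one hz
  refine ⟨(hζ.isUnit (Units.torsionOrder_ne_zero H)).unit ^ i, ?_, ?_⟩
  · ext
    rw [← pow_mul, mul_comm, pow_mul]
    simp [hζ.pow_eq_one]
  · rw [Units.val_pow_eq_pow_val, map_pow]
    exact hi

variable {F H G : Type} [Field F] [NumberField F] [Field H] [NumberField H] [Algebra F H]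
  [CommGroup G] [Finite G] [MulSemiringAction G H]

/-- `γ` acts on the roots of unity of `H` as the `n`-th power -/
def IsCyc (H : Type) [Field H] [NumberField H] {G : Type} [CommGroup G] [MulSemiringAction G H]
    (γ : G) (n : ℕ) : Prop :=
  ∀ h : Hˣ, h ^ (Units.torsionOrder H) = 1 → act γ h = h ^ n

theorem exists_cyc (γ : G) : ∃ n : ℕ, IsCyc H γ n := by
  obtain ⟨ζ, hζ⟩ := exists_zeta H
  have : NeZero (Units.torsionOrder H) := ⟨Units.torsionOrder_ne_zero H⟩
  have h0 : (γ • ζ) ^ (Units.torsionOrder H) = 1 := by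
    rw [← smul_pow', hζ.pow_eq_one, smul_one]
  obtain ⟨n, -, hn⟩ := hζ.eq_pow_of_pow_eq_one h0
  refine ⟨n, fun h hh => ?_⟩
  have h1 : (h : H) ^ (Units.torsionOrder H) = 1 := by
    rw [← Units.val_pow_eq_pow_val, hh, Units.val_one]
  obtain ⟨i, -, hi⟩ := hζ.eq_pow_of_pow_eq_one h1
  ext
  rw [act_val, Units.val_pow_eq_pow_val, ← hi, smul_pow', ← hn, ← pow_mul, ← pow_mul, mul_comm]

/-- powers as a homomorphism -/
def powHom (x : Hˣ) : MonoidAlgebra ℤ G →+ Additive Hˣ :=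
  AddMonoidHom.mk' (fun ρ => Additive.ofMul (powG x ρ)) fun a b => by
    rw [powG_add, ofMul_mul]

theorem powG_natCast_mul (x : Hˣ) (n : ℕ) (ρ : MonoidAlgebra ℤ G) :
    powG x ((n : MonoidAlgebra ℤ G) * ρ) = powG x ρ ^ n := by
  have h1 := map_nsmul (powHom (G := G) x) n ρ
  rw [nsmul_eq_mul] at h1
  exact congrArg Additive.toMul h1

theorem powG_neg (x : Hˣ) (ρ : MonoidAlgebra ℤ G) : powG x (-ρ) = (powG x ρ)⁻¹ :=
  congrArg Additive.toMul (map_neg (powHom (G := G) x) ρ)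

theorem val_map_algebraMap (x : Hˣ) :
    ((Units.map (algebraMap H (AlgebraicClosure H) : H →* AlgebraicClosure H) x :
      (AlgebraicClosure H)ˣ) : AlgebraicClosure H) = algebraMap H (AlgebraicClosure H) (x : H) :=
  rfl

variable [IsGaloisGroup G F H]

/-- elements with abelian roots are almost eigenvectors modulo powers -/
theorem exists_quot {ε : Hˣ} (h : AbOm F (Units.torsionOrder H) (ε : H)) {γ : G} {n : ℕ}
    (hn : IsCyc H γ n) : ∃ u : Hˣ, act γ ε = ε ^ n * u ^ (Units.torsionOrder H) := by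
  have hw := Units.torsionOrder_ne_zero H
  rw [abOm_iff G] at h
  obtain ⟨z, hz, hc⟩ := h
  obtain ⟨σ, hσ⟩ := exists_lift (H := H) F γ
  have hε : algebraMap H (AlgebraicClosure H) (ε : H) ≠ 0 :=
    (map_ne_zero _).2 ε.ne_zero
  have hz0 : z ≠ 0 := by
    rintro rfl
    rw [zero_pow hw] at hz
    exact hε hz.symm
  have hfix : ∀ τ : AlgebraicClosure H ≃ₐ[H] AlgebraicClosure H,
      τ (σ z / z ^ n) = σ z / z ^ n := by
    intro τ
    have h1 : (τ z / z) ^ (Units.torsionOrder H) = 1 := by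
      rw [div_pow, ← map_pow, hz, AlgEquiv.commutes, div_self hε]
    obtain ⟨ξ, hξ, hξz⟩ := root_in_H h1
    have h2 : τ z = algebraMap H _ (ξ : H) * z := by
      rw [hξz, div_mul_cancel₀ _ hz0]
    have h3 : τ (σ z) = σ (τ z) := hc (τ.restrictScalars F) σ
    have h4 : ((γ • (ξ : H) : H)) = (ξ : H) ^ n := by
      have := hn ξ hξ
      rw [← act_val, this, Units.val_pow_eq_pow_val]
    rw [map_div₀, map_pow, h3, h2, map_mul, hσ, h4, map_pow, mul_pow, mul_div_mul_left]
    exact pow_ne_zero _ ((map_ne_zero _).2 ξ.ne_zero)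
  have hgal : IsGalois H (AlgebraicClosure H) := inferInstance
  obtain ⟨u, hu⟩ := (InfiniteGalois.mem_range_algebraMap_iff_fixed (k := H) (σ z / z ^ n)).2 hfix
  have hu0 : u ≠ 0 := by
    rintro rfl
    rw [map_zero] at hu
    exact (div_ne_zero ((map_ne_zero _).2 hz0) (pow_ne_zero _ hz0)) hu.symm
  refine ⟨Units.mk0 u hu0, ?_⟩
  ext
  apply (algebraMap H (AlgebraicClosure H)).injective
  rw [act_val, Units.val_mul, Units.val_pow_eq_pow_val, Units.val_pow_eq_pow_val, Units.val_mk0,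
    map_mul, map_pow, map_pow, hu, ← hσ, ← hz, map_pow, div_pow, pow_right_comm,
    mul_div_cancel₀]
  exact pow_ne_zero _ (pow_ne_zero _ hz0)

theorem natCast_mul_left_cancel {a b : MonoidAlgebra ℤ G} {w : ℕ} (hw : w ≠ 0)
    (h : (w : MonoidAlgebra ℤ G) * a = (w : MonoidAlgebra ℤ G) * b) : a = b := by
  ext γ
  have h1 := congrArg (fun x : MonoidAlgebra ℤ G => x.coeff γ) h
  simp only [← nsmul_eq_mul] at h1
  rw [MonoidAlgebra.coeff_smul, MonoidAlgebra.coeff_smul] at h1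
  simpa [hw] using h1

/-- powers whose exponents are divisible by the annihilator of the roots of unity have abelian
roots -/
theorem abOm_powG (y : Hˣ) (b : MonoidAlgebra ℤ G) (a : G → MonoidAlgebra ℤ G) (n : G → ℕ)
    (hn : ∀ γ, IsCyc H γ (n γ))
    (hb : ∀ γ, MonoidAlgebra.single γ 1 * b = (n γ : MonoidAlgebra ℤ G) * b +
      ((Units.torsionOrder H : ℕ) : MonoidAlgebra ℤ G) * a γ) :
    AbOm F (Units.torsionOrder H) ((powG y b : Hˣ) : H) := by
  have hw := Units.torsionOrder_ne_zero H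
  rw [abOm_iff G]
  obtain ⟨z, hz⟩ := IsAlgClosed.exists_pow_nat_eq (algebraMap H (AlgebraicClosure H)
    ((powG y b : Hˣ) : H)) (Units.torsionOrder_pos H)
  refine ⟨z, hz, ?_⟩
  have hε : algebraMap H (AlgebraicClosure H) ((powG y b : Hˣ) : H) ≠ 0 :=
    (map_ne_zero _).2 (Units.ne_zero _)
  have hz0 : z ≠ 0 := by
    rintro rfl
    rw [zero_pow hw] at hz
    exact hε hz.symm
  -- the action on `z`
  have key : ∀ σ : AlgebraicClosure H ≃ₐ[F] AlgebraicClosure H, ∀ γ : G,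
      (∀ h : H, σ (algebraMap H _ h) = algebraMap H (AlgebraicClosure H) (γ • h)) →
      ∃ ξ : Hˣ, ξ ^ (Units.torsionOrder H) = 1 ∧
        σ z = algebraMap H (AlgebraicClosure H) ((ξ * powG y (a γ) : Hˣ) : H) * z ^ (n γ) := by
    intro σ γ hσ
    have h2 : algebraMap H (AlgebraicClosure H) ((powG y (a γ) : Hˣ) : H) ≠ 0 :=
      (map_ne_zero _).2 (Units.ne_zero _)
    have h1 : (σ z / (algebraMap H (AlgebraicClosure H) ((powG y (a γ) : Hˣ) : H) *
        z ^ (n γ))) ^ (Units.torsionOrder H) = 1 := by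
      have h3 : (σ z) ^ (Units.torsionOrder H) =
          (algebraMap H (AlgebraicClosure H) ((powG y (a γ) : Hˣ) : H) *
            z ^ (n γ)) ^ (Units.torsionOrder H) := by
        rw [← map_pow, hz, hσ, ← act_val, ← powG_act, hb, powG_add, powG_natCast_mul,
          powG_natCast_mul, mul_pow, pow_right_comm z, hz, Units.val_mul, map_mul,
          Units.val_pow_eq_pow_val, Units.val_pow_eq_pow_val, map_pow, map_pow, mul_comm]
      rw [div_pow, h3, div_self]
      exact pow_ne_zero _ (mul_ne_zero h2 (pow_ne_zero _ hz0))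
    obtain ⟨ξ, hξ, hξz⟩ := root_in_H h1
    refine ⟨ξ, hξ, ?_⟩
    rw [Units.val_mul, map_mul, hξz, mul_assoc, div_mul_cancel₀]
    exact mul_ne_zero h2 (pow_ne_zero _ hz0)
  -- commutation
  have hcomm : ∀ γ δ : G, (MonoidAlgebra.single γ 1 - (n γ : MonoidAlgebra ℤ G)) * a δ =
      (MonoidAlgebra.single δ 1 - (n δ : MonoidAlgebra ℤ G)) * a γ := by
    intro γ δ
    apply natCast_mul_left_cancel hw
    linear_combination (MonoidAlgebra.single δ 1 - (n δ : MonoidAlgebra ℤ G)) * (hb γ) -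
      (MonoidAlgebra.single γ 1 - (n γ : MonoidAlgebra ℤ G)) * (hb δ)
  have half : ∀ σ τ : AlgebraicClosure H ≃ₐ[F] AlgebraicClosure H, ∀ γ δ : G,
      (∀ h : H, σ (algebraMap H _ h) = algebraMap H (AlgebraicClosure H) (γ • h)) →
      ∀ ξ ξ' : Hˣ, ξ ^ (Units.torsionOrder H) = 1 → ξ' ^ (Units.torsionOrder H) = 1 →
      σ z = algebraMap H (AlgebraicClosure H) ((ξ * powG y (a γ) : Hˣ) : H) * z ^ (n γ) →
      τ z = algebraMap H (AlgebraicClosure H) ((ξ' * powG y (a δ) : Hˣ) : H) * z ^ (n δ) →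
      σ (τ z) = algebraMap H (AlgebraicClosure H) ((ξ ^ (n δ) * ξ' ^ (n γ) *
        powG y (a γ) ^ (n δ) * powG y (MonoidAlgebra.single γ 1 * a δ) : Hˣ) : H) *
          z ^ (n γ * n δ) := by
    intro σ τ γ δ hσ ξ ξ' hξ hξ' h1 h2
    rw [h2, map_mul, hσ, map_pow, h1, ← act_val, act_map_mul, hn γ ξ' hξ', powG_act, mul_pow,
      ← map_pow, ← Units.val_pow_eq_pow_val, ← mul_assoc, ← map_mul, ← Units.val_mul, ← pow_mul,
      mul_pow]
    congr 3
    have aux : ∀ a b c d : Hˣ, a * b * (c * d) = c * a * d * b := by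
      intro a b c d
      ext
      push_cast
      ring
    exact aux _ _ _ _
  intro σ τ
  obtain ⟨γ, hγ⟩ := exists_restr G σ
  obtain ⟨δ, hδ⟩ := exists_restr G τ
  obtain ⟨ξ, hξ, h1⟩ := key σ γ hγ
  obtain ⟨ξ', hξ', h2⟩ := key τ δ hδ
  rw [half σ τ γ δ hγ ξ ξ' hξ hξ' h1 h2, half τ σ δ γ hδ ξ' ξ hξ' hξ h2 h1, mul_comm (n δ) (n γ)]
  congr 3
  have h3 : powG y (a γ) ^ (n δ) * powG y (MonoidAlgebra.single γ 1 * a δ) =
      powG y (a δ) ^ (n γ) * powG y (MonoidAlgebra.single δ 1 * a γ) := by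
    rw [← powG_natCast_mul, ← powG_natCast_mul, ← powG_add, ← powG_add]
    congr 1
    linear_combination hcomm γ δ
  rw [mul_assoc, h3, mul_assoc (ξ' ^ n γ * ξ ^ n δ), mul_comm (ξ ^ n δ)]

end Pool.Agent.H509
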