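import Pool.Agent.H509.Split

/-!
# Adding a prime ideal which splits completely to `S`
-/

set_option autoImplicit false
set_option linter.unusedSectionVars false
set_option linter.style.haveILetI false

open NumberField IsDedekindDomain Filter Topology

noncomputable section

namespace Pool.Agent.H509

open Pool.Agent.K3h30.RS Pool.Agent.K3h62.RS Pool.Agent.K3h3.RS Pool.Agent.K3h81.RL

variable {F H G : Type} [Field F] [NumberField F] [Field H] [NumberField H] [Algebra F H]
  [CommGroup G] [Finite G] [MulSemiringAction G H]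

theorem inS_cons {S : Finset (HeightOneSpectrum (𝓞 F))} {q : HeightOneSpectrum (𝓞 F)}
    {hq : q ∉ S} {u : Place H}
    (hu : InS ((S.cons q hq : Finset (HeightOneSpectrum (𝓞 F))) : Set (HeightOneSpectrum (𝓞 F))) u) :
    InS (S : Set (HeightOneSpectrum (𝓞 F))) u ∨
      ∃ w : HeightOneSpectrum (𝓞 H), u = Sum.inr w ∧ Above {q} w := by
  cases u with
  | inl w => exact Or.inl trivial
  | inr w =>
    obtain ⟨v, hv, hvw⟩ := hu
    rw [Finset.mem_coe, Finset.mem_cons] at hv
    rcases hv with rfl | hv
    · exact Or.inr ⟨w, rfl, v, rfl, hvw⟩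
    · exact Or.inl ⟨v, Finset.mem_coe.2 hv, hvw⟩

theorem inS_of_cons {S : Finset (HeightOneSpectrum (𝓞 F))} {q : HeightOneSpectrum (𝓞 F)}
    {hq : q ∉ S} {u : Place H} (hu : InS (S : Set (HeightOneSpectrum (𝓞 F))) u) :
    InS ((S.cons q hq : Finset (HeightOneSpectrum (𝓞 F))) : Set (HeightOneSpectrum (𝓞 F))) u :=
  inS_mono (by intro v hv; exact Finset.mem_coe.2 (Finset.mem_cons_of_mem (Finset.mem_coe.1 hv))) hu

/-- The data for `S ∪ {q}`, `q` a prime ideal outside `S` with `σ q = 1`, that is, which splits
completely in `H`: the prime ideal `Q` over `q` is added to `w_1, ..., w_r` at the beginning, the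
functions `L_S(χ, s)` are multiplied by the Euler factor at `q`. -/
def addSplit [IsGaloisGroup G F H] (D : RubinData F H G) (q : HeightOneSpectrum (𝓞 F))
    (hq : q ∉ D.S) (hσ : D.σ q = 1) (Q : HeightOneSpectrum (𝓞 H)) (hQ : Above {q} Q) :
    RubinData F H G where
  S := D.S.cons q hq
  unramified v hv := D.unramified v fun h => hv (Finset.mem_cons_of_mem h)
  r := D.r + 1
  w := Fin.cons (Sum.inr Q) D.w
  inS i := by
    refine Fin.cases ?_ (fun j => ?_) i
    · rw [Fin.cons_zero]
      exact above_mono (by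
        intro v hv
        rw [Set.mem_singleton_iff] at hv
        rw [hv]
        exact Finset.mem_coe.2 (Finset.mem_cons_self _ _)) hQ
    · rw [Fin.cons_succ]
      exact inS_of_cons (D.inS j)
  splits i := by
    refine Fin.cases ?_ (fun j => ?_) i
    · rw [Fin.cons_zero]
      exact decomp_trivial D hq hσ hQ
    · rw [Fin.cons_succ]
      exact D.splits j
  distinct i j := by
    refine Fin.cases ?_ (fun i => ?_) i
    · refine Fin.cases ?_ (fun j => ?_) j
      · exact fun _ => rfl
      · rw [Fin.cons_zero, Fin.cons_succ]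
        intro h
        exact absurd (conj_symm h) (not_conj (fun h => hq (Finset.mem_coe.1 h)) hQ (D.inS j))
    · refine Fin.cases ?_ (fun j => ?_) j
      · rw [Fin.cons_zero, Fin.cons_succ]
        intro h
        exact absurd h (not_conj (fun h => hq (Finset.mem_coe.1 h)) hQ (D.inS i))
      · rw [Fin.cons_succ, Fin.cons_succ]
        intro h
        rw [D.distinct i j h]
  all u hu h := by
    rcases inS_cons hu with h1 | ⟨w, rfl, hw⟩
    · obtain ⟨i, hi⟩ := D.all u h1 h
      exact ⟨i.succ, by rwa [Fin.cons_succ]⟩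
    · exact ⟨0, by rw [Fin.cons_zero]; exact conj_above hQ hw⟩
  more := by
    obtain ⟨u, hu, h⟩ := D.more
    refine ⟨u, inS_of_cons hu, fun i => ?_⟩
    refine Fin.cases ?_ (fun j => ?_) i
    · rw [Fin.cons_zero]
      exact not_conj (fun h => hq (Finset.mem_coe.1 h)) hQ hu
    · rw [Fin.cons_succ]
      exact h j
  σ := D.σ
  frob v hv := D.frob v fun h => hv (Finset.mem_cons_of_mem h)
  L χ s := (1 - (χ (D.σ q) : ℂ) * (Ideal.absNorm q.asIdeal : ℂ) ^ (-s)) * D.L χ s
  analytic χ := by
    refine DifferentiableOn.mul ?_ (D.analytic χ)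
    refine Differentiable.differentiableOn ?_
    have h0 : (Ideal.absNorm q.asIdeal : ℂ) ≠ 0 := by
      rw [Ne, Nat.cast_eq_zero, Ideal.absNorm_eq_zero_iff]
      exact q.ne_bot
    refine (differentiable_const _).sub ((differentiable_const _).mul ?_)
    exact fun s => (differentiableAt_id.neg).const_cpow (Or.inl h0)
  euler χ s hs := by
    classical
    have h1 := Pool.Agent.K3h91.RS.t_EULER _ D.S {q} (fun v => 1 - (χ (D.σ v) : ℂ) *
      (Ideal.absNorm v.asIdeal : ℂ) ^ (-s)) _ (by
        rw [Finset.disjoint_singleton_right]; exact hq) (fun v _ => factor_ne_zero χ _ v hs)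
      (D.euler χ s hs)
    rw [Finset.prod_singleton] at h1
    have h2 : D.S ∪ {q} = D.S.cons q hq := by
      ext v
      simp [or_comm]
    rw [h2] at h1
    exact h1

end Pool.Agent.H509
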