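import Pool.Agent.H509.Tch

/-!
# Rubin's conjecture and completely split prime ideals: the final form
-/

set_option autoImplicit false
set_option linter.unusedSectionVars false
set_option linter.style.haveILetI false

open NumberField IsDedekindDomain Filter Topology

noncomputable section

namespace Pool.Agent.H509

open Pool.Agent.K3h30.RS Pool.Agent.K3h62.RS Pool.Agent.K3h3.RS Pool.Agent.K3h81.RL

variable {F H G : Type} [Field F] [NumberField F] [Field H] [NumberField H] [Algebra F H]
  [CommGroup G] [Finite G] [MulSemiringAction G H]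

/-- `V` is a set of prime ideals outside `S ∪ T` which split completely in `H` (that is, whose
Frobenius automorphism is trivial). -/
def SplitOutside (D : RubinData F H G) (T V : Finset (HeightOneSpectrum (𝓞 F))) : Prop :=
  ∀ v ∈ V, v ∉ D.S ∧ v ∉ T ∧ D.σ v = 1

theorem exists_split [IsGaloisGroup G F H] (D : RubinData F H G)
    (bad : Finset (HeightOneSpectrum (𝓞 F))) :
    ∃ t, t ∉ D.S ∧ t ∉ bad ∧ D.σ t = 1 := by
  by_contra hcon
  push Not at hcon
  refine not_summable_good D bad ?_
  have h1 : IsEmpty {w : HeightOneSpectrum (𝓞 H) // w ∉ badSet D bad} := by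
    refine ⟨fun w => ?_⟩
    have h2 := w.2
    simp only [badSet, Set.mem_ofPred_eq, not_or, not_not] at h2
    exact hcon _ h2.1 h2.2.1 h2.2.2
  exact summable_empty

open Classical in
theorem exists_V' [IsGaloisGroup G F H] (D : RubinData F H G)
    (bad T : Finset (HeightOneSpectrum (𝓞 F))) :
    ∃ V : Finset (HeightOneSpectrum (𝓞 F)), (∀ v ∈ V, v ∉ D.S ∧ v ∉ bad ∧ v ∉ T ∧ D.σ v = 1) ∧
      Generates H ⊥ (V : Set (HeightOneSpectrum (𝓞 F))) (T : Set (HeightOneSpectrum (𝓞 F))) := by
  obtain ⟨t, ht1, ht2, ht3⟩ := exists_split D (bad ∪ T)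
  rw [Finset.mem_union, not_or] at ht2
  obtain ⟨V, hV1, hV2⟩ := exists_V D bad (insert t T) (Finset.insert_nonempty _ _)
  refine ⟨insert t V, fun v hv => ?_, ?_⟩
  · rcases Finset.mem_insert.1 hv with rfl | hv
    · exact ⟨ht1, ht2.1, ht2.2, ht3⟩
    · obtain ⟨h1, h2, h3, h4⟩ := hV1 v hv
      exact ⟨h1, h2, fun h => h3 (Finset.mem_insert_of_mem h), h4⟩
  · intro Q hQV hQT
    have hQ : ∀ X : Finset (HeightOneSpectrum (𝓞 F)),
        Above (X : Set (HeightOneSpectrum (𝓞 F))) Q ↔ bel F Q ∈ X := fun X => by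
      rw [above_iff (bel_spec Q)]
      exact Finset.mem_coe
    rw [hQ, Finset.mem_insert, not_or] at hQV
    rw [hQ] at hQT
    obtain ⟨n, hn, hn0, x, h1, h2, h3⟩ := hV2 Q (by rw [hQ]; exact hQV.2) (by
      rw [hQ, Finset.mem_insert, not_or]
      exact ⟨hQV.1, hQT⟩)
    refine ⟨n, hn, hn0, x, h1, fun w hw hne => h2 w (fun h => hw (above_mono ?_ h)) hne,
      fun w hw => h3 w (above_mono ?_ hw)⟩
    · exact Finset.coe_subset.2 (Finset.subset_insert _ _)
    · exact Finset.coe_subset.2 (Finset.subset_insert _ _)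

open Classical in
theorem iff_all [IsGaloisGroup G F H] {M : Submonoid ℕ} (D : RubinData F H G)
    {T : Finset (HeightOneSpectrum (𝓞 F))} (hT : Disjoint D.S T)
    (V : Finset (HeightOneSpectrum (𝓞 F))) (hV : SplitOutside D T V)
    (hgen : Generates H M ((D.S ∪ V : Finset (HeightOneSpectrum (𝓞 F))) :
      Set (HeightOneSpectrum (𝓞 F))) (T : Set (HeightOneSpectrum (𝓞 F))))
    (D₁ : RubinData F H G) (hD₁ : D₁.S = D.S ∪ V) :
    RubinM M D₁ T ↔ ∀ D' : RubinData F H G, D.S ⊆ D'.S → Disjoint D'.S T → RubinM M D' T := by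
  have hVT : Disjoint V T := Finset.disjoint_left.2 fun v hv => (hV v hv).2.1
  constructor
  · intro h D' hD' hT'
    exact main D V (fun v hv _ => (hV v hv).2.2) hVT hgen D₁ hD₁ h D' hD' hT'
  · intro h
    refine h D₁ ?_ ?_
    · rw [hD₁]; exact Finset.subset_union_left
    · rw [hD₁, Finset.disjoint_union_left]
      exact ⟨hT, hVT⟩

end Pool.Agent.H509
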