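import Pool.Agent.H509.MonoW
import Pool.Agent.H509.Fin

/-!
# One pair `(S, T)` decides Rubin's conjecture for all `S` and `T`
-/

set_option autoImplicit false
set_option linter.unusedSectionVars false
set_option linter.style.haveILetI false

open NumberField IsDedekindDomain Filter Topology

noncomputable section

namespace Pool.Agent.H509

open Pool.Agent.K3h30.RS Pool.Agent.K3h62.RS Pool.Agent.K3h3.RS Pool.Agent.K3h81.RL

variable {F H G : Type} [Field F] [NumberField F] [Field H] [NumberField H] [Algebra F H]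
  [CommGroup G] [Finite G] [MulSemiringAction G H]

/-- The roots of unity in `H` which are congruent to one modulo all prime ideals over `T` are killed
by an element of `M`. -/
def Free (H : Type) [Field H] [NumberField H] [Algebra F H] (M : Submonoid ℕ)
    (T : Finset (HeightOneSpectrum (𝓞 F))) : Prop :=
  ∃ w ∈ M, ∀ ζ : Hˣ, IsOfFinOrder ζ →
    (∀ v : HeightOneSpectrum (𝓞 H), Above (T : Set (HeightOneSpectrum (𝓞 F))) v →
      v.valuation H ((ζ : H) - 1) < 1) → ζ ^ w = 1

theorem Free.mono {M : Submonoid ℕ} {T T' : Finset (HeightOneSpectrum (𝓞 F))}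
    (h : Free H M T) (hT : T ⊆ T') : Free H M T' := by
  obtain ⟨w, hw, h1⟩ := h
  exact ⟨w, hw, fun ζ hζ h2 => h1 ζ hζ fun v hv => h2 v (above_mono (Finset.coe_subset.2 hT) hv)⟩

theorem Generates.mono' {M M' : Submonoid ℕ} (hM : M ≤ M') {S T : Set (HeightOneSpectrum (𝓞 F))}
    (h : Generates H M S T) : Generates H M' S T := by
  intro Q hQ hQT
  obtain ⟨n, hn, hn0, h1⟩ := h Q hQ hQT
  exact ⟨n, hM hn, hn0, h1⟩

variable [IsGaloisGroup G F H]

/-- the Stark elements for `T = ∅` exist -/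
theorem exists_stark_empty {M : Submonoid ℕ} (D : RubinData F H G)
    {T : Finset (HeightOneSpectrum (𝓞 F))} (h : RubinM M D T) :
    ∃ u₀ : Wedge G D.r (D.U ∅), D.InER u₀ ∧ D.IsStark ∅ u₀ := by
  obtain ⟨u, e, s, -⟩ := h
  obtain ⟨_, _, hden⟩ := exists_den D T u e s
  obtain ⟨u₀, e₀, s₀, -⟩ := hden ∅ (Finset.disjoint_empty_right _)
  exact ⟨u₀, e₀, s₀⟩

open Classical in
/-- one prime ideal is removed from `T` -/
theorem drop_one {M : Submonoid ℕ} (D : RubinData F H G) {T : Finset (HeightOneSpectrum (𝓞 F))}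
    {t : HeightOneSpectrum (𝓞 F)} (ht : t ∉ D.S) (htT : t ∉ T) (hdis : Disjoint D.S T)
    (hfree : Free H M T)
    (hgen : Generates H M (D.S : Set (HeightOneSpectrum (𝓞 F)))
      ((insert t T : Finset (HeightOneSpectrum (𝓞 F))) : Set (HeightOneSpectrum (𝓞 F))))
    (h : RubinM M D (insert t T)) : RubinM M D T := by
  obtain ⟨q, hq, hqT, hσ⟩ := exists_split D (insert t T)
  rw [Finset.mem_insert, not_or] at hqT
  obtain ⟨Q, hQ⟩ := (Pool.Agent.K3h25.RS.t_OVER F H q).1
  obtain ⟨u₀, e₀, s₀⟩ := exists_stark_empty D h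
  refine rubinM_of_intM D u₀ e₀ s₀ T hdis ?_
  obtain ⟨w, hw, hw'⟩ := hfree
  refine drop_intM D hq hσ hQ ht htT hqT.2 hqT.1 hdis hw (fun x hx hx' => hw' x hx' hx.2) hgen
    u₀ e₀ s₀ ?_
  refine main (T := insert t T) D ∅ (fun v hv => absurd hv (Finset.notMem_empty v))
    (Finset.disjoint_empty_left _) ?_ D ?_ h (addSplit D q hq hσ Q hQ) ?_ ?_
  · rw [Finset.union_empty]
    exact hgen
  · rw [Finset.union_empty]
  · intro v hv
    exact (mem_split_S D hq hσ hQ).2 (Or.inr hv)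
  · rw [Finset.disjoint_left]
    intro v hv
    rcases (mem_split_S D hq hσ hQ).1 hv with rfl | hv
    · rw [Finset.mem_insert, not_or]
      exact hqT
    · rw [Finset.mem_insert, not_or]
      exact ⟨fun h => ht (h ▸ hv), Finset.disjoint_left.1 hdis hv⟩

open Classical in
/-- finitely many prime ideals are removed from `T` -/
theorem drop_many {M : Submonoid ℕ} (D : RubinData F H G) {T : Finset (HeightOneSpectrum (𝓞 F))}
    (hdis : Disjoint D.S T) (hfree : Free H M T) (A : Finset (HeightOneSpectrum (𝓞 F)))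
    (hA : Disjoint D.S A)
    (hgen : Generates H M (D.S : Set (HeightOneSpectrum (𝓞 F)))
      ((A ∪ T : Finset (HeightOneSpectrum (𝓞 F))) : Set (HeightOneSpectrum (𝓞 F))))
    (h : RubinM M D (A ∪ T)) : Generates H M (D.S : Set (HeightOneSpectrum (𝓞 F)))
      (T : Set (HeightOneSpectrum (𝓞 F))) ∧ RubinM M D T := by
  induction A using Finset.induction_on with
  | empty =>
    rw [Finset.empty_union] at hgen h
    exact ⟨hgen, h⟩
  | insert t A htA ih =>
    rw [Finset.disjoint_insert_right] at hA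
    by_cases htT : t ∈ T
    · have h1 : insert t A ∪ T = A ∪ T := by
        rw [Finset.insert_union, Finset.insert_eq_of_mem (Finset.mem_union_right _ htT)]
      rw [h1] at hgen h
      exact ih hA.2 hgen h
    · have htAT : t ∉ A ∪ T := by
        rw [Finset.mem_union, not_or]
        exact ⟨htA, htT⟩
      rw [Finset.insert_union] at hgen h
      refine ih hA.2 (generates_drop hgen) ?_
      refine drop_one D hA.1 htAT ?_ (hfree.mono Finset.subset_union_right) hgen h
      rw [Finset.disjoint_union_right]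
      exact ⟨hA.2, hdis⟩

open Classical in
/-- **One pair decides all.** -/
theorem all_ST {M : Submonoid ℕ} (D : RubinData F H G)
    {T₀ : Finset (HeightOneSpectrum (𝓞 F))} (hT₀ : Disjoint D.S T₀) (hfree₀ : Free H M T₀)
    (V : Finset (HeightOneSpectrum (𝓞 F))) (hV : SplitOutside D T₀ V)
    (hgen : Generates H M ((D.S ∪ V : Finset (HeightOneSpectrum (𝓞 F))) :
      Set (HeightOneSpectrum (𝓞 F))) (T₀ : Set (HeightOneSpectrum (𝓞 F))))
    (D₁ : RubinData F H G) (hD₁ : D₁.S = D.S ∪ V) (h : RubinM M D₁ T₀)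
    (D' : RubinData F H G) (hD' : D.S ⊆ D'.S) (T : Finset (HeightOneSpectrum (𝓞 F)))
    (hT : Disjoint D'.S T) (hfree : Free H M T) : RubinM M D' T := by
  have hDT : Disjoint D.S T := hT.mono_left hD'
  obtain ⟨V', hV', hgen'⟩ := exists_V' D ∅ (T₀ ∪ T)
  obtain ⟨D₂, hD₂⟩ := exists_data D V'
  have hV'1 : Disjoint V' (T₀ ∪ T) := Finset.disjoint_left.2 fun v hv => (hV' v hv).2.2.1
  rw [Finset.disjoint_union_right] at hV'1
  have hd0 : Disjoint D₂.S T₀ := by
    rw [hD₂, Finset.disjoint_union_left]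
    exact ⟨hT₀, hV'1.1⟩
  have hd1 : Disjoint D₂.S T := by
    rw [hD₂, Finset.disjoint_union_left]
    exact ⟨hDT, hV'1.2⟩
  have hgen2 : Generates H M (D₂.S : Set (HeightOneSpectrum (𝓞 F)))
      ((T₀ ∪ T : Finset (HeightOneSpectrum (𝓞 F))) : Set (HeightOneSpectrum (𝓞 F))) := by
    refine (hgen'.mono' bot_le).mono ?_
    rw [hD₂]
    exact Finset.coe_subset.2 Finset.subset_union_right
  -- from `V` to `V'`
  have h2 : RubinM M D₂ T₀ := by
    refine main D V (fun v hv _ => (hV v hv).2.2)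
      (Finset.disjoint_left.2 fun v hv => (hV v hv).2.1) hgen D₁ hD₁ h D₂ ?_ hd0
    rw [hD₂]; exact Finset.subset_union_left
  -- from `T₀` to `T₀ ∪ T`
  have h3 : RubinM M D₂ (T₀ ∪ T) := by
    obtain ⟨u₀, e₀, s₀⟩ := exists_stark_empty D₂ h2
    refine rubinM_of_intM D₂ u₀ e₀ s₀ (T₀ ∪ T) ?_ ?_
    · rw [Finset.disjoint_union_right]
      exact ⟨hd0, hd1⟩
    · obtain ⟨w, hw, hw'⟩ := hfree₀
      refine mono_gen D₂ (U_le D₂ ∅) u₀ T₀ (T₀ ∪ T) Finset.subset_union_left ?_ hw
        (fun x hx hx' => hw' x hx' hx.2) (intM_of_rubinM D₂ (U_le D₂ ∅) u₀ e₀ s₀ T₀ h2)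
      rw [Finset.disjoint_union_right]
      exact ⟨hd0, hd1⟩
  -- from `T₀ ∪ T` to `T`
  obtain ⟨hgen4, h4⟩ := drop_many D₂ hd1 hfree T₀ hd0 hgen2 h3
  refine main D V' (fun v hv _ => (hV' v hv).2.2.2) hV'1.2 ?_ D₂ hD₂ h4 D' hD' hT
  rw [← hD₂]
  exact hgen4

end Pool.Agent.H509
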