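import Pool.Agent.H509.Main
import Pool.Graph.R_seed8.Y773.HG.Ent
import Pool.Graph.R_seed8.Y772.DK.Dir
import Pool.Graph.R_pool_sql_team_seeded_64922ed1.X287.STE
import Pool.Graph.R_pool_sql_team_seeded_5cf16337.K3h14.RS.Div

/-!
# Ray class characters which are trivial on the completely split prime ideals
-/

set_option autoImplicit false
set_option linter.unusedSectionVars false
set_option linter.style.haveILetI false

open NumberField IsDedekindDomain Filter Topology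

noncomputable section

namespace Pool.Agent.H509

open Pool.Agent.K3h30.RS Pool.Agent.K3h62.RS Pool.Agent.K3h3.RS Pool.Agent.K3h81.RL
open Pool.Agent.Y773 (LI)
open Pool.Agent.Y773.G (IsModChar sg)

section one

variable {K : Type} [Field K] [NumberField K]

/-- the terms of the Dirichlet series -/
def Fs (η : Ideal (𝓞 K) →*₀ ℂ) (s : ℂ) : Ideal (𝓞 K) →* ℂ where
  toFun I := η I * ((Ideal.absNorm I : ℕ) : ℂ) ^ (-s)
  map_one' := by rw [map_one, map_one, Nat.cast_one, Complex.one_cpow, mul_one]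
  map_mul' I J := by
    rw [map_mul, map_mul, Nat.cast_mul, Complex.natCast_mul_natCast_cpow]
    ring

theorem norm_Fs {η : Ideal (𝓞 K) →*₀ ℂ} (hη : ∀ I, ‖η I‖ ≤ 1) {s : ℝ} {I : Ideal (𝓞 K)}
    (hI : I ≠ ⊥) : ‖Fs η s I‖ ≤ (Ideal.absNorm I : ℝ) ^ (-s) := by
  have h2 : ‖Fs η s I‖ = ‖η I‖ * ‖((Ideal.absNorm I : ℕ) : ℂ) ^ (-(s : ℂ))‖ := norm_mul _ _
  rw [h2, Complex.norm_natCast_cpow_of_pos (Pool.Agent.Y772.DK.absNorm_pos' hI), Complex.neg_re,
    Complex.ofReal_re]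
  calc _ ≤ 1 * ((Ideal.absNorm I : ℕ) : ℝ) ^ (-s) := by
        have := hη I
        gcongr
    _ = _ := one_mul _

/-- the Euler product -/
theorem hasProd_LI {η : Ideal (𝓞 K) →*₀ ℂ} (hη : ∀ I, ‖η I‖ ≤ 1) {s : ℝ} (hs : 1 < s) :
    HasProd (fun v : HeightOneSpectrum (𝓞 K) => (1 - Fs η s v.asIdeal)⁻¹) (LI η s) := by
  have hsum : Summable fun I : {I : Ideal (𝓞 K) // I ≠ ⊥} => ‖Fs η s I.1‖ := by
    have h1 := (Pool.Agent.Y772.DK.nr_summable K hs).comp_injective
      (i := fun I : {I : Ideal (𝓞 K) // I ≠ ⊥} => I.1) Subtype.val_injective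
    refine Summable.of_nonneg_of_le (fun I => norm_nonneg _) (fun I => ?_) h1
    exact norm_Fs hη I.2
  obtain ⟨-, h1⟩ := Pool.Agent.X287.ST.euler (Fs η s) hsum
  have h2 : ∑' I : {I : Ideal (𝓞 K) // I ≠ ⊥}, Fs η s I.1 = LI η s := by
    unfold LI
    refine Function.Injective.tsum_eq (g := fun I : {I : Ideal (𝓞 K) // I ≠ ⊥} => I.1)
      (f := fun I : Ideal (𝓞 K) => η I * ((Ideal.absNorm I : ℕ) : ℂ) ^ (-(s : ℂ)))
      Subtype.val_injective (fun I hI => ?_)
    rw [Function.mem_support] at hI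
    refine ⟨⟨I, fun h => hI ?_⟩, rfl⟩
    rw [h, ← Ideal.zero_eq_bot, map_zero, zero_mul]
  rw [h2] at h1
  exact h1

theorem absNorm_rpow_le {v : HeightOneSpectrum (𝓞 K)} {s : ℝ} (hs : 1 ≤ s) :
    (Ideal.absNorm v.asIdeal : ℝ) ^ (-s) ≤ (Ideal.absNorm v.asIdeal : ℝ)⁻¹ := by
  have h1 : (1 : ℝ) ≤ (Ideal.absNorm v.asIdeal : ℝ) := by
    have := two_le_absNorm v
    exact_mod_cast (by omega : 1 ≤ Ideal.absNorm v.asIdeal)
  rw [← Real.rpow_neg_one]
  exact Real.rpow_le_rpow_of_exponent_le h1 (by linarith)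

theorem absNorm_rpow_lt {v : HeightOneSpectrum (𝓞 K)} {s : ℝ} (hs : 0 < s) :
    (Ideal.absNorm v.asIdeal : ℝ) ^ (-s) < 1 := by
  have h1 : (1 : ℝ) < (Ideal.absNorm v.asIdeal : ℝ) := by
    have := two_le_absNorm v
    exact_mod_cast (by omega : 1 < Ideal.absNorm v.asIdeal)
  exact Real.rpow_lt_one_of_one_lt_of_neg h1 (by linarith)

theorem one_add_sum_le {ι : Type*} (W : Finset ι) (a : ι → ℝ) (ha : ∀ i, 0 ≤ a i) :
    1 + ∑ i ∈ W, a i ≤ ∏ i ∈ W, (1 + a i) := by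
  classical
  induction W using Finset.induction_on with
  | empty => simp
  | insert i W hi ih =>
    rw [Finset.sum_insert hi, Finset.prod_insert hi]
    have h1 : 0 ≤ ∑ i ∈ W, a i := Finset.sum_nonneg fun i _ => ha i
    have h2 := ha i
    nlinarith

/-- the lower bound for the L-function -/
theorem LI_ge {η : Ideal (𝓞 K) →*₀ ℂ} (hη : ∀ I, ‖η I‖ ≤ 1) {s : ℝ} (hs : 1 < s)
    (B : Set (HeightOneSpectrum (𝓞 K))) (hB : ∀ v, v ∉ B → η v.asIdeal = 1)
    (hsum : Summable (B.indicator fun v => (Ideal.absNorm v.asIdeal : ℝ)⁻¹))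
    (W : Finset (HeightOneSpectrum (𝓞 K))) (hW : ∀ v ∈ W, v ∉ B) :
    (∑ v ∈ W, (Ideal.absNorm v.asIdeal : ℝ) ^ (-s)) *
      Real.exp (-∑' v, B.indicator (fun v => (Ideal.absNorm v.asIdeal : ℝ)⁻¹) v) ≤ ‖LI η s‖ := by
  classical
  have h1 := (hasProd_LI hη hs)
  have h2 : Tendsto (fun X : Finset (HeightOneSpectrum (𝓞 K)) =>
      ∏ v ∈ X, ‖(1 - Fs η s v.asIdeal)⁻¹‖) atTop (𝓝 ‖LI η s‖) := by
    have h3 := Tendsto.norm (f := fun X : Finset (HeightOneSpectrum (𝓞 K)) =>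
      ∏ v ∈ X, (1 - Fs η s v.asIdeal)⁻¹) (l := atTop) (a := LI η s) (by
        have := h1
        unfold HasProd at this
        rwa [SummationFilter.unconditional_filter] at this)
    refine h3.congr fun X => ?_
    rw [norm_prod]
  refine ge_of_tendsto h2 ?_
  filter_upwards [eventually_ge_atTop W] with X hX
  set b : HeightOneSpectrum (𝓞 K) → ℝ := B.indicator (fun v => (Ideal.absNorm v.asIdeal : ℝ)⁻¹)
    with hb
  have hb0 : ∀ v, 0 ≤ b v := fun v => Set.indicator_nonneg (fun _ _ => by positivity) v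
  have hgood : ∀ v, v ∉ B → 1 + (Ideal.absNorm v.asIdeal : ℝ) ^ (-s) ≤
      ‖(1 - Fs η s v.asIdeal)⁻¹‖ := by
    intro v hv
    have h4 : Fs η s v.asIdeal = (((Ideal.absNorm v.asIdeal : ℝ) ^ (-s) : ℝ) : ℂ) := by
      change η v.asIdeal * ((Ideal.absNorm v.asIdeal : ℕ) : ℂ) ^ (-(s : ℂ)) = _
      rw [hB v hv, one_mul, Complex.ofReal_cpow (Nat.cast_nonneg _)]
      push_cast
      rfl
    have h5 := absNorm_rpow_lt (v := v) (s := s) (by linarith)
    have h6 : 0 ≤ (Ideal.absNorm v.asIdeal : ℝ) ^ (-s) := by positivity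
    rw [h4, norm_inv, ← Complex.ofReal_one, ← Complex.ofReal_sub, Complex.norm_real,
      Real.norm_of_nonneg (by linarith), le_inv_comm₀ (by linarith) (by linarith)]
    rw [inv_eq_one_div, le_div_iff₀ (by linarith)] 
    nlinarith
  have hall : ∀ v, Real.exp (-b v) ≤ ‖(1 - Fs η s v.asIdeal)⁻¹‖ := by
    intro v
    by_cases hv : v ∈ B
    · have h4 : b v = (Ideal.absNorm v.asIdeal : ℝ)⁻¹ := Set.indicator_of_mem hv _
      rw [h4, Real.exp_neg, norm_inv]
      have h5 : ‖Fs η s v.asIdeal‖ < 1 := lt_of_le_of_lt (norm_Fs hη v.ne_bot)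
        (absNorm_rpow_lt (by linarith))
      have h6 : 0 < ‖1 - Fs η s v.asIdeal‖ := by
        rw [norm_pos_iff]
        intro h7
        rw [← sub_eq_zero.1 h7, norm_one] at h5
        exact lt_irrefl _ h5
      refine inv_anti₀ h6 ?_
      calc ‖1 - Fs η s v.asIdeal‖ ≤ ‖(1 : ℂ)‖ + ‖Fs η s v.asIdeal‖ := norm_sub_le _ _
        _ ≤ 1 + (Ideal.absNorm v.asIdeal : ℝ)⁻¹ := by
          rw [norm_one]
          gcongr
          exact (norm_Fs hη v.ne_bot).trans (absNorm_rpow_le hs.le)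
        _ ≤ _ := by
          rw [add_comm]
          exact Real.add_one_le_exp _
    · have h4 : b v = 0 := Set.indicator_of_notMem hv _
      rw [h4, neg_zero, Real.exp_zero]
      refine le_trans ?_ (hgood v hv)
      have : 0 ≤ (Ideal.absNorm v.asIdeal : ℝ) ^ (-s) := by positivity
      linarith
  rw [← Finset.prod_sdiff hX, mul_comm]
  refine mul_le_mul ?_ ?_ (by positivity) (Finset.prod_nonneg fun v _ => norm_nonneg _)
  · calc Real.exp (-∑' v, b v) ≤ Real.exp (-∑ v ∈ X \ W, b v) := by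
          refine Real.exp_le_exp.2 (neg_le_neg ?_)
          exact hsum.sum_le_tsum _ fun v _ => hb0 v
      _ = ∏ v ∈ X \ W, Real.exp (-b v) := by
          rw [← Finset.sum_neg_distrib, Real.exp_sum]
      _ ≤ _ := Finset.prod_le_prod (fun v _ => (Real.exp_pos _).le) fun v _ => hall v
  · calc (∑ v ∈ W, (Ideal.absNorm v.asIdeal : ℝ) ^ (-s)) ≤
          ∏ v ∈ W, (1 + (Ideal.absNorm v.asIdeal : ℝ) ^ (-s)) := by
          refine le_trans ?_ (one_add_sum_le W _ fun v => by positivity)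
          linarith
      _ ≤ _ := Finset.prod_le_prod (fun v _ => by positivity) fun v hv => hgood v (hW v hv)

/-- **The analytic input.** If a character is trivial on the prime ideals outside a set `B` with
convergent sum of `1 / N w`, while the sum over the complement diverges, then its L-function is not
bounded at `s = 1`. -/
theorem trivial_of_char {𝔪 : Ideal (𝓞 K)} {e : InfinitePlace K → ℕ} {η : Ideal (𝓞 K) →*₀ ℂ}
    (h : IsModChar 𝔪 e η) (B : Set (HeightOneSpectrum (𝓞 K))) (hB : ∀ v, v ∉ B → η v.asIdeal = 1)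
    (hsum : Summable (B.indicator fun v => (Ideal.absNorm v.asIdeal : ℝ)⁻¹))
    (hdiv : ¬ Summable (fun v : {v : HeightOneSpectrum (𝓞 K) // v ∉ B} =>
      (Ideal.absNorm v.1.asIdeal : ℝ)⁻¹)) (𝔞 : Ideal (𝓞 K)) (h𝔞 : IsCoprime 𝔞 𝔪) : η 𝔞 = 1 := by
  by_contra hne
  obtain ⟨F, hF, hF'⟩ := Pool.Agent.Y773.G.t_ent K 𝔪 η e h ⟨𝔞, h𝔞, hne⟩
  obtain ⟨C, hC⟩ : ∃ C : ℝ, C = Real.exp (-∑' v, B.indicator
    (fun v : HeightOneSpectrum (𝓞 K) => (Ideal.absNorm v.asIdeal : ℝ)⁻¹) v) := ⟨_, rfl⟩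
  have hC0 : 0 < C := by rw [hC]; exact Real.exp_pos _
  apply hdiv
  refine summable_of_sum_le (c := ‖F 1‖ / C) (fun v => by positivity) fun W => ?_
  rw [le_div_iff₀ hC0]
  have h1 : Tendsto (fun s : ℝ => (∑ v ∈ W.map (Function.Embedding.subtype _),
      (Ideal.absNorm v.asIdeal : ℝ) ^ (-s)) * C) (𝓝[>] 1)
      (𝓝 ((∑ v ∈ W.map (Function.Embedding.subtype _),
        (Ideal.absNorm v.asIdeal : ℝ) ^ (-(1 : ℝ))) * C)) := by
    refine Tendsto.mul_const _ (tendsto_finsetSum _ fun v _ => ?_)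
    have h2 : ContinuousAt (fun s : ℝ => (Ideal.absNorm v.asIdeal : ℝ) ^ (-s)) 1 := by
      refine ContinuousAt.rpow continuousAt_const continuousAt_id.neg (Or.inl ?_)
      have := two_le_absNorm v
      exact_mod_cast (by omega : Ideal.absNorm v.asIdeal ≠ 0)
    exact h2.tendsto.mono_left nhdsWithin_le_nhds
  have h2 : Tendsto (fun s : ℝ => ‖F (s : ℂ)‖) (𝓝[>] 1) (𝓝 ‖F 1‖) := by
    have h3 : Continuous fun s : ℝ => ‖F (s : ℂ)‖ := (hF.continuous.comp Complex.continuous_ofReal).norm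
    have h4 := (h3.tendsto 1).mono_left (nhdsWithin_le_nhds (s := Set.Ioi 1))
    simpa using h4
  have h3 := le_of_tendsto_of_tendsto h1 h2 (by
    filter_upwards [self_mem_nhdsWithin] with s hs
    have hs' : 1 < s := hs
    rw [hF' s (by simpa using hs'), hC]
    refine LI_ge h.norm_le_one hs' B hB hsum _ fun v hv => ?_
    obtain ⟨w, -, rfl⟩ := Finset.mem_map.1 hv
    exact w.2)
  rw [Finset.sum_map] at h3
  simp only [Real.rpow_neg_one, Function.Embedding.coe_subtype] at h3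
  exact h3

end one

end Pool.Agent.H509
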