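import Pool.Agent.H509.Gen

/-!
# From `S` to `S ∪ {q}` and back
-/

set_option autoImplicit false
set_option linter.unusedSectionVars false
set_option linter.style.haveILetI false

open NumberField IsDedekindDomain Filter Topology

noncomputable section

namespace Pool.Agent.H509

open Pool.Agent.K3h30.RS Pool.Agent.K3h62.RS Pool.Agent.K3h3.RS Pool.Agent.K3h81.RL

section

variable {F H G : Type} [Field F] [NumberField F] [Field H] [NumberField H] [Algebra F H]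
  [CommGroup G] [Finite G] [MulSemiringAction G H]

/-- Rubin's conjecture for `H / F`, `S`, `T` with denominators in the set `M` of natural
numbers: there is an element `u` of `e_r ℚ ⋀^r U_{S,T}` with the Stark property such that for all
`ψ_1, ..., ψ_r` in `Hom_G(U_{S,T}, ℤ[G])` there is an `n ∈ M` with `n (ψ_1 ∧ ... ∧ ψ_r)(u) ∈ ℤ[G]`. -/
def RubinM (M : Submonoid ℕ) (D : RubinData F H G) (T : Finset (HeightOneSpectrum (𝓞 F))) : Prop :=
  ∃ u : Wedge G D.r (D.U T), D.InER u ∧ D.IsStark T u ∧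
    ∀ ψ : Fin D.r → GHom G (D.U T), ∃ n ∈ M, ∃ z : MonoidAlgebra ℤ G,
      (n : MonoidAlgebra ℚ G) * u.value ψ = toQ z

/-- the numbers which are not divisible by `p` -/
def notDvd (p : ℕ) (hp : p.Prime) : Submonoid ℕ where
  carrier := {n | ¬ p ∣ n}
  mul_mem' := by
    intro a b ha hb h
    rcases hp.dvd_mul.1 h with h | h
    · exact ha h
    · exact hb h
  one_mem' := fun h => hp.one_lt.ne' (Nat.dvd_one.1 h)

theorem rubinM_bot (D : RubinData F H G) (T : Finset (HeightOneSpectrum (𝓞 F))) :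
    RubinM ⊥ D T ↔ D.Rubin T := by
  constructor
  · rintro ⟨u, h1, h2, h3⟩
    refine ⟨u, h1, fun ψ => ?_, h2⟩
    obtain ⟨n, hn, z, hz⟩ := h3 ψ
    rw [Submonoid.mem_bot] at hn
    rw [hn, Nat.cast_one, one_mul] at hz
    exact ⟨z, hz⟩
  · rintro ⟨u, h1, h2, h3⟩
    refine ⟨u, h1, h3, fun ψ => ?_⟩
    obtain ⟨z, hz⟩ := h2 ψ
    exact ⟨1, one_mem _, z, by rw [Nat.cast_one, one_mul, hz]⟩

theorem rubinM_notDvd (D : RubinData F H G) (T : Finset (HeightOneSpectrum (𝓞 F))) {p : ℕ}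
    (hp : p.Prime) : RubinM (notDvd p hp) D T ↔ D.RubinAt p T := by
  constructor
  · rintro ⟨u, h1, h2, h3⟩
    exact ⟨u, h1, h2, h3⟩
  · rintro ⟨u, h1, h2, h3⟩
    exact ⟨u, h1, h2, h3⟩

end

variable {F H G : Type} [Field F] [NumberField F] [Field H] [NumberField H] [Algebra F H]
  [CommGroup G] [Finite G] [MulSemiringAction G H] [IsGaloisGroup G F H] (D : RubinData F H G)
  {q : HeightOneSpectrum (𝓞 F)} (hq : q ∉ D.S) (hσ : D.σ q = 1) {Q : HeightOneSpectrum (𝓞 H)}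
  (hQ : Above {q} Q) (T : Finset (HeightOneSpectrum (𝓞 F)))

/-- extension of homomorphisms to larger `S` -/
theorem exists_ext_split (ψ : GHom G (D.U T)) :
    ∃ ψ' : GHom G ((addSplit D q hq hσ Q hQ).U T), ∀ x : D.U T,
      ψ'.f (Additive.ofMul ⟨(x : Hˣ), U_le_split D hq hσ hQ T x.2⟩) = ψ.f (Additive.ofMul x) := by
  refine Pool.Agent.K3h11.RS.t_EXTG H G (D.U T) ((addSplit D q hq hσ Q hQ).U T)
    (U_le_split D hq hσ hQ T)
    (fun γ x hx => act_mem_U D T γ x hx) (fun γ x hx => act_mem_U _ T γ x hx) (fg_U _ T) ?_ ψ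
  intro x hx n hn hxn
  refine ⟨fun w hw => ?_, hx.2⟩
  have h1 := hxn.1 w hw
  rw [Units.val_pow_eq_pow_val, map_pow] at h1
  rcases lt_trichotomy (w.valuation H (x : H)) 1 with h2 | h2 | h2
  · exact absurd h1 (pow_lt_one₀ zero_le h2 hn.ne').ne
  · exact h2
  · exact absurd h1 (one_lt_pow₀ h2 hn.ne').ne'

theorem desc_thm (hT : q ∉ T) (M : Submonoid ℕ) (h : RubinM M (addSplit D q hq hσ Q hQ) T) :
    RubinM M D T := by
  obtain ⟨n, y, hn0, hy, hn⟩ := exists_gen D hq hσ hQ T hT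
  obtain ⟨u, h1, h2, h3⟩ := h
  change Wedge G (D.r + 1) ((addSplit D q hq hσ Q hQ).U T) at u
  refine ⟨desc D hq hσ hQ T hy hn u, desc_er D hq hσ hQ T hy hn u h1,
    desc_stark D hq hσ hQ T hn0 hy hn u h2, fun ψ => ?_⟩
  choose ψ' hψ' using fun i => exists_ext_split D hq hσ hQ T (ψ i)
  obtain ⟨m, hm, z, hz⟩ := h3 (Fin.cons (ordHom _ Q) ψ' : Fin (D.r + 1) → GHom G _)
  refine ⟨m, hm, -z, ?_⟩
  rw [desc_value D hq hσ hQ T hn0 hy hn u ψ ψ' hψ', mul_neg, map_neg, ← hz]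
  rfl

/-- the element `- (1 / n) y ∧ u` -/
def asc {n : ℕ} {y : Hˣ} (hy : y ∈ (addSplit D q hq hσ Q hQ).U T)
    (u : Wedge G D.r (D.U T)) : Wedge G (D.r + 1) ((addSplit D q hq hσ Q hQ).U T) where
  n := u.n
  c k := -((n : ℚ)⁻¹ • u.c k)
  x k := Fin.cons ⟨y, hy⟩ fun l => ⟨(u.x k l : Hˣ), U_le_split D hq hσ hQ T (u.x k l).2⟩

theorem asc_er {n : ℕ} {y : Hˣ} (hy : y ∈ (addSplit D q hq hσ Q hQ).U T)
    (u : Wedge G D.r (D.U T)) (h : D.InER u) :
    (addSplit D q hq hσ Q hQ).InER (asc (n := n) D hq hσ hQ T hy u) := by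
  intro χ hχ k
  have h1 := h χ (fun h2 => hχ ((active_split D hq hσ hQ χ).2 h2)) k
  change charValue χ (toR (-((n : ℚ)⁻¹ • u.c k))) = 0
  rw [← cvQ_apply] at h1 ⊢
  rw [map_neg, map_rat_smul (cvQ χ), h1, smul_zero, neg_zero]

theorem asc_regulator {n : ℕ} (hn0 : 0 < n) {y : Hˣ} (hy : y ∈ (addSplit D q hq hσ Q hQ).U T)
    (hn : ordG G Q (Additive.ofMul y) = (n : MonoidAlgebra ℤ G))
    (u : Wedge G D.r (D.U T)) :
    (asc (n := n) D hq hσ hQ T hy u).regulator (addSplit D q hq hσ Q hQ).w =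
      MonoidAlgebra.single 1 (Real.log (Ideal.absNorm Q.asIdeal : ℝ)) *
        u.regulator D.w := by
  unfold Wedge.regulator
  rw [Finset.mul_sum]
  refine Finset.sum_congr rfl fun k _ => ?_
  change toR (-((n : ℚ)⁻¹ • u.c k)) * Matrix.det (Matrix.of fun (a b : Fin (D.r + 1)) =>
    reg G ((addSplit D q hq hσ Q hQ).w a) ((Fin.cons (⟨y, hy⟩ : (addSplit D q hq hσ Q hQ).U T)
      (fun l => ⟨(u.x k l : Hˣ), U_le_split D hq hσ hQ T (u.x k l).2⟩) : Fin (D.r + 1) →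
        (addSplit D q hq hσ Q hQ).U T) b : Hˣ)) = _
  have h1 := det_first_row (fun (a b : Fin (D.r + 1)) =>
    reg G ((addSplit D q hq hσ Q hQ).w a) ((Fin.cons (⟨y, hy⟩ : (addSplit D q hq hσ Q hQ).U T)
      (fun l => ⟨(u.x k l : Hˣ), U_le_split D hq hσ hQ T (u.x k l).2⟩) : Fin (D.r + 1) →
        (addSplit D q hq hσ Q hQ).U T) b : Hˣ)) (by
      intro b
      rw [Fin.cons_succ]
      change reg G (Sum.inr Q : Place H) (u.x k b : Hˣ) = 0
      rw [reg_Q, ordG_of_mem D hq hQ T (u.x k b).2, map_zero, map_zero, mul_zero])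
  rw [h1]
  have h2 : reg G ((addSplit D q hq hσ Q hQ).w (0 : Fin (D.r + 1)))
      ((Fin.cons (⟨y, hy⟩ : (addSplit D q hq hσ Q hQ).U T)
      (fun l => ⟨(u.x k l : Hˣ), U_le_split D hq hσ hQ T (u.x k l).2⟩) : Fin (D.r + 1) →
        (addSplit D q hq hσ Q hQ).U T) 0 : Hˣ) = -((n : MonoidAlgebra ℝ G) * MonoidAlgebra.single 1
          (Real.log (Ideal.absNorm Q.asIdeal : ℝ))) := by
    rw [Fin.cons_zero]
    change reg G (Sum.inr Q : Place H) y = _
    rw [reg_Q, hn, map_natCast, map_natCast, mul_comm, ← mul_neg]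
    congr 1
    exact MonoidAlgebra.single_neg _ _
  rw [h2]
  change _ = MonoidAlgebra.single 1 (Real.log (Ideal.absNorm Q.asIdeal : ℝ)) * (toR (u.c k) *
    Matrix.det (Matrix.of fun (a b : Fin D.r) => reg G (D.w a) (u.x k b : Hˣ)))
  have h3 : (Matrix.of fun (a b : Fin D.r) => reg G ((addSplit D q hq hσ Q hQ).w
      (a.succ : Fin (D.r + 1))) ((Fin.cons (⟨y, hy⟩ : (addSplit D q hq hσ Q hQ).U T)
      (fun l => ⟨(u.x k l : Hˣ), U_le_split D hq hσ hQ T (u.x k l).2⟩) : Fin (D.r + 1) →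
        (addSplit D q hq hσ Q hQ).U T) b.succ : Hˣ)) =
      Matrix.of fun (a b : Fin D.r) => reg G (D.w a) (u.x k b : Hˣ) := by
    ext a b : 1
    rfl
  rw [h3, map_neg, map_rat_smul toR]
  have h4 := smul_natCast_mul (R := MonoidAlgebra ℝ G) hn0 1 (toR (u.c k))
    (MonoidAlgebra.single 1 (Real.log (Ideal.absNorm Q.asIdeal : ℝ)) *
      Matrix.det (Matrix.of fun (a b : Fin D.r) => reg G (D.w a) (u.x k b : Hˣ)))
  rw [pow_one, pow_one] at h4
  rw [neg_mul_comm]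
  linear_combination h4

theorem asc_value {n : ℕ} (hn0 : 0 < n) {y : Hˣ} (hy : y ∈ (addSplit D q hq hσ Q hQ).U T)
    (u : Wedge G D.r (D.U T)) (ψ : Fin (D.r + 1) → GHom G ((addSplit D q hq hσ Q hQ).U T)) :
    (n : MonoidAlgebra ℚ G) * (asc (n := n) D hq hσ hQ T hy u).value ψ =
      -∑ i : Fin (D.r + 1), toQ ((-1) ^ (i : ℕ) * (ψ i).f (Additive.ofMul ⟨y, hy⟩)) *
        u.value (fun j => restrictG (U_le_split D hq hσ hQ T) (ψ (i.succAbove j))) := by
  unfold Wedge.value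
  change (n : MonoidAlgebra ℚ G) * ∑ k : Fin u.n, (-((n : ℚ)⁻¹ • u.c k)) *
    toQ (Matrix.det (Matrix.of fun (a b : Fin (D.r + 1)) =>
    (ψ a).f (Additive.ofMul ((Fin.cons (⟨y, hy⟩ : (addSplit D q hq hσ Q hQ).U T)
      (fun l => ⟨(u.x k l : Hˣ), U_le_split D hq hσ hQ T (u.x k l).2⟩) : Fin (D.r + 1) →
        (addSplit D q hq hσ Q hQ).U T) b)))) = _
  have h1 : ∀ k : Fin u.n, (Matrix.of fun (a b : Fin (D.r + 1)) =>
    (ψ a).f (Additive.ofMul ((Fin.cons (⟨y, hy⟩ : (addSplit D q hq hσ Q hQ).U T)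
      (fun l => ⟨(u.x k l : Hˣ), U_le_split D hq hσ hQ T (u.x k l).2⟩) : Fin (D.r + 1) →
        (addSplit D q hq hσ Q hQ).U T) b))) = Matrix.of fun a : Fin (D.r + 1) =>
      (Fin.cons ((ψ a).f (Additive.ofMul ⟨y, hy⟩)) (fun l => (ψ a).f (Additive.ofMul
        ⟨(u.x k l : Hˣ), U_le_split D hq hσ hQ T (u.x k l).2⟩)) :
          Fin (D.r + 1) → MonoidAlgebra ℤ G) := by
    intro k
    ext a b : 1
    refine Fin.cases ?_ (fun b => ?_) b
    · simp only [Matrix.of_apply, Fin.cons_zero]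
    · simp only [Matrix.of_apply, Fin.cons_succ]
  simp only [h1, det_cons_column]
  rw [Finset.mul_sum]
  simp_rw [map_sum, Finset.mul_sum]
  rw [Finset.sum_comm, ← Finset.sum_neg_distrib]
  refine Finset.sum_congr rfl fun i _ => ?_
  rw [← Finset.sum_neg_distrib]
  refine Finset.sum_congr rfl fun k _ => ?_
  have h4 := smul_natCast_mul (R := MonoidAlgebra ℚ G) hn0 1 (u.c k)
    (toQ ((-1) ^ (i : ℕ) * (ψ i).f (Additive.ofMul ⟨y, hy⟩) *
      Matrix.det (Matrix.of fun (a b : Fin D.r) => (ψ (i.succAbove a)).f (Additive.ofMul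
        ⟨(u.x k b : Hˣ), U_le_split D hq hσ hQ T (u.x k b).2⟩))))
  rw [pow_one, pow_one] at h4
  have h5 : toQ (Matrix.det (Matrix.of fun (a b : Fin D.r) =>
      (restrictG (U_le_split D hq hσ hQ T) (ψ (i.succAbove a))).f (Additive.ofMul (u.x k b)))) =
    toQ (Matrix.det (Matrix.of fun (a b : Fin D.r) => (ψ (i.succAbove a)).f (Additive.ofMul
        ⟨(u.x k b : Hˣ), U_le_split D hq hσ hQ T (u.x k b).2⟩))) := rfl
  rw [h5]
  rw [map_mul] at h4 ⊢
  linear_combination -h4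

theorem asc_thm {M : Submonoid ℕ} {n : ℕ} (hn0 : 0 < n) (hnM : n ∈ M) {y : Hˣ}
    (hy : y ∈ (addSplit D q hq hσ Q hQ).U T)
    (hn : ordG G Q (Additive.ofMul y) = (n : MonoidAlgebra ℤ G)) (h : RubinM M D T) :
    RubinM M (addSplit D q hq hσ Q hQ) T := by
  obtain ⟨u, h1, h2, h3⟩ := h
  refine ⟨asc (n := n) D hq hσ hQ T hy u, asc_er D hq hσ hQ T hy u h1,
    (stark_split D hq hσ hQ T u _ (asc_regulator D hq hσ hQ T hn0 hy hn u)).2 h2, fun ψ => ?_⟩
  change Fin (D.r + 1) → GHom G ((addSplit D q hq hσ Q hQ).U T) at ψ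
  choose m hm z hz using fun i : Fin (D.r + 1) =>
    h3 (fun j => restrictG (U_le_split D hq hσ hQ T) (ψ (i.succAbove j)))
  classical
  refine ⟨(∏ i, m i) * n, mul_mem (Submonoid.prod_mem _ fun i _ => hm i) hnM,
    -∑ i : Fin (D.r + 1), ((-1) ^ (i : ℕ) * (ψ i).f (Additive.ofMul ⟨y, hy⟩)) *
      ((∏ j ∈ Finset.univ.erase i, (m j : MonoidAlgebra ℤ G)) * z i), ?_⟩
  have h5 := asc_value D hq hσ hQ T hn0 hy u ψ
  have h6 : (((∏ i, m i) * n : ℕ) : MonoidAlgebra ℚ G) *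
      Wedge.value (r := D.r + 1) (asc (n := n) D hq hσ hQ T hy u) ψ =
      (∏ i, (m i : MonoidAlgebra ℚ G)) * ((n : MonoidAlgebra ℚ G) *
      Wedge.value (r := D.r + 1) (asc (n := n) D hq hσ hQ T hy u) ψ) := by
    push_cast
    ring
  refine h6.trans ?_
  rw [h5, map_neg, mul_neg, map_sum, Finset.mul_sum]
  congr 1
  refine Finset.sum_congr rfl fun i _ => ?_
  rw [← Finset.mul_prod_erase Finset.univ _ (Finset.mem_univ i)]
  simp only [map_mul, map_prod, map_natCast, ← hz]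
  ring

end Pool.Agent.H509
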