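import Pool.Agent.H509.Deco

/-!
# Rubin's conjecture for groups of exponent two: orders of the decomposition groups
-/

set_option autoImplicit false
set_option linter.unusedSectionVars false

open NumberField IsDedekindDomain Filter Topology

noncomputable section

namespace Pool.Agent.H509.E3

open Pool.Agent.K3h30.RS Pool.Agent.K3h56.E2 Pool.Agent.H509.Rec

variable {F H G : Type} [Field F] [NumberField F] [Field H] [NumberField H]
  [Algebra F H] [CommGroup G] [Finite G] [MulSemiringAction G H]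

/-- the decomposition group -/
def dg (w : Place H) : Subgroup G where
  carrier := {γ | Fixes w γ}
  mul_mem' := by
    intro a b ha hb x
    rw [mul_smul, ha, hb]
  one_mem' := fun x => by rw [one_smul]
  inv_mem' := by
    intro a ha x
    have h := ha (a⁻¹ • x)
    rw [smul_inv_smul] at h
    exact h.symm

theorem mem_dg {w : Place H} {γ : G} : γ ∈ dg (G := G) w ↔ Fixes w γ := Iff.rfl

theorem fixes_conj {w w' : Place H} (h : Conj G w w') {γ : G} (hf : Fixes w γ) : Fixes w' γ := by
  obtain ⟨g, hg⟩ := h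
  intro x
  have h1 : ∀ y : H, av w' y = av w (g⁻¹ • y) := fun y => by
    rw [hg, smul_inv_smul]
  rw [h1, h1, ← mul_smul, mul_comm, mul_smul, hf]

/-- the order of a subgroup generated by subgroups -/
theorem card_le_prod {ι : Type} [Fintype ι] (P : ι → Subgroup G) (Q : Subgroup G)
    (h : Q ≤ ⨆ i, P i) : Nat.card Q ≤ ∏ i, Nat.card (P i) := by
  classical
  let f : (∀ i, P i) →* G := MonoidHom.mk' (fun x => ∏ i, (x i : G)) (fun x y => by
    simp only [Pi.mul_apply, Subgroup.coe_mul]
    rw [Finset.prod_mul_distrib])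
  have h1 : ∀ i, P i ≤ f.range := by
    intro i γ hγ
    refine ⟨Pi.mulSingle i ⟨γ, hγ⟩, ?_⟩
    change ∏ k, ((Pi.mulSingle i (⟨γ, hγ⟩ : P i) : ∀ i, P i) k : G) = γ
    rw [Finset.prod_eq_single i]
    · rw [Pi.mulSingle_eq_same]
    · intro k _ hk
      rw [Pi.mulSingle_eq_of_ne hk]
      rfl
    · intro hi
      exact absurd (Finset.mem_univ i) hi
  have h2 : Q ≤ f.range := h.trans (iSup_le h1)
  have h3 : Nat.card Q ≤ Nat.card f.range := Nat.card_le_card_of_injective _
    (Subgroup.inclusion_injective h2)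
  have h4 : Nat.card f.range ≤ Nat.card (∀ i, P i) :=
    Nat.card_le_card_of_surjective f.rangeRestrict f.rangeRestrict_surjective
  rw [Nat.card_pi] at h4
  exact h3.trans h4

theorem card_half (P : Subgroup G) (χ : G →* ℂˣ) (hsq : ∀ g : G, g * g = 1)
    (hex : ∃ γ ∈ P, χ γ ≠ 1) : Nat.card (P ⊓ χ.ker : Subgroup G) * 2 = Nat.card P := by
  have h1 : (P ⊓ χ.ker : Subgroup G).relIndex P = 2 := by
    rw [Subgroup.inf_relIndex_left, Subgroup.relIndex_ker]
    obtain ⟨γ, hγ, hne⟩ := hex
    have h2 : Set.image χ P = {1, -1} := by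
      have h3 : ∀ g, χ g = 1 ∨ χ g = -1 := by
        intro g
        have h4 : ((χ g : ℂˣ) : ℂ) * ((χ g : ℂˣ) : ℂ) = 1 := by
          rw [← Units.val_mul, ← map_mul, hsq, map_one, Units.val_one]
        rcases mul_self_eq_one_iff.1 h4 with h5 | h5
        · left; exact Units.ext h5
        · right; exact Units.ext (by rw [h5]; simp)
      ext z
      constructor
      · rintro ⟨g, -, rfl⟩
        rcases h3 g with h | h
        · left; exact h
        · right; exact h
      · rintro (rfl | rfl)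
        · exact ⟨1, P.one_mem, map_one _⟩
        · refine ⟨γ, hγ, ?_⟩
          rcases h3 γ with h | h
          · exact absurd h hne
          · exact h
    have h3 : Nat.card (P.map χ) = 2 := by
      have h4 : ((P.map χ : Subgroup ℂˣ) : Set ℂˣ) = {1, -1} := by
        rw [Subgroup.coe_map]
        exact h2
      have h5 : Nat.card (P.map χ) = Nat.card ({1, -1} : Set ℂˣ) :=
        Nat.card_congr (Equiv.setCongr h4)
      rw [h5, Nat.card_coe_set_eq, Set.ncard_pair]
      intro h
      have h6 := congrArg (fun z : ℂˣ => (z : ℂ)) h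
      norm_num at h6
    exact h3
  have h2 := Subgroup.card_mul_index ((P ⊓ χ.ker : Subgroup G).subgroupOf P)
  have h3 : Nat.card ((P ⊓ χ.ker : Subgroup G).subgroupOf P) = Nat.card (P ⊓ χ.ker : Subgroup G) :=
    Nat.card_congr (Subgroup.subgroupOfEquivOfLe inf_le_left).toEquiv
  rw [h3] at h2
  rw [← h2]
  change _ = _ * (P ⊓ χ.ker : Subgroup G).relIndex P
  rw [h1]

variable [IsGaloisGroup G F H]

/-- **Rubin's conjecture for groups of exponent two**, from the orders of the decomposition groups -/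
theorem rubin_prod (D : RubinData F H G) (T : Finset (HeightOneSpectrum (𝓞 F))) (hT : D.Allowed T)
    (hG : ∀ g : G, g * g = 1) {ι : Type} [Fintype ι] (w : ι → Place H)
    (hw : ∀ i, InS (D.S : Set (HeightOneSpectrum (𝓞 F))) (w i) ∧ ∀ j, ¬ Conj G (w i) (D.w j))
    (hall : ∀ u : Place H, InS (D.S : Set (HeightOneSpectrum (𝓞 F))) u →
      (∀ j, ¬ Conj G u (D.w j)) → ∃ i, Conj G u (w i))
    (hprod : 4 * ∏ i, (Nat.card {γ : G // Fixes (w i) γ} / 2) ≤
      2 ^ (Fintype.card (InfinitePlace F) + D.S.card - D.r)) : D.Rubin T := by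
  have hcard : ∀ i, Nat.card {γ : G // Fixes (w i) γ} = Nat.card (dg (G := G) (w i)) := fun i => rfl
  have hns : ∀ i, ∃ γ ∈ dg (G := G) (w i), γ ≠ 1 := by
    intro i
    by_contra hcon
    push Not at hcon
    obtain ⟨j, hj⟩ := D.all (w i) (hw i).1 hcon
    exact (hw i).2 j hj
  have htwo : ∀ i, 1 ≤ Nat.card {γ : G // Fixes (w i) γ} / 2 := by
    intro i
    rw [hcard]
    have h1 : 1 < Nat.card (dg (G := G) (w i)) := by
      rw [Finite.one_lt_card_iff_nontrivial]
      obtain ⟨γ, hγ, hne⟩ := hns i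
      exact ⟨⟨γ, hγ⟩, 1, fun h => hne (congrArg Subtype.val h)⟩
    omega
  refine rubin_dec D T hT hG fun χ ha => ?_
  have h2p : ∀ P : Subgroup G, ∃ n : ℕ, Nat.card P = 2 ^ n := by
    intro P
    have : Fact (Nat.Prime 2) := ⟨Nat.prime_two⟩
    exact (IsPGroup.iff_card (p := 2) (G := P)).1 fun g => ⟨1, by
      rw [pow_one, pow_two]
      exact Subtype.ext (hG g)⟩
  obtain ⟨m, hm⟩ := h2p ⊤
  rw [Subgroup.card_top] at hm
  -- the index
  have hle : decK (H := H) D.S χ ≤ χ.ker := by
    rw [decK, Subgroup.closure_le]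
    rintro γ ⟨h1, -⟩
    exact h1
  have hidx : Nat.card (decK (H := H) D.S χ) * (decK (H := H) D.S χ).relIndex χ.ker =
      Nat.card χ.ker := by
    have h2 := Subgroup.card_mul_index ((decK (H := H) D.S χ).subgroupOf χ.ker)
    rw [Nat.card_congr (Subgroup.subgroupOfEquivOfLe hle).toEquiv] at h2
    exact h2
  obtain ⟨n, hn⟩ := h2p (decK (H := H) D.S χ)
  obtain ⟨l, hl⟩ := h2p χ.ker
  have hrel : ∃ k, (decK (H := H) D.S χ).relIndex χ.ker = 2 ^ k := by
    have h3 : (decK (H := H) D.S χ).relIndex χ.ker ∣ 2 ^ l := by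
      rw [← hl, ← hidx]
      exact dvd_mul_left _ _
    obtain ⟨k, -, hk⟩ := (Nat.dvd_prime_pow Nat.prime_two).1 h3
    exact ⟨k, hk⟩
  obtain ⟨k, hk⟩ := hrel
  have hmore : ∃ i : ι, True := by
    obtain ⟨u, hu, hu2⟩ := D.more
    obtain ⟨i, -⟩ := hall u hu hu2
    exact ⟨i, trivial⟩
  -- `χ` is not trivial on the decomposition groups
  have hex : ∀ i, ∃ γ ∈ dg (G := G) (w i), χ γ ≠ 1 := by
    rcases ha with ha | ⟨rfl, ha⟩
    · intro i
      obtain ⟨γ, h1, h2⟩ := ha (w i) (hw i).1 (hw i).2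
      exact ⟨γ, h1, h2⟩
    · exfalso
      have hact : D.Active 1 := Or.inr ⟨rfl, ha⟩
      obtain ⟨hr, -⟩ := (one3 D T hT hG).2 hact
      have h1 : Fintype.card (InfinitePlace F) + D.S.card - D.r = 1 := by omega
      rw [h1] at hprod
      have h2 : 1 ≤ ∏ i, (Nat.card {γ : G // Fixes (w i) γ} / 2) :=
        Finset.one_le_prod' fun i _ => htwo i
      omega
  have hker : Nat.card χ.ker * 2 = Nat.card G := by
    have h1 := card_half (⊤ : Subgroup G) χ hG (by
      obtain ⟨i, -⟩ := hmore
      obtain ⟨γ, -, h2⟩ := hex i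
      exact ⟨γ, Subgroup.mem_top γ, h2⟩)
    rwa [top_inf_eq, Subgroup.card_top] at h1
  -- the order of the group generated by the decomposition groups
  have hsup : decK (H := H) D.S χ ≤ ⨆ i, (dg (G := G) (w i) ⊓ χ.ker) := by
    rw [decK, Subgroup.closure_le]
    rintro γ ⟨h1, u, hu, hf⟩
    by_cases hc : ∃ j, Conj G u (D.w j)
    · obtain ⟨j, hj⟩ := hc
      rw [D.splits j γ (fixes_conj hj hf)]
      exact Subgroup.one_mem _
    · push Not at hc
      obtain ⟨i, hi⟩ := hall u hu hc
      exact (le_iSup (fun i => dg (G := G) (w i) ⊓ χ.ker) i) ⟨fixes_conj hi hf, h1⟩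
  have hbound : Nat.card (decK (H := H) D.S χ) ≤ ∏ i, (Nat.card {γ : G // Fixes (w i) γ} / 2) := by
    refine (card_le_prod _ _ hsup).trans (le_of_eq ?_)
    refine Finset.prod_congr rfl fun i _ => ?_
    rw [hcard, ← card_half (dg (G := G) (w i)) χ hG (hex i), Nat.mul_div_cancel _ (by norm_num)]
  -- the conclusion
  have hfin : Nat.card G ≤ 2 ^ ((Fintype.card (InfinitePlace F) + D.S.card - (D.r + 1)) +
      (oddCard T - (D.r + 1))) * (decK (H := H) D.S χ).relIndex χ.ker := by
    have h1 : 4 * Nat.card (decK (H := H) D.S χ) ≤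
        2 ^ (Fintype.card (InfinitePlace F) + D.S.card - D.r) :=
      (Nat.mul_le_mul_left 4 hbound).trans hprod
    have h2 : 1 ≤ Fintype.card (InfinitePlace F) + D.S.card - D.r := by
      by_contra hcon
      have h3 : Fintype.card (InfinitePlace F) + D.S.card - D.r = 0 := by omega
      rw [h3] at h1
      have h4 : 0 < Nat.card (decK (H := H) D.S χ) := Nat.card_pos
      omega
    have h3 : 2 ^ (Fintype.card (InfinitePlace F) + D.S.card - D.r) =
        2 ^ (Fintype.card (InfinitePlace F) + D.S.card - (D.r + 1)) * 2 := by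
      rw [← pow_succ]
      congr 1
      omega
    rw [h3] at h1
    have h4 : 2 * Nat.card (decK (H := H) D.S χ) ≤
        2 ^ (Fintype.card (InfinitePlace F) + D.S.card - (D.r + 1)) := by omega
    calc Nat.card G = (2 * Nat.card (decK (H := H) D.S χ)) *
          (decK (H := H) D.S χ).relIndex χ.ker := by rw [← hker, ← hidx]; ring
      _ ≤ 2 ^ (Fintype.card (InfinitePlace F) + D.S.card - (D.r + 1)) *
          (decK (H := H) D.S χ).relIndex χ.ker := Nat.mul_le_mul_right _ h4
      _ ≤ _ := Nat.mul_le_mul_right _ (Nat.pow_le_pow_right (by norm_num) (Nat.le_add_right _ _))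
  rw [hm, hk, ← pow_add] at hfin ⊢
  exact pow_dvd_pow 2 ((Nat.pow_le_pow_iff_right (by norm_num)).1 hfin)

end Pool.Agent.H509.E3
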