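import Pool.Agent.H509.RubPop
import Pool.Agent.H509.Deco2

/-!
# Popescu's conjecture for groups of exponent two
-/

set_option autoImplicit false
set_option linter.unusedSectionVars false
set_option linter.style.haveILetI false

open NumberField IsDedekindDomain Filter Topology

noncomputable section

namespace Pool.Agent.H509

open Pool.Agent.K3h30.RS Pool.Agent.K3h62.RS Pool.Agent.K3h3.RS Pool.Agent.K3h81.RL
open Pool.Agent.H509.Rec

variable {F H G : Type} [Field F] [NumberField F] [Field H] [NumberField H] [Algebra F H]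
  [CommGroup G] [Finite G] [MulSemiringAction G H]

/-- the criterion: `#G ≤ 2 ^ (#S - r - 1) [ker χ : D_χ]` for all active characters `χ` -/
def Crit (D : RubinData F H G) : Prop :=
  ∀ χ : G →* ℂˣ, D.Active χ → Nat.card G ≤
    2 ^ (Fintype.card (InfinitePlace F) + D.S.card - (D.r + 1)) *
      (decK (H := H) D.S χ).relIndex χ.ker

variable [IsGaloisGroup G F H]

theorem decK_split (D : RubinData F H G) {q : HeightOneSpectrum (𝓞 F)} (hq : q ∉ D.S)
    (hσ : D.σ q = 1) {Q : HeightOneSpectrum (𝓞 H)} (hQ : Above {q} Q) (χ : G →* ℂˣ) :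
    decK (H := H) (addSplit D q hq hσ Q hQ).S χ = decK (H := H) D.S χ := by
  apply le_antisymm
  · refine (Subgroup.closure_le _).2 ?_
    rintro γ ⟨h1, w, hw, hγ⟩
    rcases inS_cons (hq := hq) hw with h2 | ⟨Q', rfl, hQ'⟩
    · exact Subgroup.subset_closure ⟨h1, w, h2, hγ⟩
    · rw [decomp_trivial D hq hσ hQ' γ hγ]
      exact one_mem _
  · refine (Subgroup.closure_le _).2 ?_
    rintro γ ⟨h1, w, hw, hγ⟩
    exact Subgroup.subset_closure ⟨h1, w, inS_of_cons (hq := hq) hw, hγ⟩

theorem crit_split (D : RubinData F H G) {q : HeightOneSpectrum (𝓞 F)} (hq : q ∉ D.S)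
    (hσ : D.σ q = 1) {Q : HeightOneSpectrum (𝓞 H)} (hQ : Above {q} Q) (h : Crit D) :
    Crit (addSplit D q hq hσ Q hQ) := by
  intro χ hχ
  have h1 := h χ ((active_split D hq hσ hQ χ).1 hχ)
  rw [decK_split D hq hσ hQ]
  refine h1.trans (Nat.mul_le_mul_right _ ?_)
  refine Nat.pow_le_pow_right (by norm_num) ?_
  change _ ≤ Fintype.card (InfinitePlace F) + (D.S.cons q hq).card - (D.r + 1 + 1)
  rw [Finset.card_cons]
  omega

open Classical in
theorem exists_crit (D : RubinData F H G) (h : Crit D) (V : Finset (HeightOneSpectrum (𝓞 F)))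
    (hV : ∀ v ∈ V, v ∉ D.S ∧ D.σ v = 1) : ∃ D₁ : RubinData F H G, D₁.S = D.S ∪ V ∧ Crit D₁ := by
  induction V using Finset.induction_on with
  | empty => exact ⟨D, by rw [Finset.union_empty], h⟩
  | insert q V hq ih =>
    obtain ⟨D₁, hD₁, h₁⟩ := ih fun v hv => hV v (Finset.mem_insert_of_mem hv)
    obtain ⟨hqS, hσ⟩ := hV q (Finset.mem_insert_self _ _)
    have hq₁ : q ∉ D₁.S := by
      rw [hD₁, Finset.mem_union, not_or]
      exact ⟨hqS, hq⟩
    have hsub : D.S ⊆ D₁.S := by
      rw [hD₁]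
      exact Finset.subset_union_left
    have hσ₁ : D₁.σ q = 1 := by rw [← sigma_eq hsub hq₁, hσ]
    obtain ⟨Q, hQ⟩ := (Pool.Agent.K3h25.RS.t_OVER F H q).1
    refine ⟨addSplit D₁ q hq₁ hσ₁ Q hQ, ?_, crit_split D₁ hq₁ hσ₁ hQ h₁⟩
    ext v
    rw [mem_split_S, hD₁, Finset.mem_union, Finset.mem_union, Finset.mem_insert]
    tauto

open Classical in
/-- Rubin's conjecture for all `S' ⊇ S` and all `T`, if the criterion holds for `S` -/
theorem rubin_crit (D : RubinData F H G) (hG : ∀ g : G, g * g = 1) (h : Crit D)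
    (D' : RubinData F H G) (hD' : D.S ⊆ D'.S) (T : Finset (HeightOneSpectrum (𝓞 F)))
    (hT : Disjoint D'.S T) (hfree : Free H ⊥ T) : RubinM ⊥ D' T := by
  -- an admissible `T₀`
  obtain ⟨t, ht1, ht2, -, ht4⟩ := exists_frob D 1 ((finite_small F (Module.finrank ℚ F + 1)).toFinset)
  obtain ⟨V, hV, hgen⟩ := exists_V' D ∅ {t}
  obtain ⟨D₁, hD₁, h₁⟩ := exists_crit D h V fun v hv => ⟨(hV v hv).1, (hV v hv).2.2.2⟩
  have ht₁ : t ∉ D₁.S := by
    rw [hD₁, Finset.mem_union, not_or]
    exact ⟨ht1, fun h => (hV t h).2.2.1 (Finset.mem_singleton_self t)⟩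
  have hall : D₁.Allowed {t} := by
    refine ⟨Finset.disjoint_singleton_right.2 ht₁, Or.inr ⟨t, Finset.mem_singleton_self t, ?_⟩⟩
    rw [Set.Finite.mem_toFinset, Set.mem_ofPred_eq, not_le] at ht2
    exact ht2
  have hr : RubinM ⊥ D₁ {t} := by
    rw [rubinM_bot]
    refine E3.rubin_dec D₁ {t} hall hG fun χ hχ => ?_
    have h2 := h₁ χ hχ
    have : Fact (Nat.Prime 2) := ⟨Nat.prime_two⟩
    obtain ⟨m, hm⟩ := (IsPGroup.iff_card (p := 2) (G := G)).1 fun g => ⟨1, by
      rw [pow_one, pow_two, hG g]⟩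
    obtain ⟨k, hk⟩ : ∃ k, (decK (H := H) D₁.S χ).relIndex χ.ker = 2 ^ k := by
      have h2 : (decK (H := H) D₁.S χ).relIndex χ.ker ∣ 2 ^ m := by
        rw [← hm]
        refine (Subgroup.card_quotient_dvd_card _).trans ?_
        exact Subgroup.card_subgroup_dvd_card _
      obtain ⟨k, -, hk⟩ := (Nat.dvd_prime_pow Nat.prime_two).1 h2
      exact ⟨k, hk⟩
    rw [hm, hk, ← pow_add] at h2 ⊢
    refine pow_dvd_pow 2 (((Nat.pow_le_pow_iff_right (by norm_num)).1 h2).trans ?_)
    omega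
  refine all_ST D (T₀ := {t}) (Finset.disjoint_singleton_right.2 ht1) (free_single ht4) V
    (fun v hv => ⟨(hV v hv).1, (hV v hv).2.2.1, (hV v hv).2.2.2⟩) ?_ D₁ hD₁ hr D' hD' T hT hfree
  refine hgen.mono ?_
  exact Finset.coe_subset.2 Finset.subset_union_right

open Classical in
/-- Popescu's conjecture for all `S' ⊇ S`, if the criterion holds for `S` -/
theorem pop_crit (D : RubinData F H G) (hG : ∀ g : G, g * g = 1) (h : Crit D)
    (D' : RubinData F H G) (hD' : D.S ⊆ D'.S) : Popescu D' := by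
  unfold Popescu
  rw [popescuWith_iff]
  refine pop_of_rubin D' ∅ fun t ht _ htw => ?_
  exact rubin_crit D hG h D' hD' {t} (Finset.disjoint_singleton_right.2 ht) (free_single htw)

open Classical in
theorem exists_allowed (D : RubinData F H G) : ∃ t, D.Allowed {t} := by
  obtain ⟨t, ht1, ht2, -, -⟩ := exists_frob D 1 ((finite_small F (Module.finrank ℚ F + 1)).toFinset)
  refine ⟨t, Finset.disjoint_singleton_right.2 ht1, Or.inr ⟨t, Finset.mem_singleton_self t, ?_⟩⟩
  rw [Set.Finite.mem_toFinset, Set.mem_ofPred_eq, not_le] at ht2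
  exact ht2

/-- the criterion from the orders of the decomposition groups -/
theorem crit_prod (D : RubinData F H G)
    (hG : ∀ g : G, g * g = 1) {ι : Type} [Fintype ι] (w : ι → Place H)
    (hw : ∀ i, InS (D.S : Set (HeightOneSpectrum (𝓞 F))) (w i) ∧ ∀ j, ¬ Conj G (w i) (D.w j))
    (hall : ∀ u : Place H, InS (D.S : Set (HeightOneSpectrum (𝓞 F))) u →
      (∀ j, ¬ Conj G u (D.w j)) → ∃ i, Conj G u (w i))
    (hprod : 4 * ∏ i, (Nat.card {γ : G // Fixes (w i) γ} / 2) ≤
      2 ^ (Fintype.card (InfinitePlace F) + D.S.card - D.r)) : Crit D := by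
  obtain ⟨t, hT⟩ := exists_allowed D
  have hcard : ∀ i, Nat.card {γ : G // Fixes (w i) γ} = Nat.card (E3.dg (G := G) (w i)) :=
    fun i => rfl
  have hns : ∀ i, ∃ γ ∈ E3.dg (G := G) (w i), γ ≠ 1 := by
    intro i
    by_contra hcon
    push Not at hcon
    obtain ⟨j, hj⟩ := D.all (w i) (hw i).1 hcon
    exact (hw i).2 j hj
  have htwo : ∀ i, 1 ≤ Nat.card {γ : G // Fixes (w i) γ} / 2 := by
    intro i
    rw [hcard]
    have h1 : 1 < Nat.card (E3.dg (G := G) (w i)) := by
      rw [Finite.one_lt_card_iff_nontrivial]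
      obtain ⟨γ, hγ, hne⟩ := hns i
      exact ⟨⟨γ, hγ⟩, 1, fun h => hne (congrArg Subtype.val h)⟩
    omega
  intro χ ha
  -- the index
  have hle : decK (H := H) D.S χ ≤ χ.ker := by
    rw [decK, Subgroup.closure_le]
    rintro γ ⟨h1, -⟩
    exact h1
  have hidx : Nat.card (decK (H := H) D.S χ) * (decK (H := H) D.S χ).relIndex χ.ker =
      Nat.card χ.ker := by
    have h2 := Subgroup.card_mul_index ((decK (H := H) D.S χ).subgroupOf χ.ker)
    rw [Nat.card_congr (Subgroup.subgroupOfEquivOfLe hle).toEquiv] at h2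
    exact h2
  have hmore : ∃ i : ι, True := by
    obtain ⟨u, hu, hu2⟩ := D.more
    obtain ⟨i, -⟩ := hall u hu hu2
    exact ⟨i, trivial⟩
  -- `χ` is not trivial on the decomposition groups
  have hex : ∀ i, ∃ γ ∈ E3.dg (G := G) (w i), χ γ ≠ 1 := by
    rcases ha with ha | ⟨rfl, ha⟩
    · intro i
      obtain ⟨γ, h1, h2⟩ := ha (w i) (hw i).1 (hw i).2
      exact ⟨γ, h1, h2⟩
    · exfalso
      have hact : D.Active 1 := Or.inr ⟨rfl, ha⟩
      obtain ⟨hr, -⟩ := (E3.one3 D {t} hT hG).2 hact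
      have h1 : Fintype.card (InfinitePlace F) + D.S.card - D.r = 1 := by omega
      rw [h1] at hprod
      have h2 : 1 ≤ ∏ i, (Nat.card {γ : G // Fixes (w i) γ} / 2) :=
        Finset.one_le_prod' fun i _ => htwo i
      omega
  have hker : Nat.card χ.ker * 2 = Nat.card G := by
    have h1 := E3.card_half (⊤ : Subgroup G) χ hG (by
      obtain ⟨i, -⟩ := hmore
      obtain ⟨γ, -, h2⟩ := hex i
      exact ⟨γ, Subgroup.mem_top γ, h2⟩)
    rwa [top_inf_eq, Subgroup.card_top] at h1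
  -- the order of the group generated by the decomposition groups
  have hsup : decK (H := H) D.S χ ≤ ⨆ i, (E3.dg (G := G) (w i) ⊓ χ.ker) := by
    rw [decK, Subgroup.closure_le]
    rintro γ ⟨h1, u, hu, hf⟩
    by_cases hc : ∃ j, Conj G u (D.w j)
    · obtain ⟨j, hj⟩ := hc
      rw [D.splits j γ (E3.fixes_conj hj hf)]
      exact Subgroup.one_mem _
    · push Not at hc
      obtain ⟨i, hi⟩ := hall u hu hc
      exact (le_iSup (fun i => E3.dg (G := G) (w i) ⊓ χ.ker) i) ⟨E3.fixes_conj hi hf, h1⟩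
  have hbound : Nat.card (decK (H := H) D.S χ) ≤ ∏ i, (Nat.card {γ : G // Fixes (w i) γ} / 2) := by
    refine (E3.card_le_prod _ _ hsup).trans (le_of_eq ?_)
    refine Finset.prod_congr rfl fun i _ => ?_
    rw [hcard, ← E3.card_half (E3.dg (G := G) (w i)) χ hG (hex i),
      Nat.mul_div_cancel _ (by norm_num)]
  have h1 : 4 * Nat.card (decK (H := H) D.S χ) ≤
      2 ^ (Fintype.card (InfinitePlace F) + D.S.card - D.r) :=
    (Nat.mul_le_mul_left 4 hbound).trans hprod
  have h2 : 1 ≤ Fintype.card (InfinitePlace F) + D.S.card - D.r := by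
    by_contra hcon
    have h3 : Fintype.card (InfinitePlace F) + D.S.card - D.r = 0 := by omega
    rw [h3] at h1
    have h4 : 0 < Nat.card (decK (H := H) D.S χ) := Nat.card_pos
    omega
  have h3 : 2 ^ (Fintype.card (InfinitePlace F) + D.S.card - D.r) =
      2 ^ (Fintype.card (InfinitePlace F) + D.S.card - (D.r + 1)) * 2 := by
    rw [← pow_succ]
    congr 1
    omega
  rw [h3] at h1
  have h4 : 2 * Nat.card (decK (H := H) D.S χ) ≤
      2 ^ (Fintype.card (InfinitePlace F) + D.S.card - (D.r + 1)) := by omega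
  calc Nat.card G = (2 * Nat.card (decK (H := H) D.S χ)) *
        (decK (H := H) D.S χ).relIndex χ.ker := by rw [← hker, ← hidx]; ring
    _ ≤ 2 ^ (Fintype.card (InfinitePlace F) + D.S.card - (D.r + 1)) *
        (decK (H := H) D.S χ).relIndex χ.ker := Nat.mul_le_mul_right _ h4

end Pool.Agent.H509
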