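import Pool.Agent.H509.Chi3

/-!
# Rubin's conjecture for groups of exponent two: the other characters

Adapted from the library modules `K3h56/E2/Chi2.lean` and `K3h35/E2/One2.lean`.
-/

set_option autoImplicit false
set_option linter.unusedSectionVars false

open NumberField IsDedekindDomain Filter Topology

noncomputable section

namespace Pool.Agent.H509.E3

open Pool.Agent.K3h30.RS Pool.Agent.K3h56.E2

/-- the nontrivial characters which are not active -/
theorem chi0 {F H G : Type} [Field F] [NumberField F] [Field H] [NumberField H] [Algebra F H]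
    [CommGroup G] [Finite G] [MulSemiringAction G H] [IsGaloisGroup G F H]
    (D : RubinData F H G) (hG : ∀ g : G, g * g = 1) (χ : G →* ℂˣ) (hχ : χ ≠ 1)
    (hna : ¬ D.Active χ) : Tendsto (fun s : ℂ => (s ^ D.r)⁻¹ * D.L χ s) (𝓝[≠] 0) (𝓝 0) := by
  classical
  have hZ := Pool.Agent.H509.Z0.t_ZETA0X
  have hZP := Pool.Agent.H509.E2.zprod
  have hLim := Pool.Agent.K3h11.E2.t_LIMX
  have hLoc := Pool.Agent.K3h25.E2.t_LOC
  have hDict := Pool.Agent.K3h41.E2.t_DICT
  have hFrob := Pool.Agent.K3h72.E2.t_FROB hLoc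
  have hFw := Pool.Agent.K3h72.E2.t_FINW hLoc
  have hIw := Pool.Agent.K3h50.E2.t_INFW
  have hCount := Pool.Agent.K3h50.E2.t_COUNT
  have hPl := Pool.Agent.K3h73.E2.t_PLACES
  have hsq : ∀ g : G, χ g * χ g = 1 := fun g => by rw [← map_mul, hG, map_one]
  have hex : ∃ g : G, χ g ≠ 1 := by
    by_contra hcon
    push Not at hcon
    exact hχ (MonoidHom.ext hcon)
  obtain ⟨K, _, _, _, _, τ, hd⟩ := hDict F H G χ hsq hex
  have htw : IsScalarTower F K H := hd.tower
  obtain ⟨f, hfi, hfl, hfr, hfs, ⟨p1, hp1, hp1'⟩, hact, -⟩ := hPl F H G D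
  obtain ⟨A0, hA0, hA0c⟩ := exists_over hLoc hd.quad D.S
  -- the infinite places
  have hA : Fintype.card {v : InfinitePlace F // SplAt H χ (Sum.inl v)} +
      Fintype.card (InfinitePlace F) = Fintype.card (InfinitePlace K) := by
    rw [← hCount F K τ hd.quad, Nat.card_eq_fintype_card]
    congr 1
    exact Fintype.card_congr (Equiv.subtypeEquivRight fun v => splAt_inl hIw hd v)
  set B : Finset (HeightOneSpectrum (𝓞 F)) := D.S.filter fun v => loc K v = 1 with hBdef
  set A : Finset (InfinitePlace F) := Finset.univ.filter fun v => SplAt H χ (Sum.inl v) with hAdef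
  have hAcard : A.card + Fintype.card (InfinitePlace F) = Fintype.card (InfinitePlace K) := by
    rw [← hA, hAdef, Fintype.card_subtype]
  set P : Finset (InfinitePlace F ⊕ HeightOneSpectrum (𝓞 F)) := A.disjSum B with hPdef
  have hPcard : P.card = A.card + B.card := Finset.card_disjSum _ _
  have hPmem : ∀ p, p ∈ P ↔ InSF D p ∧ SplAt H χ p := by
    intro p
    rcases p with v | v
    · rw [hPdef, Finset.inl_mem_disjSum, hAdef, Finset.mem_filter]
      simp [InSF]
    · rw [hPdef, Finset.inr_mem_disjSum, hBdef, Finset.mem_filter, splAt_inr hFw hd]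
      rfl
  have hcases : ∀ a, (∃ w, D.w a = Sum.inl w) ∨ ∃ w, D.w a = Sum.inr w := by
    intro a
    rcases D.w a with w | w
    · exact Or.inl ⟨w, rfl⟩
    · exact Or.inr ⟨w, rfl⟩
  have hfIn : ∀ a, InSF D (f a) := by
    intro a
    rcases hcases a with ⟨w, hw⟩ | ⟨w, hw⟩
    · rw [hfl a w hw]
      trivial
    · obtain ⟨v, h1, h2, -⟩ := hfr a w hw
      rw [h1]
      exact h2
  have hfP : ∀ a, f a ∈ P := fun a => (hPmem _).2 ⟨hfIn a, hfs χ a⟩
  have himg : (Finset.univ.image f) ⊆ P := by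
    intro p hp
    obtain ⟨a, -, rfl⟩ := Finset.mem_image.1 hp
    exact hfP a
  have himgc : (Finset.univ.image f).card = D.r := by
    rw [Finset.card_image_of_injective _ hfi, Finset.card_univ, Fintype.card_fin]
  -- the Euler product
  have heuler : ∀ s : ℂ, 1 < s.re → HasProd (fun v : {v : HeightOneSpectrum (𝓞 F) // v ∉ D.S} =>
      (1 - ((loc K (v : HeightOneSpectrum (𝓞 F)) : ℤ) : ℂ) *
        (Ideal.absNorm (v : HeightOneSpectrum (𝓞 F)).asIdeal : ℂ) ^ (-s))⁻¹) (D.L χ s) := by
    intro s hs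
    have h1 := D.euler χ s hs
    have h2 : ∀ v : {v : HeightOneSpectrum (𝓞 F) // v ∉ D.S},
        ((χ (D.σ (v : HeightOneSpectrum (𝓞 F))) : ℂˣ) : ℂ) =
          ((loc K (v : HeightOneSpectrum (𝓞 F)) : ℤ) : ℂ) := fun v =>
      (hFrob F H G K τ χ hd v (D.σ v) (D.unramified v v.2) (D.frob v v.2)).symm
    simp only [h2] at h1
    exact h1
  -- `χ` is not active: the order is larger than `r`
  obtain ⟨-, q, hq, -⟩ := hLim hZ hZP hLoc F K τ hd.quad D.S A0 hA0 (D.L χ) (D.analytic χ)
    heuler (by omega)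
  have hn : (Fintype.card (InfinitePlace K) + A0.card) -
      (Fintype.card (InfinitePlace F) + D.S.card) = P.card := by omega
  rw [hn] at hq
  have hlt : D.r < P.card := by
    rw [← himgc]
    apply Finset.card_lt_card
    refine ⟨himg, fun hsub => hna ((hact χ hχ).2 fun p h1 h2 => ?_)⟩
    obtain ⟨a, -, ha⟩ := Finset.mem_image.1 (hsub ((hPmem p).2 ⟨h1, h2⟩))
    exact ⟨a, ha⟩
  have h1 : Tendsto (fun s : ℂ => s ^ (P.card - D.r)) (𝓝[≠] 0) (𝓝 0) := by
    have h2 : Tendsto (fun s : ℂ => s ^ (P.card - D.r)) (𝓝 0) (𝓝 (0 ^ (P.card - D.r))) :=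
      (continuous_pow _).tendsto _
    rw [zero_pow (by omega)] at h2
    exact h2.mono_left nhdsWithin_le_nhds
  have h3 := h1.mul hq
  rw [zero_mul] at h3
  refine h3.congr' ?_
  filter_upwards [self_mem_nhdsWithin] with s hs
  have hs0 : s ≠ 0 := hs
  have h4 : s ^ P.card = s ^ (P.card - D.r) * s ^ D.r := by
    rw [← pow_add]
    congr 1
    omega
  rw [h4]
  field_simp

/-- the trivial character, precise form -/
theorem one3 {F H G : Type} [Field F] [NumberField F] [Field H] [NumberField H] [Algebra F H]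
    [CommGroup G] [Finite G] [MulSemiringAction G H] [IsGaloisGroup G F H]
    (D : RubinData F H G) (T : Finset (HeightOneSpectrum (𝓞 F))) (hT : D.Allowed T)
    (hG : ∀ g : G, g * g = 1) :
    (¬ D.Active 1 → Tendsto (fun s : ℂ => (s ^ D.r)⁻¹ * D.L 1 s) (𝓝[≠] 0) (𝓝 0)) ∧
    (D.Active 1 → D.r + 1 = Fintype.card (InfinitePlace F) + D.S.card ∧
      ∃ (x : Fin D.r → Hˣ) (q : ℝ) (b : ℕ),
      ((part (D.U T) (1 : G →* ℂˣ)).relIndex (part (D.U ∅) (1 : G →* ℂˣ)) : ℤ) * b =
        ∏ v ∈ T, ((Ideal.absNorm v.asIdeal : ℤ) - sgn (1 : G →* ℂˣ) (D.σ v)) ∧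
      2 ^ (oddCard T - (D.r + 1)) ∣ b ∧
      Subgroup.closure (Set.range x) = part (D.U T) (1 : G →* ℂˣ) ∧
      Tendsto (fun s : ℂ => (s ^ D.r)⁻¹ * D.L 1 s) (𝓝[≠] 0) (𝓝 (q : ℂ)) ∧
      ((q * ∏ v ∈ T, ((Ideal.absNorm v.asIdeal : ℝ) - (sgn (1 : G →* ℂˣ) (D.σ v) : ℝ)) =
        (CA (D.S : Set (HeightOneSpectrum (𝓞 F)))).index * b *
          Matrix.det (Matrix.of fun a b : Fin D.r => Real.log (av (D.w a) ((x b : Hˣ) : H)))) ∨
      (q * ∏ v ∈ T, ((Ideal.absNorm v.asIdeal : ℝ) - (sgn (1 : G →* ℂˣ) (D.σ v) : ℝ)) =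
        -((CA (D.S : Set (HeightOneSpectrum (𝓞 F)))).index * b *
          Matrix.det (Matrix.of fun a b : Fin D.r =>
            Real.log (av (D.w a) ((x b : Hˣ) : H))))))) := by
  have h0 := Pool.Agent.H509.Z0.t_ZETA0X
  have hL := Pool.Agent.K3h66.E2.t_LIM1X
  have hI := Pool.Agent.H509.E2.sind
  have hTP := Pool.Agent.K3h57.E2.t_TPART
  have hBa := Pool.Agent.K3h60.E2.t_BASIS
  have hR1 := Pool.Agent.K3h17.E2.t_RANK1
  have hK := Pool.Agent.K3h3.E2.t_KH1
  have hAV := Pool.Agent.K3h3.E2.t_AVK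
  have hPl := Pool.Agent.K3h73.E2.t_PLACES
  obtain ⟨f, hf, hfl, hfr, -, ⟨p1, hp1, hp1'⟩, -, hact⟩ := hPl F H G D
  obtain ⟨q, hq, hqv⟩ := hL h0 F D.S (D.L 1) (D.analytic 1) (fun s hs => by
    simpa using D.euler 1 s hs)
  have hc : 0 < Fintype.card (InfinitePlace F) := Fintype.card_pos
  -- the places of `F` in `S`
  have hcardP : ∃ P : Finset (InfinitePlace F ⊕ HeightOneSpectrum (𝓞 F)), (∀ p, p ∈ P ↔ InSF D p) ∧
      P.card = Fintype.card (InfinitePlace F) + D.S.card := by
    refine ⟨Finset.univ.disjSum D.S, ?_, ?_⟩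
    · rintro (p | p)
      · simp [InSF]
      · simp [InSF]
    · rw [Finset.card_disjSum, Finset.card_univ]
  obtain ⟨P, hP, hPc⟩ := hcardP
  have hcases : ∀ a, (∃ w, D.w a = Sum.inl w) ∨ ∃ w, D.w a = Sum.inr w := by
    intro a
    rcases D.w a with w | w
    · exact Or.inl ⟨w, rfl⟩
    · exact Or.inr ⟨w, rfl⟩
  have hfP : ∀ a, f a ∈ P := by
    intro a
    rw [hP]
    rcases hcases a with ⟨w, hw⟩ | ⟨w, hw⟩
    · rw [hfl a w hw]
      trivial
    · obtain ⟨v, hv1, hv2, -⟩ := hfr a w hw
      rw [hv1]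
      exact hv2
  constructor
  · intro hna
    rw [hact] at hna
    push Not at hna
    obtain ⟨p, p', hp, hp', hpf, hpf', hne⟩ := hna
    have hlt : D.r < Fintype.card (InfinitePlace F) + D.S.card - 1 := by
      classical
      have h1 : insert p (insert p' (Finset.univ.image f)) ⊆ P := by
        intro x hx
        simp only [Finset.mem_insert, Finset.mem_image, Finset.mem_univ, true_and] at hx
        rcases hx with rfl | rfl | ⟨a, rfl⟩
        · exact (hP _).2 hp
        · exact (hP _).2 hp'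
        · exact hfP a
      have h2 := Finset.card_le_card h1
      rw [Finset.card_insert_of_notMem, Finset.card_insert_of_notMem,
        Finset.card_image_of_injective _ hf, Finset.card_univ, Fintype.card_fin, hPc] at h2
      · omega
      · simpa using hpf'
      · simp only [Finset.mem_insert, Finset.mem_image, Finset.mem_univ, true_and, not_or]
        exact ⟨hne, hpf⟩
    obtain ⟨k, hk⟩ := Nat.exists_eq_add_of_lt hlt
    have h3 : Tendsto (fun s : ℂ => s ^ (k + 1)) (𝓝[≠] 0) (𝓝 0) := by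
      have h4 : Tendsto (fun s : ℂ => s ^ (k + 1)) (𝓝 0) (𝓝 (0 ^ (k + 1))) :=
        (continuous_pow (k + 1)).tendsto 0
      rw [zero_pow (Nat.succ_ne_zero k)] at h4
      exact h4.mono_left nhdsWithin_le_nhds
    have h5 := h3.mul hq
    rw [zero_mul] at h5
    refine h5.congr' ?_
    filter_upwards [self_mem_nhdsWithin] with s hs
    have hs' : s ≠ 0 := hs
    rw [hk, pow_add, pow_add, pow_add]
    field_simp
  · intro ha
    rw [hact] at ha
    have huniq : ∀ p, InSF D p → p ≠ p1 → p ∈ Set.range f := by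
      intro p hp hne
      by_contra hcon
      exact hne (ha p p1 hp hp1 hcon hp1')
    have hr : D.r + 1 = Fintype.card (InfinitePlace F) + D.S.card := by
      classical
      have h1 : insert p1 (Finset.univ.image f) = P := by
        ext x
        simp only [Finset.mem_insert, Finset.mem_image, Finset.mem_univ, true_and]
        constructor
        · rintro (rfl | ⟨a, rfl⟩)
          · exact (hP _).2 hp1
          · exact hfP a
        · intro hx
          by_cases hxp : x = p1
          · exact Or.inl hxp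
          · exact Or.inr (huniq x ((hP _).1 hx) hxp)
      have h2 := congrArg Finset.card h1
      rw [Finset.card_insert_of_notMem, Finset.card_image_of_injective _ hf, Finset.card_univ,
        Fintype.card_fin, hPc] at h2
      · exact h2
      · simpa using hp1'
    rw [← hr, Nat.add_sub_cancel] at hq
    -- the map from `F^*` to `H^*`
    let j : Fˣ →* Hˣ := Units.map (algebraMap F H : F →* H)
    have hj : Function.Injective j := by
      intro a b hab
      apply Units.ext
      apply (algebraMap F H).injective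
      exact congrArg (fun x : Hˣ => (x : H)) hab
    obtain ⟨hK1, hK2⟩ := hK F H G D
    have hK1' : (SU F D.S).map j = part (D.U ∅) (1 : G →* ℂˣ) := hK1
    have hK2' : (mu F).map j = part (mu H) (1 : G →* ℂˣ) := hK2
    have hsq : ((part (D.U ∅) (1 : G →* ℂˣ)).map (powMonoidHom 2)).relIndex
        (part (D.U ∅) (1 : G →* ℂˣ)) = 2 ^ (D.r + 1) := by
      rw [← hK1', Subgroup.map_map]
      have h1 : (powMonoidHom 2 : Hˣ →* Hˣ).comp j = j.comp (powMonoidHom 2) := by
        ext x
        simp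
      rw [h1, ← Subgroup.map_map, Subgroup.relIndex_map_map_of_injective _ _ hj, hR1 F D.S, hr]
    obtain ⟨x, hx1, hx2⟩ := hBa F H G D 1 hG T hT D.r hsq
    obtain ⟨b, hb1, hb2⟩ := hTP F H G D 1 hG T hT.1 D.r hsq
    have hxU : ∀ c, x c ∈ part (D.U ∅) (1 : G →* ℂˣ) := by
      intro c
      have h1 : x c ∈ part (D.U T) (1 : G →* ℂˣ) := by
        rw [← hx1]
        exact Subgroup.subset_closure ⟨c, rfl⟩
      obtain ⟨⟨h2, -⟩, h3, h4⟩ := h1
      refine ⟨⟨h2, fun w hw => ?_⟩, h3, h4⟩
      obtain ⟨v', hv', -⟩ := hw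
      simp at hv'
    have hxy : ∀ c, ∃ y : Fˣ, y ∈ SU F D.S ∧ j y = x c := by
      intro c
      have h1 := hxU c
      rw [← hK1'] at h1
      exact Subgroup.mem_map.1 h1
    choose y hyS hyx using hxy
    -- the index theorem
    have hind := hI F D.S (Fin D.r) (fun a => f a) hf (by
      intro a w hw
      rcases hcases a with ⟨w', hw'⟩ | ⟨w', hw'⟩
      · rw [hfl a w' hw'] at hw
        exact absurd hw (by simp)
      · obtain ⟨v, hv1, hv2, -⟩ := hfr a w' hw'
        rw [hv1] at hw
        rw [← Sum.inr_injective hw]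
        exact hv2) (by rw [Fintype.card_fin, hr]) y hyS
    have hrange : (Subgroup.closure (Set.range y) ⊔ mu F).map j =
        Subgroup.closure (Set.range x) ⊔ part (mu H) (1 : G →* ℂˣ) := by
      rw [Subgroup.map_sup, hK2', MonoidHom.map_closure, ← Set.range_comp]
      congr 2
      congr 1
      funext c
      exact hyx c
    have hindex : (Subgroup.closure (Set.range y) ⊔ mu F).relIndex (SU F D.S) *
        Units.torsionOrder F = (part (D.U T) (1 : G →* ℂˣ)).relIndex
          (part (D.U ∅) (1 : G →* ℂˣ)) := by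
      rw [← hx2, ← hrange, ← hK1', ← hK2', Subgroup.relIndex_map_map_of_injective _ _ hj,
        ← Pool.Agent.K3h35.E2.card_mu F]
      congr 1
      exact (Subgroup.card_map_of_injective hj).symm
    -- the class numbers
    have hcl : (classNumber F : ℝ) = ((CA (D.S : Set (HeightOneSpectrum (𝓞 F)))).index : ℝ) *
        (Nat.card (CA (D.S : Set (HeightOneSpectrum (𝓞 F)))) : ℝ) := by
      have h1 := (CA (D.S : Set (HeightOneSpectrum (𝓞 F)))).card_mul_index
      have h2 : Nat.card (ClassGroup (𝓞 F)) = classNumber F := by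
        rw [classNumber, Nat.card_eq_fintype_card]
      rw [h2] at h1
      rw [← h1]
      push_cast
      ring
    have hsgn : ∀ g : G, sgn (1 : G →* ℂˣ) g = 1 := by
      intro g
      unfold sgn
      rw [if_pos]
      rfl
    -- the product over `T`
    have hprod : ((part (D.U T) (1 : G →* ℂˣ)).relIndex (part (D.U ∅) (1 : G →* ℂˣ)) : ℝ) *
        (b : ℝ) = ∏ v ∈ T, ((Ideal.absNorm v.asIdeal : ℝ) -
          ((sgn (1 : G →* ℂˣ) (D.σ v) : ℤ) : ℝ)) := by
      have h1 := congrArg (fun z : ℤ => (z : ℝ)) hb1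
      push_cast at h1
      exact h1
    have hprod0 : 0 ≤ ∏ v ∈ T, ((Ideal.absNorm v.asIdeal : ℝ) -
          ((sgn (1 : G →* ℂˣ) (D.σ v) : ℤ) : ℝ)) := by
      rw [← hprod]
      positivity
    have hdet : Matrix.det (Matrix.of fun a b : Fin D.r =>
        Real.log (av (D.w a) ((x b : Hˣ) : H))) = (logM (fun a => f a) y).det := by
      congr 1
      ext a b
      change Real.log (av (D.w a) ((x b : Hˣ) : H)) = Real.log (av (f a) ((y b : Fˣ) : F))
      rw [← hyx b]
      obtain ⟨u, p, hu, -, -, hav⟩ := hAV F H G F (D.w a) (D.splits a)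
      have h1 : av (D.w a) (((j (y b) : Hˣ)) : H) = av u ((y b : Fˣ) : F) := hav _
      have h2 : u = f a := by
        rcases hcases a with ⟨w', hw'⟩ | ⟨w', hw'⟩
        · rw [hfl a w' hw']
          rw [hw'] at hu
          rcases u with u | u
          · exact congrArg Sum.inl hu.symm
          · exact absurd hu (by simp [Below])
        · obtain ⟨v, hv1, -, hv3⟩ := hfr a w' hw'
          rw [hv1]
          rw [hw'] at hu
          rcases u with u | u
          · exact absurd hu (by simp [Below])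
          · obtain ⟨v1, hv1', h4⟩ := hv3
            obtain ⟨v2, hv2', h5⟩ := (hu : Above {u} w')
            rw [Set.mem_singleton_iff] at hv1' hv2'
            subst hv1' hv2'
            congr 1
            exact HeightOneSpectrum.ext (by rw [← h4, ← h5])
      rw [h1, h2]
    have hfin := Pool.Agent.K3h35.E2.final (q := q) (wF := Units.torsionOrder F) (h := classNumber F)
      (hS := ((CA (D.S : Set (HeightOneSpectrum (𝓞 F)))).index : ℝ))
      (c := (Nat.card (CA (D.S : Set (HeightOneSpectrum (𝓞 F)))) : ℝ))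
      (R := Units.regulator F) (P := ∏ v ∈ D.S, Real.log (Ideal.absNorm v.asIdeal))
      (det := (logM (fun a => f a) y).det)
      (I := ((Subgroup.closure (Set.range y) ⊔ mu F).relIndex (SU F D.S) : ℝ)) (B := (b : ℝ))
      (X := ((part (D.U T) (1 : G →* ℂˣ)).relIndex (part (D.U ∅) (1 : G →* ℂˣ)) : ℝ))
      (σ := ∏ v ∈ T, ((Ideal.absNorm v.asIdeal : ℝ) - ((sgn (1 : G →* ℂˣ) (D.σ v) : ℤ) : ℝ)))
      hcl hqv hind (by
        rw [← hindex]
        push_cast
        ring) hprod (by positivity) hprod0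
    refine ⟨hr, x, q, b, hb1, hb2, hx1, hq, ?_⟩
    rw [hdet]
    exact hfin

end Pool.Agent.H509.E3
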