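import Pool.Agent.H509.Rec2
import Pool.Graph.R_pool_sql_team_seeded_3997aac3.Q238.MZ.Inr
import Pool.Graph.R_pool_sql_team_seeded_5cf16337.K3h56.E2.Chi2
import Pool.Graph.R_pool_sql_team_seeded_5cf16337.K3h25.E2.Loc
import Pool.Graph.R_pool_sql_team_seeded_5cf16337.K3h72.E2.Base

/-!
# Decomposition groups and class numbers, for Rubin data
-/

set_option autoImplicit false
set_option linter.unusedSectionVars false
set_option linter.deprecated false

namespace Pool.Agent.H509.Rec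

open NumberField IsDedekindDomain
open Pool.Agent.Q92.AR (Dv prin Pr Ray RayD art nmD nu up Cong Pos frob IsFrobenius Unramified Ram
  prin_mul prin_div prin_one prin_inv mem_Pr val_eq_one nmD_single art_single frob_spec prin_apply)
open Pool.Agent.Q20.EX (CongAt Split Inert)
open Pool.Agent.Q125.AR (mem_under prin_eq_zero_of_valuation prin_mem_Pr Ray_mono Ram_mono
  art_eq_sum chi_frob)
open Pool.Agent.K3h56.E2 (cls CA Dict Quad Over loc S_LOC)
open Pool.Agent.K3h30.RS

/-- the subgroup generated by the `γ` with `χ (γ) = 1` which fix a place over `S` -/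
def decK {H G : Type} [Field H] [NumberField H] {F : Type} [Field F] [NumberField F] [Algebra F H]
    [CommGroup G] [MulSemiringAction G H]
    (S : Finset (HeightOneSpectrum (𝓞 F))) (χ : G →* ℂˣ) : Subgroup G :=
  Subgroup.closure {γ : G | χ γ = 1 ∧ ∃ w : Place H,
    InS (S : Set (HeightOneSpectrum (𝓞 F))) w ∧ Fixes w γ}

section gal

variable {F K H G : Type} [Field F] [NumberField F] [Field K] [NumberField K] [Field H]
  [NumberField H] [Algebra F K] [Algebra K H] [Algebra F H] [IsScalarTower F K H]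
  [CommGroup G] [Finite G] [MulSemiringAction G H] [IsGaloisGroup G F H]

theorem fixes_of_act {w : HeightOneSpectrum (𝓞 H)} {g : H ≃ₐ[K] H}
    (h : Pool.Agent.TeamU.act g w = w) : Fixes (Sum.inr w : Place H) (eK F K H G g) := by
  intro x
  rw [eK_smul]
  have h1 := Pool.Agent.TeamU.valuation_actE g.toRingEquiv w x
  have h2 : w.valuation H (g x) = w.valuation H x := by
    have h3 : (Pool.Agent.TeamU.act g w).valuation H (g x) = w.valuation H x := h1
    rwa [h] at h3
  change NumberField.HeightOneSpectrum.adicAbv H w (g x) =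
    NumberField.HeightOneSpectrum.adicAbv H w x
  change ((w.adicAbvDef (HeightOneSpectrum.one_lt_absNorm_nnreal w) (g x) : NNReal) : ℝ) =
    ((w.adicAbvDef (HeightOneSpectrum.one_lt_absNorm_nnreal w) x : NNReal) : ℝ)
  unfold HeightOneSpectrum.adicAbvDef
  rw [h2]

theorem fixes_of_conj {ι : H →+* ℂ} {g : H ≃ₐ[K] H}
    (h : ∀ x : H, ι (g x) = (starRingEnd ℂ) (ι x)) :
    Fixes (Sum.inl (InfinitePlace.mk ι) : Place H) (eK F K H G g) := by
  intro x
  rw [eK_smul]
  change InfinitePlace.mk ι (g x) ^ _ = InfinitePlace.mk ι x ^ _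
  rw [InfinitePlace.apply, InfinitePlace.apply, h, RCLike.norm_conj]

theorem unr_of_squarefree {v : HeightOneSpectrum (𝓞 F)}
    (h : Squarefree (v.asIdeal.map (algebraMap (𝓞 F) (𝓞 H)))) : Unramified H v := by
  intro w _ hle
  have h1 := h w.asIdeal (by
    rw [← pow_two]
    exact Ideal.dvd_iff_le.2 hle)
  exact w.prime.not_isUnit h1

theorem inert_one {w : HeightOneSpectrum (𝓞 H)} {g : H ≃ₐ[K] H}
    (hu : Unramified H (w.under (𝓞 F))) (hg : Inert w g) : g = 1 := by
  have h1 : Unramified H (w.under (𝓞 K)) := by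
    refine Pool.Agent.Q225.AR.fr.2.2.1 F K H (w.under (𝓞 K)) ?_
    have h2 : (w.under (𝓞 K)).under (𝓞 F) = w.under (𝓞 F) := by
      apply HeightOneSpectrum.ext
      change (w.asIdeal.comap (algebraMap (𝓞 K) (𝓞 H))).comap (algebraMap (𝓞 F) (𝓞 K)) =
        w.asIdeal.comap (algebraMap (𝓞 F) (𝓞 H))
      rw [Ideal.comap_comap, ← IsScalarTower.algebraMap_eq]
    rw [h2]
    exact hu
  refine Pool.Agent.Q238.MZ.inr_trivial h1 fun x => ?_
  have hgx : IsIntegral ℤ (g (x : H)) := x.2.map g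
  refine ⟨⟨g (x : H), hgx⟩ - x, ?_, rfl⟩
  rw [← HeightOneSpectrum.valuation_lt_one_iff_mem (K := H)]
  exact hg x

/-- **The bound**, in general -/
theorem artG (D' Δ : Subgroup G)
    (hΔ : ∀ γ : G, γ ∈ Δ ↔ ∀ x : K, γ • algebraMap K H x = algebraMap K H x)
    (A : Set (HeightOneSpectrum (𝓞 K)))
    (hin : ∀ (w : HeightOneSpectrum (𝓞 H)) (g : H ≃ₐ[K] H), Inert w g → eK F K H G g ∈ D')
    (hA : ∀ w : HeightOneSpectrum (𝓞 H), w.under (𝓞 K) ∈ A → ∀ g : H ≃ₐ[K] H,
      Pool.Agent.TeamU.act g w = w → eK F K H G g ∈ D')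
    (hre : ∀ (ι : H →+* ℂ) (g : H ≃ₐ[K] H), (∀ x : H, ι (g x) = (starRingEnd ℂ) (ι x)) →
      eK F K H G g ∈ D')
    (J : Subgroup (ClassGroup (𝓞 K)))
    (hJ : ∀ N : ℕ, N ≠ 0 → Ram F H N → ∀ c ∈ J, ∃ D ∈ Pr K N, clD D = Additive.ofMul c ∧
      ∀ κ : G ⧸ D' →* ℂˣ, art ((κ.comp (QuotientGroup.mk' D')).comp (eK F K H G)) D = 0) :
    D'.relIndex Δ ∣ (CA A ⊔ J).index := by
  classical
  have hgal : IsGalois F H := IsGaloisGroup.isGalois G F H
  have hgal' : IsGalois K H := IsGalois.tower_top_of_isGalois F K H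
  have hfin : Finite (G ⧸ D' →* ℂˣ) :=
    Finite.of_equiv _ (CommGroup.monoidHom_mulEquiv_of_hasEnoughRootsOfUnity (G ⧸ D') ℂ).some.symm.toEquiv
  let _ : Fintype (G ⧸ D' →* ℂˣ) := Fintype.ofFinite _
  have hone : ∀ (κ : G ⧸ D' →* ℂˣ) (g : H ≃ₐ[K] H), eK F K H G g ∈ D' →
      ((κ.comp (QuotientGroup.mk' D')).comp (eK F K H G)) g = 1 := by
    intro κ g hg
    have h1 : (QuotientGroup.mk' D') (eK F K H G g) = 1 := (QuotientGroup.eq_one_iff _).2 hg
    rw [MonoidHom.comp_apply, MonoidHom.comp_apply, h1, map_one]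
  have hrec := fun κ : G ⧸ D' →* ℂˣ => recB ((κ.comp (QuotientGroup.mk' D')).comp (eK F K H G)) A
    (fun w g hg => hone κ g (hin w g hg)) (fun w hw g hg => hone κ g (hA w hw g hg))
    (fun ι g hg => hone κ g (hre ι g hg))
  choose Nk hNk hRk hk using hrec
  obtain ⟨N0, hN0, hR0⟩ := Pool.Agent.Q280.AR.rF F H
  set N := N0 * ∏ κ : G ⧸ D' →* ℂˣ, Nk κ with hNdef
  have hN : N ≠ 0 := mul_ne_zero hN0 (Finset.prod_ne_zero_iff.2 fun κ _ => hNk κ)
  have hdvd : ∀ κ, Nk κ ∣ N := fun κ =>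
    (Finset.dvd_prod_of_mem Nk (Finset.mem_univ κ)).trans (dvd_mul_left _ _)
  have hRF : Ram F H N := Ram_mono (dvd_mul_right N0 _) hR0
  have hRK : Ram K H N := Ram_mono (hdvd 1) (hRk 1)
  refine relIndex_dvd_index F K H G D' Δ hΔ hN hRK (CA A ⊔ J) fun κ D hD hc => ?_
  refine art_zero K H _ A J (fun x a ha hxa => hk κ N hN (hdvd κ) x a ha hxa) (fun c hc => ?_) D hD hc
  obtain ⟨D2, h1, h2, h3⟩ := hJ N hN hRF c hc
  exact ⟨D2, h1, h2, h3 κ⟩

end gal

section quad

variable {F K H G : Type} [Field F] [NumberField F] [Field K] [NumberField K] [Field H]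
  [NumberField H] [Algebra F K] [Algebra K H] [Algebra F H]
  [CommGroup G] [Finite G] [MulSemiringAction G H] [IsGaloisGroup G F H]

theorem under_of_above {v : HeightOneSpectrum (𝓞 F)} {P : HeightOneSpectrum (𝓞 K)}
    (h : Above {v} P) : P.under (𝓞 F) = v :=
  HeightOneSpectrum.ext (above_singleton.1 h)

theorem rdeg_eq {v : HeightOneSpectrum (𝓞 F)} {P : HeightOneSpectrum (𝓞 K)}
    (h : Above {v} P) {k : ℕ} (hk : Ideal.absNorm P.asIdeal = Ideal.absNorm v.asIdeal ^ k) :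
    Pool.Agent.Q5.BR.rdeg F P = k := by
  have h1 := Pool.Agent.Q5.BR.absNorm_rdeg (K := F) P
  rw [under_of_above h, hk] at h1
  exact (Nat.pow_right_injective (Pool.Agent.K3h72.E2.one_lt_norm v) h1).symm

/-- the extension of a prime ideal to a quadratic extension -/
theorem ext_prime (τ : K ≃ₐ[F] K) (hQ : Quad F K τ) {N : ℕ} (v : HeightOneSpectrum (𝓞 F))
    (hv : (N : 𝓞 F) ∉ v.asIdeal) : ∃ D ∈ Pr K N,
    clD D = Additive.ofMul (ClassGroup.extendedHom (𝓞 F) (𝓞 K) (cls v)) ∧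
    nmD F K D = Finsupp.single v 2 := by
  obtain ⟨h1, h2⟩ := Pool.Agent.K3h25.E2.t_LOC F K τ hQ v
  have hnot : ∀ P : HeightOneSpectrum (𝓞 K), Above {v} P → (N : 𝓞 K) ∉ P.asIdeal := by
    intro P hP hN
    apply hv
    rw [← under_of_above hP]
    exact mem_under.2 hN
  have hPr : ∀ (P : HeightOneSpectrum (𝓞 K)) (k : ℤ), Above {v} P → Finsupp.single P k ∈ Pr K N := by
    intro P k hP u hu
    refine Finsupp.single_eq_of_ne fun h => hnot P hP ?_
    rw [← h]
    exact hu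
  have hj : ClassGroup.extendedHom (𝓞 F) (𝓞 K) (cls v) = ClassGroup.mk0
      (⟨v.asIdeal.map (algebraMap (𝓞 F) (𝓞 K)), mem_nonZeroDivisors_of_ne_zero (by
        rw [Ne, Ideal.zero_eq_bot, Ideal.map_eq_bot_iff_of_injective
          (FaithfulSMul.algebraMap_injective (𝓞 F) (𝓞 K))]
        exact v.ne_bot)⟩ : nonZeroDivisors (Ideal (𝓞 K))) := by
    unfold cls
    rw [ClassGroup.extendedHom_mk0]
  rw [hj]
  have hmk : ∀ (I : Ideal (𝓞 K)) (hI : I ∈ nonZeroDivisors (Ideal (𝓞 K)))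
      (P P' : HeightOneSpectrum (𝓞 K)), I = P.asIdeal * P'.asIdeal →
      Additive.ofMul (ClassGroup.mk0 ⟨I, hI⟩) = Additive.ofMul (cls P) + Additive.ofMul (cls P') := by
    intro I hI P P' h
    rw [← ofMul_mul]
    unfold cls
    rw [← map_mul]
    congr 2
    exact Subtype.ext h
  by_cases hl : loc K v = 1
  · obtain ⟨P, P', hne, h3, -, h4, h5, h6⟩ := h1 hl
    have hP : Above {v} P := (h3 P).2 (Or.inl rfl)
    have hP' : Above {v} P' := (h3 P').2 (Or.inr rfl)
    refine ⟨Finsupp.single P 1 + Finsupp.single P' 1, (Pr K N).add_mem (hPr P 1 hP) (hPr P' 1 hP'),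
      ?_, ?_⟩
    · rw [map_add, cl_single, cl_single, hmk _ _ P P' h4]
    · rw [map_add, nmD_single, nmD_single, under_of_above hP, under_of_above hP',
        rdeg_eq hP (k := 1) (by rw [h5, pow_one]), rdeg_eq hP' (k := 1) (by rw [h6, pow_one]),
        ← Finsupp.single_add]
      norm_num
  · obtain ⟨P, h3, -, h4⟩ := h2 hl
    have hP : Above {v} P := (h3 P).2 rfl
    rcases h4 with ⟨-, h5, h6⟩ | ⟨-, h5, h6⟩
    · refine ⟨Finsupp.single P 1, hPr P 1 hP, ?_, ?_⟩
      · rw [cl_single]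
        unfold cls
        congr 2
        exact Subtype.ext h5.symm
      · rw [nmD_single, under_of_above hP, rdeg_eq hP (k := 2) h6]
        norm_num
    · refine ⟨Finsupp.single P 1 + Finsupp.single P 1, (Pr K N).add_mem (hPr P 1 hP) (hPr P 1 hP),
        ?_, ?_⟩
      · rw [map_add, cl_single, hmk _ _ P P (by rw [h5, pow_two])]
      · rw [map_add, nmD_single, under_of_above hP,
          rdeg_eq hP (k := 1) (by rw [h6, pow_one]), ← Finsupp.single_add]
        norm_num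

/-- the extension of a class to a quadratic extension -/
theorem ext_class (τ : K ≃ₐ[F] K) (hQ : Quad F K τ) {N : ℕ} (hN : N ≠ 0)
    (c : ClassGroup (𝓞 F)) : ∃ D ∈ Pr K N,
    clD D = Additive.ofMul (ClassGroup.extendedHom (𝓞 F) (𝓞 K) c) ∧
    ∃ b : Dv F, nmD F K D = b + b := by
  classical
  obtain ⟨b, hb, hbc⟩ := cl_surj hN c
  have hex : ∀ v : HeightOneSpectrum (𝓞 F), ∃ D ∈ Pr K N, (N : 𝓞 F) ∉ v.asIdeal →
      clD D = Additive.ofMul (ClassGroup.extendedHom (𝓞 F) (𝓞 K) (cls v)) ∧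
      nmD F K D = Finsupp.single v 2 := by
    intro v
    by_cases h : (N : 𝓞 F) ∈ v.asIdeal
    · exact ⟨0, (Pr K N).zero_mem, fun h' => absurd h h'⟩
    · obtain ⟨D, h1, h2⟩ := ext_prime τ hQ v h
      exact ⟨D, h1, fun _ => h2⟩
  choose E hE1 hE2 using hex
  have hsupp : ∀ v ∈ b.support, (N : 𝓞 F) ∉ v.asIdeal := fun v hv h =>
    (Finsupp.mem_support_iff.1 hv) (hb v h)
  have hbs : b = ∑ v ∈ b.support, b v • (Finsupp.single v (1 : ℤ)) := by
    conv_lhs => rw [← Finsupp.sum_single b, Finsupp.sum]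
    refine Finset.sum_congr rfl fun v _ => ?_
    rw [Finsupp.smul_single, smul_eq_mul, mul_one]
  refine ⟨∑ v ∈ b.support, b v • E v, AddSubgroup.sum_mem _ fun v _ =>
    AddSubgroup.zsmul_mem _ (hE1 v) _, ?_, b, ?_⟩
  · have h1 : Additive.ofMul (ClassGroup.extendedHom (𝓞 F) (𝓞 K) c) =
        (MonoidHom.toAdditive (ClassGroup.extendedHom (𝓞 F) (𝓞 K))) (clD b) := by
      rw [hbc]
      rfl
    rw [h1, map_sum]
    conv_rhs => rw [hbs, map_sum, map_sum]
    refine Finset.sum_congr rfl fun v hv => ?_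
    rw [map_zsmul, map_zsmul, map_zsmul, cl_single, (hE2 v (hsupp v hv)).1]
    rfl
  · rw [map_sum]
    conv_rhs => rw [hbs, ← Finset.sum_add_distrib]
    refine Finset.sum_congr rfl fun v hv => ?_
    rw [map_zsmul, (hE2 v (hsupp v hv)).2, ← smul_add, ← Finsupp.single_add]
    norm_num

variable (D : RubinData F H G)

/-- **The decomposition groups bound the class number of `K`.** -/
theorem artK {τ : K ≃ₐ[F] K} {χ : G →* ℂˣ} (hd : Dict F H G K τ χ) (hG : ∀ g : G, g * g = 1)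
    (A : Finset (HeightOneSpectrum (𝓞 K))) (hA : Over D.S A) :
    (decK (H := H) D.S χ).relIndex χ.ker ∣
      (CA (A : Set (HeightOneSpectrum (𝓞 K))) ⊔
        (ClassGroup.extendedHom (𝓞 F) (𝓞 K)).range).index := by
  have htw : IsScalarTower F K H := hd.tower
  have hgal : IsGalois F H := IsGaloisGroup.isGalois G F H
  have hgal' : IsGalois K H := IsGalois.tower_top_of_isGalois F K H
  have hχ : ∀ γ : G, γ ∈ χ.ker ↔ ∀ x : K, γ • algebraMap K H x = algebraMap K H x := by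
    intro γ
    constructor
    · intro h
      exact hd.one γ h
    · intro h
      by_contra hne
      apply hd.quad.ne
      ext x
      have h1 := hd.neg γ hne x
      rw [h x] at h1
      exact ((algebraMap K H).injective h1).symm
  have hmem : ∀ (w : Place H) (g : H ≃ₐ[K] H), InS (D.S : Set (HeightOneSpectrum (𝓞 F))) w →
      Fixes w (eK F K H G g) → eK F K H G g ∈ decK (H := H) D.S χ := by
    intro w g hw hf
    refine Subgroup.subset_closure ⟨(hχ _).2 fun x => ?_, w, hw, hf⟩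
    rw [eK_smul, AlgEquiv.commutes]
  refine artG (F := F) (decK (H := H) D.S χ) χ.ker hχ (A : Set (HeightOneSpectrum (𝓞 K))) ?_ ?_
    ?_ _ ?_
  · intro w g hg
    by_cases hw : Above (D.S : Set (HeightOneSpectrum (𝓞 F))) w
    · exact hmem (Sum.inr w) g hw (fixes_of_act (act_of_inert hg))
    · have h1 : w.under (𝓞 F) ∉ D.S := fun h => hw ⟨w.under (𝓞 F), h, rfl⟩
      rw [inert_one (F := F) (unr_of_squarefree (D.unramified _ h1)) hg, map_one]
      exact Subgroup.one_mem _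
  · intro w hw g hg
    obtain ⟨v, hv, v', hv', h1⟩ := (hA _).1 hw
    rw [Set.mem_singleton_iff] at hv'
    subst hv'
    refine hmem (Sum.inr w) g ⟨v', hv, ?_⟩ (fixes_of_act hg)
    rw [← h1]
    change w.asIdeal.comap (algebraMap (𝓞 F) (𝓞 H)) =
      (w.asIdeal.comap (algebraMap (𝓞 K) (𝓞 H))).comap (algebraMap (𝓞 F) (𝓞 K))
    rw [Ideal.comap_comap, ← IsScalarTower.algebraMap_eq]
  · intro ι g hg
    exact hmem (Sum.inl (InfinitePlace.mk ι)) g trivial (fixes_of_conj hg)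
  · rintro N hN hR _ ⟨c, rfl⟩
    have hgal : IsGalois F H := IsGaloisGroup.isGalois G F H
    obtain ⟨E, hE, hE2, b, hb⟩ := ext_class τ hd.quad hN c
    refine ⟨E, hE, hE2, fun κ => ?_⟩
    let ψ' : (H ≃ₐ[F] H) →* ℂˣ := (κ.comp (QuotientGroup.mk' _)).comp
      ((IsGaloisGroup.mulEquivAlgEquiv G F H).symm : (H ≃ₐ[F] H) →* G)
    have h1 : (κ.comp (QuotientGroup.mk' _)).comp (eK F K H G) =
        ψ'.comp (Pool.Agent.Q20.EX.rs F K H) := rfl
    rw [h1, Pool.Agent.Q275.EX.res F K H ψ' N hN hR E hE, hb, map_add,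
      ← Pool.Agent.Q111.EX.art_mul]
    have h2 : ψ' * ψ' = 1 := by
      ext g
      rw [MonoidHom.mul_apply, ← map_mul]
      have h3 : (IsGaloisGroup.mulEquivAlgEquiv G F H).symm (g * g) = 1 := by
        rw [map_mul, hG]
      change ((κ (QuotientGroup.mk' _ ((IsGaloisGroup.mulEquivAlgEquiv G F H).symm (g * g))) :
        ℂˣ) : ℂ) = _
      rw [h3, map_one, map_one]
      rfl
    rw [h2, art_eq_sum]
    exact Finset.sum_eq_zero fun v _ => by
      rw [MonoidHom.one_apply, ofMul_one, smul_zero]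

end quad

end Pool.Agent.H509.Rec
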