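import Pool.Agent.H509.Rec1
import Pool.Graph.R_pool_sql_team_seeded_3997aac3.Q149.GK.Cls
import Pool.Graph.R_pool_sql_team_seeded_5cf16337.K3h92.E2.Cls

/-!
# The Artin map on the class group and indices
-/

set_option autoImplicit false
set_option linter.unusedSectionVars false
set_option linter.deprecated false

namespace Pool.Agent.H509.Rec

open NumberField IsDedekindDomain
open Pool.Agent.Q92.AR (Dv prin Pr Ray RayD art nmD nu up Cong Pos frob IsFrobenius Unramified Ram
  prin_mul prin_div prin_one prin_inv mem_Pr val_eq_one nmD_single art_single frob_spec prin_apply)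
open Pool.Agent.Q20.EX (CongAt Split Inert)
open Pool.Agent.Q125.AR (mem_under prin_eq_zero_of_valuation prin_mem_Pr Ray_mono Ram_mono
  art_eq_sum chi_frob)
open Pool.Agent.K3h56.E2 (cls CA)

section cl

variable {K : Type} [Field K] [NumberField K]

/-- the class of a divisor -/
noncomputable def clD : Dv K →+ Additive (ClassGroup (𝓞 K)) :=
  (MonoidHom.toAdditive (ClassGroup.mk K)).comp Pool.Agent.Q149.GK.fi

theorem cl_single (v : HeightOneSpectrum (𝓞 K)) :
    clD (Finsupp.single v 1) = Additive.ofMul (cls v) := by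
  have h1 : Pool.Agent.Q149.GK.fi (Finsupp.single v (1 : ℤ)) =
      Additive.ofMul (Pool.Agent.Q149.GK.pu v) := by
    classical
    unfold Pool.Agent.Q149.GK.fi
    rw [Finsupp.liftAddHom_apply_single, zmultiplesHom_apply, one_smul]
  change Additive.ofMul (ClassGroup.mk K (Pool.Agent.Q149.GK.fi (Finsupp.single v (1 : ℤ))).toMul) = _
  rw [h1]
  have h2 : Pool.Agent.Q149.GK.pu v = FractionalIdeal.mk0 K
      ⟨v.asIdeal, mem_nonZeroDivisors_of_ne_zero v.ne_bot⟩ := Units.ext rfl
  rw [h2, toMul_ofMul, ClassGroup.mk_mk0]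
  rfl

theorem cl_prin (x : Kˣ) : clD (prin x) = 0 := by
  have e : (Pool.Agent.Q149.GK.fi (prin x)).toMul = toPrincipalIdeal (𝓞 K) K x := by
    refine Pool.Agent.Q149.GK.eq_of_count _ _ fun v => ?_
    rw [Pool.Agent.Q149.GK.count_fi, prin_apply, coe_toPrincipalIdeal]
  have e2 : ClassGroup.mk K ((Pool.Agent.Q149.GK.fi (prin x)).toMul) = 1 := by
    rw [e, ClassGroup.mk_eq_one_iff, coe_toPrincipalIdeal]
    exact ⟨(x : K), FractionalIdeal.coe_spanSingleton _ _⟩
  change Additive.ofMul (ClassGroup.mk K (Pool.Agent.Q149.GK.fi (prin x)).toMul) = 0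
  rw [e2]
  rfl

theorem cl_ker (D : Dv K) (h : clD D = 0) : ∃ x : Kˣ, D = prin x := by
  have h1 : ClassGroup.mk K ((Pool.Agent.Q149.GK.fi D).toMul) = 1 := h
  rw [ClassGroup.mk_eq_one_iff] at h1
  obtain ⟨x, hx'⟩ := h1
  have hx : ((Pool.Agent.Q149.GK.fi D).toMul : FractionalIdeal (nonZeroDivisors (𝓞 K)) K) =
      FractionalIdeal.spanSingleton (nonZeroDivisors (𝓞 K)) x := by
    apply FractionalIdeal.coeToSubmodule_injective
    beta_reduce
    rw [hx', FractionalIdeal.coe_spanSingleton]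
  have hx0 : x ≠ 0 := by
    rintro rfl
    rw [FractionalIdeal.spanSingleton_zero] at hx
    exact (Units.ne_zero _) hx
  refine ⟨Units.mk0 x hx0, ?_⟩
  ext v
  rw [← Pool.Agent.Q149.GK.count_fi D v, prin_apply, hx]
  rfl

theorem cl_CA {A : Set (HeightOneSpectrum (𝓞 K))} {c : ClassGroup (𝓞 K)} (hc : c ∈ CA A) :
    ∃ a : Dv K, (∀ v, v ∉ A → a v = 0) ∧ clD a = Additive.ofMul c := by
  unfold CA at hc
  induction hc using Subgroup.closure_induction with
  | mem x hx =>
    obtain ⟨v, hv, rfl⟩ := hx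
    refine ⟨Finsupp.single v 1, fun u hu => ?_, cl_single v⟩
    refine Finsupp.single_eq_of_ne fun h => hu ?_
    rw [h]
    exact hv
  | one => exact ⟨0, fun v _ => rfl, map_zero _⟩
  | mul x y _ _ hx hy =>
    obtain ⟨a, ha, ha2⟩ := hx
    obtain ⟨b, hb, hb2⟩ := hy
    refine ⟨a + b, fun v hv => ?_, ?_⟩
    · rw [Finsupp.add_apply, ha v hv, hb v hv, add_zero]
    · rw [map_add, ha2, hb2]
      rfl
  | inv x _ hx =>
    obtain ⟨a, ha, ha2⟩ := hx
    refine ⟨-a, fun v hv => ?_, ?_⟩
    · rw [Finsupp.neg_apply, ha v hv, neg_zero]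
    · rw [map_neg, ha2]
      rfl

/-- every class is the class of a divisor prime to `N` -/
theorem cl_surj {N : ℕ} (hN : N ≠ 0) (c : ClassGroup (𝓞 K)) :
    ∃ D ∈ Pr K N, clD D = Additive.ofMul c := by
  obtain ⟨D0, hD0⟩ : ∃ D0 : Dv K, clD D0 = Additive.ofMul c := by
    refine ClassGroup.induction K (fun I => ?_) c
    have hf := FractionalIdeal.finite_factors (K := K)
      (I : FractionalIdeal (nonZeroDivisors (𝓞 K)) K)
    rw [Filter.eventually_cofinite] at hf
    refine ⟨Finsupp.ofSupportFinite _ hf, ?_⟩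
    change Additive.ofMul (ClassGroup.mk K ((Pool.Agent.Q149.GK.fi _).toMul)) = _
    congr 2
    refine Pool.Agent.Q149.GK.eq_of_count _ _ fun v => ?_
    rw [Pool.Agent.Q149.GK.count_fi]
    rfl
  have hex : ∀ v : HeightOneSpectrum (𝓞 K), ∃ y : Kˣ, prin y v = D0 v := by
    intro v
    obtain ⟨π, hπ⟩ := v.valuation_exists_uniformizer K
    have hπ0 : π ≠ 0 := by
      rintro rfl
      rw [map_zero] at hπ
      exact WithZero.coe_ne_zero hπ.symm
    have h1 : prin (Units.mk0 π hπ0) v = 1 := by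
      have h2 := Pool.Agent.Q125.AR.valuation_eq_exp (Units.mk0 π hπ0) v
      rw [Units.val_mk0, hπ] at h2
      have h3 : (WithZero.exp (-1 : ℤ)) = WithZero.exp (-(prin (Units.mk0 π hπ0) v)) := h2
      have h4 := WithZero.exp_injective h3
      omega
    refine ⟨(Units.mk0 π hπ0) ^ (D0 v), ?_⟩
    have h5 : prin ((Units.mk0 π hπ0) ^ (D0 v)) = D0 v • prin (Units.mk0 π hπ0) :=
      map_zsmul (Pool.Agent.Q92.AR.prinHom (F := K)) (D0 v) (Additive.ofMul (Units.mk0 π hπ0))
    rw [h5, Finsupp.smul_apply, h1, smul_eq_mul, mul_one]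
  choose y hy using hex
  obtain ⟨z, -, hz⟩ := Pool.Agent.Q182.MZ.apx hN y
  refine ⟨D0 - prin z, fun v hv => ?_, ?_⟩
  · have h1 := Pool.Agent.Q182.MZ.prin_eq_of_near hv (hz v hv)
    rw [Finsupp.sub_apply, h1, hy, sub_self]
  · rw [map_sub, cl_prin, sub_zero, hD0]

end cl

section gal

variable (F K H G : Type) [Field F] [NumberField F] [Field K] [NumberField K] [Field H]
  [NumberField H] [Algebra F K] [Algebra K H] [Algebra F H] [IsScalarTower F K H]
  [CommGroup G] [Finite G] [MulSemiringAction G H] [IsGaloisGroup G F H]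

/-- the group of `H / K` as a subgroup of `G` -/
noncomputable def eK : (H ≃ₐ[K] H) →* G :=
  ((IsGaloisGroup.mulEquivAlgEquiv G F H).symm : (H ≃ₐ[F] H) →* G).comp
    (Pool.Agent.Q20.EX.rs F K H)

theorem eK_smul (g : H ≃ₐ[K] H) (x : H) : eK F K H G g • x = g x := by
  have h1 : (IsGaloisGroup.mulEquivAlgEquiv G F H) (eK F K H G g) =
      Pool.Agent.Q20.EX.rs F K H g := MulEquiv.apply_symm_apply _ _
  have h2 := DFunLike.congr_fun h1 x
  exact h2

theorem exists_eK (γ : G) (h : ∀ x : K, γ • algebraMap K H x = algebraMap K H x) :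
    ∃ g : H ≃ₐ[K] H, eK F K H G g = γ := by
  let g : H ≃ₐ[K] H := { (IsGaloisGroup.mulEquivAlgEquiv G F H γ) with
    commutes' := fun x => h x }
  refine ⟨g, ?_⟩
  have h1 : Pool.Agent.Q20.EX.rs F K H g = IsGaloisGroup.mulEquivAlgEquiv G F H γ := by
    ext x
    rfl
  change (IsGaloisGroup.mulEquivAlgEquiv G F H).symm (Pool.Agent.Q20.EX.rs F K H g) = γ
  rw [h1, MulEquiv.symm_apply_apply]

/-- the Artin map with values in `G / D'` -/
noncomputable def Phi (D' : Subgroup G) : Dv K →+ Additive (G ⧸ D') :=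
  open scoped Classical in
  Finsupp.liftAddHom fun v => (zmultiplesHom (Additive (G ⧸ D')))
    (Additive.ofMul (QuotientGroup.mk (eK F K H G (frob H v))))

theorem art_Phi (D' : Subgroup G) (κ : G ⧸ D' →* ℂˣ) (D : Dv K) :
    art ((κ.comp (QuotientGroup.mk' D')).comp (eK F K H G)) D =
      Additive.ofMul (κ (Phi F K H G D' D).toMul) := by
  classical
  induction D using Finsupp.induction_linear with
  | zero => rw [map_zero, map_zero, toMul_zero, map_one, ofMul_one]
  | add a b ha hb => rw [map_add, map_add, ha, hb, toMul_add, map_mul, ofMul_mul]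
  | single v k =>
    unfold Phi
    rw [art_single, Finsupp.liftAddHom_apply_single, zmultiplesHom_apply, toMul_zsmul, toMul_ofMul,
      map_zpow, ofMul_zpow]
    rfl

/-- the index of a group of automorphisms and the index of a group of classes -/
theorem relIndex_dvd_index (D' Δ : Subgroup G)
    (hΔ : ∀ γ : G, γ ∈ Δ ↔ ∀ x : K, γ • algebraMap K H x = algebraMap K H x)
    {N : ℕ} (hN : N ≠ 0) (hR : Ram K H N) (V : Subgroup (ClassGroup (𝓞 K)))
    (hV : ∀ (κ : G ⧸ D' →* ℂˣ), ∀ D ∈ Pr K N, (clD D).toMul ∈ V →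
      art ((κ.comp (QuotientGroup.mk' D')).comp (eK F K H G)) D = 0) :
    D'.relIndex Δ ∣ V.index := by
  have hgal : IsGalois F H := IsGaloisGroup.isGalois G F H
  have hgal' : IsGalois K H := IsGalois.tower_top_of_isGalois F K H
  -- the two homomorphisms
  let f : Multiplicative (Pr K N) →* G ⧸ D' :=
    AddMonoidHom.toMultiplicativeLeft ((Phi F K H G D').comp (Pr K N).subtype)
  let g : Multiplicative (Pr K N) →* ClassGroup (𝓞 K) ⧸ V :=
    (QuotientGroup.mk' V).comp (AddMonoidHom.toMultiplicativeLeft (clD.comp (Pr K N).subtype))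
  have hfg : g.ker ≤ f.ker := by
    intro D hD
    have h1 : (clD (K := K) (D.toAdd : Pr K N)).toMul ∈ V := (QuotientGroup.eq_one_iff _).1 hD
    rw [MonoidHom.mem_ker]
    by_contra hne
    have : Finite (G ⧸ D') := inferInstance
    obtain ⟨κ, hκ⟩ := CommGroup.exists_apply_ne_one_of_hasEnoughRootsOfUnity (G ⧸ D') ℂ hne
    apply hκ
    have h2 := hV κ _ (D.toAdd : Pr K N).2 h1
    rw [art_Phi] at h2
    exact h2
  have hrange : f.range = Δ.map (QuotientGroup.mk' D') := by
    apply le_antisymm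
    · rintro _ ⟨D, rfl⟩
      have h1 : ∀ D : Dv K, (Phi F K H G D' D).toMul ∈ Δ.map (QuotientGroup.mk' D') := by
        intro D
        induction D using Finsupp.induction_linear with
        | zero =>
          rw [map_zero, toMul_zero]
          exact Subgroup.one_mem _
        | add a b ha hb =>
          rw [map_add, toMul_add]
          exact Subgroup.mul_mem _ ha hb
        | single v k =>
          unfold Phi
          rw [Finsupp.liftAddHom_apply_single, zmultiplesHom_apply, toMul_zsmul, toMul_ofMul]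
          refine Subgroup.zpow_mem _ (Subgroup.mem_map.2 ⟨eK F K H G (frob H v), ?_, rfl⟩) k
          refine (hΔ _).2 fun x => ?_
          rw [eK_smul, AlgEquiv.commutes]
      exact h1 _
    · rintro _ ⟨γ, hγ, rfl⟩
      obtain ⟨g0, hg0⟩ := exists_eK F K H G γ ((hΔ γ).1 hγ)
      obtain ⟨v, hv1, hv2, hv3⟩ := Pool.Agent.Q14.AR.cheb K H g0
        {v | (N : 𝓞 K) ∈ v.asIdeal} (by
          have h0 : (N : 𝓞 K) ≠ 0 := by exact_mod_cast hN
          have h1 := Ideal.finite_factors (I := Ideal.span {(N : 𝓞 K)}) (by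
            rw [Ne, Ideal.zero_eq_bot, Ideal.span_singleton_eq_bot]
            exact h0)
          refine h1.subset fun v hv => ?_
          exact Ideal.dvd_span_singleton.2 hv)
      obtain ⟨h, hh⟩ := Pool.Agent.Q92.AR.isFrobenius_conj hv2 hv3 (frob_spec (M := H) v)
      refine ⟨Multiplicative.ofAdd ⟨Finsupp.single v 1, fun u hu => ?_⟩, ?_⟩
      · refine Finsupp.single_eq_of_ne fun h => hv1 ?_
        rw [← h]
        exact hu
      · change (Phi F K H G D' (Finsupp.single v 1)).toMul = _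
        unfold Phi
        rw [Finsupp.liftAddHom_apply_single, zmultiplesHom_apply, one_smul, toMul_ofMul, hh,
          map_mul, map_mul, map_inv, mul_comm, mul_inv_cancel_left, hg0]
        rfl
  have h1 : D'.relIndex Δ = Nat.card f.range := by
    rw [hrange]
    have h2 := Subgroup.index_ker ((QuotientGroup.mk' D').comp Δ.subtype)
    have h3 : ((QuotientGroup.mk' D').comp Δ.subtype).ker = D'.subgroupOf Δ := by
      rw [← MonoidHom.comap_ker, QuotientGroup.ker_mk']
      rfl
    rw [h3, MonoidHom.range_comp, Subgroup.range_subtype] at h2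
    exact h2
  rw [h1, ← Subgroup.index_ker]
  refine (Subgroup.index_dvd_of_le hfg).trans ?_
  rw [Subgroup.index_ker, Subgroup.index_eq_card]
  exact Subgroup.card_subgroup_dvd_card g.range

/-- the classes with trivial Artin symbols -/
theorem art_zero (ψ : (H ≃ₐ[K] H) →* ℂˣ) (A : Set (HeightOneSpectrum (𝓞 K)))
    (J : Subgroup (ClassGroup (𝓞 K))) {N : ℕ}
    (hrec : ∀ (x : Kˣ) (a : Dv K),
      (∀ v, v ∉ A → a v = 0) → prin x + a ∈ Pr K N → art ψ (prin x + a) = 0)
    (hJ : ∀ c ∈ J, ∃ D ∈ Pr K N, clD D = Additive.ofMul c ∧ art ψ D = 0)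
    (D : Dv K) (hD : D ∈ Pr K N) (hc : (clD D).toMul ∈ CA A ⊔ J) : art ψ D = 0 := by
  obtain ⟨c1, hc1, c2, hc2, h12⟩ := Subgroup.mem_sup.1 hc
  obtain ⟨a, ha, ha2⟩ := cl_CA hc1
  obtain ⟨D2, hD2, hD3, hD4⟩ := hJ c2 hc2
  have h1 : clD (D - D2 - a) = 0 := by
    rw [map_sub, map_sub, ha2, hD3]
    have h2 : clD D = Additive.ofMul c1 + Additive.ofMul c2 := by
      rw [← ofMul_mul, h12]
      rfl
    rw [h2]
    abel
  obtain ⟨x, hx⟩ := cl_ker _ h1
  have h2 : prin x + a = D - D2 := by
    rw [← hx]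
    abel
  have h3 := hrec x a ha (by rw [h2]; exact (Pr K N).sub_mem hD hD2)
  rw [h2, map_sub, hD4, sub_zero] at h3
  exact h3

end gal

end Pool.Agent.H509.Rec
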