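import Pool.Agent.H509.Ana

/-!
# The sums over the prime ideals which split completely and over the others
-/

set_option autoImplicit false
set_option linter.unusedSectionVars false
set_option linter.style.haveILetI false

open NumberField IsDedekindDomain Filter Topology

noncomputable section

namespace Pool.Agent.H509

open Pool.Agent.K3h30.RS Pool.Agent.K3h62.RS Pool.Agent.K3h3.RS Pool.Agent.K3h81.RL

variable {F H G : Type} [Field F] [NumberField F] [Field H] [NumberField H] [Algebra F H]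
  [CommGroup G] [Finite G] [MulSemiringAction G H]

/-- the prime ideal of `F` under `w` -/
def bel (F : Type) [Field F] [NumberField F] [Algebra F H] (w : HeightOneSpectrum (𝓞 H)) :
    HeightOneSpectrum (𝓞 F) := (exists_above (F := F) w).choose

theorem bel_spec (w : HeightOneSpectrum (𝓞 H)) : Above {bel F w} w :=
  (exists_above (F := F) w).choose_spec

theorem bel_eq {v : HeightOneSpectrum (𝓞 F)} {w : HeightOneSpectrum (𝓞 H)} (h : Above {v} w) :
    bel F w = v := by
  have h1 := (above_iff (S := ({bel F w} : Set (HeightOneSpectrum (𝓞 F)))) h).1 (bel_spec w)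
  rw [Set.mem_singleton_iff] at h1
  exact h1.symm

theorem ext_of_valuation {w w' : HeightOneSpectrum (𝓞 H)}
    (h : ∀ x : H, w.valuation H x = w'.valuation H x) : w = w' := by
  apply HeightOneSpectrum.ext
  ext x
  rw [← w.valuation_lt_one_iff_mem (K := H), ← w'.valuation_lt_one_iff_mem (K := H), h]

/-- finite fibres -/
theorem summable_bel [IsGaloisGroup G F H] (g : HeightOneSpectrum (𝓞 F) → ℝ) (hg0 : ∀ v, 0 ≤ g v)
    (hg : Summable g) : Summable fun w : HeightOneSpectrum (𝓞 H) => g (bel F w) := by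
  have h1 : ∀ v : HeightOneSpectrum (𝓞 F), ∃ w : HeightOneSpectrum (𝓞 H), Above {v} w :=
    fun v => (Pool.Agent.K3h25.RS.t_OVER F H v).1
  choose w₀ hw₀ using h1
  have h2 : ∀ w : HeightOneSpectrum (𝓞 H), ∃ γ : G, ∀ x : H,
      w.valuation H x = (w₀ (bel F w)).valuation H (γ • x) := fun w =>
    (Pool.Agent.K3h25.RS.t_TRANS F H G (bel F w) (w₀ (bel F w)) (hw₀ _)).2 w (bel_spec w)
  choose γ hγ using h2
  have h3 : Summable fun p : HeightOneSpectrum (𝓞 F) × G => g p.1 * (1 : ℝ) :=
    hg.mul_of_nonneg (g := fun _ : G => (1 : ℝ)) (summable_of_finite_support (Set.toFinite _)) hg0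
      (fun _ => zero_le_one)
  have h4 : Function.Injective fun w : HeightOneSpectrum (𝓞 H) => (bel F w, γ w) := by
    intro w w' h
    rw [Prod.mk.injEq] at h
    apply ext_of_valuation
    intro x
    rw [hγ, hγ w', h.1, h.2]
  refine (h3.comp_injective h4).congr fun w => ?_
  simp

/-- the norm is a power of the norm below -/
theorem absNorm_pow {v : HeightOneSpectrum (𝓞 F)} {w : HeightOneSpectrum (𝓞 H)}
    (h : Above {v} w) : ∃ f : ℕ, 0 < f ∧
      Ideal.absNorm w.asIdeal = Ideal.absNorm v.asIdeal ^ f := by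
  have h' := above_singleton.1 h
  haveI := Pool.Agent.K3h43.RS.finite_quot w
  haveI := Pool.Agent.K3h43.RS.finite_quot v
  have hmax := w.isMaximal
  have hmax' := v.isMaximal
  letI := Ideal.Quotient.field w.asIdeal
  letI := Ideal.Quotient.field v.asIdeal
  let f : 𝓞 F ⧸ v.asIdeal →+* 𝓞 H ⧸ w.asIdeal :=
    Ideal.quotientMap w.asIdeal (algebraMap (𝓞 F) (𝓞 H)) h'.ge
  letI : Algebra (𝓞 F ⧸ v.asIdeal) (𝓞 H ⧸ w.asIdeal) := f.toAlgebra
  refine ⟨Module.finrank (𝓞 F ⧸ v.asIdeal) (𝓞 H ⧸ w.asIdeal), Module.finrank_pos, ?_⟩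
  rw [Ideal.absNorm_apply, Ideal.absNorm_apply, Submodule.cardQuot_apply,
    Submodule.cardQuot_apply]
  exact Module.natCard_eq_pow_finrank

/-- `1` is the Frobenius automorphism at `v` if the residue fields are equal -/
theorem frob_one {v : HeightOneSpectrum (𝓞 F)}
    (h : ∀ w : HeightOneSpectrum (𝓞 H), Above {v} w →
      Ideal.absNorm w.asIdeal = Ideal.absNorm v.asIdeal) : IsFrob (H := H) v (1 : G) := by
  intro w hw x
  rw [one_smul, ← h w hw]
  have h1 := Pool.Agent.K3h43.RS.pow_norm w x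
  have e : (x : H) - (x : H) ^ Ideal.absNorm w.asIdeal =
      -((x ^ Ideal.absNorm w.asIdeal - x : 𝓞 H) : H) := by
    push_cast
    ring
  rw [e, Valuation.map_neg, w.valuation_lt_one_iff_mem]
  exact h1

/-- all prime ideals over `v` have the same norm -/
theorem absNorm_const [IsGaloisGroup G F H] {v : HeightOneSpectrum (𝓞 F)}
    {w w' : HeightOneSpectrum (𝓞 H)} (h : Above {v} w) (h' : Above {v} w') :
    Ideal.absNorm w'.asIdeal = Ideal.absNorm w.asIdeal := by
  obtain ⟨γ, hγ⟩ := (Pool.Agent.K3h25.RS.t_TRANS F H G v w h).2 w' h'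
  have hγ' : ∀ x : 𝓞 H, x ∈ w'.asIdeal ↔ γ • x ∈ w.asIdeal := by
    intro x
    rw [← w'.valuation_lt_one_iff_mem (K := H), ← w.valuation_lt_one_iff_mem (K := H), hγ]
    rfl
  rw [Ideal.absNorm_apply, Ideal.absNorm_apply, Submodule.cardQuot_apply,
    Submodule.cardQuot_apply]
  refine Nat.card_congr ?_
  refine (Ideal.quotientEquiv w'.asIdeal w.asIdeal
    (MulSemiringAction.toRingEquiv G (𝓞 H) γ) ?_).toEquiv
  ext y
  refine Iff.trans ?_ (Ideal.mem_map_iff_of_surjective
    ((MulSemiringAction.toRingEquiv G (𝓞 H) γ : 𝓞 H ≃+* 𝓞 H) : 𝓞 H →+* 𝓞 H)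
    (RingEquiv.surjective _)).symm
  constructor
  · intro hy
    refine ⟨γ⁻¹ • y, ?_, ?_⟩
    · rw [hγ', smul_inv_smul]; exact hy
    · exact smul_inv_smul γ y
  · rintro ⟨x, hx, rfl⟩
    exact (hγ' x).1 hx

/-- the norms of the prime ideals over a prime ideal with nontrivial Frobenius automorphism -/
theorem absNorm_ge [IsGaloisGroup G F H] (D : RubinData F H G) {v : HeightOneSpectrum (𝓞 F)}
    (hv : v ∉ D.S) (hσ : D.σ v ≠ 1) {w : HeightOneSpectrum (𝓞 H)} (hw : Above {v} w) :
    Ideal.absNorm v.asIdeal ^ 2 ≤ Ideal.absNorm w.asIdeal := by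
  obtain ⟨f, hf, h1⟩ := absNorm_pow hw
  rw [h1]
  refine Nat.pow_le_pow_right (by have := two_le_absNorm v; omega) ?_
  by_contra h2
  have h3 : f = 1 := by omega
  rw [h3, pow_one] at h1
  apply hσ
  refine Pool.Agent.K3h23.RS.t_FROBUNIQ F H G v (D.unramified v hv) _ _ (D.frob v hv) ?_
  exact frob_one fun w' hw' => (absNorm_const (G := G) hw hw').trans h1

/-- the exceptional prime ideals -/
def badSet (D : RubinData F H G) (bad : Finset (HeightOneSpectrum (𝓞 F))) :
    Set (HeightOneSpectrum (𝓞 H)) :=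
  {w | bel F w ∈ D.S ∨ bel F w ∈ bad ∨ D.σ (bel F w) ≠ 1}

theorem summable_bad [IsGaloisGroup G F H] (D : RubinData F H G)
    (bad : Finset (HeightOneSpectrum (𝓞 F))) :
    Summable ((badSet D bad).indicator fun w => (Ideal.absNorm w.asIdeal : ℝ)⁻¹) := by
  classical
  have h1 : Summable fun v : HeightOneSpectrum (𝓞 F) => (Ideal.absNorm v.asIdeal : ℝ) ^ (-(2 : ℝ)) :=
    (Pool.Agent.Y772.DK.nr_summable F (σ := 2) (by norm_num)).comp_injective
      (i := fun v : HeightOneSpectrum (𝓞 F) => v.asIdeal) (fun v v' h => HeightOneSpectrum.ext h)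
  have h2 := summable_bel (G := G) (H := H) _ (fun v => by positivity) h1
  have hfin : {w : HeightOneSpectrum (𝓞 H) | bel F w ∈ D.S ∪ bad}.Finite := by
    have : {w : HeightOneSpectrum (𝓞 H) | bel F w ∈ D.S ∪ bad} ⊆
        ⋃ v ∈ D.S ∪ bad, {w : HeightOneSpectrum (𝓞 H) | Above {v} w} := by
      intro w hw
      simp only [Set.mem_iUnion]
      exact ⟨bel F w, hw, bel_spec w⟩
    exact Set.Finite.subset (Set.Finite.biUnion (D.S ∪ bad).finite_toSet
      (fun v _ => (Pool.Agent.K3h25.RS.t_OVER F H v).2)) this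
  have h3 : Summable (({w : HeightOneSpectrum (𝓞 H) | bel F w ∈ D.S ∪ bad}).indicator
      fun w => (Ideal.absNorm w.asIdeal : ℝ)⁻¹) := by
    refine summable_of_finite_support (hfin.subset ?_)
    exact Set.support_indicator_subset
  refine Summable.of_nonneg_of_le (fun w => Set.indicator_nonneg (fun _ _ => by positivity) w)
    (fun w => ?_) (h3.add h2)
  by_cases hw : w ∈ badSet D bad
  · rw [Set.indicator_of_mem hw]
    by_cases hw' : bel F w ∈ D.S ∪ bad
    · rw [Set.indicator_of_mem (show w ∈ {w : HeightOneSpectrum (𝓞 H) | bel F w ∈ D.S ∪ bad} from hw')]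
      have : 0 ≤ (Ideal.absNorm (bel F w).asIdeal : ℝ) ^ (-(2 : ℝ)) := by positivity
      linarith
    · rw [Finset.mem_union, not_or] at hw'
      have hσ : D.σ (bel F w) ≠ 1 := by
        rcases hw with h | h | h
        · exact absurd h hw'.1
        · exact absurd h hw'.2
        · exact h
      have h4 := absNorm_ge D hw'.1 hσ (bel_spec w)
      have h5 : (Ideal.absNorm w.asIdeal : ℝ)⁻¹ ≤ (Ideal.absNorm (bel F w).asIdeal : ℝ) ^ (-(2 : ℝ)) := by
        rw [Real.rpow_neg (Nat.cast_nonneg _), Real.rpow_ofNat]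
        refine inv_anti₀ ?_ (by exact_mod_cast h4)
        have := two_le_absNorm (bel F w)
        have h6 : (0 : ℝ) < (Ideal.absNorm (bel F w).asIdeal : ℝ) := by
          exact_mod_cast (by omega : 0 < Ideal.absNorm (bel F w).asIdeal)
        positivity
      have h6 : 0 ≤ ({w : HeightOneSpectrum (𝓞 H) | bel F w ∈ D.S ∪ bad}).indicator
        (fun w => (Ideal.absNorm w.asIdeal : ℝ)⁻¹) w := Set.indicator_nonneg (fun _ _ => by positivity) w
      linarith
  · rw [Set.indicator_of_notMem hw]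
    have h6 : 0 ≤ ({w : HeightOneSpectrum (𝓞 H) | bel F w ∈ D.S ∪ bad}).indicator
        (fun w => (Ideal.absNorm w.asIdeal : ℝ)⁻¹) w := Set.indicator_nonneg (fun _ _ => by positivity) w
    have : 0 ≤ (Ideal.absNorm (bel F w).asIdeal : ℝ) ^ (-(2 : ℝ)) := by positivity
    linarith

theorem sigma_of_splits [IsGaloisGroup G F H] (D : RubinData F H G) {v : HeightOneSpectrum (𝓞 F)}
    (hv : v ∉ D.S) (h : SplitsIn H v) : D.σ v = 1 :=
  Pool.Agent.K3h23.RS.t_FROBUNIQ F H G v (D.unramified v hv) _ _ (D.frob v hv) (frob_one h.2)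

theorem not_summable_good [IsGaloisGroup G F H] (D : RubinData F H G)
    (bad : Finset (HeightOneSpectrum (𝓞 F))) :
    ¬ Summable (fun w : {w : HeightOneSpectrum (𝓞 H) // w ∉ badSet D bad} =>
      (Ideal.absNorm w.1.asIdeal : ℝ)⁻¹) := by
  classical
  intro h
  refine Pool.Agent.K3h14.RS.t_DIV F H (D.S ∪ bad) ?_
  have h1 : ∀ v : {v : HeightOneSpectrum (𝓞 F) // v ∉ D.S ∪ bad ∧ SplitsIn H v},
      ∃ w : {w : HeightOneSpectrum (𝓞 H) // w ∉ badSet D bad}, Above {v.1} w.1 := by
    intro v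
    obtain ⟨w, hw⟩ := (Pool.Agent.K3h25.RS.t_OVER F H v.1).1
    refine ⟨⟨w, ?_⟩, hw⟩
    have h2 := v.2.1
    rw [Finset.mem_union, not_or] at h2
    rintro (h3 | h3 | h3)
    · rw [bel_eq hw] at h3
      exact h2.1 h3
    · rw [bel_eq hw] at h3
      exact h2.2 h3
    · rw [bel_eq hw] at h3
      exact h3 (sigma_of_splits D h2.1 v.2.2)
  choose w hw using h1
  have hinj : Function.Injective w := by
    intro v v' hvv
    have h2 := bel_eq (hw v)
    rw [hvv, bel_eq (hw v')] at h2
    exact Subtype.ext h2.symm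
  refine (h.comp_injective hinj).congr fun v => ?_
  simp only [Function.comp_apply]
  rw [v.2.2.2 _ (hw v)]

end Pool.Agent.H509
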