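import Pool.Agent.H509.Exp2
import Pool.Agent.H509.Rec3

/-!
# Rubin's conjecture for groups of exponent two: the active characters, precise form

Adapted from the library modules `K3h77/E2/Minus.lean` and `K3h56/E2/Chi2.lean`, with more information
on the integral factors.
-/

set_option autoImplicit false
set_option linter.unusedSectionVars false

open NumberField IsDedekindDomain Filter Topology

noncomputable section

namespace Pool.Agent.H509.E3

open Pool.Agent.K3h30.RS Pool.Agent.K3h56.E2 Pool.Agent.K3h77.E2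

/-- the leading term of `L_S(χ, s)`, with information on the integral factor `a` -/
theorem minus2 {F K : Type} [Field F] [NumberField F] [Field K] [NumberField K] [Algebra F K]
    (τ : K ≃ₐ[F] K) (hQ : Quad F K τ) (S : Finset (HeightOneSpectrum (𝓞 F)))
    (A : Finset (HeightOneSpectrum (𝓞 K))) (hO : Over S A)
    (r : ℕ) (u : Fin r → Place K) (p : Fin r → Place F) (hB : ∀ a, Below (u a) (p a))
    (hp : Function.Injective p) (hmov : ∀ a, ∃ z : K, av (u a) (τ z) ≠ av (u a) z)
    (huA : ∀ a w, u a = Sum.inr w → w ∈ A)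
    (hr : r + (Fintype.card (InfinitePlace F) + S.card) = Fintype.card (InfinitePlace K) + A.card)
    (hr1 : r + 1 ≤ Fintype.card (InfinitePlace F) + S.card)
    (L : ℂ → ℂ) (hL : DifferentiableOn ℂ L {1}ᶜ)
    (hE : ∀ s : ℂ, 1 < s.re → HasProd (fun v : {v : HeightOneSpectrum (𝓞 F) // v ∉ S} =>
      (1 - ((loc K (v : HeightOneSpectrum (𝓞 F)) : ℤ) : ℂ) *
        (Ideal.absNorm (v : HeightOneSpectrum (𝓞 F)).asIdeal : ℂ) ^ (-s))⁻¹) (L s))
    (hcls : (CA (S : Set (HeightOneSpectrum (𝓞 F)))).index ∣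
      (CA (A : Set (HeightOneSpectrum (𝓞 K)))).index *
        ((SU K A).map ((MonoidHom.id Kˣ) / actK τ)).relIndex (SU K A ⊓ minus τ)) :
    ∃ (q : ℝ) (a : ℕ), (CA (A : Set (HeightOneSpectrum (𝓞 K)))).index *
        ((SU K A).map ((MonoidHom.id Kˣ) / actK τ)).relIndex (SU K A ⊓ minus τ) =
        (CA (S : Set (HeightOneSpectrum (𝓞 F)))).index * a ∧
      Tendsto (fun s : ℂ => (s ^ r)⁻¹ * L s) (𝓝[≠] 0) (𝓝 (q : ℂ)) ∧
      ∀ x : Fin r → Kˣ, (∀ b, x b ∈ SU K A ⊓ minus τ) →
        |q| * Nat.card (mu K ⊓ minus τ : Subgroup Kˣ) *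
          (Subgroup.closure (Set.range x) ⊔ (mu K ⊓ minus τ)).relIndex (SU K A ⊓ minus τ) =
        a * 2 ^ (Fintype.card (InfinitePlace F) + S.card - (r + 1)) * |(logM u x).det| := by
  have hZ := Pool.Agent.H509.Z0.t_ZETA0X
  have hZP := Pool.Agent.H509.E2.zprod
  have hLoc := Pool.Agent.K3h25.E2.t_LOC
  have hLim := Pool.Agent.K3h11.E2.t_LIMX
  have hS := Pool.Agent.H509.E2.sind
  have hFund := Pool.Agent.H509.E2.fund
  have hFact := Pool.Agent.K3h36.E2x.t_FACT
  have hGT := Pool.Agent.K3h23.E2.t_GT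
  have hRank := Pool.Agent.K3h17.E2.t_RANK
  have hcF : 0 < Fintype.card (InfinitePlace F) := Fintype.card_pos
  have hFK : Fintype.card (InfinitePlace F) ≤ Fintype.card (InfinitePlace K) :=
    Fintype.card_le_of_surjective _ (InfinitePlace.comap_surjective (k := F) (K := K))
  obtain ⟨hle, q, hq, hqe⟩ := hLim hZ hZP hLoc F K τ hQ S A hO L hL hE hFK
  have hr' : (Fintype.card (InfinitePlace K) + A.card) -
      (Fintype.card (InfinitePlace F) + S.card) = r := by omega
  rw [hr'] at hq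
  -- `S`-units of `F`
  obtain ⟨k, hk⟩ : ∃ k : ℕ, k + 1 = Fintype.card (InfinitePlace F) + S.card :=
    ⟨Fintype.card (InfinitePlace F) + S.card - 1, by omega⟩
  have hkc : Fintype.card (Fin k) + 1 = Fintype.card (InfinitePlace F) + S.card := by
    rw [Fintype.card_fin]; exact hk
  obtain ⟨y, hy⟩ := hFund F S (Fin k) hkc
  have hyS : ∀ b, y b ∈ SU F (S : Set (HeightOneSpectrum (𝓞 F))) := by
    intro b
    rw [← hy]
    exact (le_sup_left : Subgroup.closure (Set.range y) ≤ _) (Subgroup.subset_closure ⟨b, rfl⟩)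
  -- the numbers
  obtain ⟨a, ha⟩ := hcls
  refine ⟨q, a, ha, hq, fun x hx => ?_⟩
  have hxA : ∀ b, x b ∈ SU K (A : Set (HeightOneSpectrum (𝓞 K))) := fun b => (hx b).1
  have hxm : ∀ b, x b ∈ minus τ := fun b => (hx b).2
  have hιc : Fintype.card (Fin r) + (Fintype.card (InfinitePlace F) + S.card) =
      Fintype.card (InfinitePlace K) + A.card := by
    rw [Fintype.card_fin]; exact hr
  obtain ⟨U, V, hU, hV, hUA, hVS, hdet⟩ := hFact F K τ hQ S A hO (Fin k) (Fin r) u p hB hp hmov huA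
    hkc hιc y x hyS hxA hxm
  -- the index theorem for `F`
  have hF1 := hS F S (Fin k) V hV hVS hkc y hyS
  rw [hy, Subgroup.relIndex_self, Nat.cast_one, one_mul] at hF1
  -- the index theorem for `K`
  have hKc : Fintype.card (Fin k ⊕ Fin r) + 1 = Fintype.card (InfinitePlace K) + A.card := by
    rw [Fintype.card_sum, Fintype.card_fin, Fintype.card_fin]; omega
  have hzA : ∀ b, (Sum.elim (fun b => Units.map (algebraMap F K : F →* K) (y b)) x :
      Fin k ⊕ Fin r → Kˣ) b ∈ SU K (A : Set (HeightOneSpectrum (𝓞 K))) := by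
    rintro (b | b)
    · exact (inc_mem hO (y b)).2 (hyS b)
    · exact hxA b
  have hK1 := hS K A (Fin k ⊕ Fin r) U hU hUA hKc _ hzA
  -- the groups
  obtain ⟨P, hP⟩ : ∃ P : Subgroup Kˣ,
    P = (SU F (S : Set (HeightOneSpectrum (𝓞 F)))).map (inc F K) := ⟨_, rfl⟩
  obtain ⟨N, hN⟩ : ∃ N : Subgroup Kˣ, N = SU K (A : Set (HeightOneSpectrum (𝓞 K))) ⊓ minus τ :=
    ⟨_, rfl⟩
  obtain ⟨Y, hY⟩ : ∃ Y : Subgroup Kˣ, Y = (Subgroup.closure (Set.range y)).map (inc F K) :=
    ⟨_, rfl⟩
  obtain ⟨X, hX⟩ : ∃ X : Subgroup Kˣ, X = Subgroup.closure (Set.range x) := ⟨_, rfl⟩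
  have hactact : ∀ z : Kˣ, actK τ (actK τ z) = z := fun z => Units.ext (tau_tau hQ (z : K))
  have hUact : ∀ z ∈ SU K (A : Set (HeightOneSpectrum (𝓞 K))),
      actK τ z ∈ SU K (A : Set (HeightOneSpectrum (𝓞 K))) := fun z hz => act_mem hO z hz
  have hPiff : ∀ z, z ∈ P ↔ z ∈ SU K (A : Set (HeightOneSpectrum (𝓞 K))) ∧ actK τ z = z := by
    intro z
    rw [hP]
    constructor
    · rintro ⟨y', hy', rfl⟩
      refine ⟨(inc_mem hO y').2 hy', Units.ext ?_⟩
      exact τ.commutes (y' : F)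
    · rintro ⟨hz, hzt⟩
      have h1 : τ (z : K) = (z : K) := congrArg (fun t : Kˣ => (t : K)) hzt
      obtain ⟨y', hy'⟩ := fixed hQ (z : K) h1
      have hy0 : y' ≠ 0 := by
        rintro rfl
        rw [map_zero] at hy'
        exact z.ne_zero hy'.symm
      have h2 : inc F K (Units.mk0 y' hy0) = z := Units.ext hy'
      rw [← h2] at hz
      exact ⟨Units.mk0 y' hy0, (inc_mem hO _).1 hz, h2⟩
  have hNiff : ∀ z, z ∈ N ↔ z ∈ SU K (A : Set (HeightOneSpectrum (𝓞 K))) ∧ actK τ z = z⁻¹ := by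
    intro z
    rw [hN]
    exact Iff.rfl
  have hmuP : mu K ⊓ P = (mu F).map (inc F K) := by
    ext z
    constructor
    · rintro ⟨hz1, hz2⟩
      rw [hP] at hz2
      obtain ⟨y', _, rfl⟩ := hz2
      refine ⟨y', ?_, rfl⟩
      exact (Function.Injective.isOfFinOrder_iff (inc_inj (F := F) (K := K))).1 hz1
    · rintro ⟨y', hy', rfl⟩
      refine ⟨MonoidHom.isOfFinOrder _ hy', ?_⟩
      rw [hP]
      exact ⟨y', mu_le F _ hy', rfl⟩
  have hYP : Y ≤ P := by
    rw [hY, hP]
    refine Subgroup.map_mono ?_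
    rw [← hy]
    exact le_sup_left
  have hXN : X ≤ N := by
    rw [hX, hN, Subgroup.closure_le]
    rintro _ ⟨b, rfl⟩
    exact hx b
  have hYmu : Y ⊔ (mu K ⊓ P) = P := by
    rw [hmuP, hY, ← Subgroup.map_sup, hy, hP]
  have hmuN : mu K ⊓ N = mu K ⊓ minus τ := by
    rw [hN, ← inf_assoc, inf_eq_left.2 (mu_le K _)]
  have hrank := hRank F K τ hQ S A hO r hr
  rw [← hN] at hrank
  have hgt := hGT Kˣ (actK τ) hactact (SU K (A : Set (HeightOneSpectrum (𝓞 K)))) (mu K) P N
    hUact (mu_le K _) (finite_mu K)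
    (fun z _ ⟨n, hn, hzn⟩ => isOfFinOrder_iff_pow_eq_one.2 ⟨n, hn, hzn⟩) hPiff hNiff (-1)
    (isOfFinOrder_iff_pow_eq_one.2 ⟨2, by norm_num, by simp⟩)
    (by
      intro h
      have h1 := congrArg (fun z : Kˣ => (z : K)) h
      simp only [Units.val_neg, Units.val_one] at h1
      have h2 : (2 : K) = 0 := by linear_combination (-1 : K) * h1
      exact two_ne_zero h2)
    (by simp)
    (by
      apply Units.ext
      change τ (((-1 : Kˣ)) : K) = ((-1 : Kˣ) : K)
      simp)
    (by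
      intro z _ hz
      have h1 : ((z : Kˣ) : K) * (z : K) = 1 := by
        rw [← Units.val_mul, hz, Units.val_one]
      rcases mul_self_eq_one_iff.1 h1 with h2 | h2
      · left; exact Units.ext h2
      · right; exact Units.ext (by rw [h2]; simp))
    r hrank Y X hYP hXN hYmu
  rw [hmuN] at hgt
  have hcl : Subgroup.closure (Set.range (Sum.elim
      (fun b => Units.map (algebraMap F K : F →* K) (y b)) x : Fin k ⊕ Fin r → Kˣ)) = Y ⊔ X := by
    rw [Set.Sum.elim_range, Subgroup.closure_union, hX, hY, MonoidHom.map_closure,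
      ← Set.range_comp]
    rfl
  rw [hcl] at hK1
  -- the conclusion
  have hcardF : Nat.card (mu K ⊓ P : Subgroup Kˣ) = Units.torsionOrder F := by
    rw [hmuP, Subgroup.card_map_of_injective inc_inj, card_mu]
  rw [hcardF, card_mu] at hgt
  have hw := final |q| (Units.torsionOrder K) (Units.torsionOrder F) (classNumber F)
    (classNumber K) (Units.regulator F) (Units.regulator K)
    (∏ v ∈ S, Real.log (Ideal.absNorm v.asIdeal)) (∏ P ∈ A, Real.log (Ideal.absNorm P.asIdeal))
    (Nat.card (CA (S : Set (HeightOneSpectrum (𝓞 F)))))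
    (Nat.card (CA (A : Set (HeightOneSpectrum (𝓞 K)))))
    (CA (S : Set (HeightOneSpectrum (𝓞 F)))).index
    (CA (A : Set (HeightOneSpectrum (𝓞 K)))).index
    (((SU K A).map ((MonoidHom.id Kˣ) / actK τ)).relIndex N : ℕ)
    ((Y ⊔ X ⊔ mu K).relIndex (SU K (A : Set (HeightOneSpectrum (𝓞 K)))) : ℕ)
    ((X ⊔ (mu K ⊓ minus τ)).relIndex N : ℕ)
    (Nat.card (mu K ⊓ minus τ : Subgroup Kˣ)) _ _ |(logM u x).det| a k r (by omega)
    (by exact_mod_cast Units.torsionOrder_ne_zero K)
    (by exact_mod_cast Units.torsionOrder_ne_zero F)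
    (by exact_mod_cast (Nat.pos_of_ne_zero (by
      rw [classNumber]; exact Fintype.card_ne_zero)).ne')
    (Units.regulator_ne_zero F) (log_prod_pos S).ne' hF1 hK1 (by rw [hdet, Fintype.card_fin])
    (by exact_mod_cast hgt) (by rw [← hqe])
    (by
      rw [classNumber, ← Nat.card_eq_fintype_card]
      exact_mod_cast Subgroup.index_mul_card _)
    (by
      rw [classNumber, ← Nat.card_eq_fintype_card]
      exact_mod_cast Subgroup.index_mul_card _)
    (by
      rw [hN]
      exact_mod_cast ha.symm)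
  have hkr : Fintype.card (InfinitePlace F) + S.card - (r + 1) = k - r := by omega
  rw [hkr, ← hN, ← hX]
  exact hw

/-- **The nontrivial active characters**, precise form: `q` is the leading term of `L_S(χ, s)`, the
numbers `a` and `b` come from the class groups and from `T`. -/
theorem chi3 {F H G : Type} [Field F] [NumberField F] [Field H] [NumberField H] [Algebra F H]
    [CommGroup G] [Finite G] [MulSemiringAction G H] [IsGaloisGroup G F H]
    (D : RubinData F H G) (T : Finset (HeightOneSpectrum (𝓞 F))) (hT : D.Allowed T)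
    (hG : ∀ g : G, g * g = 1) (χ : G →* ℂˣ) (hχ : χ ≠ 1) (ha : D.Active χ) :
    ∃ (K : Type) (_ : Field K) (_ : NumberField K) (_ : Algebra F K) (_ : Algebra K H)
      (τ : K ≃ₐ[F] K) (_ : Dict F H G K τ χ) (A0 : Finset (HeightOneSpectrum (𝓞 K)))
      (x : Fin D.r → Hˣ) (q : ℝ) (a b : ℕ), Over D.S A0 ∧
      (CA (A0 : Set (HeightOneSpectrum (𝓞 K)))).index *
        ((SU K A0).map ((MonoidHom.id Kˣ) / actK τ)).relIndex (SU K A0 ⊓ minus τ) =
        (CA (D.S : Set (HeightOneSpectrum (𝓞 F)))).index * a ∧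
      ((part (D.U T) χ).relIndex (part (D.U ∅) χ) : ℤ) * b =
        ∏ v ∈ T, ((Ideal.absNorm v.asIdeal : ℤ) - sgn χ (D.σ v)) ∧
      2 ^ (oddCard T - (D.r + 1)) ∣ b ∧
      Subgroup.closure (Set.range x) = part (D.U T) χ ∧
      Tendsto (fun s : ℂ => (s ^ D.r)⁻¹ * D.L χ s) (𝓝[≠] 0) (𝓝 (q : ℂ)) ∧
      ((q * ∏ v ∈ T, ((Ideal.absNorm v.asIdeal : ℝ) - (sgn χ (D.σ v) : ℝ)) =
        a * b * 2 ^ (Fintype.card (InfinitePlace F) + D.S.card - (D.r + 1)) *
          Matrix.det (Matrix.of fun a b : Fin D.r => Real.log (av (D.w a) ((x b : Hˣ) : H)))) ∨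
      (q * ∏ v ∈ T, ((Ideal.absNorm v.asIdeal : ℝ) - (sgn χ (D.σ v) : ℝ)) =
        -(a * b * 2 ^ (Fintype.card (InfinitePlace F) + D.S.card - (D.r + 1)) *
          Matrix.det (Matrix.of fun a b : Fin D.r =>
            Real.log (av (D.w a) ((x b : Hˣ) : H)))))) := by
  classical
  have hLoc := Pool.Agent.K3h25.E2.t_LOC
  have hDict := Pool.Agent.K3h41.E2.t_DICT
  have hFrob := Pool.Agent.K3h72.E2.t_FROB hLoc
  have hFw := Pool.Agent.K3h72.E2.t_FINW hLoc
  have hIw := Pool.Agent.K3h50.E2.t_INFW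
  have hCount := Pool.Agent.K3h50.E2.t_COUNT
  have hPl := Pool.Agent.K3h73.E2.t_PLACES
  have hRank := Pool.Agent.K3h17.E2.t_RANK
  have hKH := Pool.Agent.K3h3.E2.t_KH
  have hAV := Pool.Agent.K3h3.E2.t_AVK
  have hBa := Pool.Agent.K3h60.E2.t_BASIS
  have hTP := Pool.Agent.K3h57.E2.t_TPART
  have hsq : ∀ g : G, χ g * χ g = 1 := fun g => by rw [← map_mul, hG, map_one]
  have hex : ∃ g : G, χ g ≠ 1 := by
    by_contra hcon
    push Not at hcon
    exact hχ (MonoidHom.ext hcon)
  obtain ⟨K, _, _, _, _, τ, hd⟩ := hDict F H G χ hsq hex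
  have htw : IsScalarTower F K H := hd.tower
  obtain ⟨f, hfi, hfl, hfr, hfs, ⟨p1, hp1, hp1'⟩, hact, -⟩ := hPl F H G D
  obtain ⟨A0, hA0, hA0c⟩ := exists_over hLoc hd.quad D.S
  -- the infinite places
  have hA : Fintype.card {v : InfinitePlace F // SplAt H χ (Sum.inl v)} +
      Fintype.card (InfinitePlace F) = Fintype.card (InfinitePlace K) := by
    rw [← hCount F K τ hd.quad, Nat.card_eq_fintype_card]
    congr 1
    exact Fintype.card_congr (Equiv.subtypeEquivRight fun v => splAt_inl hIw hd v)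
  set B : Finset (HeightOneSpectrum (𝓞 F)) := D.S.filter fun v => loc K v = 1 with hBdef
  set A : Finset (InfinitePlace F) := Finset.univ.filter fun v => SplAt H χ (Sum.inl v) with hAdef
  have hAcard : A.card + Fintype.card (InfinitePlace F) = Fintype.card (InfinitePlace K) := by
    rw [← hA, hAdef, Fintype.card_subtype]
  set P : Finset (InfinitePlace F ⊕ HeightOneSpectrum (𝓞 F)) := A.disjSum B with hPdef
  have hPcard : P.card = A.card + B.card := Finset.card_disjSum _ _
  have hPmem : ∀ p, p ∈ P ↔ InSF D p ∧ SplAt H χ p := by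
    intro p
    rcases p with v | v
    · rw [hPdef, Finset.inl_mem_disjSum, hAdef, Finset.mem_filter]
      simp [InSF]
    · rw [hPdef, Finset.inr_mem_disjSum, hBdef, Finset.mem_filter, splAt_inr hFw hd]
      rfl
  have hcases : ∀ a, (∃ w, D.w a = Sum.inl w) ∨ ∃ w, D.w a = Sum.inr w := by
    intro a
    rcases D.w a with w | w
    · exact Or.inl ⟨w, rfl⟩
    · exact Or.inr ⟨w, rfl⟩
  have hfIn : ∀ a, InSF D (f a) := by
    intro a
    rcases hcases a with ⟨w, hw⟩ | ⟨w, hw⟩
    · rw [hfl a w hw]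
      trivial
    · obtain ⟨v, h1, h2, -⟩ := hfr a w hw
      rw [h1]
      exact h2
  have hfP : ∀ a, f a ∈ P := fun a => (hPmem _).2 ⟨hfIn a, hfs χ a⟩
  have himg : (Finset.univ.image f) ⊆ P := by
    intro p hp
    obtain ⟨a, -, rfl⟩ := Finset.mem_image.1 hp
    exact hfP a
  have himgc : (Finset.univ.image f).card = D.r := by
    rw [Finset.card_image_of_injective _ hfi, Finset.card_univ, Fintype.card_fin]
  -- the Euler product
  have heuler : ∀ s : ℂ, 1 < s.re → HasProd (fun v : {v : HeightOneSpectrum (𝓞 F) // v ∉ D.S} =>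
      (1 - ((loc K (v : HeightOneSpectrum (𝓞 F)) : ℤ) : ℂ) *
        (Ideal.absNorm (v : HeightOneSpectrum (𝓞 F)).asIdeal : ℂ) ^ (-s))⁻¹) (D.L χ s) := by
    intro s hs
    have h1 := D.euler χ s hs
    have h2 : ∀ v : {v : HeightOneSpectrum (𝓞 F) // v ∉ D.S},
        ((χ (D.σ (v : HeightOneSpectrum (𝓞 F))) : ℂˣ) : ℂ) =
          ((loc K (v : HeightOneSpectrum (𝓞 F)) : ℤ) : ℂ) := fun v =>
      (hFrob F H G K τ χ hd v (D.σ v) (D.unramified v v.2) (D.frob v v.2)).symm
    simp only [h2] at h1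
    exact h1
  -- `χ` is active
  have himgP : Finset.univ.image f = P := by
    apply le_antisymm himg
    intro p hp
    obtain ⟨h1, h2⟩ := (hPmem p).1 hp
    obtain ⟨a, ha'⟩ := (hact χ hχ).1 ha p h1 h2
    exact Finset.mem_image.2 ⟨a, Finset.mem_univ a, ha'⟩
  have hr : D.r = P.card := by rw [← himgc, himgP]
  have hrc : D.r + (Fintype.card (InfinitePlace F) + D.S.card) =
      Fintype.card (InfinitePlace K) + A0.card := by omega
  have hr1 : D.r + 1 ≤ Fintype.card (InfinitePlace F) + D.S.card := by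
    have h1 : insert p1 (Finset.univ.image f) ⊆ Finset.univ.disjSum D.S := by
      intro p hp
      have h2 : InSF D p := by
        rw [Finset.mem_insert] at hp
        rcases hp with rfl | hp
        · exact hp1
        · obtain ⟨a, -, rfl⟩ := Finset.mem_image.1 hp
          exact hfIn a
      rcases p with p | p
      · simp
      · rw [Finset.inr_mem_disjSum]
        exact h2
    have h2 := Finset.card_le_card h1
    rw [Finset.card_insert_of_notMem (by simpa using hp1'), himgc, Finset.card_disjSum,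
      Finset.card_univ] at h2
    exact h2
  -- the places of `K`
  have hup : ∀ a : Fin D.r, ∃ u : Place K, Below (D.w a) u ∧ Below u (f a) ∧
      ∀ x : K, av (D.w a) (algebraMap K H x) = av u x := by
    intro a
    obtain ⟨u, p, h1, h2, h3, h4⟩ := hAV F H G K (D.w a) (D.splits a)
    have h5 : p = f a := by
      rcases hcases a with ⟨w, hw⟩ | ⟨w, hw⟩
      · rw [hfl a w hw]
        rw [hw] at h3
        rcases p with p | p
        · exact congrArg Sum.inl h3.symm
        · exact absurd h3 (by simp [Below])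
      · obtain ⟨v, k1, -, k3⟩ := hfr a w hw
        rw [k1]
        rw [hw] at h3
        rcases p with p | p
        · exact absurd h3 (by simp [Below])
        · have k4 : Above {p} w := h3
          rw [above_singleton] at k3 k4
          congr 1
          exact HeightOneSpectrum.ext (by rw [← k3, ← k4])
    rw [h5] at h2
    exact ⟨u, h1, h2, h4⟩
  choose u hu1 hu2 hu3 using hup
  have huz : ∀ a, ∃ z : K, av (u a) (τ z) ≠ av (u a) z := by
    intro a
    by_contra hcon
    push Not at hcon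
    rcases hcases a with ⟨w, hw⟩ | ⟨w, hw⟩
    · have h1 := hu1 a
      rw [hw] at h1
      rcases hua : u a with u' | u'
      · rw [hua] at h1 hcon
        have h2 : w.comap (algebraMap K H) = u' := h1
        refine (hIw F H G K τ χ hd w).1 (fun γ hγ => ?_) ?_
        · rw [← hw] at hγ
          rw [D.splits a γ hγ, map_one]
        · rw [h2]
          ext z
          have h3 : u' (τ z) ^ u'.mult = u' z ^ u'.mult := hcon z
          exact (pow_left_inj₀ (apply_nonneg u' _) (apply_nonneg u' _) u'.mult_ne_zero).1 h3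
      · rw [hua] at h1
        exact absurd h1 (by simp [Below])
    · have h1 := hu1 a
      rw [hw] at h1
      rcases hua : u a with u' | u'
      · rw [hua] at h1
        exact absurd h1 (by simp [Below])
      · rw [hua] at hcon
        obtain ⟨v, k1, -, k3⟩ := hfr a w hw
        have hl : loc K v = 1 := by
          refine (hFw F H G K τ χ hd v w k3).1 fun γ hγ => ?_
          rw [← hw] at hγ
          rw [D.splits a γ hγ, map_one]
        obtain ⟨P1, P2, hne, k4, k5, -⟩ := (hLoc F K τ hd.quad v).1 hl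
        have h2 := hu2 a
        rw [k1, hua] at h2
        have h3 : Above {v} u' := h2
        exact Pool.Agent.K3h72.E2.no_split hne k5 ((k4 u').1 h3) fun x =>
          av_mem u' (by
            have h4 := hcon (x : K)
            rw [← h4]
            rfl)
  have huA : ∀ a w, u a = Sum.inr w → w ∈ A0 := by
    intro a w hw
    have h1 := hu2 a
    have h2 := hfIn a
    rw [hw] at h1
    rcases hfa : f a with v | v
    · rw [hfa] at h1
      exact absurd h1 (by simp [Below])
    · rw [hfa] at h1 h2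
      exact (hA0 w).2 ⟨v, h2, h1⟩
  obtain ⟨q, a0, ha0, hq, hqx⟩ := minus2 τ hd.quad D.S A0 hA0 D.r u f hu2 hfi huz huA hrc hr1
    (D.L χ) (D.analytic χ) heuler (Pool.Agent.K3h92.E2.t_CLS F K τ hd.quad D.S A0 hA0
      (fun v hv => squarefree_mid _ (D.unramified v hv)))
  -- the map from `K^*` to `H^*`
  let j : Kˣ →* Hˣ := Units.map (algebraMap K H : K →* H)
  have hj : Function.Injective j := Pool.Agent.K3h3.E2.inj
  obtain ⟨hK1, hK2⟩ := hKH F H G K τ χ hd D A0 hA0
  have hK1' : (SU K A0 ⊓ minus τ).map j = part (D.U ∅) χ := hK1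
  have hK2' : (mu K ⊓ minus τ).map j = part (mu H) χ := hK2
  have hsq2 : ((part (D.U ∅) χ).map (powMonoidHom 2)).relIndex (part (D.U ∅) χ) =
      2 ^ (D.r + 1) := by
    rw [← hK1', Subgroup.map_map]
    have h1 : (powMonoidHom 2 : Hˣ →* Hˣ).comp j = j.comp (powMonoidHom 2) := by
      ext x
      simp
    rw [h1, ← Subgroup.map_map, Subgroup.relIndex_map_map_of_injective _ _ hj,
      hRank F K τ hd.quad D.S A0 hA0 D.r hrc]
  obtain ⟨x, hx1, hx2⟩ := hBa F H G D χ hG T hT D.r hsq2
  obtain ⟨b, hb1, hb2⟩ := hTP F H G D χ hG T hT.1 D.r hsq2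
  have hxU : ∀ c, x c ∈ part (D.U ∅) χ := by
    intro c
    have h1 : x c ∈ part (D.U T) χ := by
      rw [← hx1]
      exact Subgroup.subset_closure ⟨c, rfl⟩
    obtain ⟨⟨h2, -⟩, h3, h4⟩ := h1
    refine ⟨⟨h2, fun w hw => ?_⟩, h3, h4⟩
    obtain ⟨v', hv', -⟩ := hw
    simp at hv'
  have hxy : ∀ c, ∃ y : Kˣ, y ∈ SU K A0 ⊓ minus τ ∧ j y = x c := by
    intro c
    have h1 := hxU c
    rw [← hK1'] at h1
    exact Subgroup.mem_map.1 h1
  choose y hyS hyx using hxy
  have hrange : (Subgroup.closure (Set.range y) ⊔ (mu K ⊓ minus τ)).map j =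
      Subgroup.closure (Set.range x) ⊔ part (mu H) χ := by
    rw [Subgroup.map_sup, hK2', MonoidHom.map_closure, ← Set.range_comp]
    congr 2
    congr 1
    funext c
    exact hyx c
  have hindex : (Subgroup.closure (Set.range y) ⊔ (mu K ⊓ minus τ)).relIndex
      (SU K A0 ⊓ minus τ) * Nat.card (mu K ⊓ minus τ : Subgroup Kˣ) =
        (part (D.U T) χ).relIndex (part (D.U ∅) χ) := by
    rw [← hx2, ← hrange, ← hK1', ← hK2', Subgroup.relIndex_map_map_of_injective _ _ hj]
    congr 1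
    exact (Subgroup.card_map_of_injective hj).symm
  -- the product over `T`
  have hprod : ((part (D.U T) χ).relIndex (part (D.U ∅) χ) : ℝ) *
      (b : ℝ) = ∏ v ∈ T, ((Ideal.absNorm v.asIdeal : ℝ) -
        ((sgn χ (D.σ v) : ℤ) : ℝ)) := by
    have h1 := congrArg (fun z : ℤ => (z : ℝ)) hb1
    push_cast at h1
    exact h1
  have hdet : Matrix.det (Matrix.of fun a b : Fin D.r =>
      Real.log (av (D.w a) ((x b : Hˣ) : H))) = (logM u y).det := by
    congr 1
    ext a b
    change Real.log (av (D.w a) ((x b : Hˣ) : H)) = Real.log (av (u a) ((y b : Kˣ) : K))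
    rw [← hyx b, ← hu3 a]
    rfl
  have hfin := final2 (q := q) (M := (Nat.card (mu K ⊓ minus τ : Subgroup Kˣ) : ℝ))
    (J := ((Subgroup.closure (Set.range y) ⊔ (mu K ⊓ minus τ)).relIndex
      (SU K A0 ⊓ minus τ) : ℝ)) (a := (a0 : ℝ))
    (E := 2 ^ (Fintype.card (InfinitePlace F) + D.S.card - (D.r + 1)))
    (det := (logM u y).det)
    (X := ((part (D.U T) χ).relIndex (part (D.U ∅) χ) : ℝ)) (b := (b : ℝ))
    (σ := ∏ v ∈ T, ((Ideal.absNorm v.asIdeal : ℝ) - ((sgn χ (D.σ v) : ℤ) : ℝ)))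
    (hqx y hyS) (by rw [← hindex]; push_cast; ring) hprod (by positivity) (by positivity)
    (by positivity) (by positivity)
  refine ⟨K, inferInstance, inferInstance, inferInstance, inferInstance, τ, hd, A0, x, q, a0, b,
    hA0, ha0, hb1, hb2, hx1, hq, ?_⟩
  rw [hdet]
  exact hfin

end Pool.Agent.H509.E3
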