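import Pool.Agent.H509.Bad

/-!
# Ray class groups
-/

set_option autoImplicit false
set_option linter.unusedSectionVars false
set_option linter.style.haveILetI false

open NumberField IsDedekindDomain Filter Topology

noncomputable section

namespace Pool.Agent.H509

open Pool.Agent.K3h30.RS Pool.Agent.K3h62.RS Pool.Agent.K3h3.RS Pool.Agent.K3h81.RL
open Pool.Agent.Y773.G (IsModChar sg)

variable {K : Type} [Field K] [NumberField K]

open Classical in
/-- the exponent of `w` in `I` -/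
def cnt (w : HeightOneSpectrum (𝓞 K)) (I : Ideal (𝓞 K)) : ℕ :=
  (Associates.mk w.asIdeal).count (Associates.mk I).factors

theorem cnt_mul (w : HeightOneSpectrum (𝓞 K)) {I J : Ideal (𝓞 K)} (hI : I ≠ 0) (hJ : J ≠ 0) :
    cnt w (I * J) = cnt w I + cnt w J := by
  classical
  unfold cnt
  rw [← Associates.mk_mul_mk]
  exact Associates.count_mul (Associates.mk_ne_zero.2 hI) (Associates.mk_ne_zero.2 hJ)
    w.associates_irreducible

theorem cnt_ne_zero (w : HeightOneSpectrum (𝓞 K)) {I : Ideal (𝓞 K)} (hI : I ≠ 0) :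
    cnt w I ≠ 0 ↔ w.asIdeal ∣ I := by
  classical
  exact Associates.count_ne_zero_iff_dvd hI w.irreducible

theorem cnt_self (w : HeightOneSpectrum (𝓞 K)) : cnt w w.asIdeal = 1 := by
  classical
  exact Associates.count_self w.associates_irreducible

theorem cnt_of_ne {w w' : HeightOneSpectrum (𝓞 K)} (h : w ≠ w') : cnt w w'.asIdeal = 0 := by
  classical
  refine Associates.count_eq_zero_of_ne w.associates_irreducible w'.associates_irreducible ?_
  rw [Ne, Associates.mk_eq_mk_iff_associated, associated_iff_eq]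
  exact fun h' => h (HeightOneSpectrum.ext h')

theorem cnt_one (w : HeightOneSpectrum (𝓞 K)) : cnt w 1 = 0 := by
  by_contra h
  rw [← Ne, cnt_ne_zero w one_ne_zero] at h
  have := isUnit_of_dvd_one h
  exact w.isPrime.ne_top (Ideal.isUnit_iff.1 this)

theorem ordQ_eq_cnt (w : HeightOneSpectrum (𝓞 K)) (x : Kˣ) (a : 𝓞 K) (ha : a ≠ 0)
    (h : (x : K) = (a : K)) : ordQ w (Additive.ofMul x) = cnt w (Ideal.span {a}) := by
  classical
  have h1 := valuation_eq w x
  rw [h] at h1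
  have h2 : w.valuation K (a : K) = w.intValuation a := w.valuation_of_algebraMap a
  rw [h2, w.intValuation_if_neg ha, WithZero.exp_inj, neg_inj] at h1
  exact h1.symm

theorem finite_ordQ (x : Kˣ) : {w : HeightOneSpectrum (𝓞 K) | ordQ w (Additive.ofMul x) ≠ 0}.Finite := by
  refine Set.Finite.subset ((HeightOneSpectrum.Support.finite (𝓞 K) (x : K)).union
    (HeightOneSpectrum.Support.finite (𝓞 K) ((x⁻¹ : Kˣ) : K))) ?_
  intro w hw
  have h1 := valuation_eq w x
  have h2 := valuation_eq w x⁻¹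
  have h3 : ordQ w (Additive.ofMul x⁻¹) = -ordQ w (Additive.ofMul x) := by
    rw [ofMul_inv, map_neg]
  rw [h3, neg_neg] at h2
  rcases lt_or_gt_of_ne (show ordQ w (Additive.ofMul x) ≠ 0 from hw) with h | h
  · left
    change 1 < w.valuation K (x : K)
    rw [h1, ← WithZero.exp_zero, WithZero.exp_lt_exp]
    omega
  · right
    change 1 < w.valuation K ((x⁻¹ : Kˣ) : K)
    rw [h2, ← WithZero.exp_zero, WithZero.exp_lt_exp]
    omega

variable (W : Set (HeightOneSpectrum (𝓞 K)))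

/-- the group of divisors prime to `W` -/
abbrev Dv : Type := {w : HeightOneSpectrum (𝓞 K) // w ∉ W} →₀ ℤ

/-- the divisor of `x` -/
def dv : Additive Kˣ →+ Dv W where
  toFun x := Finsupp.ofSupportFinite (fun w => ordQ w.1 x)
    (Set.Finite.preimage Subtype.val_injective.injOn (finite_ordQ (Additive.toMul x)))
  map_zero' := by
    ext w
    exact map_zero (ordQ w.1)
  map_add' x y := by
    ext w
    exact map_add (ordQ w.1) x y

theorem dv_apply (x : Additive Kˣ) (w : {w : HeightOneSpectrum (𝓞 K) // w ∉ W}) :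
    dv W x w = ordQ w.1 x := rfl

/-- the divisor of an ideal -/
def di (I : Ideal (𝓞 K)) (hI : I ≠ 0) : Dv W :=
  Finsupp.ofSupportFinite (fun w => (cnt w.1 I : ℤ)) (by
    refine Set.Finite.preimage (f := Subtype.val) Subtype.val_injective.injOn
      (s := {w | cnt w I ≠ 0}) ?_ |>.subset ?_
    · exact (Ideal.finite_factors hI).subset fun w hw => (cnt_ne_zero w hI).1 hw
    · intro w hw
      have : (cnt w.1 I : ℤ) ≠ 0 := hw
      exact_mod_cast this)

theorem di_apply (I : Ideal (𝓞 K)) (hI : I ≠ 0) (w : {w : HeightOneSpectrum (𝓞 K) // w ∉ W}) :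
    di W I hI w = cnt w.1 I := rfl

theorem di_mul {I J : Ideal (𝓞 K)} (hI : I ≠ 0) (hJ : J ≠ 0) (hIJ : I * J ≠ 0) :
    di W (I * J) hIJ = di W I hI + di W J hJ := by
  ext w
  rw [Finsupp.add_apply, di_apply, di_apply, di_apply, cnt_mul w.1 hI hJ]
  push_cast
  rfl

theorem di_one : di W (1 : Ideal (𝓞 K)) one_ne_zero = 0 := by
  ext w
  rw [di_apply, cnt_one]
  rfl

theorem di_prime (w : {w : HeightOneSpectrum (𝓞 K) // w ∉ W}) :
    di W w.1.asIdeal w.1.ne_bot = Finsupp.single w 1 := by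
  classical
  ext w'
  rw [di_apply]
  by_cases h : w' = w
  · subst h
    rw [cnt_self, Finsupp.single_eq_same]
    rfl
  · rw [cnt_of_ne (fun h' => h (Subtype.ext h')), Finsupp.single_eq_of_ne h]
    rfl

/-- the group of the `x ≡ 1` modulo `W` -/
def U1 : Subgroup Kˣ where
  carrier := {x | ∀ w ∈ W, w.valuation K ((x : K) - 1) < 1}
  mul_mem' := by
    intro x y hx hy w hw
    have hx1 : w.valuation K (x : K) = 1 := by
      have h := Valuation.map_one_add_of_lt (w.valuation K) (hx w hw)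
      rwa [add_sub_cancel] at h
    have e : ((x * y : Kˣ) : K) - 1 = (x : K) * ((y : K) - 1) + ((x : K) - 1) := by
      rw [Units.val_mul]; ring
    rw [e]
    refine lt_of_le_of_lt (Valuation.map_add _ _ _) (max_lt ?_ (hx w hw))
    rw [map_mul, hx1, one_mul]
    exact hy w hw
  one_mem' := fun w _ => by rw [Units.val_one, sub_self, map_zero]; exact zero_lt_one
  inv_mem' := by
    intro x hx w hw
    have hx1 : w.valuation K (x : K) = 1 := by
      have h := Valuation.map_one_add_of_lt (w.valuation K) (hx w hw)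
      rwa [add_sub_cancel] at h
    have e : ((x⁻¹ : Kˣ) : K) - 1 = -(((x : K) - 1) * (x : K)⁻¹) := by
      rw [Units.val_inv_eq_inv_val]
      field_simp
      ring
    rw [e, Valuation.map_neg, map_mul, map_inv₀, hx1, inv_one, mul_one]
    exact hx w hw

/-- the group of the divisors of the elements `x ≡ 1` modulo `W` -/
def P1 : AddSubgroup (Dv W) := AddSubgroup.map (dv W) (Subgroup.toAddSubgroup (U1 W))

theorem mem_P1 {a : Dv W} : a ∈ P1 W ↔ ∃ x : Kˣ, x ∈ U1 W ∧ dv W (Additive.ofMul x) = a := by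
  constructor
  · rintro ⟨x, hx, rfl⟩
    exact ⟨Additive.toMul x, hx, rfl⟩
  · rintro ⟨x, hx, rfl⟩
    exact ⟨Additive.ofMul x, hx, rfl⟩

/-- the elements which are units at `W` -/
def UW : Subgroup Kˣ where
  carrier := {x | ∀ w ∈ W, w.valuation K (x : K) = 1}
  mul_mem' := by
    intro x y hx hy w hw
    rw [Units.val_mul, map_mul, hx w hw, hy w hw, one_mul]
  one_mem' := fun w _ => by rw [Units.val_one, map_one]
  inv_mem' := by
    intro x hx w hw
    rw [Units.val_inv_eq_inv_val, map_inv₀, hx w hw, inv_one]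

/-- the exponent -/
theorem exists_N (hW : W.Finite) : ∃ N : ℕ, 0 < N ∧ ∀ x : Kˣ, x ∈ UW W → x ^ N ∈ U1 W := by
  classical
  refine ⟨∏ w ∈ hW.toFinset, (Ideal.absNorm w.asIdeal - 1),
    Finset.prod_pos fun w _ => absNorm_sub_pos w, fun x hx w hw => ?_⟩
  obtain ⟨k, hk⟩ := Finset.dvd_prod_of_mem
    (fun w : HeightOneSpectrum (𝓞 K) => Ideal.absNorm w.asIdeal - 1)
    ((Set.Finite.mem_toFinset hW).2 hw)
  rw [hk, pow_mul, Units.val_pow_eq_pow_val, Units.val_pow_eq_pow_val]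
  exact Pool.Agent.K3h30.RS.pow_sub_one_lt (pow_norm_sub_one w (hx w hw)) k

/-- finitely many residue classes -/
theorem finite_res (hW : W.Finite) : ∃ Z : Finset Kˣ, (∀ z ∈ Z, z ∈ UW W) ∧
    ∀ x ∈ UW W, ∃ z ∈ Z, x * z⁻¹ ∈ U1 W := by
  classical
  have h1 : ∀ w : HeightOneSpectrum (𝓞 K), ∃ χ : Additive (unitsAt w) →+ QZ,
      (∀ x : unitsAt w, χ (Additive.ofMul x) = 0 ↔ w.valuation K (((x : Kˣ) : K) - 1) < 1) ∧
      ∀ x, (Ideal.absNorm w.asIdeal - 1) • χ x = 0 := fun w => Pool.Agent.K3h44.RS.t_DLOG K w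
  choose χ hχ1 hχ2 using h1
  haveI := hW.to_subtype
  haveI := hW.fintype
  let Φ : UW W → ∀ w : W, {u : QZ | (Ideal.absNorm w.1.asIdeal - 1) • u = 0} := fun x w =>
    ⟨χ w.1 (Additive.ofMul ⟨(x : Kˣ), x.2 w.1 w.2⟩), hχ2 _ _⟩
  haveI : ∀ w : W, Finite {u : QZ | (Ideal.absNorm w.1.asIdeal - 1) • u = 0} := fun w =>
    (AddCircle.finite_torsion (1 : ℚ) (absNorm_sub_pos w.1)).to_subtype
  have hfin : (Set.range Φ).Finite := Set.toFinite _
  choose! g hg using fun (y : ∀ w : W, {u : QZ | (Ideal.absNorm w.1.asIdeal - 1) • u = 0})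
    (hy : y ∈ Set.range Φ) => hy
  refine ⟨hfin.toFinset.image fun y => (g y : Kˣ), fun z hz => ?_, fun x hx => ?_⟩
  · obtain ⟨y, -, rfl⟩ := Finset.mem_image.1 hz
    exact (g y).2
  · refine ⟨(g (Φ ⟨x, hx⟩) : Kˣ), Finset.mem_image.2 ⟨Φ ⟨x, hx⟩,
      (Set.Finite.mem_toFinset hfin).2 ⟨_, rfl⟩, rfl⟩, fun w hw => ?_⟩
    have h2 := hg (Φ ⟨x, hx⟩) ⟨_, rfl⟩
    have h3 := congrArg (fun f => (f ⟨w, hw⟩ : QZ)) h2
    have h4 : χ w (Additive.ofMul ⟨((g (Φ ⟨x, hx⟩)) : Kˣ), (g (Φ ⟨x, hx⟩)).2 w hw⟩) =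
      χ w (Additive.ofMul ⟨x, hx w hw⟩) := h3
    have h5 : χ w (Additive.ofMul ((⟨x, hx w hw⟩ : unitsAt w) *
        (⟨((g (Φ ⟨x, hx⟩)) : Kˣ), (g (Φ ⟨x, hx⟩)).2 w hw⟩ : unitsAt w)⁻¹)) = 0 := by
      rw [ofMul_mul, ofMul_inv, map_add, map_neg, h4, add_neg_cancel]
    rw [hχ1] at h5
    exact h5

/-- the divisors of two ideals in the same class -/
theorem di_sub {I J : Ideal (𝓞 K)} (hI : I ≠ 0) (hJ : J ≠ 0) (hIW : ∀ w ∈ W, ¬ w.asIdeal ∣ I)
    (hJW : ∀ w ∈ W, ¬ w.asIdeal ∣ J)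
    (h : ClassGroup.mk0 ⟨I, mem_nonZeroDivisors_of_ne_zero hI⟩ =
      ClassGroup.mk0 ⟨J, mem_nonZeroDivisors_of_ne_zero hJ⟩) :
    ∃ z ∈ UW W, dv W (Additive.ofMul z) = di W I hI - di W J hJ := by
  rw [ClassGroup.mk0_eq_mk0_iff] at h
  obtain ⟨x, y, hx, hy, hxy⟩ := h
  have hxy' : Ideal.span {x} * I = Ideal.span {y} * J := hxy
  have hx' : (x : K) ≠ 0 := by exact_mod_cast hx
  have hy' : (y : K) ≠ 0 := by exact_mod_cast hy
  have hsx : Ideal.span {x} ≠ 0 := by
    rw [Ideal.zero_eq_bot, Ne, Ideal.span_singleton_eq_bot]; exact hx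
  have hsy : Ideal.span {y} ≠ 0 := by
    rw [Ideal.zero_eq_bot, Ne, Ideal.span_singleton_eq_bot]; exact hy
  have h1 : ∀ w : HeightOneSpectrum (𝓞 K),
      ordQ w (Additive.ofMul (Units.mk0 (y : K) hy' * (Units.mk0 (x : K) hx')⁻¹)) =
        (cnt w I : ℤ) - cnt w J := by
    intro w
    rw [ofMul_mul, ofMul_inv, map_add, map_neg, ordQ_eq_cnt w _ y hy rfl,
      ordQ_eq_cnt w _ x hx rfl]
    have h2 := congrArg (cnt w) hxy'
    rw [cnt_mul w hsx hI, cnt_mul w hsy hJ] at h2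
    have h3 : (cnt w (Ideal.span {x}) : ℤ) + cnt w I = cnt w (Ideal.span {y}) + cnt w J := by
      exact_mod_cast h2
    linarith
  refine ⟨Units.mk0 (y : K) hy' * (Units.mk0 (x : K) hx')⁻¹, fun w hw => ?_, ?_⟩
  · rw [← ordQ_eq_zero, h1]
    have h2 : cnt w I = 0 := by
      by_contra h
      exact hIW w hw ((cnt_ne_zero w hI).1 h)
    have h3 : cnt w J = 0 := by
      by_contra h
      exact hJW w hw ((cnt_ne_zero w hJ).1 h)
    rw [h2, h3]
    simp
  · ext w
    rw [dv_apply, h1, Finsupp.sub_apply, di_apply, di_apply]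

end Pool.Agent.H509
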