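import Pool.Agent.H509.Cls

/-!
# Ray class groups are finite and generated by the completely split prime ideals
-/

set_option autoImplicit false
set_option linter.unusedSectionVars false
set_option linter.style.haveILetI false

open NumberField IsDedekindDomain Filter Topology

noncomputable section

namespace Pool.Agent.H509

open Pool.Agent.K3h30.RS Pool.Agent.K3h62.RS Pool.Agent.K3h3.RS Pool.Agent.K3h81.RL
open Pool.Agent.Y773.G (IsModChar sg)

section

variable {K : Type} [Field K] [NumberField K] (W : Set (HeightOneSpectrum (𝓞 K)))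

/-- all classes are represented by ideals -/
theorem exists_rep (hW : W.Finite) (a : Dv W) : ∃ (I : Ideal (𝓞 K)) (hI : I ≠ 0),
    (∀ w ∈ W, ¬ w.asIdeal ∣ I) ∧ a - di W I hI ∈ P1 W := by
  classical
  obtain ⟨N, hN, hN'⟩ := exists_N W hW
  induction a using Finsupp.induction_linear with
  | zero =>
    refine ⟨1, one_ne_zero, fun w _ h => ?_, ?_⟩
    · exact w.isPrime.ne_top (Ideal.isUnit_iff.1 (isUnit_of_dvd_one h))
    · rw [di_one, sub_zero]
      exact zero_mem _
  | add a b ha hb =>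
    obtain ⟨I, hI, h1, h2⟩ := ha
    obtain ⟨J, hJ, h3, h4⟩ := hb
    refine ⟨I * J, mul_ne_zero hI hJ, fun w hw h => ?_, ?_⟩
    · rcases (w.prime.dvd_mul).1 h with h | h
      · exact h1 w hw h
      · exact h3 w hw h
    · rw [di_mul W hI hJ]
      have : a + b - (di W I hI + di W J hJ) = (a - di W I hI) + (b - di W J hJ) := by abel
      rw [this]
      exact add_mem h2 h4
  | single w n =>
    obtain ⟨x, hx1, hx2⟩ := exists_pi w.1
    have hx3 := ordQ_pos hx2
    have hxU : x ∈ UW W := fun w' hw' => hx1 w' (fun h => w.2 (h ▸ hw'))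
    have h1 : dv W (Additive.ofMul (x ^ N)) =
        Finsupp.single w ((N : ℤ) * ordQ w.1 (Additive.ofMul x)) := by
      ext w'
      rw [dv_apply, ofMul_pow, map_nsmul, nsmul_eq_mul]
      by_cases h : w' = w
      · subst h
        rw [Finsupp.single_eq_same]
      · rw [Finsupp.single_eq_of_ne h, (ordQ_eq_zero w'.1 x).2 (hx1 w'.1 fun h' => h (Subtype.ext h')),
          mul_zero]
    obtain ⟨M, hM⟩ : ∃ M : ℤ, M = (N : ℤ) * ordQ w.1 (Additive.ofMul x) := ⟨_, rfl⟩
    have hM0 : 0 < M := by rw [hM]; positivity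
    rw [← hM] at h1
    have h2 : Finsupp.single w M ∈ P1 W := (mem_P1 W).2 ⟨x ^ N, hN' x hxU, h1⟩
    have h3 : ∀ k : ℕ, ∃ (hk : w.1.asIdeal ^ k ≠ 0), di W (w.1.asIdeal ^ k) hk =
        Finsupp.single w (k : ℤ) := by
      intro k
      induction k with
      | zero => exact ⟨by simp, by simpa using di_one W⟩
      | succ k ih =>
        obtain ⟨hk, ih⟩ := ih
        have hk1 : w.1.asIdeal ^ (k + 1) ≠ 0 := pow_ne_zero _ w.1.ne_bot
        refine ⟨hk1, ?_⟩
        have h4 : di W (w.1.asIdeal ^ (k + 1)) hk1 =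
            di W (w.1.asIdeal ^ k * w.1.asIdeal) (by rw [← pow_succ]; exact hk1) := by
          congr 1
        rw [h4, di_mul W hk w.1.ne_bot, ih, di_prime, ← Finsupp.single_add]
        push_cast
        rfl
    obtain ⟨hk, h4⟩ := h3 (n % M).toNat
    refine ⟨w.1.asIdeal ^ (n % M).toNat, hk, fun w' hw' h => ?_, ?_⟩
    · have h5 := w'.prime.dvd_of_dvd_pow h
      rw [Ideal.dvd_iff_le] at h5
      have h6 := w.1.isMaximal.eq_of_le w'.isPrime.ne_top h5
      exact w.2 ((HeightOneSpectrum.ext h6 : w.1 = w') ▸ hw')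
    · have h5 : ((n % M).toNat : ℤ) = n % M := Int.toNat_of_nonneg (Int.emod_nonneg _ hM0.ne')
      rw [h4, h5, ← Finsupp.single_sub]
      have h6 : n - n % M = (n / M) * M := by
        have := Int.emod_add_mul_ediv n M
        linarith
      rw [h6]
      have h7 : Finsupp.single w ((n / M) * M) = (n / M) • Finsupp.single w M := by
        rw [Finsupp.smul_single, smul_eq_mul]
      rw [h7]
      exact zsmul_mem h2 _

/-- the ray class group is finite -/
theorem finite_quot_P1 (hW : W.Finite) : Finite (Dv W ⧸ P1 W) := by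
  classical
  obtain ⟨Z, hZ1, hZ2⟩ := finite_res W hW
  choose I hI hIW hIa using exists_rep W hW
  -- for each class a representative
  let good : ClassGroup (𝓞 K) → Prop := fun c => ∃ a : Dv W,
    ClassGroup.mk0 ⟨I a, mem_nonZeroDivisors_of_ne_zero (hI a)⟩ = c
  choose! r hr using fun (c : ClassGroup (𝓞 K)) (hc : good c) => hc
  let f : ClassGroup (𝓞 K) × Z → Dv W ⧸ P1 W := fun p =>
    QuotientAddGroup.mk (di W (I (r p.1)) (hI _) + dv W (Additive.ofMul p.2.1))
  haveI : Finite (ClassGroup (𝓞 K)) := inferInstance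
  refine Finite.of_surjective f ?_
  intro q
  obtain ⟨a, rfl⟩ := QuotientAddGroup.mk_surjective q
  set c := ClassGroup.mk0 ⟨I a, mem_nonZeroDivisors_of_ne_zero (hI a)⟩ with hc
  have hgood : good c := ⟨a, rfl⟩
  obtain ⟨z, hz1, hz2⟩ := di_sub W (hI a) (hI (r c)) (hIW a) (hIW (r c)) (hr c hgood).symm
  obtain ⟨u, hu, hzu⟩ := hZ2 z hz1
  refine ⟨(c, ⟨u, hu⟩), ?_⟩
  change (QuotientAddGroup.mk (di W (I (r c)) (hI _) + dv W (Additive.ofMul u)) : Dv W ⧸ P1 W) = _
  rw [QuotientAddGroup.eq]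
  have h1 : dv W (Additive.ofMul (z * u⁻¹)) ∈ P1 W := (mem_P1 W).2 ⟨_, hzu, rfl⟩
  have h2 : -(di W (I (r c)) (hI _) + dv W (Additive.ofMul u)) + a =
      (a - di W (I a) (hI a)) + dv W (Additive.ofMul (z * u⁻¹)) := by
    rw [ofMul_mul, ofMul_inv, map_add, map_neg, hz2]
    abel
  rw [h2]
  exact add_mem (hIa a) h1

/-- the modulus -/
def md (hW : W.Finite) : Ideal (𝓞 K) := ∏ w ∈ hW.toFinset, w.asIdeal

theorem coprime_md (hW : W.Finite) {I : Ideal (𝓞 K)} :
    IsCoprime I (md W hW) ↔ ∀ w ∈ W, ¬ w.asIdeal ∣ I := by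
  unfold md
  rw [IsCoprime.prod_right_iff]
  constructor
  · intro h w hw hd
    have h1 := h w ((Set.Finite.mem_toFinset hW).2 hw)
    rw [Ideal.isCoprime_iff_sup_eq] at h1
    rw [Ideal.dvd_iff_le] at hd
    rw [sup_eq_right.2 hd] at h1
    exact w.isPrime.ne_top h1
  · intro h w hw
    have h1 := h w ((Set.Finite.mem_toFinset hW).1 hw)
    rw [Ideal.isCoprime_iff_sup_eq]
    by_contra h2
    apply h1
    rw [Ideal.dvd_iff_le]
    have h3 := w.isMaximal.eq_of_le h2 le_sup_right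
    rw [h3]
    exact le_sup_left

open Classical in
/-- the function on the ideals given by a character of the group of divisors -/
def etaW (ψ : Dv W → ℂ) (hψ0 : ψ 0 = 1) (hψ : ∀ a b, ψ (a + b) = ψ a * ψ b) :
    Ideal (𝓞 K) →*₀ ℂ where
  toFun I := if h : I ≠ 0 ∧ ∀ w ∈ W, ¬ w.asIdeal ∣ I then ψ (di W I h.1) else 0
  map_zero' := by
    rw [dif_neg]
    rintro ⟨h, -⟩
    exact h rfl
  map_one' := by
    have h : (1 : Ideal (𝓞 K)) ≠ 0 ∧ ∀ w ∈ W, ¬ w.asIdeal ∣ 1 :=
      ⟨one_ne_zero, fun w _ h => w.isPrime.ne_top (Ideal.isUnit_iff.1 (isUnit_of_dvd_one h))⟩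
    rw [dif_pos h, di_one, hψ0]
  map_mul' I J := by
    by_cases hI : I ≠ 0 ∧ ∀ w ∈ W, ¬ w.asIdeal ∣ I
    · by_cases hJ : J ≠ 0 ∧ ∀ w ∈ W, ¬ w.asIdeal ∣ J
      · have hIJ : I * J ≠ 0 ∧ ∀ w ∈ W, ¬ w.asIdeal ∣ I * J := by
          refine ⟨mul_ne_zero hI.1 hJ.1, fun w hw h => ?_⟩
          rcases (w.prime.dvd_mul).1 h with h | h
          · exact hI.2 w hw h
          · exact hJ.2 w hw h
        rw [dif_pos hI, dif_pos hJ, dif_pos hIJ, di_mul W hI.1 hJ.1, hψ]
      · rw [dif_neg hJ, mul_zero, dif_neg]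
        rintro ⟨h1, h2⟩
        exact hJ ⟨right_ne_zero_of_mul h1, fun w hw h => h2 w hw (h.mul_left _)⟩
    · rw [dif_neg hI, zero_mul, dif_neg]
      rintro ⟨h1, h2⟩
      exact hI ⟨left_ne_zero_of_mul h1, fun w hw h => h2 w hw (h.mul_right _)⟩

theorem etaW_pos (ψ : Dv W → ℂ) (hψ0 : ψ 0 = 1) (hψ : ∀ a b, ψ (a + b) = ψ a * ψ b)
    {I : Ideal (𝓞 K)} (hI : I ≠ 0) (hIW : ∀ w ∈ W, ¬ w.asIdeal ∣ I) :
    etaW W ψ hψ0 hψ I = ψ (di W I hI) := by
  classical
  exact dif_pos ⟨hI, hIW⟩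

theorem etaW_neg (ψ : Dv W → ℂ) (hψ0 : ψ 0 = 1) (hψ : ∀ a b, ψ (a + b) = ψ a * ψ b)
    {I : Ideal (𝓞 K)} (hI : ¬ (I ≠ 0 ∧ ∀ w ∈ W, ¬ w.asIdeal ∣ I)) :
    etaW W ψ hψ0 hψ I = 0 := by
  classical
  exact dif_neg hI

theorem isModChar (hW : W.Finite) (hne : W.Nonempty) (ψ : Dv W → ℂ) (hψ0 : ψ 0 = 1)
    (hψ : ∀ a b, ψ (a + b) = ψ a * ψ b) (hψ1 : ∀ a ∈ P1 W, ψ a = 1) :
    IsModChar (md W hW) (fun _ => 0) (etaW W ψ hψ0 hψ) where
  ne_bot := by
    unfold md
    rw [← Ideal.zero_eq_bot, Finset.prod_ne_zero_iff]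
    exact fun w _ => w.ne_bot
  ne_top := by
    intro h
    obtain ⟨w, hw⟩ := hne
    have h1 : w.asIdeal ∣ md W hW :=
      Finset.dvd_prod_of_mem (fun w : HeightOneSpectrum (𝓞 K) => w.asIdeal)
        ((Set.Finite.mem_toFinset hW).2 hw)
    rw [h, Ideal.dvd_iff_le, top_le_iff] at h1
    exact w.isPrime.ne_top h1
  sig_le := fun _ => zero_le_one
  cpx := fun _ _ => rfl
  supp := by
    intro I
    rw [coprime_md]
    constructor
    · intro h w hw hd
      apply h
      apply etaW_neg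
      rintro ⟨-, h2⟩
      exact h2 w hw hd
    · intro h
      have hI : I ≠ 0 := by
        rintro rfl
        obtain ⟨w, hw⟩ := hne
        exact h w hw (dvd_zero _)
      rw [etaW_pos W ψ hψ0 hψ hI h]
      intro h0
      have h1 := hψ (di W I hI) (-di W I hI)
      rw [add_neg_cancel, hψ0, h0, zero_mul] at h1
      exact one_ne_zero h1
  sig := by
    intro x hx hx1
    have hsg : sg (fun _ : InfinitePlace K => 0) (x : K) = 1 := by
      unfold sg
      exact Finset.prod_eq_one fun w _ => pow_zero _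
    rw [hsg]
    have hx' : (x : K) ≠ 0 := by exact_mod_cast hx
    have hmem : ∀ w ∈ W, x - 1 ∈ w.asIdeal := by
      intro w hw
      have h1 : w.asIdeal ∣ md W hW :=
        Finset.dvd_prod_of_mem (fun w : HeightOneSpectrum (𝓞 K) => w.asIdeal)
          ((Set.Finite.mem_toFinset hW).2 hw)
      rw [Ideal.dvd_iff_le] at h1
      exact h1 hx1
    have hsx : Ideal.span {x} ≠ 0 := by
      rw [Ideal.zero_eq_bot, Ne, Ideal.span_singleton_eq_bot]; exact hx
    have hspan : ∀ w ∈ W, ¬ w.asIdeal ∣ Ideal.span {x} := by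
      intro w hw hd
      rw [Ideal.dvd_iff_le, Ideal.span_singleton_le_iff_mem] at hd
      have h2 : (1 : 𝓞 K) ∈ w.asIdeal := by
        have := w.asIdeal.sub_mem hd (hmem w hw)
        rwa [sub_sub_cancel] at this
      exact w.isPrime.ne_top ((Ideal.eq_top_iff_one _).2 h2)
    rw [etaW_pos W ψ hψ0 hψ hsx hspan]
    apply hψ1
    rw [mem_P1]
    refine ⟨Units.mk0 (x : K) hx', fun w hw => ?_, ?_⟩
    · change w.valuation K ((x : K) - 1) < 1
      have e : (x : K) - 1 = ((x - 1 : 𝓞 K) : K) := by push_cast; rfl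
      rw [e, w.valuation_lt_one_iff_mem]
      exact hmem w hw
    · ext w
      rw [dv_apply, ordQ_eq_cnt w.1 _ x hx rfl, di_apply]

end

variable {F H G : Type} [Field F] [NumberField F] [Field H] [NumberField H] [Algebra F H]
  [CommGroup G] [Finite G] [MulSemiringAction G H] [IsGaloisGroup G F H]

/-- the ray class group of `H` modulo `T` is generated by the prime ideals over completely split
prime ideals of `F`: the subgroup generated by them is everything -/
theorem closure_top (D : RubinData F H G) (bad : Finset (HeightOneSpectrum (𝓞 F)))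
    (W : Set (HeightOneSpectrum (𝓞 H))) (hW : W.Finite) (hne : W.Nonempty)
    (hWb : ∀ w ∈ W, w ∈ badSet D bad) (B : AddSubgroup (Dv W)) (hP : P1 W ≤ B)
    (hB : ∀ w : {w : HeightOneSpectrum (𝓞 H) // w ∉ W}, w.1 ∉ badSet D bad →
      Finsupp.single w 1 ∈ B) : B = ⊤ := by
  classical
  haveI := finite_quot_P1 W hW
  haveI : Finite (Dv W ⧸ B) := by
    refine Finite.of_surjective (QuotientAddGroup.map (P1 W) B (AddMonoidHom.id _) hP) ?_
    intro q
    obtain ⟨a, rfl⟩ := QuotientAddGroup.mk_surjective q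
    exact ⟨QuotientAddGroup.mk a, rfl⟩
  rw [eq_top_iff]
  intro a _
  rw [← QuotientAddGroup.eq_zero_iff]
  by_contra hne'
  obtain ⟨χ, hχ⟩ := AddChar.exists_apply_ne_zero.2 hne'
  let ψ : Dv W → ℂ := fun b => χ (QuotientAddGroup.mk b)
  have hψ0 : ψ 0 = 1 := AddChar.map_zero_eq_one χ
  have hψ : ∀ b c, ψ (b + c) = ψ b * ψ c := fun b c =>
    AddChar.map_add_eq_mul χ (QuotientAddGroup.mk b) (QuotientAddGroup.mk c)
  have hψ1 : ∀ b ∈ B, ψ b = 1 := by
    intro b hb
    have : (QuotientAddGroup.mk b : Dv W ⧸ B) = 0 := (QuotientAddGroup.eq_zero_iff b).2 hb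
    change χ (QuotientAddGroup.mk b) = 1
    rw [this, AddChar.map_zero_eq_one]
  have hmod := isModChar W hW hne ψ hψ0 hψ fun b hb => hψ1 b (hP hb)
  have hprime : ∀ w : {w : HeightOneSpectrum (𝓞 H) // w ∉ W}, ∀ w' ∈ W,
      ¬ w'.asIdeal ∣ w.1.asIdeal := by
    intro w w' hw' hd
    rw [Ideal.dvd_iff_le] at hd
    have h6 := w.1.isMaximal.eq_of_le w'.isPrime.ne_top hd
    exact w.2 ((HeightOneSpectrum.ext h6 : w.1 = w') ▸ hw')
  have key := trivial_of_char hmod (badSet D bad) (fun v hv => by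
    have hvW : v ∉ W := fun h => hv (hWb v h)
    rw [etaW_pos W ψ hψ0 hψ v.ne_bot (hprime ⟨v, hvW⟩), di_prime W ⟨v, hvW⟩]
    exact hψ1 _ (hB ⟨v, hvW⟩ hv)) (summable_bad D bad) (not_summable_good D bad)
  -- all generators are mapped to one
  have h1 : ∀ w : {w : HeightOneSpectrum (𝓞 H) // w ∉ W}, ψ (Finsupp.single w 1) = 1 := by
    intro w
    have h2 := key w.1.asIdeal ((coprime_md W hW).2 (hprime w))
    rw [etaW_pos W ψ hψ0 hψ w.1.ne_bot (hprime w), di_prime W w] at h2
    exact h2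
  apply hχ
  change ψ a = 1
  clear hχ hne'
  let Ψ : AddSubgroup (Dv W) :=
    { carrier := {b | ψ b = 1}
      add_mem' := fun {b c} hb hc => by
        change ψ (b + c) = 1
        rw [hψ, show ψ b = 1 from hb, show ψ c = 1 from hc, one_mul]
      zero_mem' := hψ0
      neg_mem' := fun {b} hb => by
        have h2 := hψ b (-b)
        rw [add_neg_cancel, hψ0, show ψ b = 1 from hb, one_mul] at h2
        exact h2.symm }
  have h2 : a ∈ Ψ := by
    induction a using Finsupp.induction_linear with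
    | zero => exact zero_mem _
    | add b c hb hc => exact add_mem (hb trivial) (hc trivial)
    | single w n =>
      have h3 : Finsupp.single w n = n • Finsupp.single w (1 : ℤ) := by
        rw [Finsupp.smul_single, smul_eq_mul, mul_one]
      rw [h3]
      exact zsmul_mem (h1 w) n
  exact h2

/-- **Generation by completely split prime ideals.** -/
theorem exists_V (D : RubinData F H G) (bad T : Finset (HeightOneSpectrum (𝓞 F))) (hT : T.Nonempty) :
    ∃ V : Finset (HeightOneSpectrum (𝓞 F)), (∀ v ∈ V, v ∉ D.S ∧ v ∉ bad ∧ v ∉ T ∧ D.σ v = 1) ∧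
      Generates H ⊥ (V : Set (HeightOneSpectrum (𝓞 F))) (T : Set (HeightOneSpectrum (𝓞 F))) := by
  classical
  let W : Set (HeightOneSpectrum (𝓞 H)) := {w | Above (T : Set (HeightOneSpectrum (𝓞 F))) w}
  have hWm : ∀ w : HeightOneSpectrum (𝓞 H), w ∈ W ↔ bel F w ∈ T := fun w => by
    change Above (T : Set (HeightOneSpectrum (𝓞 F))) w ↔ _
    rw [above_iff (bel_spec w)]
    exact Finset.mem_coe
  have hW : W.Finite := by
    have : W ⊆ ⋃ v ∈ T, {w : HeightOneSpectrum (𝓞 H) | Above {v} w} := by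
      intro w hw
      simp only [Set.mem_iUnion]
      exact ⟨bel F w, (hWm w).1 hw, bel_spec w⟩
    exact Set.Finite.subset (Set.Finite.biUnion T.finite_toSet
      (fun v _ => (Pool.Agent.K3h25.RS.t_OVER F H v).2)) this
  have hne : W.Nonempty := by
    obtain ⟨t, ht⟩ := hT
    obtain ⟨w, hw⟩ := (Pool.Agent.K3h25.RS.t_OVER F H t).1
    exact ⟨w, (hWm w).2 (by rw [bel_eq hw]; exact ht)⟩
  have hWb : ∀ w ∈ W, w ∈ badSet D (bad ∪ T) := fun w hw =>
    Or.inr (Or.inl (Finset.mem_union_right _ ((hWm w).1 hw)))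
  haveI := finite_quot_P1 W hW
  -- the good primes
  let g : {w : {w : HeightOneSpectrum (𝓞 H) // w ∉ W} // w.1 ∉ badSet D (bad ∪ T)} →
    Dv W ⧸ P1 W := fun w => QuotientAddGroup.mk (Finsupp.single w.1 1)
  have hfin : (Set.range g).Finite := Set.toFinite _
  haveI := hfin.to_subtype
  choose r hr using fun y : Set.range g => y.2
  have hZ : (Set.range r).Finite := Set.finite_range r
  let V : Finset (HeightOneSpectrum (𝓞 F)) := hZ.toFinset.image fun w => bel F w.1.1
  have hVmem : ∀ y, bel F (r y).1.1 ∈ V := fun y =>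
    Finset.mem_image.2 ⟨r y, (Set.Finite.mem_toFinset hZ).2 ⟨y, rfl⟩, rfl⟩
  refine ⟨V, fun v hv => ?_, ?_⟩
  · obtain ⟨w, -, rfl⟩ := Finset.mem_image.1 hv
    have h1 := w.2
    unfold badSet at h1
    rw [Set.mem_setOf_eq, not_or, not_or, Finset.mem_union, not_or, not_not] at h1
    exact ⟨h1.1, h1.2.1.1, h1.2.1.2, h1.2.2⟩
  · let C : AddSubgroup (Dv W) := AddSubgroup.closure
      {a | ∃ y, a = Finsupp.single (r y).1 1}
    have hC : ∀ c ∈ C, ∀ w : {w : HeightOneSpectrum (𝓞 H) // w ∉ W}, bel F w.1 ∉ V → c w = 0 := by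
      intro c hc
      induction hc using AddSubgroup.closure_induction with
      | mem a ha =>
        obtain ⟨y, rfl⟩ := ha
        intro w hw
        refine Finsupp.single_eq_of_ne ?_
        rintro rfl
        exact hw (hVmem y)
      | zero => exact fun w _ => rfl
      | add a b _ _ ha hb =>
        intro w hw
        rw [Finsupp.add_apply, ha w hw, hb w hw, add_zero]
      | neg a _ ha =>
        intro w hw
        rw [Finsupp.neg_apply, ha w hw, neg_zero]
    have htop := closure_top D (bad ∪ T) W hW hne hWb (P1 W ⊔ C) le_sup_left (by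
      intro w hw
      have h1 := hr ⟨g ⟨w, hw⟩, ⟨_, rfl⟩⟩
      have h2 : (QuotientAddGroup.mk (Finsupp.single (r ⟨g ⟨w, hw⟩, ⟨_, rfl⟩⟩).1 1) :
        Dv W ⧸ P1 W) = QuotientAddGroup.mk (Finsupp.single w 1) := h1
      rw [QuotientAddGroup.eq] at h2
      have h3 : Finsupp.single w 1 = (-Finsupp.single (r ⟨g ⟨w, hw⟩, ⟨_, rfl⟩⟩).1 1 +
        Finsupp.single w 1) + Finsupp.single (r ⟨g ⟨w, hw⟩, ⟨_, rfl⟩⟩).1 (1 : ℤ) := by abel
      rw [h3]
      exact add_mem (AddSubgroup.mem_sup_left h2)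
        (AddSubgroup.mem_sup_right (AddSubgroup.subset_closure ⟨_, rfl⟩)))
    intro Q hQV hQT
    have hQW : Q ∉ W := hQT
    have h1 : Finsupp.single (⟨Q, hQW⟩ : {w : HeightOneSpectrum (𝓞 H) // w ∉ W}) (1 : ℤ) ∈
        P1 W ⊔ C := by
      rw [htop]; exact AddSubgroup.mem_top _
    obtain ⟨a, ha, c, hc, hac⟩ := AddSubgroup.mem_sup.1 h1
    obtain ⟨x, hx, hxa⟩ := (mem_P1 W).1 ha
    have h2 : ∀ w : {w : HeightOneSpectrum (𝓞 H) // w ∉ W}, bel F w.1 ∉ V →
        ordQ w.1 (Additive.ofMul x) =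
          Finsupp.single (⟨Q, hQW⟩ : {w : HeightOneSpectrum (𝓞 H) // w ∉ W}) (1 : ℤ) w := by
      intro w hw
      rw [← hac, Finsupp.add_apply, hC c hc w hw, add_zero, ← hxa]
      rfl
    refine ⟨1, one_mem _, one_pos, x, ?_, ?_, ?_⟩
    · rw [valuation_eq, h2 ⟨Q, hQW⟩ (by
        intro h
        exact hQV ((above_iff (bel_spec Q)).2 (Finset.mem_coe.2 h))), Finsupp.single_eq_same]
      rfl
    · intro w hwV hne'
      by_cases hwW : w ∈ W
      · have h := Valuation.map_one_add_of_lt (w.valuation H) (hx w hwW)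
        rwa [add_sub_cancel] at h
      · rw [← ordQ_eq_zero, h2 ⟨w, hwW⟩ (by
          intro h
          exact hwV ((above_iff (bel_spec w)).2 (Finset.mem_coe.2 h)))]
        exact Finsupp.single_eq_of_ne fun h => hne' (congrArg Subtype.val h)
    · intro w hw
      exact hx w hw

end Pool.Agent.H509
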