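import Pool.Agent.H509.Tors
import Pool.Graph.R_pool_sql_team_seeded_5cf16337.K3h12.RS.Ext
import Pool.Graph.R_pool_sql_team_seeded_5cf16337.K3h73.RS.Lam

/-!
# Homomorphisms to `ℚ[G]` and characters
-/

set_option autoImplicit false
set_option linter.unusedSectionVars false
set_option linter.style.haveILetI false

open NumberField IsDedekindDomain Filter Topology

noncomputable section

namespace Pool.Agent.H509

open Pool.Agent.K3h30.RS

section chars

variable {G A : Type} [CommGroup G] [Finite G] [AddCommGroup A] [DistribMulAction G A]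

/-- the action of `G` on the characters of `A`, as a representation -/
def repC (G A : Type) [CommGroup G] [AddCommGroup A] [DistribMulAction G A] :
    Representation ℤ G (A →+ QZ) where
  toFun γ :=
    { toFun := fun φ => φ.comp (DistribSMul.toAddMonoidHom A γ)
      map_add' := fun _ _ => rfl
      map_smul' := fun _ _ => rfl }
  map_one' := by
    ext φ a
    change φ ((1 : G) • a) = φ a
    rw [one_smul]
  map_mul' γ δ := by
    ext φ a
    change φ ((γ * δ) • a) = φ (δ • γ • a)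
    rw [mul_comm, mul_smul]

/-- the action of `ℤ[G]` on the characters of `A` -/
def op (n : MonoidAlgebra ℤ G) (φ : A →+ QZ) : A →+ QZ := (repC G A).asAlgebraHom n φ

theorem op_single (γ : G) (k : ℤ) (φ : A →+ QZ) (a : A) :
    op (MonoidAlgebra.single γ k) φ a = k • φ (γ • a) := by
  unfold op
  rw [Representation.asAlgebraHom_single]
  rfl

theorem op_add (n n' : MonoidAlgebra ℤ G) (φ : A →+ QZ) : op (n + n') φ = op n φ + op n' φ := by
  unfold op
  rw [map_add]
  rfl

theorem op_sub (n n' : MonoidAlgebra ℤ G) (φ : A →+ QZ) : op (n - n') φ = op n φ - op n' φ := by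
  unfold op
  rw [map_sub]
  rfl

theorem op_mul (n n' : MonoidAlgebra ℤ G) (φ : A →+ QZ) : op (n * n') φ = op n (op n' φ) := by
  unfold op
  rw [map_mul]
  rfl

theorem op_sum {ι : Type} (s : Finset ι) (n : ι → MonoidAlgebra ℤ G) (φ : A →+ QZ) :
    op (∑ i ∈ s, n i) φ = ∑ i ∈ s, op (n i) φ := by
  unfold op
  rw [map_sum]
  exact LinearMap.sum_apply _ _ _

theorem op_add_right (n : MonoidAlgebra ℤ G) (φ ψ : A →+ QZ) :
    op n (φ + ψ) = op n φ + op n ψ := map_add _ _ _

theorem op_sub_right (n : MonoidAlgebra ℤ G) (φ ψ : A →+ QZ) :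
    op n (φ - ψ) = op n φ - op n ψ := map_sub _ _ _

theorem op_zsmul (n : MonoidAlgebra ℤ G) (k : ℤ) (φ : A →+ QZ) :
    op n (k • φ) = k • op n φ := map_zsmul _ _ _

theorem op_nsmul (n : MonoidAlgebra ℤ G) (k : ℕ) (φ : A →+ QZ) :
    op n (k • φ) = k • op n φ := map_nsmul _ _ _

theorem op_intCast (k : ℤ) (φ : A →+ QZ) : op (k : MonoidAlgebra ℤ G) φ = k • φ := by
  unfold op
  rw [map_intCast]
  rfl

theorem op_natCast (k : ℕ) (φ : A →+ QZ) : op (k : MonoidAlgebra ℤ G) φ = k • φ := by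
  have h := op_intCast (G := G) (k : ℤ) φ
  rw [Int.cast_natCast] at h
  rw [h, natCast_zsmul]

theorem op_zero_right (n : MonoidAlgebra ℤ G) : op n (0 : A →+ QZ) = 0 := map_zero _

/-- equivariant homomorphisms to `ℚ[G]` -/
def Equi (Λ : A →+ MonoidAlgebra ℚ G) : Prop :=
  ∀ (γ : G) (a : A), Λ (γ • a) = MonoidAlgebra.single γ 1 * Λ a

/-- the class of the coefficient at `1` -/
def cl (Λ : A →+ MonoidAlgebra ℚ G) : A →+ QZ where
  toFun a := (((Λ a).coeff 1 : ℚ) : QZ)
  map_zero' := by simp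
  map_add' a b := by
    rw [map_add, MonoidAlgebra.coeff_add, Finsupp.add_apply, AddCircle.coe_add]

theorem cl_apply (Λ : A →+ MonoidAlgebra ℚ G) (a : A) :
    cl Λ a = (((Λ a).coeff 1 : ℚ) : QZ) := rfl

theorem coeff_eq {Λ : A →+ MonoidAlgebra ℚ G} (hΛ : Equi Λ) (γ : G) (a : A) :
    (((Λ a).coeff γ : ℚ) : QZ) = cl Λ (γ⁻¹ • a) := by
  rw [cl_apply, hΛ, MonoidAlgebra.coeff_single_mul_apply, one_mul, inv_inv, mul_one]

theorem cl_eq_zero_iff {Λ : A →+ MonoidAlgebra ℚ G} (hΛ : Equi Λ) :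
    cl Λ = 0 ↔ ∀ a, Λ a ∈ (toQ (G := G)).range := by
  constructor
  · intro h a
    rw [mem_range_toQ]
    intro γ
    rw [← QZ_zero, coeff_eq hΛ, h]
    rfl
  · intro h
    ext a
    have h1 := h a
    rw [mem_range_toQ] at h1
    rw [cl_apply]
    exact (QZ_zero _).2 (h1 1)

/-- multiplication by an element of `ℤ[G]` -/
def mulQ (n : MonoidAlgebra ℤ G) (Λ : A →+ MonoidAlgebra ℚ G) : A →+ MonoidAlgebra ℚ G :=
  (AddMonoidHom.mulLeft (toQ n)).comp Λ

theorem mulQ_apply (n : MonoidAlgebra ℤ G) (Λ : A →+ MonoidAlgebra ℚ G) (a : A) :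
    mulQ n Λ a = toQ n * Λ a := rfl

theorem Equi.mulQ {Λ : A →+ MonoidAlgebra ℚ G} (hΛ : Equi Λ) (n : MonoidAlgebra ℤ G) :
    Equi (mulQ n Λ) := by
  intro γ a
  rw [mulQ_apply, mulQ_apply, hΛ]
  ring

theorem Equi.sub {Λ Λ' : A →+ MonoidAlgebra ℚ G} (hΛ : Equi Λ) (hΛ' : Equi Λ') :
    Equi (Λ - Λ') := by
  intro γ a
  rw [AddMonoidHom.sub_apply, AddMonoidHom.sub_apply, hΛ, hΛ', mul_sub]

theorem cl_sub (Λ Λ' : A →+ MonoidAlgebra ℚ G) : cl (Λ - Λ') = cl Λ - cl Λ' := by
  ext a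
  rw [AddMonoidHom.sub_apply, cl_apply, cl_apply, cl_apply, AddMonoidHom.sub_apply,
    MonoidAlgebra.coeff_sub, Finsupp.sub_apply, AddCircle.coe_sub]

theorem cl_mulQ {Λ : A →+ MonoidAlgebra ℚ G} (hΛ : Equi Λ) (n : MonoidAlgebra ℤ G) :
    cl (mulQ n Λ) = op n (cl Λ) := by
  letI := Fintype.ofFinite G
  have key : ∀ (γ : G) (k : ℤ), cl (mulQ (MonoidAlgebra.single γ k) Λ) =
      op (MonoidAlgebra.single γ k) (cl Λ) := by
    intro γ k
    ext a
    rw [op_single, cl_apply, mulQ_apply]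
    have h1 : toQ (MonoidAlgebra.single γ k) = MonoidAlgebra.single γ (k : ℚ) :=
      toQ_single' γ k
    rw [h1, MonoidAlgebra.coeff_single_mul_apply, mul_one, ← zsmul_eq_mul, AddCircle.coe_zsmul,
      coeff_eq hΛ, inv_inv]
  conv_lhs => rw [eq_sum_single n]
  conv_rhs => rw [eq_sum_single n]
  rw [op_sum, ← Finset.sum_congr rfl fun γ _ => key γ (n.coeff γ)]
  ext a
  rw [cl_apply, mulQ_apply, map_sum, Finset.sum_mul, MonoidAlgebra.coeff_sum,
    Finsupp.finsetSum_apply, AddMonoidHom.finsetSum_apply, ← QuotientAddGroup.mk'_apply, map_sum]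
  rfl

/-- characters which are trivial on the torsion lift to `ℚ[G]` -/
theorem exists_lift_cl [AddGroup.FG A] (φ : A →+ QZ)
    (hφ : ∀ a : A, IsOfFinAddOrder a → φ a = 0) :
    ∃ Λ : A →+ MonoidAlgebra ℚ G, Equi Λ ∧ cl Λ = φ := by
  haveI := Fintype.ofFinite G
  classical
  obtain ⟨g, hg⟩ : ∃ g : A →+ ℚ, ∀ a, ((g a : ℚ) : QZ) = φ a := by
    haveI : Module.Finite ℤ A := Module.Finite.iff_addGroup_fg.mpr inferInstance
    let π : ℚ →ₗ[ℤ] QZ := (QuotientAddGroup.mk' (AddSubgroup.zmultiples (1 : ℚ))).toIntLinearMap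
    have hπ : Function.Surjective π := QuotientAddGroup.mk'_surjective _
    have hker : Submodule.torsion ℤ A ≤ LinearMap.ker φ.toIntLinearMap := by
      intro a ha
      obtain ⟨n, hn⟩ := ha
      rw [LinearMap.mem_ker]
      change φ a = 0
      apply hφ
      rw [isOfFinAddOrder_iff_zsmul_eq_zero]
      exact ⟨(n : ℤ), nonZeroDivisors.coe_ne_zero n, hn⟩
    obtain ⟨h, hh⟩ := Module.projective_lifting_property π
      ((Submodule.torsion ℤ A).liftQ φ.toIntLinearMap hker) hπ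
    refine ⟨(h.comp (Submodule.mkQ (Submodule.torsion ℤ A))).toAddMonoidHom, fun a => ?_⟩
    exact LinearMap.congr_fun hh (Submodule.mkQ (Submodule.torsion ℤ A) a)
  refine ⟨{ toFun := fun a => ∑ δ : G, MonoidAlgebra.single δ (g (δ⁻¹ • a))
            map_zero' := by simp
            map_add' := fun a b => by
              rw [← Finset.sum_add_distrib]
              refine Finset.sum_congr rfl fun δ _ => ?_
              rw [smul_add, map_add, MonoidAlgebra.single_add] }, ?_, ?_⟩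
  · intro γ a
    change ∑ δ : G, MonoidAlgebra.single δ (g (δ⁻¹ • γ • a)) =
      MonoidAlgebra.single γ 1 * ∑ δ : G, MonoidAlgebra.single δ (g (δ⁻¹ • a))
    rw [Finset.mul_sum]
    refine (Fintype.sum_equiv (Equiv.mulLeft γ) _ _ fun δ => ?_).symm
    rw [MonoidAlgebra.single_mul_single, one_mul, Equiv.coe_mulLeft, smul_smul, mul_inv_rev,
      inv_mul_cancel_right]
  · ext a
    change (((∑ δ : G, MonoidAlgebra.single δ (g (δ⁻¹ • a))).coeff 1 : ℚ) : QZ) = _
    rw [MonoidAlgebra.coeff_sum, Finsupp.finsetSum_apply, Finset.sum_eq_single 1]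
    · rw [MonoidAlgebra.coeff_single, Finsupp.single_eq_same, hg, inv_one, one_smul]
    · intro b _ hb
      rw [MonoidAlgebra.coeff_single, Finsupp.single_eq_of_ne]
      exact fun h => hb h.symm
    · intro h
      exact absurd (Finset.mem_univ _) h

/-- homomorphisms which are integral on the common kernel of the conjugates of `χ` -/
theorem exists_comb {m : ℕ} (hm : 0 < m) {χ : A →+ QZ} (hχ : ∀ a, m • χ a = 0)
    {f : A →+ MonoidAlgebra ℚ G} (hf : ∀ a, (∀ γ : G, χ (γ • a) = 0) → cl f a = 0) :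
    ∃ n : MonoidAlgebra ℤ G, cl f = op n χ := by
  letI := Fintype.ofFinite G
  obtain ⟨n, hn⟩ := Pool.Agent.K3h12.RSE.comb (J := G) m hm
    (fun γ => χ.comp (DistribSMul.toAddMonoidHom A γ)) (fun γ a => hχ _) (cl f)
    (fun a ha => hf a ha)
  refine ⟨∑ γ, MonoidAlgebra.single γ (n γ), ?_⟩
  ext a
  rw [op_sum, hn, AddMonoidHom.finsetSum_apply]
  refine Finset.sum_congr rfl fun γ _ => ?_
  rw [op_single]
  rfl

end chars

end Pool.Agent.H509
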