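import Pool.Agent.H509.Comb

/-!
# One homomorphism to `ℚ[G]` is enough
-/

set_option autoImplicit false
set_option linter.unusedSectionVars false
set_option linter.style.haveILetI false

noncomputable section

namespace Pool.Agent.H509

open Pool.Agent.K3h30.RS

variable {G A : Type} [CommGroup G] [Finite G] [AddCommGroup A] [DistribMulAction G A]

theorem tors_smul {a : A} (h : IsOfFinAddOrder a) (γ : G) : IsOfFinAddOrder (γ • a) := by
  rw [isOfFinAddOrder_iff_nsmul_eq_zero] at h ⊢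
  obtain ⟨n, hn, h1⟩ := h
  refine ⟨n, hn, ?_⟩
  have h2 := map_nsmul (DistribSMul.toAddMonoidHom A γ) n a
  rw [h1, map_zero] at h2
  exact h2.symm

theorem op_tors {φ : A →+ QZ} (h : ∀ a : A, IsOfFinAddOrder a → φ a = 0) (n : MonoidAlgebra ℤ G) :
    ∀ a : A, IsOfFinAddOrder a → op n φ a = 0 := by
  letI := Fintype.ofFinite G
  intro a ha
  rw [eq_sum_single n, op_sum, AddMonoidHom.finsetSum_apply]
  refine Finset.sum_eq_zero fun γ _ => ?_
  rw [op_single, h _ (tors_smul ha γ), smul_zero]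

theorem op_eigen {ρ : A →+ QZ}
    (hk : ∀ γ : G, ∃ k : ℤ, op (MonoidAlgebra.single γ 1) ρ = k • ρ) (n : MonoidAlgebra ℤ G) :
    ∃ K : ℤ, op n ρ = K • ρ := by
  letI := Fintype.ofFinite G
  choose k hk using hk
  refine ⟨∑ γ : G, n.coeff γ * k γ, ?_⟩
  conv_lhs => rw [eq_sum_single n]
  have h0 : (∑ γ : G, n.coeff γ * k γ) • ρ = ∑ γ : G, (n.coeff γ * k γ) • ρ := by
    rw [← zmultiplesHom_apply, map_sum]
    rfl
  rw [op_sum, h0]
  refine Finset.sum_congr rfl fun γ _ => ?_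
  have h1 : (MonoidAlgebra.single γ (n.coeff γ) : MonoidAlgebra ℤ G) =
      ((n.coeff γ : ℤ) : MonoidAlgebra ℤ G) * MonoidAlgebra.single γ 1 := by
    rw [← zsmul_eq_mul, MonoidAlgebra.smul_single, smul_eq_mul, mul_one]
  rw [h1, op_mul, hk, op_intCast, mul_smul]

theorem exists_common_lam [AddGroup.FG A] {m m' N₁ P : ℕ} (hm : 0 < m) {χ : A →+ QZ}
    (hχ : ∀ a, m • χ a = 0) {E : MonoidAlgebra ℤ G} {ρ : A →+ QZ} (hρ : ρ = op E (m' • χ))
    (hE : op E ρ = N₁ • ρ)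
    (hk : ∀ γ : G, ∃ k : ℤ, op (MonoidAlgebra.single γ 1) ρ = k • ρ)
    (h3a : ∀ a : A, IsOfFinAddOrder a → (N₁ • (m' • χ) - ρ) a = 0)
    (h3b : ∀ a : A, IsOfFinAddOrder a → (P • ρ) a = 0)
    (h4 : ∀ K : ℤ, (∀ a : A, IsOfFinAddOrder a → (K • ρ) a = 0) → (P : ℤ) ∣ K) :
    ∃ Λ : A →+ MonoidAlgebra ℚ G, Equi Λ ∧ (∀ a, (∀ γ : G, χ (γ • a) = 0) → cl Λ a = 0) ∧
      ∀ f : A →+ MonoidAlgebra ℚ G, Equi f → (∀ a, (∀ γ : G, χ (γ • a) = 0) → cl f a = 0) →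
        ∃ z : MonoidAlgebra ℤ G, ∀ a,
          ((N₁ * N₁ * m' : ℕ) : MonoidAlgebra ℚ G) * f a - toQ z * Λ a ∈ (toQ (G := G)).range := by
  letI := Fintype.ofFinite G
  set χ' : A →+ QZ := m' • χ with hχ'
  set ρ₂ : A →+ QZ := N₁ • χ' - ρ with hρ₂
  set ρ₃ : A →+ QZ := P • ρ + ρ₂ with hρ₃
  obtain ⟨Λ, hΛ1, hΛ2⟩ := exists_lift_cl (G := G) ρ₃ (by
    intro a ha
    rw [hρ₃, AddMonoidHom.add_apply, h3b a ha, h3a a ha, add_zero])
  have hχop : ∀ (n : MonoidAlgebra ℤ G) (a : A), (∀ γ : G, χ (γ • a) = 0) → op n χ a = 0 := by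
    intro n a ha
    rw [eq_sum_single n, op_sum, AddMonoidHom.finsetSum_apply]
    refine Finset.sum_eq_zero fun γ _ => ?_
    rw [op_single, ha, smul_zero]
  have hρ₃' : ρ₃ = op ((P : MonoidAlgebra ℤ G) * E * (m' : MonoidAlgebra ℤ G) +
      (N₁ : MonoidAlgebra ℤ G) * (m' : MonoidAlgebra ℤ G) - E * (m' : MonoidAlgebra ℤ G)) χ := by
    rw [hρ₃, hρ₂, hρ, op_sub, op_add, op_mul, op_mul, op_mul, op_mul, op_natCast, op_natCast,
      op_natCast, ← add_sub_assoc]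
  refine ⟨Λ, hΛ1, fun a ha => ?_, fun f hf1 hf2 => ?_⟩
  · rw [hΛ2, hρ₃']
    exact hχop _ a ha
  · obtain ⟨n, hn⟩ := exists_comb hm hχ hf2
    obtain ⟨K, hK⟩ := op_eigen hk n
    have hKP : (P : ℤ) ∣ K := by
      refine h4 K fun a ha => ?_
      rw [← hK, hρ, ← op_mul, mul_comm, op_mul, op_nsmul, ← hn]
      refine op_tors (fun b hb => ?_) E a ha
      rw [AddMonoidHom.nsmul_apply, cl_apply]
      have h1 : f b = 0 := by
        rw [isOfFinAddOrder_iff_nsmul_eq_zero] at hb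
        obtain ⟨k, hk0, hk1⟩ := hb
        have h2 := congrArg f hk1
        rw [map_nsmul, map_zero, nsmul_eq_mul] at h2
        refine natCast_cancel hk0 ?_
        rw [h2, mul_zero]
      rw [h1, MonoidAlgebra.coeff_zero, Finsupp.zero_apply]
      simp
    obtain ⟨K', rfl⟩ := hKP
    let z : MonoidAlgebra ℤ G := (K' : MonoidAlgebra ℤ G) * E + ((N₁ : MonoidAlgebra ℤ G) - E) * n
    refine ⟨z, ?_⟩
    have e1 : op E ρ₂ = 0 := by
      rw [hρ₂, op_sub_right, op_nsmul, ← hρ, hE, sub_self]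
    have e2 : op E ρ₃ = (P * N₁) • ρ := by
      rw [hρ₃, op_add_right, e1, op_nsmul, hE, add_zero, mul_smul]
    have e3 : op ((N₁ : MonoidAlgebra ℤ G) - E) ρ₃ = N₁ • ρ₂ := by
      rw [op_sub, op_natCast, e2, hρ₃, smul_add, mul_comm P, mul_smul]
      abel
    have e4 : op z ρ₃ = (N₁ * N₁ * m') • cl f := by
      have e5 : op z ρ₃ = K' • op E ρ₃ + op n (op ((N₁ : MonoidAlgebra ℤ G) - E) ρ₃) := by
        change op ((K' : MonoidAlgebra ℤ G) * E + ((N₁ : MonoidAlgebra ℤ G) - E) * n) ρ₃ = _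
        rw [op_add, op_mul, op_intCast, mul_comm _ n, op_mul]
      have e6 : op n ρ₂ = N₁ • op n χ' - ((P : ℤ) * K') • ρ := by
        rw [hρ₂, op_sub_right, op_nsmul, hK]
      rw [e5, e3, e2, op_nsmul, e6, hn, hχ', op_nsmul]
      simp only [← natCast_zsmul]
      push_cast
      module
    have h5 : Equi (mulQ ((N₁ * N₁ * m' : ℕ) : MonoidAlgebra ℤ G) f - mulQ z Λ) :=
      (hf1.mulQ _).sub (hΛ1.mulQ _)
    have h6 := (cl_eq_zero_iff h5).1 (by
      rw [cl_sub, cl_mulQ hf1, cl_mulQ hΛ1, hΛ2, e4, op_natCast, sub_self])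
    intro a
    have h7 := h6 a
    rw [AddMonoidHom.sub_apply, mulQ_apply, mulQ_apply, map_natCast] at h7
    exact h7

end Pool.Agent.H509
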