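import Pool.Agent.H509.PopAll

/-!
# Prime ideals which split completely and whose norm is not one modulo a prime power
-/

set_option autoImplicit false
set_option linter.unusedSectionVars false
set_option linter.style.haveILetI false

open NumberField IsDedekindDomain Filter Topology

noncomputable section

namespace Pool.Agent.H509

open Pool.Agent.K3h30.RS Pool.Agent.K3h62.RS Pool.Agent.K3h3.RS Pool.Agent.K3h81.RL
open Pool.Agent.N598.ST (AbRoot AbOm W)

variable {F H G : Type} [Field F] [NumberField F] [Field H] [NumberField H] [Algebra F H]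
  [CommGroup G] [Finite G] [MulSemiringAction G H] [IsGaloisGroup G F H]

open Classical in
/-- Chebotarev: a prime ideal which splits completely and whose norm is not one modulo `l`, if `H`
does not contain the `l`-th roots of unity -/
theorem exists_split_norm (D : RubinData F H G) {p e : ℕ} (hp : p.Prime)
    (hpe : ¬ p ^ e ∣ Units.torsionOrder H) (bad : Finset (HeightOneSpectrum (𝓞 F))) :
    ∃ t, t ∉ D.S ∧ t ∉ bad ∧ D.σ t = 1 ∧ ¬ ringChar (𝓞 F ⧸ t.asIdeal) ∣ Units.torsionOrder H ∧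
      ¬ p ^ e ∣ Ideal.absNorm t.asIdeal - 1 := by
  have hl0 : p ^ e ≠ 0 := pow_ne_zero _ hp.ne_zero
  have : NeZero (p ^ e) := ⟨hl0⟩
  let L := CyclotomicField (p ^ e) H
  obtain ⟨ζ, hζ⟩ := IsCyclotomicExtension.exists_isPrimitiveRoot (S := ({p ^ e} : Set ℕ))
    (n := p ^ e) H L rfl hl0
  have : IsGalois H L := IsCyclotomicExtension.isGalois {p ^ e} H L
  obtain ⟨Φ, hΦ⟩ : ∃ Φ : L ≃ₐ[H] L, Φ ζ ≠ ζ := by
    by_contra hcon
    push Not at hcon
    obtain ⟨z, hz⟩ := (IsGalois.mem_range_algebraMap_iff_fixed (F := H) (E := L) ζ).mpr hcon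
    apply hpe
    have hzp : IsPrimitiveRoot z (p ^ e) := by
      rw [← hz] at hζ
      exact IsPrimitiveRoot.of_map_of_injective hζ (algebraMap H L).injective
    have hz0 : z ≠ 0 := hzp.ne_zero hl0
    have h1 : (Units.mk0 z hz0) ^ (Units.torsionOrder H) = 1 := by
      refine pow_torsionOrder (isOfFinOrder_iff_pow_eq_one.2 ⟨p ^ e, Nat.pos_of_ne_zero hl0, ?_⟩)
      ext
      rw [Units.val_pow_eq_pow_val, Units.val_mk0, hzp.pow_eq_one, Units.val_one]
    refine hzp.dvd_of_pow_eq_one _ ?_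
    have h2 := congrArg (fun x : Hˣ => (x : H)) h1
    simpa using h2
  have hbadfin : {v : HeightOneSpectrum (𝓞 F) | v.asIdeal ∣ Ideal.span {(p : 𝓞 F)}}.Finite := by
    refine Ideal.finite_factors ?_
    rw [Ne, Ideal.zero_eq_bot, Ideal.span_singleton_eq_bot]
    exact_mod_cast hp.ne_zero
  obtain ⟨v', hv, P, ⟨v, hv', hPv⟩, hP⟩ := exists_of_pos (Pool.Agent.K3h73.RS.t_CHEB F L
    (Φ.restrictScalars F) (hbadfin.toFinset ∪
      (bad ∪ D.S ∪ (finite_small F (Units.torsionOrder H)).toFinset)))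
  rw [Set.mem_singleton_iff] at hv'
  subst hv'
  simp only [Finset.mem_union, not_or, Set.Finite.mem_toFinset, Set.mem_ofPred_eq, not_le] at hv
  obtain ⟨hvp, ⟨hvb, hvS⟩, hvw⟩ := hv
  have hlv : (p : 𝓞 F) ∉ v.asIdeal := by
    intro h
    apply hvp
    exact Ideal.dvd_iff_le.mpr ((Ideal.span_singleton_le_iff_mem _).mpr h)
  -- the prime of `H` below `P`
  have hPH : P.asIdeal.comap (algebraMap (𝓞 H) (𝓞 L)) ≠ ⊥ := by
    intro h0
    have h1 : P.asIdeal.comap (algebraMap (𝓞 F) (𝓞 L)) =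
        (P.asIdeal.comap (algebraMap (𝓞 H) (𝓞 L))).comap (algebraMap (𝓞 F) (𝓞 H)) := by
      rw [Ideal.comap_comap]
      rfl
    rw [h1, h0] at hPv
    apply v.ne_bot
    rw [← hPv]
    exact (RingHom.injective_iff_ker_eq_bot _).mp (FaithfulSMul.algebraMap_injective (𝓞 F) (𝓞 H))
  have := P.isPrime
  let w : HeightOneSpectrum (𝓞 H) :=
    ⟨P.asIdeal.comap (algebraMap (𝓞 H) (𝓞 L)), Ideal.comap_isPrime _ _, hPH⟩
  have hw : Above {v} w := by
    refine ⟨v, rfl, ?_⟩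
    rw [← hPv]
    change (P.asIdeal.comap (algebraMap (𝓞 H) (𝓞 L))).comap (algebraMap (𝓞 F) (𝓞 H)) = _
    rw [Ideal.comap_comap]
    rfl
  have hwx : ∀ x : 𝓞 H, w.valuation H ((x : H) - (x : H) ^ (Ideal.absNorm v.asIdeal)) < 1 := by
    intro x
    have h1 := hP (algebraMap (𝓞 H) (𝓞 L) x)
    have h2 : ((algebraMap (𝓞 H) (𝓞 L) x : 𝓞 L) : L) = algebraMap H L (x : H) := rfl
    rw [h2] at h1
    have h3 : (Φ.restrictScalars F) (algebraMap H L (x : H)) = algebraMap H L (x : H) :=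
      Φ.commutes _
    rw [h3] at h1
    have h4 : algebraMap H L (x : H) - algebraMap H L (x : H) ^ (Ideal.absNorm v.asIdeal) =
        ((algebraMap (𝓞 H) (𝓞 L) (x - x ^ (Ideal.absNorm v.asIdeal)) : 𝓞 L) : L) := by
      rw [map_sub, map_pow]
      push_cast
      rfl
    rw [h4] at h1
    have h5 := (P.valuation_lt_one_iff_mem (K := L) _).mp h1
    have h6 : x - x ^ (Ideal.absNorm v.asIdeal) ∈ w.asIdeal := h5
    have h7 := (w.valuation_lt_one_iff_mem (K := H) _).mpr h6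
    have h8 : (x : H) - (x : H) ^ (Ideal.absNorm v.asIdeal) =
        algebraMap (𝓞 H) H (x - x ^ (Ideal.absNorm v.asIdeal)) := by
      rw [map_sub, map_pow]
    rw [h8]
    exact h7
  have hfrob : IsFrob (H := H) v (1 : G) := by
    intro w' hw' x
    rw [one_smul]
    obtain ⟨γ, hγ⟩ := (Pool.Agent.K3h25.RS.t_TRANS F H G v w hw).2 w' hw'
    rw [hγ, smul_sub, smul_pow']
    exact hwx (γ • x)
  refine ⟨v, hvS, hvb, Pool.Agent.K3h23.RS.t_FROBUNIQ F H G v (D.unramified v hvS) _ _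
    (D.frob v hvS) hfrob, fun h => ?_, ?_⟩
  · exact absurd (Nat.le_of_dvd (Units.torsionOrder_pos H) h) (not_le.2 hvw)
  · intro hdvd
    have hNpos : 1 ≤ Ideal.absNorm v.asIdeal := by
      rw [Nat.one_le_iff_ne_zero, Ne, Ideal.absNorm_eq_zero_iff]
      exact v.ne_bot
    obtain ⟨k, hk⟩ := hdvd
    have hN : Ideal.absNorm v.asIdeal = 1 + p ^ e * k := by omega
    have hζi : IsIntegral ℤ ζ := hζ.isIntegral (Nat.pos_of_ne_zero hl0)
    have h1 : P.valuation L (Φ ζ - ζ ^ (Ideal.absNorm v.asIdeal)) < 1 := hP ⟨ζ, hζi⟩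
    rw [hN, pow_add, pow_mul, hζ.pow_eq_one, one_pow, mul_one, pow_one] at h1
    have hζ0 : ζ ≠ 0 := hζ.ne_zero hl0
    have hζv : P.valuation L ζ = 1 := by
      have h4 : (P.valuation L ζ) ^ (p ^ e) = 1 := by rw [← map_pow, hζ.pow_eq_one, map_one]
      exact (pow_eq_one_iff_of_nonneg zero_le hl0).mp h4
    have h5 : P.valuation L (Φ ζ / ζ - 1) < 1 := by
      have e : Φ ζ / ζ - 1 = (Φ ζ - ζ) / ζ := by rw [sub_div, div_self hζ0]
      rw [e, map_div₀, hζv, div_one]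
      exact h1
    have h6 := Pool.Agent.K3h36.RS.root_sub_one P (p ^ e) (Φ ζ / ζ)
      (by rw [div_pow, ← map_pow, hζ.pow_eq_one, map_one, div_one])
      (by
        intro h
        rw [div_eq_one_iff_eq hζ0] at h
        exact hΦ h) h5
    have h7 : ((p ^ e : ℕ) : L) = algebraMap (𝓞 L) L ((p : 𝓞 L) ^ e) := by
      rw [map_pow, map_natCast, Nat.cast_pow]
    rw [h7] at h6
    have h8 := (P.valuation_lt_one_iff_mem (K := L) _).mp h6
    have h9 : (p : 𝓞 L) ∈ P.asIdeal := P.isPrime.mem_of_pow_mem e h8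
    apply hlv
    rw [← hPv, Ideal.mem_comap, map_natCast]
    exact h9

/-- `w` is an integral combination of the elements `N t - 1` -/
theorem torsionOrder_mem (D : RubinData F H G) (bad : Finset (HeightOneSpectrum (𝓞 F)))
    (I : AddSubgroup ℤ)
    (hI : ∀ t, t ∉ D.S → t ∉ bad → D.σ t = 1 →
      ¬ ringChar (𝓞 F ⧸ t.asIdeal) ∣ Units.torsionOrder H →
      ((Ideal.absNorm t.asIdeal - 1 : ℕ) : ℤ) ∈ I) : ((Units.torsionOrder H : ℕ) : ℤ) ∈ I := by
  obtain ⟨g, hg⟩ := Int.subgroup_cyclic I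
  rw [← AddSubgroup.zmultiples_eq_closure] at hg
  rw [hg, Int.mem_zmultiples_iff]
  rw [← Int.natAbs_dvd_natAbs, Int.natAbs_natCast]
  by_contra hcon
  obtain ⟨p, k, hp, h1, h2⟩ : ∃ p k : ℕ, p.Prime ∧ p ^ k ∣ g.natAbs ∧
      ¬ p ^ k ∣ Units.torsionOrder H := by
    by_contra hall
    push Not at hall
    exact hcon ((Nat.dvd_iff_prime_pow_dvd_dvd _ _).2 hall)
  obtain ⟨t, ht1, ht2, ht3, ht4, ht5⟩ := exists_split_norm D hp h2 bad
  have h3 := hI t ht1 ht2 ht3 ht4
  rw [hg, Int.mem_zmultiples_iff, ← Int.natAbs_dvd_natAbs, Int.natAbs_natCast] at h3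
  exact ht5 (h1.trans h3)

end Pool.Agent.H509
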