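import Pool.Agent.H509.Chi4

/-!
# Rubin's conjecture for groups of exponent two: decomposition groups
-/

set_option autoImplicit false
set_option linter.unusedSectionVars false

open NumberField IsDedekindDomain Filter Topology

noncomputable section

namespace Pool.Agent.H509.E3

open Pool.Agent.K3h30.RS Pool.Agent.K3h56.E2 Pool.Agent.H509.Rec

/-- the capitulation kernel, with the classes which do not come from `F` -/
theorem cls2 {F K : Type} [Field F] [NumberField F] [Field K] [NumberField K] [Algebra F K]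
    (τ : K ≃ₐ[F] K) (hQ : Quad F K τ) (S : Finset (HeightOneSpectrum (𝓞 F)))
    (A : Finset (HeightOneSpectrum (𝓞 K))) (hA : Over S A) :
    (CA (A : Set (HeightOneSpectrum (𝓞 K))) ⊔ (ClassGroup.extendedHom (𝓞 F) (𝓞 K)).range).index *
      (CA (S : Set (HeightOneSpectrum (𝓞 F)))).index ∣
      (CA (A : Set (HeightOneSpectrum (𝓞 K)))).index *
        ((SU K (A : Set (HeightOneSpectrum (𝓞 K)))).map ((MonoidHom.id Kˣ) / actK τ)).relIndex
          (SU K (A : Set (HeightOneSpectrum (𝓞 K))) ⊓ minus τ) := by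
  set j := ClassGroup.extendedHom (𝓞 F) (𝓞 K) with hj
  set C' := (CA (A : Set (HeightOneSpectrum (𝓞 K)))).comap j with hC'
  have h1 : (CA (S : Set (HeightOneSpectrum (𝓞 F)))).relIndex C' ∣
      ((SU K (A : Set (HeightOneSpectrum (𝓞 K)))).map ((MonoidHom.id Kˣ) / actK τ)).relIndex
        (SU K (A : Set (HeightOneSpectrum (𝓞 K))) ⊓ minus τ) :=
    Pool.Agent.K3h92.E2.relIndex_dvd C' _ _ _
      (Pool.Agent.K3h92.E2.Rel τ (A : Set (HeightOneSpectrum (𝓞 K))))
      (fun c hc => Pool.Agent.K3h92.E2.rel_ex τ _ c hc)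
      (Pool.Agent.K3h92.E2.rel_mul τ _) (Pool.Agent.K3h92.E2.rel_mem τ hQ hA)
      (Pool.Agent.K3h92.E2.rel_uniq τ _) (Pool.Agent.K3h92.E2.rel_ker τ hQ hA)
  have h2 : C'.index * (CA (A : Set (HeightOneSpectrum (𝓞 K))) ⊔ j.range).index =
      (CA (A : Set (HeightOneSpectrum (𝓞 K)))).index := by
    rw [hC', Subgroup.index_comap, ← Subgroup.relIndex_sup_left,
      Subgroup.relIndex_mul_index le_sup_left]
  have h3 : (CA (S : Set (HeightOneSpectrum (𝓞 F)))).index ∣
      (CA (S : Set (HeightOneSpectrum (𝓞 F))) ⊓ C').index := Subgroup.index_dvd_of_le inf_le_left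
  have h4 : (CA (S : Set (HeightOneSpectrum (𝓞 F))) ⊓ C').index =
      (CA (S : Set (HeightOneSpectrum (𝓞 F)))).relIndex C' * C'.index := by
    rw [← Subgroup.relIndex_mul_index (inf_le_right :
      CA (S : Set (HeightOneSpectrum (𝓞 F))) ⊓ C' ≤ C'), Subgroup.inf_relIndex_right]
  rw [h4] at h3
  rw [← h2]
  calc _ ∣ (CA (A : Set (HeightOneSpectrum (𝓞 K))) ⊔ j.range).index *
        ((CA (S : Set (HeightOneSpectrum (𝓞 F)))).relIndex C' * C'.index) :=
        mul_dvd_mul_left _ h3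
    _ = C'.index * (CA (A : Set (HeightOneSpectrum (𝓞 K))) ⊔ j.range).index *
        (CA (S : Set (HeightOneSpectrum (𝓞 F)))).relIndex C' := by ring
    _ ∣ _ := mul_dvd_mul_left _ h1

section

variable {F H G : Type} [Field F] [NumberField F] [Field H] [NumberField H]
  [Algebra F H] [CommGroup G] [Finite G] [MulSemiringAction G H] [IsGaloisGroup G F H]

theorem a_dvd (D : RubinData F H G) (hG : ∀ g : G, g * g = 1) {χ : G →* ℂˣ}
    {K : Type} [Field K] [NumberField K] [Algebra F K] [Algebra K H] {τ : K ≃ₐ[F] K}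
    (hd : Dict F H G K τ χ) (A : Finset (HeightOneSpectrum (𝓞 K))) (hA : Over D.S A) {a : ℕ}
    (ha : (CA (A : Set (HeightOneSpectrum (𝓞 K)))).index *
        ((SU K A).map ((MonoidHom.id Kˣ) / actK τ)).relIndex (SU K A ⊓ minus τ) =
        (CA (D.S : Set (HeightOneSpectrum (𝓞 F)))).index * a) :
    (decK (H := H) D.S χ).relIndex χ.ker ∣ a := by
  have h1 := cls2 τ hd.quad D.S A hA
  rw [ha, mul_comm] at h1
  have h2 : (CA (D.S : Set (HeightOneSpectrum (𝓞 F)))).index ≠ 0 :=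
    Subgroup.index_ne_zero_of_finite
  exact (artK D hd hG A hA).trans (Nat.dvd_of_mul_dvd_mul_left (Nat.pos_of_ne_zero h2) h1)

/-- **The decomposition groups bound the class number of `F`.** -/
theorem artF (D : RubinData F H G) :
    (decK (H := H) D.S (1 : G →* ℂˣ)).relIndex (1 : G →* ℂˣ).ker ∣
      (CA (D.S : Set (HeightOneSpectrum (𝓞 F)))).index := by
  have hgal : IsGalois F H := IsGaloisGroup.isGalois G F H
  have hmem : ∀ (w : Place H) (g : H ≃ₐ[F] H), InS (D.S : Set (HeightOneSpectrum (𝓞 F))) w →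
      Fixes w (eK F F H G g) → eK F F H G g ∈ decK (H := H) D.S (1 : G →* ℂˣ) := fun w g hw hf =>
    Subgroup.subset_closure ⟨rfl, w, hw, hf⟩
  have h := artG (F := F) (K := F) (H := H) (decK (H := H) D.S (1 : G →* ℂˣ))
    (1 : G →* ℂˣ).ker (fun γ => ⟨fun _ x => smul_algebraMap γ x, fun _ => rfl⟩)
    (D.S : Set (HeightOneSpectrum (𝓞 F))) ?_ ?_ ?_ ⊥ ?_
  · rwa [sup_bot_eq] at h
  · intro w g hg
    by_cases hw : Above (D.S : Set (HeightOneSpectrum (𝓞 F))) w
    · exact hmem (Sum.inr w) g hw (fixes_of_act (act_of_inert hg))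
    · have h1 : w.under (𝓞 F) ∉ D.S := fun h => hw ⟨w.under (𝓞 F), h, rfl⟩
      rw [inert_one (F := F) (unr_of_squarefree (D.unramified _ h1)) hg, map_one]
      exact Subgroup.one_mem _
  · intro w hw g hg
    exact hmem (Sum.inr w) g ⟨_, hw, rfl⟩ (fixes_of_act hg)
  · intro ι g hg
    exact hmem (Sum.inl (InfinitePlace.mk ι)) g trivial (fixes_of_conj hg)
  · intro N hN hR c hc
    rw [Subgroup.mem_bot] at hc
    subst hc
    exact ⟨0, (Pool.Agent.Q92.AR.Pr F N).zero_mem, by rw [map_zero, ofMul_one], fun κ => map_zero _⟩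

/-- the arithmetic -/
theorem arith {G2 k a b e t : ℕ} (h : G2 ∣ 2 ^ (e + t) * k) (ha : k ∣ a) (hb : 2 ^ t ∣ b) :
    ∃ n : ℕ, (a * b * 2 ^ e : ℝ) = n * G2 := by
  obtain ⟨c, hc⟩ := h
  obtain ⟨a', rfl⟩ := ha
  obtain ⟨b', rfl⟩ := hb
  refine ⟨a' * b' * c, ?_⟩
  have h1 : k * a' * (2 ^ t * b') * 2 ^ e = a' * b' * c * G2 := by
    calc _ = (2 ^ (e + t) * k) * (a' * b') := by rw [pow_add]; ring
      _ = _ := by rw [hc]; ring
  exact_mod_cast h1

/-- **Rubin's conjecture for groups of exponent two**, from the decomposition groups -/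
theorem rubin_dec (D : RubinData F H G) (T : Finset (HeightOneSpectrum (𝓞 F))) (hT : D.Allowed T)
    (hG : ∀ g : G, g * g = 1)
    (h : ∀ χ : G →* ℂˣ, D.Active χ → Nat.card G ∣
      2 ^ ((Fintype.card (InfinitePlace F) + D.S.card - (D.r + 1)) + (oddCard T - (D.r + 1))) *
        (decK (H := H) D.S χ).relIndex χ.ker) : D.Rubin T := by
  refine Pool.Agent.K3h55.E2.t_ASM2 F H G D T hT hG fun χ => ?_
  by_cases hχ : χ = 1
  · subst hχ
    obtain ⟨h1, h2⟩ := one3 D T hT hG
    refine ⟨h1, fun ha => ?_⟩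
    obtain ⟨hr, x, q, b, hb1, hb2, hx, hq, hfin⟩ := h2 ha
    have h3 := h 1 ha
    rw [← hr, Nat.sub_self] at h3
    obtain ⟨n, hn⟩ := arith h3 (artF D) hb2
    rw [pow_zero, mul_one] at hn
    rcases hfin with h | h
    · refine ⟨x, q, n, hx, hq, ?_⟩
      rw [h, hn]
      push_cast
      ring
    · refine ⟨x, q, -n, hx, hq, ?_⟩
      rw [h, hn]
      push_cast
      ring
  · refine ⟨chi0 D hG χ hχ, fun ha => ?_⟩
    obtain ⟨K, _, _, _, _, τ, hd, A0, x, q, a, b, hA0, ha0, hb1, hb2, hx, hq, hfin⟩ :=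
      chi3 D T hT hG χ hχ ha
    obtain ⟨n, hn⟩ := arith (h χ ha) (a_dvd D hG hd A0 hA0 ha0) hb2
    rcases hfin with h | h
    · refine ⟨x, q, n, hx, hq, ?_⟩
      rw [h, hn]
      push_cast
      ring
    · refine ⟨x, q, -n, hx, hq, ?_⟩
      rw [h, hn]
      push_cast
      ring

end

end Pool.Agent.H509.E3
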