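import Mathlib

/-!
# Determinants
-/

set_option autoImplicit false

namespace Pool.Agent.H509

/-- contraction of a determinant with a linear form -/
theorem det_contract {R : Type*} [CommRing R] {r : ℕ} (n : R) (a : Fin (r + 1) → R)
    (B : Fin r → Fin (r + 1) → R) (b : Fin r → R) :
    ∑ j : Fin (r + 1), (-1) ^ (j : ℕ) * a j * Matrix.det (Matrix.of fun i l =>
      n * B i (j.succAbove l) - b i * a (j.succAbove l)) =
      n ^ r * Matrix.det (Matrix.of (Fin.cons a B : Fin (r + 1) → Fin (r + 1) → R)) := by
  have h1 := Matrix.det_succ_row_zero (Matrix.of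
    (Fin.cons a (fun i l => n * B i l - b i * a l) : Fin (r + 1) → Fin (r + 1) → R))
  have h2 : ∀ j : Fin (r + 1), (Matrix.of
    (Fin.cons a (fun i l => n * B i l - b i * a l) : Fin (r + 1) → Fin (r + 1) → R)).submatrix
      Fin.succ j.succAbove = Matrix.of fun i l =>
      n * B i (j.succAbove l) - b i * a (j.succAbove l) := by
    intro j
    ext i l
    simp
  simp only [h2, Matrix.of_apply, Fin.cons_zero] at h1
  rw [← h1]
  have h3 := Matrix.det_eq_of_forall_row_eq_smul_add_const
    (A := Matrix.of (Fin.cons a (fun i l => n * B i l - b i * a l) :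
      Fin (r + 1) → Fin (r + 1) → R))
    (B := Matrix.of (Fin.cons a (fun i l => n * B i l) : Fin (r + 1) → Fin (r + 1) → R))
    (Fin.cons 0 (fun i => - b i)) 0 (by rw [Fin.cons_zero]) (by
      intro i j
      refine Fin.cases ?_ (fun i => ?_) i
      · simp
      · simp [sub_eq_add_neg])
  rw [h3]
  have h4 := Matrix.det_mul_column (Fin.cons 1 (fun _ => n) : Fin (r + 1) → R)
    (Matrix.of (Fin.cons a B : Fin (r + 1) → Fin (r + 1) → R))
  rw [Fin.prod_univ_succ] at h4
  simp only [Fin.cons_zero, Fin.cons_succ, Finset.prod_const, Finset.card_univ,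
    Fintype.card_fin, one_mul] at h4
  rw [← h4]
  congr 1
  ext i j
  refine Fin.cases ?_ (fun i => ?_) i
  · simp
  · simp

/-- expansion along the first column -/
theorem det_cons_column {R : Type*} [CommRing R] {r : ℕ} (y : Fin (r + 1) → R)
    (B : Fin (r + 1) → Fin r → R) :
    Matrix.det (Matrix.of fun i => (Fin.cons (y i) (B i) : Fin (r + 1) → R)) =
      ∑ i : Fin (r + 1), (-1) ^ (i : ℕ) * y i * Matrix.det (Matrix.of fun a b =>
        B (i.succAbove a) b) := by
  rw [Matrix.det_succ_column_zero]
  refine Finset.sum_congr rfl fun i _ => ?_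
  simp only [Matrix.of_apply, Fin.cons_zero]
  congr 1

/-- a determinant whose first row is zero except for the first entry -/
theorem det_first_row {R : Type*} [CommRing R] {r : ℕ} (M : Fin (r + 1) → Fin (r + 1) → R)
    (h : ∀ b : Fin r, M 0 b.succ = 0) :
    Matrix.det (Matrix.of M) = M 0 0 * Matrix.det (Matrix.of fun (a b : Fin r) => M a.succ b.succ) := by
  rw [Matrix.det_succ_row_zero, Fin.sum_univ_succ]
  rw [Finset.sum_eq_zero, add_zero]
  · simp only [Fin.val_zero, pow_zero, one_mul, Matrix.of_apply, Fin.succAbove_zero]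
    rfl
  · intro i _
    simp [h i]

end Pool.Agent.H509
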