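import Pool.Agent.H509.Pow
import Pool.Agent.H509.Det

/-!
# From `S ∪ {q}` to `S`
-/

set_option autoImplicit false
set_option linter.unusedSectionVars false
set_option linter.style.haveILetI false

open NumberField IsDedekindDomain Filter Topology

noncomputable section

namespace Pool.Agent.H509

open Pool.Agent.K3h30.RS Pool.Agent.K3h62.RS Pool.Agent.K3h3.RS Pool.Agent.K3h81.RL

variable {F H G : Type} [Field F] [NumberField F] [Field H] [NumberField H] [Algebra F H]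
  [CommGroup G] [Finite G] [MulSemiringAction G H]

/-- the element `x ^ n * y ^ (- ord_Q x)` -/
def tw (G : Type) [CommGroup G] [Finite G] [MulSemiringAction G H] (n : ℕ)
    (Q : HeightOneSpectrum (𝓞 H)) (y x : Hˣ) : Hˣ :=
  x ^ n * (powG y (ordG G Q (Additive.ofMul x)))⁻¹

theorem tw_mem {U : Subgroup Hˣ} (hU : ∀ (γ : G), ∀ x ∈ U, act γ x ∈ U) (n : ℕ)
    (Q : HeightOneSpectrum (𝓞 H)) {x y : Hˣ} (hx : x ∈ U) (hy : y ∈ U) : tw G n Q y x ∈ U :=
  mul_mem (pow_mem hx n) (inv_mem (powG_mem hU hy _))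

theorem ghom_tw {U : Subgroup Hˣ} (hU : ∀ (γ : G), ∀ x ∈ U, act γ x ∈ U) (ψ : GHom G U) (n : ℕ)
    (Q : HeightOneSpectrum (𝓞 H)) (x y : U) (h : tw G n Q (y : Hˣ) (x : Hˣ) ∈ U) :
    ψ.f (Additive.ofMul ⟨tw G n Q (y : Hˣ) (x : Hˣ), h⟩) =
      (n : MonoidAlgebra ℤ G) * ψ.f (Additive.ofMul x) -
        ψ.f (Additive.ofMul y) * ordG G Q (Additive.ofMul (x : Hˣ)) := by
  have hy := powG_mem hU y.2 (ordG G Q (Additive.ofMul (x : Hˣ)))
  have h1 : (⟨tw G n Q (y : Hˣ) (x : Hˣ), h⟩ : U) = x ^ n *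
      (⟨powG (y : Hˣ) (ordG G Q (Additive.ofMul (x : Hˣ))), hy⟩ : U)⁻¹ := rfl
  rw [h1, ofMul_mul, ofMul_inv, ofMul_pow, map_add, map_neg, map_nsmul,
    ghom_powG hU ψ y _ hy, nsmul_eq_mul, mul_comm (ordG G Q _), sub_eq_add_neg]

theorem ordG_tw (n : ℕ) (Q Q' : HeightOneSpectrum (𝓞 H)) (x y : Hˣ) :
    ordG G Q' (Additive.ofMul (tw G n Q y x)) =
      (n : MonoidAlgebra ℤ G) * ordG G Q' (Additive.ofMul x) -
        ordG G Q' (Additive.ofMul y) * ordG G Q (Additive.ofMul x) := by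
  unfold tw
  rw [ofMul_mul, ofMul_inv, ofMul_pow, map_add, map_neg, map_nsmul, ordG_powG, nsmul_eq_mul,
    mul_comm (ordG G Q _), sub_eq_add_neg]

theorem reg_tw (n : ℕ) (Q : HeightOneSpectrum (𝓞 H)) (w : Place H) (x y : Hˣ) :
    reg G w (tw G n Q y x) =
      (n : MonoidAlgebra ℝ G) * reg G w x -
        reg G w y * toR (toQ (ordG G Q (Additive.ofMul x))) := by
  unfold tw
  rw [Pool.Agent.K3h4.RL.reg_mul, Pool.Agent.K3h4.RL.reg_inv, reg_pow, reg_powG,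
    mul_comm (toR _), sub_eq_add_neg]

section

variable [IsGaloisGroup G F H] (D : RubinData F H G) {q : HeightOneSpectrum (𝓞 F)}
    (hq : q ∉ D.S) (hσ : D.σ q = 1) {Q : HeightOneSpectrum (𝓞 H)} (hQ : Above {q} Q)
    (T : Finset (HeightOneSpectrum (𝓞 F)))

theorem mem_split_S {v : HeightOneSpectrum (𝓞 F)} :
    v ∈ (addSplit D q hq hσ Q hQ).S ↔ v = q ∨ v ∈ D.S := Finset.mem_cons (h := hq)

theorem U_le_split : D.U T ≤ (addSplit D q hq hσ Q hQ).U T := by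
  intro x hx
  refine ⟨fun w hw => hx.1 w fun h' => hw ?_, hx.2⟩
  obtain ⟨v, hv, h''⟩ := h'
  exact ⟨v, Finset.mem_coe.2 ((mem_split_S D hq hσ hQ).2 (Or.inr (Finset.mem_coe.1 hv))), h''⟩

/-- elements of `U_{S ∪ {q}, T}` of order zero are in `U_{S,T}` -/
theorem mem_of_ordG {x : Hˣ} (hx : x ∈ (addSplit D q hq hσ Q hQ).U T)
    (h : ordG G Q (Additive.ofMul x) = 0) : x ∈ D.U T := by
  refine ⟨fun w hw => ?_, hx.2⟩
  by_cases hw' : Above {q} w
  · obtain ⟨γ, hγ⟩ := (Pool.Agent.K3h25.RS.t_TRANS F H G q Q hQ).2 w hw'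
    rw [hγ]
    exact (ordG_eq_zero Q x).1 h γ
  · refine hx.1 w fun h' => ?_
    obtain ⟨v, hv, hvw⟩ := h'
    rcases (mem_split_S D hq hσ hQ).1 (Finset.mem_coe.1 hv) with rfl | hv
    · exact hw' ⟨v, rfl, hvw⟩
    · exact hw ⟨v, Finset.mem_coe.2 hv, hvw⟩

include hq hQ in
theorem ordG_of_mem {x : Hˣ} (hx : x ∈ D.U T) : ordG G Q (Additive.ofMul x) = 0 := by
  rw [ordG_eq_zero]
  intro γ
  refine (act_mem_U D T γ x hx).1 Q ?_
  rw [above_iff hQ]
  exact fun h => hq (Finset.mem_coe.1 h)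

theorem tw_mem_U {n : ℕ} {x y : Hˣ} (hx : x ∈ (addSplit D q hq hσ Q hQ).U T)
    (hy : y ∈ (addSplit D q hq hσ Q hQ).U T)
    (hn : ordG G Q (Additive.ofMul y) = (n : MonoidAlgebra ℤ G)) : tw G n Q y x ∈ D.U T := by
  refine mem_of_ordG D hq hσ hQ T (tw_mem (fun γ x hx => act_mem_U _ T γ x hx) n Q hx hy) ?_
  rw [ordG_tw, hn, sub_self]

/-- the `G`-homomorphism given by the order at `Q` -/
def ordHom (U : Subgroup Hˣ) (Q : HeightOneSpectrum (𝓞 H)) : GHom G U where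
  f := (ordG G Q).comp (MonoidHom.toAdditive U.subtype)
  equiv γ x y hxy := by
    change ordG G Q (Additive.ofMul (y : Hˣ)) = _
    rw [hxy, ordG_act]
    rfl

/-- minus the contraction of `u` with the order at `Q` -/
def desc {n : ℕ} {y : Hˣ} (hy : y ∈ (addSplit D q hq hσ Q hQ).U T)
    (hn : ordG G Q (Additive.ofMul y) = (n : MonoidAlgebra ℤ G))
    (u : Wedge G (D.r + 1) ((addSplit D q hq hσ Q hQ).U T)) : Wedge G D.r (D.U T) where
  n := u.n * (D.r + 1)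
  c i := -(((n : ℚ)⁻¹ ^ D.r) • (((-1) ^ ((finProdFinEquiv.symm i).2 : ℕ) *
    toQ (ordG G Q (Additive.ofMul (u.x (finProdFinEquiv.symm i).1 (finProdFinEquiv.symm i).2 : Hˣ)))) *
      u.c (finProdFinEquiv.symm i).1))
  x i l := ⟨tw G n Q y (u.x (finProdFinEquiv.symm i).1
    ((finProdFinEquiv.symm i).2.succAbove l) : Hˣ), tw_mem_U D hq hσ hQ T
      (u.x (finProdFinEquiv.symm i).1 ((finProdFinEquiv.symm i).2.succAbove l)).2 hy hn⟩

theorem sum_finProd {A : Type*} [AddCommMonoid A] {a b : ℕ} (f : Fin a × Fin b → A) :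
    ∑ i : Fin (a * b), f (finProdFinEquiv.symm i) = ∑ k : Fin a, ∑ j : Fin b, f (k, j) := by
  rw [Fintype.sum_equiv finProdFinEquiv.symm _ f (fun _ => rfl), Fintype.sum_prod_type]

theorem desc_value {n : ℕ} (hn0 : 0 < n) {y : Hˣ} (hy : y ∈ (addSplit D q hq hσ Q hQ).U T)
    (hn : ordG G Q (Additive.ofMul y) = (n : MonoidAlgebra ℤ G))
    (u : Wedge G (D.r + 1) ((addSplit D q hq hσ Q hQ).U T))
    (ψ : Fin D.r → GHom G (D.U T)) (ψ' : Fin D.r → GHom G ((addSplit D q hq hσ Q hQ).U T))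
    (h : ∀ i (x : D.U T), (ψ' i).f (Additive.ofMul ⟨(x : Hˣ), U_le_split D hq hσ hQ T x.2⟩) =
      (ψ i).f (Additive.ofMul x)) :
    (desc D hq hσ hQ T hy hn u).value ψ =
      -(u.value (Fin.cons (ordHom _ Q) ψ' : Fin (D.r + 1) → GHom G _)) := by
  have h1 := sum_finProd (fun p : Fin u.n × Fin (D.r + 1) =>
    -(((n : ℚ)⁻¹ ^ D.r) • (((-1) ^ (p.2 : ℕ) *
    toQ (ordG G Q (Additive.ofMul (u.x p.1 p.2 : Hˣ)))) * u.c p.1)) *
    toQ (Matrix.det (Matrix.of fun (a b : Fin D.r) => (n : MonoidAlgebra ℤ G) *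
      (ψ' a).f (Additive.ofMul (u.x p.1 (p.2.succAbove b))) -
        (ψ' a).f (Additive.ofMul ⟨y, hy⟩) *
        ordG G Q (Additive.ofMul (u.x p.1 (p.2.succAbove b) : Hˣ)))))
  have h2 : (desc D hq hσ hQ T hy hn u).value ψ = ∑ i : Fin (u.n * (D.r + 1)),
    -(((n : ℚ)⁻¹ ^ D.r) • (((-1) ^ ((finProdFinEquiv.symm i).2 : ℕ) *
    toQ (ordG G Q (Additive.ofMul (u.x (finProdFinEquiv.symm i).1
      (finProdFinEquiv.symm i).2 : Hˣ)))) * u.c (finProdFinEquiv.symm i).1)) *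
    toQ (Matrix.det (Matrix.of fun (a b : Fin D.r) => (n : MonoidAlgebra ℤ G) *
      (ψ' a).f (Additive.ofMul (u.x (finProdFinEquiv.symm i).1
        ((finProdFinEquiv.symm i).2.succAbove b))) -
        (ψ' a).f (Additive.ofMul ⟨y, hy⟩) *
        ordG G Q (Additive.ofMul (u.x (finProdFinEquiv.symm i).1
          ((finProdFinEquiv.symm i).2.succAbove b) : Hˣ)))) := by
    unfold Wedge.value
    refine Finset.sum_congr rfl fun i _ => ?_
    congr 3
    ext a b : 1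
    rw [Matrix.of_apply, ← h]
    exact ghom_tw (fun γ x hx => act_mem_U _ T γ x hx) (ψ' a) n Q
      (u.x (finProdFinEquiv.symm i).1 ((finProdFinEquiv.symm i).2.succAbove b)) ⟨y, hy⟩ _
  rw [h2, h1]
  unfold Wedge.value
  rw [← Finset.sum_neg_distrib]
  refine Finset.sum_congr rfl fun k _ => ?_
  have h3 := det_contract (n : MonoidAlgebra ℤ G)
    (fun b => ordG G Q (Additive.ofMul (u.x k b : Hˣ)))
    (fun a b => (ψ' a).f (Additive.ofMul (u.x k b)))
    (fun a => (ψ' a).f (Additive.ofMul ⟨y, hy⟩))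
  have h4 : (Matrix.of fun (a b : Fin (D.r + 1)) =>
      ((Fin.cons (ordHom _ Q) ψ' : Fin (D.r + 1) → GHom G _) a).f (Additive.ofMul (u.x k b))) =
      Matrix.of (Fin.cons (fun b => ordG G Q (Additive.ofMul (u.x k b : Hˣ)))
        (fun a b => (ψ' a).f (Additive.ofMul (u.x k b))) :
          Fin (D.r + 1) → Fin (D.r + 1) → MonoidAlgebra ℤ G) := by
    ext a b : 1
    refine Fin.cases ?_ (fun a => ?_) a
    · simp only [Matrix.of_apply, Fin.cons_zero]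
      rfl
    · simp only [Matrix.of_apply, Fin.cons_succ]
  change _ = -(u.c k * toQ (Matrix.det (Matrix.of fun (a b : Fin (D.r + 1)) =>
      ((Fin.cons (ordHom _ Q) ψ' : Fin (D.r + 1) → GHom G _) a).f (Additive.ofMul (u.x k b)))))
  rw [h4]
  have h5 := congrArg (fun z => (((n : ℚ)⁻¹ ^ D.r) • u.c k) * toQ z) h3
  simp only [map_mul, map_pow, map_natCast, map_sum, Finset.mul_sum] at h5
  rw [smul_natCast_mul hn0] at h5
  rw [← h5, ← Finset.sum_neg_distrib]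
  refine Finset.sum_congr rfl fun j _ => ?_
  rw [map_neg, map_one, smul_mul_assoc, neg_mul, smul_mul_assoc]
  congr 2
  ring

end

end Pool.Agent.H509
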