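import Pool.Agent.H509.Desc

/-!
# From `S ∪ {q}` to `S`: the Stark property
-/

set_option autoImplicit false
set_option linter.unusedSectionVars false
set_option linter.style.haveILetI false

open NumberField IsDedekindDomain Filter Topology

noncomputable section

namespace Pool.Agent.H509

open Pool.Agent.K3h30.RS Pool.Agent.K3h62.RS Pool.Agent.K3h3.RS Pool.Agent.K3h81.RL

variable {F H G : Type} [Field F] [NumberField F] [Field H] [NumberField H] [Algebra F H]
  [CommGroup G] [Finite G] [MulSemiringAction G H] [IsGaloisGroup G F H] (D : RubinData F H G)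
  {q : HeightOneSpectrum (𝓞 F)} (hq : q ∉ D.S) (hσ : D.σ q = 1) {Q : HeightOneSpectrum (𝓞 H)}
  (hQ : Above {q} Q) (T : Finset (HeightOneSpectrum (𝓞 F)))

/-- the active characters are the same -/
theorem active_split (χ : G →* ℂˣ) : (addSplit D q hq hσ Q hQ).Active χ ↔ D.Active χ := by
  have h1 : ∀ u : Place H, (InS (((addSplit D q hq hσ Q hQ).S : Finset (HeightOneSpectrum (𝓞 F))) :
        Set (HeightOneSpectrum (𝓞 F))) u ∧
      ∀ i, ¬ Conj G u ((addSplit D q hq hσ Q hQ).w i)) ↔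
      (InS (D.S : Set (HeightOneSpectrum (𝓞 F))) u ∧ ∀ i, ¬ Conj G u (D.w i)) := by
    intro u
    constructor
    · rintro ⟨hu, hc⟩
      rcases inS_cons (hq := hq) hu with h | ⟨w, rfl, hw⟩
      · exact ⟨h, fun i => hc (i.succ : Fin (D.r + 1))⟩
      · exact absurd (conj_above hQ hw) (hc (0 : Fin (D.r + 1)))
    · rintro ⟨hu, hc⟩
      refine ⟨inS_of_cons (hq := hq) hu, fun i => ?_⟩
      refine Fin.cases ?_ (fun j => ?_) i
      · exact not_conj (fun h => hq (Finset.mem_coe.1 h)) hQ hu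
      · exact hc j
  constructor
  · rintro (h | ⟨h, h'⟩)
    · left
      intro w hw hc
      obtain ⟨h2, h3⟩ := (h1 w).2 ⟨hw, hc⟩
      exact h w h2 h3
    · right
      refine ⟨h, fun w w' hw hw' hc hc' => ?_⟩
      obtain ⟨h2, h3⟩ := (h1 w).2 ⟨hw, hc⟩
      obtain ⟨h2', h3'⟩ := (h1 w').2 ⟨hw', hc'⟩
      exact h' w w' h2 h2' h3 h3'
  · rintro (h | ⟨h, h'⟩)
    · left
      intro w hw hc
      obtain ⟨h2, h3⟩ := (h1 w).1 ⟨hw, hc⟩
      exact h w h2 h3
    · right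
      refine ⟨h, fun w w' hw hw' hc hc' => ?_⟩
      obtain ⟨h2, h3⟩ := (h1 w).1 ⟨hw, hc⟩
      obtain ⟨h2', h3'⟩ := (h1 w').1 ⟨hw', hc'⟩
      exact h' w w' h2 h2' h3 h3'

theorem desc_er {n : ℕ} {y : Hˣ} (hy : y ∈ (addSplit D q hq hσ Q hQ).U T)
    (hn : ordG G Q (Additive.ofMul y) = (n : MonoidAlgebra ℤ G))
    (u : Wedge G (D.r + 1) ((addSplit D q hq hσ Q hQ).U T))
    (h : (addSplit D q hq hσ Q hQ).InER u) : D.InER (desc D hq hσ hQ T hy hn u) := by
  intro χ hχ i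
  have h1 := h χ (fun h2 => hχ ((active_split D hq hσ hQ χ).1 h2)) (finProdFinEquiv.symm i).1
  change charValue χ (toR (-(((n : ℚ)⁻¹ ^ D.r) • (((-1) ^ ((finProdFinEquiv.symm i).2 : ℕ) *
    toQ (ordG G Q (Additive.ofMul (u.x (finProdFinEquiv.symm i).1 (finProdFinEquiv.symm i).2 : Hˣ)))) *
      u.c (finProdFinEquiv.symm i).1)))) = 0
  rw [← cvQ_apply] at h1 ⊢
  rw [map_neg, map_rat_smul (cvQ χ), map_mul, h1, mul_zero, smul_zero, neg_zero]

theorem det_cons_smul {R : Type*} [CommRing R] {r : ℕ} (c : R) (a : Fin (r + 1) → R)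
    (B : Fin r → Fin (r + 1) → R) :
    Matrix.det (Matrix.of (Fin.cons (fun b => c * a b) B : Fin (r + 1) → Fin (r + 1) → R)) =
      c * Matrix.det (Matrix.of (Fin.cons a B : Fin (r + 1) → Fin (r + 1) → R)) := by
  have h4 := Matrix.det_mul_column (Fin.cons c (fun _ => 1) : Fin (r + 1) → R)
    (Matrix.of (Fin.cons a B : Fin (r + 1) → Fin (r + 1) → R))
  rw [Fin.prod_univ_succ] at h4
  simp only [Fin.cons_zero, Fin.cons_succ, Finset.prod_const_one, mul_one] at h4
  rw [← h4]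
  congr 1
  ext i j
  refine Fin.cases ?_ (fun i => ?_) i
  · simp
  · simp

theorem desc_regulator {n : ℕ} (hn0 : 0 < n) {y : Hˣ} (hy : y ∈ (addSplit D q hq hσ Q hQ).U T)
    (hn : ordG G Q (Additive.ofMul y) = (n : MonoidAlgebra ℤ G))
    (u : Wedge G (D.r + 1) ((addSplit D q hq hσ Q hQ).U T)) :
    u.regulator (addSplit D q hq hσ Q hQ).w =
      MonoidAlgebra.single 1 (Real.log (Ideal.absNorm Q.asIdeal : ℝ)) *
        (desc D hq hσ hQ T hy hn u).regulator D.w := by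
  have h1 := sum_finProd (fun p : Fin u.n × Fin (D.r + 1) =>
    toR (-(((n : ℚ)⁻¹ ^ D.r) • (((-1) ^ (p.2 : ℕ) *
    toQ (ordG G Q (Additive.ofMul (u.x p.1 p.2 : Hˣ)))) * u.c p.1))) *
    (Matrix.det (Matrix.of fun (a b : Fin D.r) => (n : MonoidAlgebra ℝ G) *
      reg G (D.w a) (u.x p.1 (p.2.succAbove b) : Hˣ) - reg G (D.w a) y *
        toR (toQ (ordG G Q (Additive.ofMul (u.x p.1 (p.2.succAbove b) : Hˣ)))))))
  have h2 : (desc D hq hσ hQ T hy hn u).regulator D.w = ∑ i : Fin (u.n * (D.r + 1)),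
    toR (-(((n : ℚ)⁻¹ ^ D.r) • (((-1) ^ ((finProdFinEquiv.symm i).2 : ℕ) *
    toQ (ordG G Q (Additive.ofMul (u.x (finProdFinEquiv.symm i).1
      (finProdFinEquiv.symm i).2 : Hˣ)))) * u.c (finProdFinEquiv.symm i).1))) *
    (Matrix.det (Matrix.of fun (a b : Fin D.r) => (n : MonoidAlgebra ℝ G) *
      reg G (D.w a) (u.x (finProdFinEquiv.symm i).1 ((finProdFinEquiv.symm i).2.succAbove b) : Hˣ) -
        reg G (D.w a) y *
        toR (toQ (ordG G Q (Additive.ofMul (u.x (finProdFinEquiv.symm i).1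
          ((finProdFinEquiv.symm i).2.succAbove b) : Hˣ)))))) := by
    unfold Wedge.regulator
    refine Finset.sum_congr rfl fun i _ => ?_
    congr 2
    ext a b : 1
    rw [Matrix.of_apply]
    exact reg_tw n Q (D.w a) _ y
  rw [h2, h1]
  unfold Wedge.regulator
  rw [Finset.mul_sum]
  refine Finset.sum_congr rfl fun k _ => ?_
  have h3 := det_contract (n : MonoidAlgebra ℝ G)
    (fun b => toR (toQ (ordG G Q (Additive.ofMul (u.x k b : Hˣ)))))
    (fun a b => reg G (D.w a) (u.x k b : Hˣ)) (fun a => reg G (D.w a) y)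
  have h4 : (Matrix.of fun (a b : Fin (D.r + 1)) =>
      reg G ((addSplit D q hq hσ Q hQ).w a) (u.x k b : Hˣ)) =
      Matrix.of (Fin.cons (fun b => MonoidAlgebra.single 1
        (-(Real.log (Ideal.absNorm Q.asIdeal : ℝ))) *
        toR (toQ (ordG G Q (Additive.ofMul (u.x k b : Hˣ)))))
        (fun a b => reg G (D.w a) (u.x k b : Hˣ)) :
          Fin (D.r + 1) → Fin (D.r + 1) → MonoidAlgebra ℝ G) := by
    ext a b : 1
    refine Fin.cases ?_ (fun a => ?_) a
    · exact reg_Q Q _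
    · rfl
  change toR (u.c k) * Matrix.det (Matrix.of fun (a b : Fin (D.r + 1)) =>
      reg G ((addSplit D q hq hσ Q hQ).w a) (u.x k b : Hˣ)) = _
  rw [h4, det_cons_smul]
  have h5 := congrArg (fun z => (((n : ℚ)⁻¹ ^ D.r) • toR (u.c k)) * z) h3
  simp only [Finset.mul_sum] at h5
  rw [smul_natCast_mul hn0] at h5
  have h6 : MonoidAlgebra.single (1 : G) (-(Real.log (Ideal.absNorm Q.asIdeal : ℝ))) =
      -MonoidAlgebra.single (1 : G) (Real.log (Ideal.absNorm Q.asIdeal : ℝ)) :=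
    MonoidAlgebra.single_neg _ _
  rw [h6]
  have h7 : toR (u.c k) * (-MonoidAlgebra.single (1 : G)
      (Real.log (Ideal.absNorm Q.asIdeal : ℝ)) * Matrix.det
      (Matrix.of (Fin.cons (fun b => toR (toQ (ordG G Q (Additive.ofMul (u.x k b : Hˣ)))))
        (fun a b => reg G (D.w a) (u.x k b : Hˣ)) :
          Fin (D.r + 1) → Fin (D.r + 1) → MonoidAlgebra ℝ G))) =
      MonoidAlgebra.single (1 : G) (Real.log (Ideal.absNorm Q.asIdeal : ℝ)) *
      -(toR (u.c k) * Matrix.det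
      (Matrix.of (Fin.cons (fun b => toR (toQ (ordG G Q (Additive.ofMul (u.x k b : Hˣ)))))
        (fun a b => reg G (D.w a) (u.x k b : Hˣ)) :
          Fin (D.r + 1) → Fin (D.r + 1) → MonoidAlgebra ℝ G))) := by ring
  rw [h7, ← h5, ← Finset.sum_neg_distrib]
  congr 1
  refine Finset.sum_congr rfl fun j _ => ?_
  rw [map_neg, map_rat_smul toR, map_mul, map_mul, map_pow, map_neg, map_one, smul_mul_assoc,
    neg_mul, smul_mul_assoc]
  congr 2
  ring

theorem LT_split (χ : G →* ℂˣ) (s : ℂ) :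
    (addSplit D q hq hσ Q hQ).LT T χ s =
      (1 - (Ideal.absNorm q.asIdeal : ℂ) ^ (-s)) * D.LT T χ s := by
  change (∏ v ∈ T, (1 - ((χ (D.σ v) : ℂˣ) : ℂ) * (Ideal.absNorm v.asIdeal : ℂ) ^ (1 - s))) *
    ((1 - (χ (D.σ q) : ℂ) * (Ideal.absNorm q.asIdeal : ℂ) ^ (-s)) * D.L χ s) = _
  rw [hσ, map_one, Units.val_one, one_mul]
  unfold RubinData.LT
  ring

theorem log_ne (q : HeightOneSpectrum (𝓞 F)) :
    Complex.log ((Ideal.absNorm q.asIdeal : ℕ) : ℂ) ≠ 0 := by
  rw [Complex.natCast_log.symm]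
  have h3 := two_le_absNorm q
  have h4 : Real.log ((Ideal.absNorm q.asIdeal : ℕ) : ℝ) ≠ 0 :=
    (Real.log_pos (by exact_mod_cast (by omega : 1 < Ideal.absNorm q.asIdeal))).ne'
  exact_mod_cast h4

/-- comparison of the Stark properties for `S ∪ {q}` and `S` -/
theorem stark_split {U U' : Subgroup Hˣ} (u : Wedge G D.r U) (u' : Wedge G (D.r + 1) U')
    (h : u'.regulator (addSplit D q hq hσ Q hQ).w =
      MonoidAlgebra.single 1 (Real.log (Ideal.absNorm Q.asIdeal : ℝ)) * u.regulator D.w) :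
    (addSplit D q hq hσ Q hQ).IsStark T u' ↔ D.IsStark T u := by
  have hN := absNorm_eq (hσ ▸ D.frob q hq) hQ
  refine forall_congr' fun χ => ?_
  have hf := tendsto_factor (Ideal.absNorm q.asIdeal) (two_le_absNorm q)
  have hlog := log_ne q
  have e1 : charValue χ (Wedge.regulator (r := (addSplit D q hq hσ Q hQ).r) u'
      (addSplit D q hq hσ Q hQ).w) =
      Complex.log ((Ideal.absNorm q.asIdeal : ℕ) : ℂ) * charValue χ (u.regulator D.w) := by
    refine (congrArg (charValue χ) h).trans ?_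
    rw [charValue_mul, charValue_eq χ (MonoidAlgebra.single _ _), cvHom_single, hN]
    congr 1
    rw [map_one, Units.val_one]
    rw [Complex.natCast_log.symm]
    simp
  have e2 : ∀ s : ℂ, s ≠ 0 → (s ^ (addSplit D q hq hσ Q hQ).r)⁻¹ *
      (addSplit D q hq hσ Q hQ).LT T χ⁻¹ s =
      (s⁻¹ * (1 - ((Ideal.absNorm q.asIdeal : ℕ) : ℂ) ^ (-s))) *
        ((s ^ D.r)⁻¹ * D.LT T χ⁻¹ s) := by
    intro s hs
    rw [LT_split]
    change (s ^ (D.r + 1))⁻¹ * _ = _
    rw [pow_succ]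
    field_simp
  constructor
  · intro h1
    rw [e1] at h1
    have h2 := (hf.inv₀ hlog).mul h1
    rw [← mul_assoc, inv_mul_cancel₀ hlog, one_mul] at h2
    refine h2.congr' ?_
    filter_upwards [self_mem_nhdsWithin, hf.eventually_ne hlog] with s hs hs'
    rw [e2 s hs, ← mul_assoc, inv_mul_cancel₀ hs', one_mul]
  · intro h1
    rw [e1]
    refine (hf.mul h1).congr' ?_
    filter_upwards [self_mem_nhdsWithin] with s hs
    exact (e2 s hs).symm

theorem desc_stark {n : ℕ} (hn0 : 0 < n) {y : Hˣ} (hy : y ∈ (addSplit D q hq hσ Q hQ).U T)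
    (hn : ordG G Q (Additive.ofMul y) = (n : MonoidAlgebra ℤ G))
    (u : Wedge G (D.r + 1) ((addSplit D q hq hσ Q hQ).U T))
    (h : (addSplit D q hq hσ Q hQ).IsStark T u) : D.IsStark T (desc D hq hσ hQ T hy hn u) :=
  (stark_split D hq hσ hQ T _ u (desc_regulator D hq hσ hQ T hn0 hy hn u)).1 h

end Pool.Agent.H509
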