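import Pool.Agent.H509.TwR
import Pool.Graph.R_pool_sql_team_seeded_5cf16337.K3h73.RS.Lam

/-!
# Removing a prime ideal from `T`
-/

set_option autoImplicit false
set_option linter.unusedSectionVars false
set_option linter.style.haveILetI false

open NumberField IsDedekindDomain Filter Topology

noncomputable section

namespace Pool.Agent.H509

open Pool.Agent.K3h30.RS Pool.Agent.K3h62.RS Pool.Agent.K3h3.RS Pool.Agent.K3h81.RL

variable {F H G : Type} [Field F] [NumberField F] [Field H] [NumberField H] [Algebra F H]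
  [CommGroup G] [Finite G] [MulSemiringAction G H]

section

variable [IsGaloisGroup G F H] (D : RubinData F H G)

/-- the exponent `w` kills the torsion of `U_{S,T}` -/
def Kills (w : ℕ) (T : Finset (HeightOneSpectrum (𝓞 F))) : Prop :=
  ∀ x ∈ D.U T, IsOfFinOrder x → x ^ w = 1

/-- the action on `U_{S,T}` -/
@[reducible] def actU (T : Finset (HeightOneSpectrum (𝓞 F))) : DistribMulAction G (Additive (D.U T)) :=
  actionA (H := H) (G := G) Pool.Agent.K3h25.RS.t_TRANS (D.S : Set (HeightOneSpectrum (𝓞 F)))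
    (T : Set (HeightOneSpectrum (𝓞 F)))

theorem fgAdd (T : Finset (HeightOneSpectrum (𝓞 F))) : AddGroup.FG (Additive (D.U T)) :=
  AddGroup.fg_iff_addMonoid_fg.2 (Monoid.fg_iff_add_fg.1 (Group.fg_iff_monoid_fg.1 (fg_U D T)))

/-- the lifted character at a prime ideal `τ` over `t` -/
theorem exists_lam {w : ℕ} (T : Finset (HeightOneSpectrum (𝓞 F))) (hw : Kills D w T)
    {t : HeightOneSpectrum (𝓞 F)} (ht : t ∉ D.S) {τ : HeightOneSpectrum (𝓞 H)}
    (hτ : Above {t} τ) (χ : Additive (unitsAt τ) →+ QZ)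
    (hχ : ∀ x : unitsAt τ, χ (Additive.ofMul x) = 0 ↔ τ.valuation H (((x : Hˣ) : H) - 1) < 1) :
    letI := actU D T
    ∃ d : LocData G (Additive (D.U T)) w (Ideal.absNorm t.asIdeal) (D.σ t),
      ∀ (γ : G) (x : D.U T) (h : act γ (x : Hˣ) ∈ unitsAt τ),
        d.χ (γ • Additive.ofMul x) = χ (Additive.ofMul ⟨act γ (x : Hˣ), h⟩) := by
  letI := actU D T
  haveI := fgAdd D T
  have hSτ : ¬ Above (D.S : Set (HeightOneSpectrum (𝓞 F))) τ := by
    rw [above_iff hτ]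
    exact fun h => ht (Finset.mem_coe.1 h)
  let i : D.U T →* unitsAt τ :=
    { toFun := fun x => ⟨x.1, x.2.1 τ hSτ⟩
      map_one' := rfl
      map_mul' := fun _ _ => rfl }
  let χ' : Additive (D.U T) →+ QZ := χ.comp (MonoidHom.toAdditive i)
  have hval : ∀ (γ : G) (x : D.U T) (h : act γ (x : Hˣ) ∈ unitsAt τ),
      χ' (γ • Additive.ofMul x) = χ (Additive.ofMul ⟨act γ (x : Hˣ), h⟩) := fun γ x h => rfl
  have hw' : ∀ a : Additive (D.U T), IsOfFinAddOrder a → w • a = 0 := by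
    intro a ha
    obtain ⟨n, hn, h1⟩ := isOfFinAddOrder_iff_nsmul_eq_zero.1 ha
    have h2 : ((Additive.toMul a : D.U T) : Hˣ) ^ n = 1 := by
      have := congrArg (fun z : Additive (D.U T) => ((Additive.toMul z : D.U T) : Hˣ)) h1
      exact this
    have h3 := hw _ (Additive.toMul a : D.U T).2 (isOfFinOrder_iff_pow_eq_one.2 ⟨n, hn, h2⟩)
    apply Additive.toMul.injective
    exact Subtype.ext h3
  obtain ⟨Λ, hΛ1, hΛ2⟩ := Pool.Agent.K3h73.RS.t_LAM G (Additive (D.U T)) w hw' χ'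
  refine ⟨⟨χ', Λ, hΛ1, hΛ2, ?_⟩, hval⟩
  intro a
  obtain ⟨x, rfl⟩ : ∃ x, Additive.ofMul x = a := ⟨Additive.toMul a, rfl⟩
  have hm : act (D.σ t) (x : Hˣ) ∈ unitsAt τ := (act_mem_U D T (D.σ t) x x.2).1 τ hSτ
  rw [hval _ _ hm]
  have h3 := Pool.Agent.K3h44.RS.t_FROBU F H G t (D.σ t) (D.frob t ht) τ hτ (x : Hˣ)
    (x.2.1 τ hSτ)
  have h4 := char_eq hχ ⟨act (D.σ t) (x : Hˣ), hm⟩ (i x ^ Ideal.absNorm t.asIdeal) (by
    change τ.valuation H ((act (D.σ t) (x : Hˣ) : H) -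
      (((x : Hˣ) ^ Ideal.absNorm t.asIdeal : Hˣ) : H)) < 1
    rw [Units.val_pow_eq_pow_val]
    exact h3)
  rw [h4, ofMul_pow, map_nsmul]
  rfl

end

variable [IsGaloisGroup G F H] (D : RubinData F H G) {q : HeightOneSpectrum (𝓞 F)}
  (hq : q ∉ D.S) (hσ : D.σ q = 1) {Q : HeightOneSpectrum (𝓞 H)} (hQ : Above {q} Q)

open Classical in
theorem drop_intM {M : Submonoid ℕ} {T : Finset (HeightOneSpectrum (𝓞 F))}
    {t : HeightOneSpectrum (𝓞 F)} (ht : t ∉ D.S) (htT : t ∉ T) (hqT : q ∉ T) (hqt : q ≠ t)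
    (hdis : Disjoint D.S T) {w : ℕ} (hwM : w ∈ M)
    (hw : Kills (addSplit D q hq hσ Q hQ) w T)
    (hgen : Generates H M (D.S : Set (HeightOneSpectrum (𝓞 F)))
      ((insert t T : Finset (HeightOneSpectrum (𝓞 F))) : Set (HeightOneSpectrum (𝓞 F))))
    (u₀ : Wedge G D.r (D.U ∅)) (e₀ : D.InER u₀) (s₀ : D.IsStark ∅ u₀)
    (h : RubinM M (addSplit D q hq hσ Q hQ) (insert t T)) :
    IntM M D (U_le D ∅) u₀ T := by
  -- the prime ideal over `t` and its character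
  obtain ⟨τ, hτ⟩ := (Pool.Agent.K3h25.RS.t_OVER F H t).1
  obtain ⟨χ, hχ, -⟩ := Pool.Agent.K3h44.RS.t_DLOG H τ
  have htS2 : t ∉ (addSplit D q hq hσ Q hQ).S := by
    rw [mem_split_S]
    rintro (h1 | h1)
    · exact hqt h1.symm
    · exact ht h1
  -- the element at `Q`
  have hQS : ¬ Above (D.S : Set (HeightOneSpectrum (𝓞 F))) Q := by
    rw [above_iff hQ]
    exact fun h => hq (Finset.mem_coe.1 h)
  have hQT : ¬ Above ((insert t T : Finset (HeightOneSpectrum (𝓞 F))) :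
      Set (HeightOneSpectrum (𝓞 F))) Q := by
    rw [above_iff hQ]
    intro h
    rcases Finset.mem_insert.1 (Finset.mem_coe.1 h) with h | h
    · exact hqt h
    · exact hqT h
  obtain ⟨n, hn, hn0, x, hx1, hx2, hx3⟩ := hgen Q hQS hQT
  -- the unit with given residue classes
  obtain ⟨n', hn', hn'0, u, hu, huU, hu1, hu2⟩ := exists_unit_res D htT hgen hτ χ hχ
  have hxU : x ∈ (addSplit D q hq hσ Q hQ).U (insert t T) := by
    refine ⟨fun w hw => hx2 w (fun h4 => hw ?_) ?_, hx3⟩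
    · obtain ⟨v, hv, hvw⟩ := above_mem h4
      rw [above_iff hvw]
      exact Finset.mem_coe.2 ((mem_split_S D hq hσ hQ).2 (Or.inr (Finset.mem_coe.1 hv)))
    · rintro rfl
      apply hw
      rw [above_iff hQ]
      exact Finset.mem_coe.2 ((mem_split_S D hq hσ hQ).2 (Or.inl rfl))
  have hxord : ordG G Q (Additive.ofMul x) = (n : MonoidAlgebra ℤ G) := by
    refine ordG_eq_nat D hq hσ hQ ?_ fun w hw hne => hx2 w ?_ hne
    · rw [valuation_eq, WithZero.exp_inj, neg_inj] at hx1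
      exact hx1
    · rw [above_iff hw]
      exact fun h => hq (Finset.mem_coe.1 h)
  let y : Hˣ := u * x
  have hxT : x ∈ (addSplit D q hq hσ Q hQ).U T :=
    ⟨hxU.1, fun w hw => hxU.2 w (above_mono (Finset.coe_subset.2 (Finset.subset_insert _ _)) hw)⟩
  have hyT : y ∈ (addSplit D q hq hσ Q hQ).U T :=
    mul_mem (U_le_split D hq hσ hQ T huU) hxT
  have hyS : y ∈ US (addSplit D q hq hσ Q hQ) := mem_US_of_mem _ T hyT
  have hy0 : y ∈ (addSplit D q hq hσ Q hQ).U ∅ := mem_U_empty _ hyS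
  have hyn : ordG G Q (Additive.ofMul y) = (n : MonoidAlgebra ℤ G) := by
    change ordG G Q (Additive.ofMul (u * x)) = _
    rw [ofMul_mul, map_add, hxord, ordG_of_mem D hq hQ T huU, zero_add]
  -- the lifted character
  letI := actU (addSplit D q hq hσ Q hQ) T
  obtain ⟨d, hd⟩ := exists_lam (addSplit D q hq hσ Q hQ) T hw htS2 hτ χ hχ
  change LocData G (Additive ((addSplit D q hq hσ Q hQ).U T)) w (Ideal.absNorm t.asIdeal)
    (D.σ t) at d
  have hN : 1 < Ideal.absNorm t.asIdeal := by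
    have := two_le_absNorm t
    omega
  have hττ : ¬ Above ((addSplit D q hq hσ Q hQ).S : Set (HeightOneSpectrum (𝓞 F))) τ := by
    rw [above_iff hτ]
    exact fun h => htS2 (Finset.mem_coe.1 h)
  have hmemτ : ∀ (γ : G) (z : (addSplit D q hq hσ Q hQ).U T), act γ (z : Hˣ) ∈ unitsAt τ :=
    fun γ z => (act_mem_U (addSplit D q hq hσ Q hQ) T γ z z.2).1 τ hττ
  have hy1 : ∀ w : HeightOneSpectrum (𝓞 H), Above {t} w → w ≠ τ →
      w.valuation H ((y : H) - 1) < 1 := by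
    intro w hw hne
    have h1 : u ∈ U1 {w : HeightOneSpectrum (𝓞 H) | Above {t} w ∧ w ≠ τ} :=
      fun w hw => hu1 w hw.1 hw.2
    have h2 : x ∈ U1 {w : HeightOneSpectrum (𝓞 H) | Above {t} w ∧ w ≠ τ} := by
      intro w hw
      refine hx3 w ?_
      rw [above_iff hw.1]
      exact Finset.mem_coe.2 (Finset.mem_insert_self _ _)
    exact (mul_mem h1 h2) w ⟨hw, hne⟩
  obtain ⟨s, hs⟩ := lam_value hN d (Additive.ofMul ⟨y, hyT⟩) n' (by
    intro γ hγ
    rw [hd γ ⟨y, hyT⟩ (hmemτ γ ⟨y, hyT⟩), hχ]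
    obtain ⟨w', hw', h5⟩ := (Pool.Agent.K3h25.RS.t_TRANS F H G t τ hτ).1 γ
    have hne : w' ≠ τ := by
      rintro rfl
      refine hγ (Pool.Agent.K3h92.RS.t_DECOMP F H G t (D.unramified t ht) (D.σ t) (D.frob t ht)
        w' hτ γ ?_)
      intro z
      change HeightOneSpectrum.adicAbv H w' (γ • z) = HeightOneSpectrum.adicAbv H w' z
      rw [HeightOneSpectrum.adicAbv_def, HeightOneSpectrum.adicAbv_def, h5 z]
    have h6 := hy1 w' hw' hne
    rw [h5, smul_sub, smul_one] at h6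
    exact h6) (by
    have h1 : (Additive.ofMul (⟨y, hyT⟩ : (addSplit D q hq hσ Q hQ).U T)) =
      (1 : G) • Additive.ofMul (⟨y, hyT⟩ : (addSplit D q hq hσ Q hQ).U T) := (one_smul _ _).symm
    rw [h1, hd 1 ⟨y, hyT⟩ (hmemτ 1 ⟨y, hyT⟩)]
    have hxτ : x ∈ unitsAt τ := val_one_of_sub (hx3 τ (by
      rw [above_iff hτ]
      exact Finset.mem_coe.2 (Finset.mem_insert_self _ _)))
    have h2 : (⟨act (1 : G) y, hmemτ 1 ⟨y, hyT⟩⟩ : unitsAt τ) = ⟨u, hu⟩ * ⟨x, hxτ⟩ := by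
      apply Subtype.ext
      exact act_one _
    have h3 : χ (Additive.ofMul (⟨x, hxτ⟩ : unitsAt τ)) = 0 := by
      rw [hχ]
      refine hx3 τ ?_
      rw [above_iff hτ]
      exact Finset.mem_coe.2 (Finset.mem_insert_self _ _)
    change χ (Additive.ofMul (⟨act (1 : G) y, hmemτ 1 ⟨y, hyT⟩⟩ : unitsAt τ)) = _
    rw [h2, ofMul_mul, map_add, h3, add_zero, hu2,
      absNorm_order (D.unramified t ht) (D.frob t ht) hτ])
  -- the functional `f₀`
  have hdis2 : Disjoint (addSplit D q hq hσ Q hQ).S T := by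
    rw [Finset.disjoint_left]
    intro v hv
    rcases (mem_split_S D hq hσ hQ).1 hv with rfl | hv
    · exact hqT
    · exact Finset.disjoint_left.1 hdis hv
  have hΛe : ∀ (γ : G) (x y : (addSplit D q hq hσ Q hQ).U T), (y : Hˣ) = act γ (x : Hˣ) →
      d.Λ (Additive.ofMul y) = MonoidAlgebra.single γ 1 * d.Λ (Additive.ofMul x) := by
    intro γ x y hxy
    rw [← d.equiv]
    congr 1
    apply Additive.toMul.injective
    exact Subtype.ext hxy
  obtain ⟨f₀, hf₀, hf₀'⟩ := exists_ratExt (addSplit D q hq hσ Q hQ) T hdis2 d.Λ hΛe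
  have hf₀i : IntOn (addSplit D q hq hσ Q hQ) (insert t T) f₀ := by
    intro z hz
    have hzT : (z : Hˣ) ∈ (addSplit D q hq hσ Q hQ).U T :=
      ⟨hz.1, fun w hw => hz.2 w (above_mono (Finset.coe_subset.2 (Finset.subset_insert _ _)) hw)⟩
    rw [hf₀' z hzT, mem_range_toQ]
    intro γ
    rw [← QZ_zero, d.lift, hd γ⁻¹ ⟨(z : Hˣ), hzT⟩ (hmemτ γ⁻¹ ⟨(z : Hˣ), hzT⟩)]
    have h1 : χ (Additive.ofMul ⟨act γ⁻¹ (z : Hˣ), hmemτ γ⁻¹ ⟨(z : Hˣ), hzT⟩⟩) = 0 := by
      rw [hχ]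
      have h2 := act_mem_U (addSplit D q hq hσ Q hQ) (insert t T) γ⁻¹ (z : Hˣ) hz
      refine h2.2 τ ?_
      rw [above_iff hτ]
      exact Finset.mem_coe.2 (Finset.mem_insert_self _ _)
    rw [h1, smul_zero]
  -- the elements
  have s₂ : (addSplit D q hq hσ Q hQ).IsStark ∅ (asc (n := n) D hq hσ hQ ∅ hy0 u₀) :=
    (stark_split D hq hσ hQ ∅ u₀ _ (asc_regulator D hq hσ hQ ∅ hn0 hy0 hyn u₀)).2 s₀
  have e₂ : (addSplit D q hq hσ Q hQ).InER (asc (n := n) D hq hσ hQ ∅ hy0 u₀) :=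
    asc_er D hq hσ hQ ∅ hy0 u₀ e₀
  have hqT' : q ∉ insert t T := by
    rw [Finset.mem_insert, not_or]
    exact ⟨hqt, hqT⟩
  have I₂ := intM_of_rubinM (addSplit D q hq hσ Q hQ) (U_le _ ∅) _ e₂ s₂ (insert t T) h
  have I₁ := intM_of_rubinM D (U_le D ∅) u₀ e₀ s₀ (insert t T)
    (desc_thm D hq hσ hQ (insert t T) hqT' M h)
  intro g hg hgi
  obtain ⟨m₁, hm₁, z₁, hz₁⟩ := I₁ g hg (fun i x hx => hgi i x
    ⟨hx.1, fun w hw => hx.2 w (above_mono (Finset.coe_subset.2 (Finset.subset_insert _ _)) hw)⟩)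
  obtain ⟨m₂, hm₂, z₂, hz₂⟩ := I₂ (Fin.cons f₀ (fun i => (g i).comp
      (twHom D hq hσ hQ hy0 hyn)) : Fin (D.r + 1) →
        Additive (US (addSplit D q hq hσ Q hQ)) →+ MonoidAlgebra ℚ G) (by
      intro i
      refine Fin.cases ?_ (fun i => ?_) i
      · exact hf₀
      · exact tw_equiv D hq hσ hQ hy0 hyn (g i) (hg i)) (by
      intro i
      refine Fin.cases ?_ (fun i => ?_) i
      · exact hf₀i
      · intro x hx
        exact tw_int D hq hσ hQ hy0 hyn (g i) (hgi i) hyT x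
          ⟨hx.1, fun w hw => hx.2 w
            (above_mono (Finset.coe_subset.2 (Finset.subset_insert _ _)) hw)⟩)
  have h5 := asc_wval D hq hσ hQ hy0 hyn hn0 hyS u₀ f₀ g
  rw [hf₀' ⟨y, hyS⟩ hyT] at h5
  set A := wval D (U_le D ∅) g u₀ with hA
  set B := wval (addSplit D q hq hσ Q hQ) (U_le (addSplit D q hq hσ Q hQ) ∅)
      (Fin.cons f₀ (fun i => (g i).comp (twHom D hq hσ hQ hy0 hyn)) : Fin (D.r + 1) →
        Additive (US (addSplit D q hq hσ Q hQ)) →+ MonoidAlgebra ℚ G)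
      (asc (n := n) D hq hσ hQ ∅ hy0 u₀) with hB
  have hδ : (addSplit D q hq hσ Q hQ).delta (insert t T) =
      (1 - MonoidAlgebra.single (D.σ t)⁻¹ (Ideal.absNorm t.asIdeal : ℚ)) * D.delta T :=
    delta_insert D htT
  rw [hδ] at hz₂
  rw [delta_insert D htT] at hz₁
  set δ : MonoidAlgebra ℚ G :=
    (1 - MonoidAlgebra.single (D.σ t)⁻¹ (Ideal.absNorm t.asIdeal : ℚ)) with hδdef
  refine ⟨m₁ * m₂ * (n ^ D.r * (w * n')), mul_mem (mul_mem hm₁ hm₂)
    (mul_mem (pow_mem hn _) (mul_mem hwM hn')), ?_⟩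
  -- the computation
  have h6 : (m₂ : MonoidAlgebra ℚ G) * (n : MonoidAlgebra ℚ G) ^ D.r *
      ((w * n' : ℕ) : MonoidAlgebra ℚ G) * (D.delta T * A) =
      (n : MonoidAlgebra ℚ G) * toQ z₂ + (m₂ : MonoidAlgebra ℚ G) *
        (n : MonoidAlgebra ℚ G) ^ D.r * (δ * toQ s) * (D.delta T * A) := by
    rw [hz₂]
    have h7 : (n : MonoidAlgebra ℚ G) * ((m₂ : MonoidAlgebra ℚ G) * (δ * D.delta T * B)) =
        (m₂ : MonoidAlgebra ℚ G) * (D.delta T) * δ * ((n : MonoidAlgebra ℚ G) * B) := by ring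
    rw [h7, h5]
    have h8 : δ * d.Λ (Additive.ofMul ⟨y, hyT⟩) =
        -((w * n' : ℕ) : MonoidAlgebra ℚ G) + δ * toQ s := hs
    linear_combination ((m₂ : MonoidAlgebra ℚ G) * D.delta T *
      (n : MonoidAlgebra ℚ G) ^ D.r * A) * h8
  have h9 : ((m₁ * m₂ * (n ^ D.r * (w * n')) : ℕ) : MonoidAlgebra ℚ G) * (D.delta T * A) =
      (m₁ : MonoidAlgebra ℚ G) * ((n : MonoidAlgebra ℚ G) * toQ z₂) +
        (m₂ : MonoidAlgebra ℚ G) * (n : MonoidAlgebra ℚ G) ^ D.r * toQ s * toQ z₁ := by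
    rw [hz₁]
    push_cast at h6 ⊢
    linear_combination (m₁ : MonoidAlgebra ℚ G) * h6
  rw [h9]
  exact add_mem (mul_mem (natCast_mem _ _) (mul_mem (natCast_mem _ _) ⟨_, rfl⟩))
    (mul_mem (mul_mem (mul_mem (natCast_mem _ _) (pow_mem (natCast_mem _ _) _)) ⟨_, rfl⟩)
      ⟨_, rfl⟩)

end Pool.Agent.H509
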