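import Pool.Agent.H509.Desc2
import Pool.Graph.R_pool_sql_team_seeded_5cf16337.K3h30.RS.Large
import Pool.Graph.R_pool_sql_team_seeded_5cf16337.K3h30.RS.LInt

/-!
# Existence of elements with given orders
-/

set_option autoImplicit false
set_option linter.unusedSectionVars false
set_option linter.style.haveILetI false

open NumberField IsDedekindDomain Filter Topology

noncomputable section

namespace Pool.Agent.H509

open Pool.Agent.K3h30.RS Pool.Agent.K3h62.RS Pool.Agent.K3h3.RS Pool.Agent.K3h81.RL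

/-- the class group is finite -/
theorem exists_pi {H : Type} [Field H] [NumberField H] (Q : HeightOneSpectrum (𝓞 H)) :
    ∃ x : Hˣ, (∀ w : HeightOneSpectrum (𝓞 H), w ≠ Q → w.valuation H (x : H) = 1) ∧
      Q.valuation H (x : H) < 1 := by
  obtain ⟨n, hcard, hn⟩ : ∃ n : ℕ, n ≠ 0 ∧ ∀ c : ClassGroup (𝓞 H), c ^ n = 1 :=
    ⟨Fintype.card (ClassGroup (𝓞 H)), Fintype.card_ne_zero, fun c => pow_card_eq_one⟩
  have h0 : Q.asIdeal ∈ nonZeroDivisors (Ideal (𝓞 H)) := mem_nonZeroDivisors_of_ne_zero Q.ne_bot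
  have hI : Q.asIdeal ^ n ∈ nonZeroDivisors (Ideal (𝓞 H)) := pow_mem h0 n
  have h1 : ClassGroup.mk0 (⟨Q.asIdeal ^ n, hI⟩ : nonZeroDivisors (Ideal (𝓞 H))) = 1 := by
    have h2 : (⟨Q.asIdeal ^ n, hI⟩ : nonZeroDivisors (Ideal (𝓞 H))) = ⟨Q.asIdeal, h0⟩ ^ n :=
      Subtype.ext (by rw [SubmonoidClass.coe_pow])
    rw [h2, map_pow, hn]
  rw [ClassGroup.mk0_eq_one_iff hI] at h1
  obtain ⟨a, ha'⟩ := h1
  have ha : Q.asIdeal ^ n = Ideal.span {a} := ha'
  have ha0 : a ≠ 0 := by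
    intro h
    rw [h, Set.singleton_zero, Ideal.span_zero] at ha
    refine Q.ne_bot ?_
    rw [← Ideal.zero_eq_bot] at ha ⊢
    exact (pow_eq_zero_iff hcard).1 ha
  have haH : (a : H) ≠ 0 := by exact_mod_cast ha0
  refine ⟨Units.mk0 (a : H) haH, fun w hw => ?_, ?_⟩
  · have h3 : ¬ w.valuation H (a : H) < 1 := by
      rw [w.valuation_lt_one_iff_mem]
      intro h4
      have h5 : Q.asIdeal ^ n ≤ w.asIdeal := by
        rw [ha, Ideal.span_singleton_le_iff_mem]
        exact h4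
      have h6 : Q.asIdeal ≤ w.asIdeal := w.isPrime.le_of_pow_le h5
      exact hw (HeightOneSpectrum.ext (Q.isMaximal.eq_of_le w.isPrime.ne_top h6).symm)
    exact le_antisymm (w.valuation_le_one a) (not_lt.1 h3)
  · change Q.valuation H (a : H) < 1
    rw [Q.valuation_lt_one_iff_mem]
    have h5 : a ∈ Q.asIdeal ^ n := by
      rw [ha]; exact Ideal.mem_span_singleton_self a
    exact Ideal.pow_le_self hcard h5

/-- `x ^ (N w - 1)` is `1` modulo `w` -/
theorem pow_norm_sub_one {H : Type} [Field H] [NumberField H] (w : HeightOneSpectrum (𝓞 H))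
    {x : H} (hx : w.valuation H x = 1) :
    w.valuation H (x ^ (Ideal.absNorm w.asIdeal - 1) - 1) < 1 := by
  have hx0 : x ≠ 0 := by
    rintro rfl
    rw [map_zero] at hx
    exact zero_ne_one hx
  obtain ⟨χ, h1, h2⟩ := Pool.Agent.K3h44.RS.t_DLOG H w
  have h3 : χ (Additive.ofMul ((⟨Units.mk0 x hx0, hx⟩ : unitsAt w) ^
      (Ideal.absNorm w.asIdeal - 1))) = 0 := by
    rw [ofMul_pow, map_nsmul]
    exact h2 _
  rw [h1] at h3
  have h4 : (((⟨Units.mk0 x hx0, hx⟩ : unitsAt w) ^ (Ideal.absNorm w.asIdeal - 1) :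
      unitsAt w) : Hˣ) = (Units.mk0 x hx0) ^ (Ideal.absNorm w.asIdeal - 1) := rfl
  rw [h4, Units.val_pow_eq_pow_val] at h3
  exact h3

theorem absNorm_sub_pos {H : Type} [Field H] [NumberField H] (w : HeightOneSpectrum (𝓞 H)) :
    0 < Ideal.absNorm w.asIdeal - 1 := by
  have := two_le_absNorm w
  omega

variable {F H G : Type} [Field F] [NumberField F] [Field H] [NumberField H] [Algebra F H]
  [CommGroup G] [Finite G] [MulSemiringAction G H] [IsGaloisGroup G F H]

open Classical in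
/-- a number `N` such that `x ^ N` is `1` modulo all primes over `T` for all units `x` at `T` -/
theorem exists_exp (T : Finset (HeightOneSpectrum (𝓞 F))) :
    ∃ N : ℕ, 0 < N ∧ ∀ w : HeightOneSpectrum (𝓞 H), Above (T : Set (HeightOneSpectrum (𝓞 F))) w →
      ∀ x : H, w.valuation H x = 1 → w.valuation H (x ^ N - 1) < 1 := by
  have hfin : {w : HeightOneSpectrum (𝓞 H) | Above (T : Set (HeightOneSpectrum (𝓞 F))) w}.Finite := by
    have : {w : HeightOneSpectrum (𝓞 H) | Above (T : Set (HeightOneSpectrum (𝓞 F))) w} =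
        ⋃ v ∈ T, {w : HeightOneSpectrum (𝓞 H) | Above {v} w} := by
      ext w
      simp only [Set.mem_iUnion]
      constructor
      · intro h
        obtain ⟨v, hv, h'⟩ := above_mem h
        exact ⟨v, hv, h'⟩
      · rintro ⟨v, hv, h'⟩
        exact (above_iff h').2 hv
    rw [this]
    exact Set.Finite.biUnion T.finite_toSet (fun v _ => (Pool.Agent.K3h25.RS.t_OVER F H v).2)
  refine ⟨∏ w ∈ hfin.toFinset, (Ideal.absNorm w.asIdeal - 1),
    Finset.prod_pos fun w _ => absNorm_sub_pos w, fun w hw x hx => ?_⟩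
  obtain ⟨k, hk⟩ := Finset.dvd_prod_of_mem
    (fun w : HeightOneSpectrum (𝓞 H) => Ideal.absNorm w.asIdeal - 1)
    ((Set.Finite.mem_toFinset hfin).2 hw)
  rw [hk, pow_mul]
  exact Pool.Agent.K3h30.RS.pow_sub_one_lt (pow_norm_sub_one w hx) k

theorem fixes_of_valuation {Q : HeightOneSpectrum (𝓞 H)} {γ : G}
    (h : ∀ x : H, Q.valuation H (γ • x) = Q.valuation H x) : Fixes (Sum.inr Q : Place H) γ := by
  intro x
  change HeightOneSpectrum.adicAbv H Q (γ • x) = HeightOneSpectrum.adicAbv H Q x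
  rw [NumberField.HeightOneSpectrum.adicAbv_def, NumberField.HeightOneSpectrum.adicAbv_def, h]

theorem ordG_eq_nat (D : RubinData F H G)
    {q : HeightOneSpectrum (𝓞 F)} (hq : q ∉ D.S) (hσ : D.σ q = 1) {Q : HeightOneSpectrum (𝓞 H)}
    (hQ : Above {q} Q) {n : ℕ} {y : Hˣ} (h1 : ordQ Q (Additive.ofMul y) = n)
    (h2 : ∀ w : HeightOneSpectrum (𝓞 H), Above {q} w → w ≠ Q → w.valuation H (y : H) = 1) :
    ordG G Q (Additive.ofMul y) = (n : MonoidAlgebra ℤ G) := by
  ext γ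
  rw [coeff_ordG]
  have h3 : (n : MonoidAlgebra ℤ G) = MonoidAlgebra.single 1 (n : ℤ) := by
    rw [MonoidAlgebra.natCast_def]
  rw [h3]
  by_cases hγ : γ = 1
  · subst hγ
    rw [inv_one, act_one, h1]
    simp
  · have h4 : (MonoidAlgebra.single (1 : G) (n : ℤ)).coeff γ = 0 := by
      simp [Ne.symm hγ]
    rw [h4, ordQ_eq_zero]
    obtain ⟨w', hw', h5⟩ := (Pool.Agent.K3h25.RS.t_TRANS F H G q Q hQ).1 γ⁻¹
    rw [act_val, ← h5]
    refine h2 w' hw' ?_
    rintro rfl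
    have h6 := decomp_trivial D hq hσ hQ γ⁻¹ (fixes_of_valuation fun x => (h5 x).symm)
    exact hγ (inv_eq_one.1 h6)

theorem ordQ_pos {Q : HeightOneSpectrum (𝓞 H)} {y : Hˣ} (h : Q.valuation H (y : H) < 1) :
    0 < ordQ Q (Additive.ofMul y) := by
  rw [valuation_eq, ← WithZero.exp_zero, WithZero.exp_lt_exp] at h
  omega

/-- there is an `x ≡ 1 mod T` which is a unit outside `Q` and not at `Q` -/
theorem exists_gen (D : RubinData F H G)
    {q : HeightOneSpectrum (𝓞 F)} (hq : q ∉ D.S) (hσ : D.σ q = 1) {Q : HeightOneSpectrum (𝓞 H)}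
    (hQ : Above {q} Q) (T : Finset (HeightOneSpectrum (𝓞 F))) (hT : q ∉ T) :
    ∃ (n : ℕ) (y : Hˣ), 0 < n ∧ y ∈ (addSplit D q hq hσ Q hQ).U T ∧
      ordG G Q (Additive.ofMul y) = (n : MonoidAlgebra ℤ G) := by
  obtain ⟨x, hx1, hx2⟩ := exists_pi Q
  obtain ⟨N, hN, hN'⟩ := exists_exp (H := H) T
  obtain ⟨m, hm⟩ := Int.eq_ofNat_of_zero_le (ordQ_pos hx2).le
  have hm0 : 0 < m := by
    have := ordQ_pos hx2
    omega
  refine ⟨N * m, x ^ N, Nat.mul_pos hN hm0, ⟨fun w hw => ?_, fun w hw => ?_⟩, ?_⟩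
  · have h1 : w ≠ Q := by
      rintro rfl
      exact hw (by
        rw [above_iff hQ]
        exact Finset.mem_coe.2 ((mem_split_S D hq hσ hQ).2 (Or.inl rfl)))
    rw [Units.val_pow_eq_pow_val, map_pow, hx1 w h1, one_pow]
  · have h1 : w ≠ Q := by
      rintro rfl
      rw [above_iff hQ] at hw
      exact hT (Finset.mem_coe.1 hw)
    rw [Units.val_pow_eq_pow_val]
    exact hN' w hw _ (hx1 w h1)
  · refine ordG_eq_nat D hq hσ hQ ?_ fun w hw hne => ?_
    · rw [ofMul_pow, map_nsmul, hm]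
      push_cast
      rw [nsmul_eq_mul]
    · rw [Units.val_pow_eq_pow_val, map_pow, hx1 w hne, one_pow]

end Pool.Agent.H509
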