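import Pool.Agent.H509.Res

/-!
# Consequences of the generation of the ray class group
-/

set_option autoImplicit false
set_option linter.unusedSectionVars false
set_option linter.style.haveILetI false

open NumberField IsDedekindDomain Filter Topology

noncomputable section

namespace Pool.Agent.H509

open Pool.Agent.K3h30.RS Pool.Agent.K3h62.RS Pool.Agent.K3h3.RS Pool.Agent.K3h81.RL

variable {F H G : Type} [Field F] [NumberField F] [Field H] [NumberField H] [Algebra F H]
  [CommGroup G] [Finite G] [MulSemiringAction G H]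

theorem mem_U1 {W : Set (HeightOneSpectrum (𝓞 H))} {x : Hˣ} :
    x ∈ U1 W ↔ ∀ w ∈ W, w.valuation H ((x : H) - 1) < 1 := Iff.rfl

theorem val_one_of_sub {w : HeightOneSpectrum (𝓞 H)} {x : Hˣ}
    (h : w.valuation H ((x : H) - 1) < 1) : w.valuation H (x : H) = 1 := by
  have h := Valuation.map_one_add_of_lt (w.valuation H) h
  rwa [add_sub_cancel] at h

/-- every element is, up to an exponent in `M`, equal to an element congruent to one modulo `T`
outside of `S` and `T` -/
theorem gen_all {M : Submonoid ℕ} {S T : Set (HeightOneSpectrum (𝓞 F))}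
    (hgen : Generates H M S T) (x : Hˣ) : ∃ n ∈ M, 0 < n ∧ ∃ z : Hˣ,
      (∀ w : HeightOneSpectrum (𝓞 H), Above T w → w.valuation H ((z : H) - 1) < 1) ∧
      ∀ w : HeightOneSpectrum (𝓞 H), ¬ Above S w → ¬ Above T w →
        w.valuation H (z : H) = w.valuation H (x : H) ^ n := by
  classical
  let W : Set (HeightOneSpectrum (𝓞 H)) := {w | Above S w ∨ Above T w}
  let P : AddSubgroup (Dv W) := AddSubgroup.map (dv W)
    (Subgroup.toAddSubgroup (U1 {w : HeightOneSpectrum (𝓞 H) | Above T w}))
  have key : ∀ a : Dv W, ∃ n ∈ M, 0 < n ∧ n • a ∈ P := by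
    intro a
    induction a using Finsupp.induction_linear with
    | zero => exact ⟨1, one_mem M, one_pos, by rw [smul_zero]; exact P.zero_mem⟩
    | add a b ha hb =>
      obtain ⟨n, hn, hn0, h1⟩ := ha
      obtain ⟨m, hm, hm0, h2⟩ := hb
      refine ⟨n * m, mul_mem hn hm, Nat.mul_pos hn0 hm0, ?_⟩
      rw [smul_add]
      refine P.add_mem ?_ ?_
      · rw [mul_comm, mul_smul]
        exact P.nsmul_mem h1 m
      · rw [mul_smul]
        exact P.nsmul_mem h2 n
    | single w k =>
      have hwS : ¬ Above S w.1 := fun h => w.2 (Or.inl h)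
      have hwT : ¬ Above T w.1 := fun h => w.2 (Or.inr h)
      obtain ⟨n, hn, hn0, z, h1, h2, h3⟩ := hgen w.1 hwS hwT
      refine ⟨n, hn, hn0, ?_⟩
      have h4 : n • (Finsupp.single w k : Dv W) = k • (dv W (Additive.ofMul z)) := by
        ext w'
        rw [Finsupp.smul_apply, Finsupp.smul_apply, dv_apply]
        by_cases h : w' = w
        · subst h
          rw [Finsupp.single_eq_same]
          have h5 : ordQ w'.1 (Additive.ofMul z) = n := by
            rw [valuation_eq, WithZero.exp_inj, neg_inj] at h1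
            exact h1
          rw [h5, nsmul_eq_mul, zsmul_eq_mul]
          push_cast
          ring
        · rw [Finsupp.single_eq_of_ne h]
          have h5 : ordQ w'.1 (Additive.ofMul z) = 0 := by
            rw [ordQ_eq_zero]
            exact h2 w'.1 (fun h => w'.2 (Or.inl h)) fun h' => h (Subtype.ext h')
          rw [h5, smul_zero, smul_zero]
      rw [h4]
      exact P.zsmul_mem ⟨Additive.ofMul z, fun w hw => h3 w hw, rfl⟩ k
  obtain ⟨n, hn, hn0, z, hz1, hz2⟩ := key (dv W (Additive.ofMul x))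
  refine ⟨n, hn, hn0, Additive.toMul z, fun w hw => hz1 w hw, fun w hS hT => ?_⟩
  have hw : w ∉ W := fun h => h.elim hS hT
  have h1 := DFunLike.congr_fun hz2 ⟨w, hw⟩
  rw [Finsupp.smul_apply, dv_apply, dv_apply] at h1
  change ordQ w z = n • ordQ w (Additive.ofMul x) at h1
  have h2 := valuation_eq w (Additive.toMul z)
  rw [ofMul_toMul, h1] at h2
  rw [h2, valuation_eq w x, ← WithZero.exp_nsmul]
  congr 1
  rw [smul_neg]

/-- the Chinese remainder theorem -/
theorem exists_crt (Q : HeightOneSpectrum (𝓞 H)) (B : Finset (HeightOneSpectrum (𝓞 H)))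
    (hQ : Q ∉ B) (a : 𝓞 H) : ∃ x : 𝓞 H, x - a ∈ Q.asIdeal ^ 2 ∧ ∀ w ∈ B, x - 1 ∈ w.asIdeal := by
  classical
  obtain ⟨y, hy⟩ := IsDedekindDomain.exists_forall_sub_mem_ideal (s := insert Q B)
    (fun w : HeightOneSpectrum (𝓞 H) => w.asIdeal) (fun _ => 2)
    (fun w _ => w.prime) (fun w _ w' _ h h' => h (HeightOneSpectrum.ext h'))
    (fun w => if w.1 = Q then a else 1)
  refine ⟨y, ?_, fun w hw => ?_⟩
  · have h := hy Q (Finset.mem_insert_self _ _)
    rwa [if_pos rfl] at h
  · have h := hy w (Finset.mem_insert_of_mem hw)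
    rw [if_neg (fun h : w = Q => hQ (h ▸ hw))] at h
    exact Ideal.pow_le_self two_ne_zero h

open Classical in
theorem generates_drop {M : Submonoid ℕ} {S : Set (HeightOneSpectrum (𝓞 F))}
    {T : Finset (HeightOneSpectrum (𝓞 F))} {t : HeightOneSpectrum (𝓞 F)}
    (hgen : Generates H M S ((insert t T : Finset (HeightOneSpectrum (𝓞 F))) :
      Set (HeightOneSpectrum (𝓞 F)))) :
    Generates H M S (T : Set (HeightOneSpectrum (𝓞 F))) := by
  intro Q hQS hQT
  by_cases hQt : Above {t} Q
  · -- the prime ideals over `t`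
    have hfin : {w : HeightOneSpectrum (𝓞 H) | w ≠ Q ∧
        Above ((insert t T : Finset (HeightOneSpectrum (𝓞 F))) :
          Set (HeightOneSpectrum (𝓞 F))) w}.Finite := by
      have h1 : (⋃ v ∈ (insert t T : Finset (HeightOneSpectrum (𝓞 F))),
          {w : HeightOneSpectrum (𝓞 H) | Above {v} w}).Finite :=
        Set.Finite.biUnion (Finset.finite_toSet _) fun v _ =>
          (Pool.Agent.K3h25.RS.t_OVER F H v).2
      refine h1.subset fun w hw => ?_
      obtain ⟨v, hv, hvw⟩ := above_mem hw.2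
      exact Set.mem_biUnion (Finset.mem_coe.1 hv) hvw
    obtain ⟨π, hπ, hπ2⟩ : ∃ π ∈ Q.asIdeal, π ∉ Q.asIdeal ^ 2 := by
      have h1 : Q.asIdeal ^ 2 < Q.asIdeal := by
        have := Ideal.pow_right_strictAnti Q.asIdeal Q.ne_bot Q.isPrime.ne_top
        have h2 := this (show 1 < 2 by norm_num)
        simpa using h2
      obtain ⟨π, hπ, hπ'⟩ := SetLike.exists_of_lt h1
      exact ⟨π, hπ, hπ'⟩
    obtain ⟨a, ha1, ha2⟩ := exists_crt Q hfin.toFinset (by
      rw [Set.Finite.mem_toFinset]
      exact fun h => h.1 rfl) π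
    have ha : ∀ w : HeightOneSpectrum (𝓞 H), w ≠ Q →
        Above ((insert t T : Finset (HeightOneSpectrum (𝓞 F))) :
          Set (HeightOneSpectrum (𝓞 F))) w → w.valuation H ((a : H) - 1) < 1 := by
      intro w hne hw
      have h1 := ha2 w ((Set.Finite.mem_toFinset hfin).2 ⟨hne, hw⟩)
      rw [← w.valuation_lt_one_iff_mem (K := H)] at h1
      exact h1
    have haQ : a ∈ Q.asIdeal := by
      have h1 := Q.asIdeal.add_mem (Ideal.pow_le_self two_ne_zero ha1) hπ
      rwa [sub_add_cancel] at h1
    have haQ2 : a ∉ Q.asIdeal ^ 2 := by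
      intro h
      apply hπ2
      have h1 := (Q.asIdeal ^ 2).sub_mem h ha1
      rwa [sub_sub_cancel] at h1
    have ha0 : (a : H) ≠ 0 := by
      intro h
      have : a = 0 := by exact_mod_cast h
      rw [this] at haQ2
      exact haQ2 (Ideal.zero_mem _)
    let x : Hˣ := Units.mk0 (a : H) ha0
    have hxQ : Q.valuation H (x : H) = WithZero.exp (-1 : ℤ) := by
      change Q.valuation H (a : H) = _
      have h1 : Q.valuation H (a : H) = Q.intValuation a := Q.valuation_of_algebraMap a
      have h2 : Q.intValuation a ≤ WithZero.exp (-(1 : ℕ) : ℤ) := by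
        rw [Q.intValuation_le_pow_iff_mem, pow_one]
        exact haQ
      have h3 : ¬ Q.intValuation a ≤ WithZero.exp (-(2 : ℕ) : ℤ) := by
        rw [Q.intValuation_le_pow_iff_mem]
        exact haQ2
      have h4 := valuation_eq Q x
      change Q.valuation H (a : H) = _ at h4
      rw [← h1, h4, WithZero.exp_le_exp] at h2 h3
      rw [h4, WithZero.exp_inj]
      push_cast at h2 h3
      omega
    obtain ⟨n, hn, hn0, z, hz1, hz2⟩ := gen_all hgen x
    have hQt' : Above ((insert t T : Finset (HeightOneSpectrum (𝓞 F))) :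
          Set (HeightOneSpectrum (𝓞 F))) Q := by
      rw [above_iff hQt]
      exact Finset.mem_coe.2 (Finset.mem_insert_self _ _)
    refine ⟨n, hn, hn0, x ^ n * z⁻¹, ?_, fun w hw hne => ?_, fun w hw => ?_⟩
    · rw [Units.val_mul, Units.val_pow_eq_pow_val, Units.val_inv_eq_inv_val, map_mul, map_inv₀,
        map_pow, hxQ, val_one_of_sub (hz1 Q hQt'), inv_one, mul_one, ← WithZero.exp_nsmul]
      congr 1
      rw [nsmul_eq_mul]
      ring
    · rw [Units.val_mul, Units.val_pow_eq_pow_val, Units.val_inv_eq_inv_val, map_mul, map_inv₀,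
        map_pow]
      by_cases hwT : Above ((insert t T : Finset (HeightOneSpectrum (𝓞 F))) :
          Set (HeightOneSpectrum (𝓞 F))) w
      · rw [val_one_of_sub (hz1 w hwT), val_one_of_sub (x := x) (ha w hne hwT), one_pow, inv_one,
          mul_one]
      · have hx0 : w.valuation H (x : H) ≠ 0 := by
          rw [Valuation.ne_zero_iff]
          exact x.ne_zero
        rw [hz2 w hw hwT, mul_inv_cancel₀ (pow_ne_zero _ hx0)]
    · have hne : w ≠ Q := by
        rintro rfl
        exact hQT hw
      have hwT : Above ((insert t T : Finset (HeightOneSpectrum (𝓞 F))) :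
          Set (HeightOneSpectrum (𝓞 F))) w :=
        above_mono (Finset.coe_subset.2 (Finset.subset_insert _ _)) hw
      have h1 : x ∈ U1 {w : HeightOneSpectrum (𝓞 H) | w ≠ Q ∧
          Above ((insert t T : Finset (HeightOneSpectrum (𝓞 F))) :
          Set (HeightOneSpectrum (𝓞 F))) w} := fun w hw => ha w hw.1 hw.2
      have h2 : z ∈ U1 {w : HeightOneSpectrum (𝓞 H) | w ≠ Q ∧
          Above ((insert t T : Finset (HeightOneSpectrum (𝓞 F))) :
          Set (HeightOneSpectrum (𝓞 F))) w} := fun w hw => hz1 w hw.2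
      exact (mul_mem (pow_mem h1 n) (inv_mem h2)) w ⟨hne, hwT⟩
  · have hQ' : ¬ Above ((insert t T : Finset (HeightOneSpectrum (𝓞 F))) :
          Set (HeightOneSpectrum (𝓞 F))) Q := by
      intro h
      obtain ⟨v, hv, hvQ⟩ := above_mem h
      rcases Finset.mem_insert.1 (Finset.mem_coe.1 hv) with rfl | hv
      · exact hQt hvQ
      · exact hQT ((above_iff hvQ).2 (Finset.mem_coe.2 hv))
    obtain ⟨n, hn, hn0, x, h1, h2, h3⟩ := hgen Q hQS hQ'
    exact ⟨n, hn, hn0, x, h1, h2, fun w hw =>
      h3 w (above_mono (Finset.coe_subset.2 (Finset.subset_insert _ _)) hw)⟩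

end Pool.Agent.H509
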