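import Pool.Agent.H509.Asc

/-!
# Independence of the choices
-/

set_option autoImplicit false
set_option linter.unusedSectionVars false
set_option linter.style.haveILetI false

open NumberField IsDedekindDomain Filter Topology

noncomputable section

namespace Pool.Agent.H509

open Pool.Agent.K3h30.RS Pool.Agent.K3h62.RS Pool.Agent.K3h3.RS Pool.Agent.K3h81.RL

variable {F H G : Type} [Field F] [NumberField F] [Field H] [NumberField H] [Algebra F H]
  [CommGroup G] [Finite G] [MulSemiringAction G H]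

theorem reg_conj {w w' : Place H} {γ : G} (h : ∀ x : H, av w x = av w' (γ • x)) (x : Hˣ) :
    reg G w x = MonoidAlgebra.single γ 1 * reg G w' x := by
  rw [← Pool.Agent.K3h4.RL.reg_act]
  unfold reg
  refine Finset.sum_congr rfl fun δ _ => ?_
  rw [h]
  congr 3
  rw [act_val, act_val, act_val, ← mul_smul, ← mul_smul, mul_comm]

/-- the matching of the places -/
theorem exists_match {D₁ D₂ : RubinData F H G} (hS : D₁.S = D₂.S) :
    ∃ e : Fin D₁.r ≃ Fin D₂.r, ∀ i, Conj G (D₁.w i) (D₂.w (e i)) := by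
  have h1 : ∀ i : Fin D₁.r, ∃ j : Fin D₂.r, Conj G (D₁.w i) (D₂.w j) := fun i =>
    D₂.all (D₁.w i) (hS ▸ D₁.inS i) (D₁.splits i)
  have h2 : ∀ j : Fin D₂.r, ∃ i : Fin D₁.r, Conj G (D₂.w j) (D₁.w i) := fun j =>
    D₁.all (D₂.w j) (hS ▸ D₂.inS j) (D₂.splits j)
  choose f hf using h1
  choose g hg using h2
  exact ⟨⟨f, g, fun i => (D₁.distinct _ _ (conj_trans (hf i) (hg (f i)))).symm,
    fun j => (D₂.distinct _ _ (conj_trans (hg j) (hf (g j)))).symm⟩, hf⟩

theorem active_congr {D₁ D₂ : RubinData F H G} (hS : D₁.S = D₂.S) {χ : G →* ℂˣ}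
    (h : D₁.Active χ) : D₂.Active χ := by
  obtain ⟨e, he⟩ := exists_match hS
  have h1 : ∀ u : Place H, (∀ i, ¬ Conj G u (D₂.w i)) → ∀ i, ¬ Conj G u (D₁.w i) := by
    intro u hu i hc
    exact hu (e i) (conj_trans hc (he i))
  rcases h with h | ⟨h, h'⟩
  · left
    intro w hw hc
    exact h w (hS ▸ hw) (h1 w hc)
  · right
    exact ⟨h, fun w w' hw hw' hc hc' => h' w w' (hS ▸ hw) (hS ▸ hw') (h1 w hc) (h1 w' hc')⟩

theorem sigma_eq [IsGaloisGroup G F H] {D₁ D₂ : RubinData F H G} (hS : D₁.S ⊆ D₂.S)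
    {v : HeightOneSpectrum (𝓞 F)} (hv : v ∉ D₂.S) : D₁.σ v = D₂.σ v :=
  Pool.Agent.K3h23.RS.t_FROBUNIQ F H G v (D₂.unramified v hv) _ _
    (D₁.frob v fun h => hv (hS h)) (D₂.frob v hv)

theorem L_eq [IsGaloisGroup G F H] {D₁ D₂ : RubinData F H G} (hS : D₁.S = D₂.S) (χ : G →* ℂˣ)
    {s : ℂ} (hs : s ≠ 1) : D₁.L χ s = D₂.L χ s := by
  have h1 : ∀ s : ℂ, 1 < s.re → D₁.L χ s = D₂.L χ s := by
    intro s hs
    have h2 := D₁.euler χ s hs
    have h3 := D₂.euler χ s hs
    obtain ⟨S, hS1⟩ : ∃ S, S = D₁.S := ⟨_, rfl⟩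
    have hS2 : S = D₂.S := hS1.trans hS
    rw [← hS1] at h2
    rw [← hS2] at h3
    refine HasProd.unique h2 ?_
    convert h3 using 5 with v
    rw [sigma_eq (le_of_eq hS) (hS2 ▸ v.2)]
  have h2 : AnalyticOnNhd ℂ (D₁.L χ) {1}ᶜ :=
    (D₁.analytic χ).analyticOnNhd isOpen_compl_singleton
  have h3 : AnalyticOnNhd ℂ (D₂.L χ) {1}ᶜ :=
    (D₂.analytic χ).analyticOnNhd isOpen_compl_singleton
  have h4 : IsPreconnected ({1}ᶜ : Set ℂ) := by
    refine (isConnected_compl_singleton_of_one_lt_rank ?_ _).isPreconnected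
    simp
  have h5 : D₁.L χ =ᶠ[𝓝 2] D₂.L χ := by
    have h6 : {s : ℂ | 1 < s.re} ∈ 𝓝 (2 : ℂ) := by
      refine (isOpen_lt continuous_const Complex.continuous_re).mem_nhds ?_
      simp
    filter_upwards [h6] with s hs
    exact h1 s hs
  exact h2.eqOn_of_preconnected_of_eventuallyEq h3 h4 (by simp) h5 (by simpa using hs)

theorem LT_eq [IsGaloisGroup G F H] {D₁ D₂ : RubinData F H G} (hS : D₁.S = D₂.S)
    {T : Finset (HeightOneSpectrum (𝓞 F))} (hT : Disjoint D₂.S T) (χ : G →* ℂˣ)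
    {s : ℂ} (hs : s ≠ 1) : D₁.LT T χ s = D₂.LT T χ s := by
  unfold RubinData.LT
  rw [L_eq hS χ hs]
  congr 1
  refine Finset.prod_congr rfl fun v hv => ?_
  rw [sigma_eq (le_of_eq hS) (fun h => Finset.disjoint_left.1 hT h hv)]

theorem U_eq {D₁ D₂ : RubinData F H G} (hS : D₁.S = D₂.S)
    (T : Finset (HeightOneSpectrum (𝓞 F))) : D₁.U T = D₂.U T := by
  unfold RubinData.U
  rw [hS]

/-- The conjecture depends only on `S` and `T`. -/
theorem rubinM_congr [IsGaloisGroup G F H] {D₁ D₂ : RubinData F H G} (hS : D₁.S = D₂.S)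
    {T : Finset (HeightOneSpectrum (𝓞 F))} (hT : Disjoint D₂.S T) {M : Submonoid ℕ}
    (h : RubinM M D₁ T) : RubinM M D₂ T := by
  classical
  obtain ⟨e, he⟩ := exists_match hS
  choose γ hγ using he
  obtain ⟨u, h1, h2, h3⟩ := h
  have hU := U_eq hS T
  let g : MonoidAlgebra ℤ G := ∏ i, MonoidAlgebra.single (γ i) 1
  let u' : Wedge G D₂.r (D₂.U T) :=
    { n := u.n
      c := fun k => toQ g * u.c k
      x := fun k j => ⟨(u.x k (e.symm j) : Hˣ), hU ▸ (u.x k (e.symm j)).2⟩ }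
  refine ⟨u', ?_, ?_, ?_⟩
  · intro χ hχ k
    change charValue χ (toR (toQ g * u.c k)) = 0
    have h4 := h1 χ (fun h5 => hχ (active_congr hS h5)) k
    rw [← cvQ_apply] at h4 ⊢
    rw [map_mul, h4, mul_zero]
  · have h4 : u'.regulator D₂.w = u.regulator D₁.w := by
      unfold Wedge.regulator
      refine Finset.sum_congr rfl fun k _ => ?_
      change toR (toQ g * u.c k) * Matrix.det (Matrix.of fun (a b : Fin D₂.r) =>
        reg G (D₂.w a) (u.x k (e.symm b) : Hˣ)) = _
      have h5 : Matrix.det (Matrix.of fun (a b : Fin D₂.r) =>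
          reg G (D₂.w a) (u.x k (e.symm b) : Hˣ)) =
          Matrix.det (Matrix.of fun (a b : Fin D₁.r) =>
            reg G (D₂.w (e a)) (u.x k b : Hˣ)) := by
        rw [← Matrix.det_submatrix_equiv_self e]
        congr 1
        ext a b : 1
        simp
      have h6 : (Matrix.of fun (a b : Fin D₁.r) => reg G (D₁.w a) (u.x k b : Hˣ)) =
          Matrix.of fun (a b : Fin D₁.r) => MonoidAlgebra.single (γ a) 1 *
            (Matrix.of fun (a b : Fin D₁.r) => reg G (D₂.w (e a)) (u.x k b : Hˣ)) a b := by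
        ext a b : 1
        simp only [Matrix.of_apply]
        exact reg_conj (hγ a) _
      have h7 := Matrix.det_mul_column (fun a : Fin D₁.r => MonoidAlgebra.single (γ a) (1 : ℝ))
        (Matrix.of fun (a b : Fin D₁.r) => reg G (D₂.w (e a)) (u.x k b : Hˣ))
      have h8 : toR (toQ g) = ∏ a, MonoidAlgebra.single (γ a) (1 : ℝ) := by
        change toR (toQ (∏ i, MonoidAlgebra.single (γ i) 1)) = _
        rw [map_prod, map_prod]
        refine Finset.prod_congr rfl fun i _ => ?_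
        simp [toR, toQ]
      rw [h6, h7, h5, map_mul, h8]
      ring
    intro χ
    have h5 := h2 χ
    rw [← h4] at h5
    have hr : D₁.r = D₂.r := by
      have := Fintype.card_congr e
      rwa [Fintype.card_fin, Fintype.card_fin] at this
    refine h5.congr' ?_
    have h6 : ∀ᶠ s : ℂ in 𝓝[≠] 0, s ≠ 1 := by
      refine Filter.Eventually.filter_mono nhdsWithin_le_nhds ?_
      exact isOpen_compl_singleton.mem_nhds (by simp)
    filter_upwards [h6] with s hs
    rw [LT_eq hS hT χ⁻¹ hs, hr]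
  · intro ψ
    have hc : ∀ x : D₁.U T, (x : Hˣ) ∈ D₂.U T := fun x => hU ▸ x.2
    let ψ' : Fin D₁.r → GHom G (D₁.U T) := fun i =>
      { f := (ψ (e i)).f.comp (MonoidHom.toAdditive (Subgroup.inclusion (le_of_eq hU)))
        equiv := fun γ x y hxy => (ψ (e i)).equiv γ _ _ hxy }
    obtain ⟨n, hn, z, hz⟩ := h3 ψ'
    refine ⟨n, hn, g * z, ?_⟩
    have h4 : u'.value ψ = toQ g * u.value ψ' := by
      unfold Wedge.value
      rw [Finset.mul_sum]
      refine Finset.sum_congr rfl fun k _ => ?_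
      change (toQ g * u.c k) * toQ (Matrix.det (Matrix.of fun (a b : Fin D₂.r) =>
        (ψ a).f (Additive.ofMul ⟨(u.x k (e.symm b) : Hˣ), hU ▸ (u.x k (e.symm b)).2⟩))) = _
      have h5 : Matrix.det (Matrix.of fun (a b : Fin D₂.r) =>
          (ψ a).f (Additive.ofMul ⟨(u.x k (e.symm b) : Hˣ), hU ▸ (u.x k (e.symm b)).2⟩)) =
          Matrix.det (Matrix.of fun (a b : Fin D₁.r) =>
            (ψ' a).f (Additive.ofMul (u.x k b))) := by
        rw [← Matrix.det_submatrix_equiv_self e]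
        congr 1
        ext a b : 1
        simp only [Matrix.submatrix_apply, Matrix.of_apply, Equiv.symm_apply_apply]
        rfl
      rw [h5, mul_assoc]
    rw [h4, map_mul, ← hz]
    ring

end Pool.Agent.H509
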