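import Pool.Agent.H509.GenAll

/-!
# The value of a lifted character
-/

set_option autoImplicit false
set_option linter.unusedSectionVars false
set_option linter.style.haveILetI false

open NumberField IsDedekindDomain Filter Topology

noncomputable section

namespace Pool.Agent.H509

open Pool.Agent.K3h30.RS Pool.Agent.K3h62.RS Pool.Agent.K3h3.RS Pool.Agent.K3h81.RL

section

variable {G A : Type} [CommGroup G] [Finite G] [AddCommGroup A] [DistribMulAction G A]

theorem toQ_single' (γ : G) (n : ℤ) :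
    toQ (MonoidAlgebra.single γ n) = MonoidAlgebra.single γ (n : ℚ) := by
  simp [toQ]

theorem frob_iter {w q : ℕ} {σ : G} (d : LocData G A w q σ) (j : ℕ) (a : A) :
    d.χ (σ ^ j • a) = q ^ j • d.χ a := by
  induction j with
  | zero => simp
  | succ j ih => rw [pow_succ', mul_smul, d.frob, ih, smul_smul, pow_succ']

theorem lam_value {w q : ℕ} {σ : G} (hq : 1 < q) (d : LocData G A w q σ) (y : A) (n : ℕ)
    (h1 : ∀ γ ∉ Subgroup.zpowers σ, d.χ (γ • y) = 0)
    (h2 : d.χ y = n • (((1 : ℚ) / ((q ^ orderOf σ - 1 : ℕ) : ℚ) : ℚ) : QZ)) :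
    ∃ s : MonoidAlgebra ℤ G, (1 - MonoidAlgebra.single σ⁻¹ (q : ℚ)) * d.Λ y =
      -((w * n : ℕ) : MonoidAlgebra ℚ G) + (1 - MonoidAlgebra.single σ⁻¹ (q : ℚ)) * toQ s := by
  classical
  set f := orderOf σ with hf
  have hf0 : 0 < f := orderOf_pos σ
  have hqf : 1 < q ^ f := Nat.one_lt_pow hf0.ne' hq
  have hqf' : ((q ^ f - 1 : ℕ) : ℚ) = (q : ℚ) ^ f - 1 := by
    rw [Nat.cast_sub hqf.le]; push_cast; ring
  have hne : ((q : ℚ) ^ f - 1) ≠ 0 := by
    rw [← hqf']
    have : 0 < q ^ f - 1 := by omega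
    positivity
  let X : MonoidAlgebra ℚ G := MonoidAlgebra.single σ⁻¹ (q : ℚ)
  let ν : MonoidAlgebra ℚ G := ∑ j ∈ Finset.range f, X ^ j
  let c : ℚ := (w * n : ℚ) / ((q : ℚ) ^ f - 1)
  have hX : ∀ j : ℕ, X ^ j = MonoidAlgebra.single (σ ^ j)⁻¹ ((q : ℚ) ^ j) := by
    intro j
    rw [MonoidAlgebra.single_pow, inv_pow]
  have hν : (1 - X) * ν = 1 - X ^ f := mul_neg_geom_sum X f
  have hXf : X ^ f = MonoidAlgebra.single (1 : G) ((q : ℚ) ^ f) := by
    rw [hX, hf, pow_orderOf_eq_one, inv_one]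
  -- the difference is integral
  have hint : d.Λ y - c • ν ∈ (toQ (G := G)).range := by
    rw [mem_range_toQ]
    intro γ
    rw [← QZ_zero, MonoidAlgebra.coeff_sub, Finsupp.sub_apply, AddCircle.coe_sub, d.lift]
    have hcoef : (c • ν).coeff γ = c * ∑ j ∈ Finset.range f,
        (if (σ ^ j)⁻¹ = γ then (q : ℚ) ^ j else 0) := by
      rw [MonoidAlgebra.coeff_smul, Finsupp.smul_apply, smul_eq_mul]
      congr 1
      rw [MonoidAlgebra.coeff_sum, Finsupp.finsetSum_apply]
      refine Finset.sum_congr rfl fun j _ => ?_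
      rw [hX, MonoidAlgebra.coeff_single, Finsupp.single_apply]
    rw [hcoef]
    by_cases hγ : γ⁻¹ ∈ Subgroup.zpowers σ
    · rw [mem_zpowers_iff_mem_range_orderOf, Finset.mem_image] at hγ
      obtain ⟨j, hj, hjγ⟩ := hγ
      rw [Finset.sum_eq_single j]
      · rw [if_pos (by rw [hjγ, inv_inv]), ← hjγ, frob_iter, h2, ← AddCircle.coe_nsmul,
          ← AddCircle.coe_nsmul, ← AddCircle.coe_nsmul, ← AddCircle.coe_sub, QZ_zero]
        refine ⟨0, ?_⟩
        rw [hqf', nsmul_eq_mul, nsmul_eq_mul, nsmul_eq_mul]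
        push_cast
        change (w : ℚ) * (q ^ j * (n * (1 / ((q : ℚ) ^ f - 1)))) -
          (w * n : ℚ) / ((q : ℚ) ^ f - 1) * q ^ j = 0
        ring
      · intro i hi hij
        rw [if_neg]
        intro h
        apply hij
        have h3 : σ ^ i = σ ^ j := by
          rw [hjγ, ← h, inv_inv]
        exact pow_injOn_Iio_orderOf (Finset.mem_range.1 hi) (Finset.mem_range.1 hj) h3
      · intro h
        exact absurd hj h
    · rw [h1 _ hγ, smul_zero, Finset.sum_eq_zero, mul_zero]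
      · rw [AddCircle.coe_zero, sub_zero]
      · intro j _
        rw [if_neg]
        rintro rfl
        apply hγ
        rw [inv_inv]
        exact Subgroup.npow_mem_zpowers σ j
  obtain ⟨s, hs⟩ := hint
  refine ⟨s, ?_⟩
  rw [hs]
  change (1 - X) * d.Λ y = _ + (1 - X) * _
  rw [mul_sub, mul_smul_comm, hν, hXf]
  have h4 : c • (1 - MonoidAlgebra.single (1 : G) ((q : ℚ) ^ f)) =
      -((w * n : ℕ) : MonoidAlgebra ℚ G) := by
    have h5 : (1 : MonoidAlgebra ℚ G) - MonoidAlgebra.single (1 : G) ((q : ℚ) ^ f) =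
        MonoidAlgebra.single (1 : G) (1 - (q : ℚ) ^ f) := by
      rw [MonoidAlgebra.single_sub, MonoidAlgebra.one_def]
    rw [h5, MonoidAlgebra.smul_single, smul_eq_mul, MonoidAlgebra.natCast_def,
      ← MonoidAlgebra.single_neg]
    congr 1
    change (w * n : ℚ) / ((q : ℚ) ^ f - 1) * (1 - (q : ℚ) ^ f) = _
    field_simp
    push_cast
    ring
  rw [h4]
  ring

end

variable {F H G : Type} [Field F] [NumberField F] [Field H] [NumberField H] [Algebra F H]
  [CommGroup G] [Finite G] [MulSemiringAction G H]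

theorem finite_above (T : Finset (HeightOneSpectrum (𝓞 F))) :
    {w : HeightOneSpectrum (𝓞 H) | Above (T : Set (HeightOneSpectrum (𝓞 F))) w}.Finite := by
  have h1 : (⋃ v ∈ T, {w : HeightOneSpectrum (𝓞 H) | Above {v} w}).Finite :=
    Set.Finite.biUnion (Finset.finite_toSet _) fun v _ => (Pool.Agent.K3h25.RS.t_OVER F H v).2
  refine h1.subset fun w hw => ?_
  obtain ⟨v, hv, hvw⟩ := above_mem hw
  exact Set.mem_biUnion (Finset.mem_coe.1 hv) hvw

open Classical in
/-- an `S`-unit with prescribed residue classes -/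
theorem exists_unit_res (D : RubinData F H G) {M : Submonoid ℕ}
    {T : Finset (HeightOneSpectrum (𝓞 F))} {t : HeightOneSpectrum (𝓞 F)} (htT : t ∉ T)
    (hgen : Generates H M (D.S : Set (HeightOneSpectrum (𝓞 F)))
      ((insert t T : Finset (HeightOneSpectrum (𝓞 F))) : Set (HeightOneSpectrum (𝓞 F))))
    {τ : HeightOneSpectrum (𝓞 H)} (hτ : Above {t} τ) (χ : Additive (unitsAt τ) →+ QZ)
    (hχ : ∀ x : unitsAt τ, χ (Additive.ofMul x) = 0 ↔ τ.valuation H (((x : Hˣ) : H) - 1) < 1) :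
    ∃ n ∈ M, 0 < n ∧ ∃ (u : Hˣ) (hu : u ∈ unitsAt τ), u ∈ D.U T ∧
      (∀ w : HeightOneSpectrum (𝓞 H), Above {t} w → w ≠ τ → w.valuation H ((u : H) - 1) < 1) ∧
      χ (Additive.ofMul ⟨u, hu⟩) =
        n • (((1 : ℚ) / ((Ideal.absNorm τ.asIdeal - 1 : ℕ) : ℚ) : ℚ) : QZ) := by
  obtain ⟨a, x, hxa, hxχ⟩ := exists_root_char τ χ hχ
  have hfin : {w : HeightOneSpectrum (𝓞 H) | w ≠ τ ∧
      Above ((insert t T : Finset (HeightOneSpectrum (𝓞 F))) :
        Set (HeightOneSpectrum (𝓞 F))) w}.Finite :=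
    (finite_above (insert t T)).subset fun w hw => hw.2
  obtain ⟨b, hb1, hb2⟩ := exists_crt τ hfin.toFinset (by
    rw [Set.Finite.mem_toFinset]
    exact fun h => h.1 rfl) a
  have hb : ∀ w : HeightOneSpectrum (𝓞 H), w ≠ τ →
      Above ((insert t T : Finset (HeightOneSpectrum (𝓞 F))) :
        Set (HeightOneSpectrum (𝓞 F))) w → w.valuation H ((b : H) - 1) < 1 := by
    intro w hne hw
    have h1 := hb2 w ((Set.Finite.mem_toFinset hfin).2 ⟨hne, hw⟩)
    rw [← w.valuation_lt_one_iff_mem (K := H)] at h1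
    exact h1
  have hba : τ.valuation H ((b : H) - (a : H)) < 1 := by
    have h1 := Ideal.pow_le_self two_ne_zero hb1
    rw [← τ.valuation_lt_one_iff_mem (K := H)] at h1
    exact h1
  have hav : τ.valuation H (a : H) = 1 := by
    have := x.2
    change τ.valuation H ((x : Hˣ) : H) = 1 at this
    rwa [hxa] at this
  have hbv : τ.valuation H (b : H) = 1 := by
    have h1 : (b : H) = (a : H) + ((b : H) - (a : H)) := by ring
    rw [h1, Valuation.map_add_eq_of_lt_left _ (by rw [hav]; exact hba), hav]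
  have hb0 : (b : H) ≠ 0 := by
    intro h
    rw [h, map_zero] at hbv
    exact zero_ne_one hbv
  let y : Hˣ := Units.mk0 (b : H) hb0
  have hyτ : y ∈ unitsAt τ := hbv
  obtain ⟨n, hn, hn0, z, hz1, hz2⟩ := gen_all hgen y
  have hτt : Above ((insert t T : Finset (HeightOneSpectrum (𝓞 F))) :
        Set (HeightOneSpectrum (𝓞 F))) τ := by
    rw [above_iff hτ]
    exact Finset.mem_coe.2 (Finset.mem_insert_self _ _)
  have hzτ : z ∈ unitsAt τ := val_one_of_sub (hz1 τ hτt)
  have hone : ∀ w : HeightOneSpectrum (𝓞 H), w ≠ τ →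
      Above ((insert t T : Finset (HeightOneSpectrum (𝓞 F))) :
        Set (HeightOneSpectrum (𝓞 F))) w →
      w.valuation H (((y ^ n * z⁻¹ : Hˣ) : H) - 1) < 1 := by
    intro w hne hw
    have h1 : y ∈ U1 {w : HeightOneSpectrum (𝓞 H) | w ≠ τ ∧
        Above ((insert t T : Finset (HeightOneSpectrum (𝓞 F))) :
        Set (HeightOneSpectrum (𝓞 F))) w} := fun w hw => hb w hw.1 hw.2
    have h2 : z ∈ U1 {w : HeightOneSpectrum (𝓞 H) | w ≠ τ ∧
        Above ((insert t T : Finset (HeightOneSpectrum (𝓞 F))) :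
        Set (HeightOneSpectrum (𝓞 F))) w} := fun w hw => hz1 w hw.2
    exact (mul_mem (pow_mem h1 n) (inv_mem h2)) w ⟨hne, hw⟩
  have hmem : y ^ n * z⁻¹ ∈ unitsAt τ := mul_mem (pow_mem hyτ n) (inv_mem hzτ)
  refine ⟨n, hn, hn0, y ^ n * z⁻¹, hmem, ⟨fun w hw => ?_, fun w hw => ?_⟩,
    fun w hw hne => hone w hne ?_, ?_⟩
  · by_cases hwT : Above ((insert t T : Finset (HeightOneSpectrum (𝓞 F))) :
        Set (HeightOneSpectrum (𝓞 F))) w
    · by_cases hne : w = τ
      · rw [hne]; exact hmem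
      · exact val_one_of_sub (hone w hne hwT)
    · have hy0 : w.valuation H (y : H) ≠ 0 := by
        rw [Valuation.ne_zero_iff]
        exact y.ne_zero
      rw [Units.val_mul, Units.val_pow_eq_pow_val, Units.val_inv_eq_inv_val, map_mul, map_inv₀,
        map_pow, hz2 w hw hwT, mul_inv_cancel₀ (pow_ne_zero _ hy0)]
  · refine hone w ?_ (above_mono (Finset.coe_subset.2 (Finset.subset_insert _ _)) hw)
    rintro rfl
    exact htT (Finset.mem_coe.1 ((above_iff hτ).1 hw))
  · rw [above_iff hw]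
    exact Finset.mem_coe.2 (Finset.mem_insert_self _ _)
  · have h1 : (⟨y ^ n * z⁻¹, hmem⟩ : unitsAt τ) = (⟨y, hyτ⟩ : unitsAt τ) ^ n *
        (⟨z, hzτ⟩ : unitsAt τ)⁻¹ := rfl
    have h2 : χ (Additive.ofMul (⟨z, hzτ⟩ : unitsAt τ)) = 0 := by
      rw [hχ]
      exact hz1 τ hτt
    have h3 : χ (Additive.ofMul (⟨y, hyτ⟩ : unitsAt τ)) = χ (Additive.ofMul x) := by
      refine char_eq hχ _ _ ?_
      change τ.valuation H ((b : H) - ((x : Hˣ) : H)) < 1
      rw [hxa]
      exact hba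
    rw [h1, ofMul_mul, ofMul_pow, ofMul_inv, map_add, map_neg, map_nsmul, h2, neg_zero, add_zero,
      h3, hxχ]

end Pool.Agent.H509
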