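import Pool.Graph.R_pool_sql_team_seeded_1acbe0a2.Y759.AR.Unr
import Pool.Graph.R_pool_sql_team_seeded_1acbe0a2.Y824.AR.Ft
import Pool.Graph.R_seed8.H484R2.Zeta
import Pool.Graph.R_pool_sql_team_seeded_5cf16337.K3h56.E2.Stm2

/-!
# The leading term of the Dedekind zeta function at `s = 0`

From the functional equation (library) and the class number formula at `s = 1` (Mathlib).
-/

set_option autoImplicit false
set_option linter.unusedSectionVars false

open NumberField Complex Filter Topology Module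

noncomputable section

namespace Pool.Agent.H509.Z0

open Pool.Agent.Y773 Pool.Agent.Y773.G Pool.Agent.Y149.AR
open Pool.Agent.K3h56.E2 (IsCont S_ZETA0X S_ZETA0)

/-- `1 / Γ_ℝ(s) = s g(s)` -/
def gR (s : ℂ) : ℂ := (Real.pi : ℂ) ^ (s / 2) * (Gamma (s / 2 + 1))⁻¹ / 2

theorem inv_GammaR (s : ℂ) : (Gammaℝ s)⁻¹ = s * gR s := by
  by_cases hs : s = 0
  · subst hs
    rw [Gammaℝ_def]
    simp [Complex.Gamma_zero]
  · have h2 : s / 2 ≠ 0 := div_ne_zero hs two_ne_zero
    have hp : (Real.pi : ℂ) ≠ 0 := by exact_mod_cast Real.pi_ne_zero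
    rw [Gammaℝ_def, gR, Gamma_add_one _ h2, mul_inv, mul_inv, neg_div, cpow_neg, inv_inv, inv_div]
    field_simp

theorem differentiable_gR : Differentiable ℂ gR := by
  have hp : (Real.pi : ℂ) ≠ 0 := by exact_mod_cast Real.pi_ne_zero
  unfold gR
  refine Differentiable.div_const (Differentiable.mul ?_ ?_) _
  · exact (differentiable_id.div_const 2).const_cpow (Or.inl hp)
  · exact differentiable_one_div_Gamma.comp ((differentiable_id.div_const 2).add_const 1)

theorem gR_zero : gR 0 = 1 / 2 := by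
  unfold gR
  simp

section

variable (K : Type) [Field K] [NumberField K]

open Classical in
/-- the trivial character -/
def triv : Ideal (𝓞 K) →*₀ ℂ where
  toFun 𝔞 := if 𝔞 = ⊥ then 0 else 1
  map_zero' := if_pos rfl
  map_one' := by
    rw [if_neg]
    rw [Ideal.one_eq_top]
    exact top_ne_bot
  map_mul' 𝔞 𝔟 := by
    by_cases h1 : 𝔞 = ⊥
    · rw [h1, Ideal.bot_mul, if_pos rfl, zero_mul]
    · by_cases h2 : 𝔟 = ⊥
      · rw [h2, Ideal.mul_bot, if_pos rfl, mul_zero]
      · have h3 : 𝔞 * 𝔟 ≠ ⊥ := mul_ne_zero h1 h2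
        rw [if_neg h1, if_neg h2, if_neg h3, one_mul]

theorem triv_of_ne {𝔞 : Ideal (𝓞 K)} (h : 𝔞 ≠ ⊥) : triv K 𝔞 = 1 := if_neg h

theorem triv_unr : IsUnr (fun _ : InfinitePlace K => 0) (triv K) where
  sig_le _ := Nat.zero_le _
  cpx _ _ := rfl
  ne 𝔞 h := by
    rw [triv_of_ne K h]
    exact one_ne_zero
  sig x hx := by
    rw [triv_of_ne K (fun h => hx (Ideal.span_singleton_eq_bot.1 h))]
    unfold Pool.Agent.Y773.G.sg
    simp

theorem hasSum_zeta {s : ℂ} (hs : 1 < s.re) :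
    HasSum (fun 𝔞 : Ideal (𝓞 K) => triv K 𝔞 * ((Ideal.absNorm 𝔞 : ℕ) : ℂ) ^ (-s))
      (dedekindZeta K s) := by
  have h1 := Pool.Agent.H484R2.hasSum_ideals K hs
  rw [← Pool.Agent.H484R2.zeta_eq K hs] at h1
  have hinj : Function.Injective (Subtype.val : Pool.Agent.H484R2.NZI K → Ideal (𝓞 K)) :=
    Subtype.val_injective
  rw [← hinj.hasSum_iff (f := fun 𝔞 : Ideal (𝓞 K) =>
    triv K 𝔞 * ((Ideal.absNorm 𝔞 : ℕ) : ℂ) ^ (-s))]
  · refine h1.congr_fun fun I => ?_
    show triv K I.1 * _ = _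
    rw [triv_of_ne K I.2, one_mul]
  · intro 𝔞 h𝔞
    have h2 : 𝔞 = ⊥ := by
      by_contra h3
      exact h𝔞 ⟨⟨𝔞, h3⟩, rfl⟩
    rw [h2]
    show triv K ⊥ * _ = 0
    have h3 : triv K ⊥ = 0 := if_pos rfl
    rw [h3, zero_mul]

theorem LI_eq {s : ℂ} (hs : 1 < s.re) : LI (triv K) s = dedekindZeta K s :=
  (hasSum_zeta K hs).tsum_eq

theorem conj_zeta {s : ℝ} (hs : 1 < s) : (starRingEnd ℂ) (dedekindZeta K s) = dedekindZeta K s := by
  have h1 := hasSum_zeta K (s := s) (by simpa using hs)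
  have h2 := h1.map (starRingEnd ℂ) Complex.continuous_conj
  refine h2.unique (h1.congr_fun fun 𝔞 => ?_) |>.trans rfl
  change (starRingEnd ℂ) (triv K 𝔞 * ((Ideal.absNorm 𝔞 : ℕ) : ℂ) ^ (-(s : ℂ))) = _
  have h4 : ((Ideal.absNorm 𝔞 : ℕ) : ℂ) ^ (-(s : ℂ)) =
      ((((Ideal.absNorm 𝔞 : ℕ) : ℝ) ^ (-s) : ℝ) : ℂ) := by
    rw [Complex.ofReal_cpow (Nat.cast_nonneg _)]
    push_cast
    rfl
  rw [h4, map_mul, Complex.conj_ofReal]
  by_cases h : 𝔞 = ⊥
  · have h3 : triv K 𝔞 = 0 := if_pos h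
    rw [h3, map_zero]
  · rw [triv_of_ne K h, map_one]

/-- the product of the Gamma factors -/
theorem prod_gamma (s : ℂ) :
    (∏ φ : K →+* ℂ, Gammaℝ (s + (ex (fun _ : InfinitePlace K => 0) φ : ℕ))) =
      Gammaℝ s ^ (Fintype.card (InfinitePlace K)) *
        Gammaℝ (s + 1) ^ (InfinitePlace.nrComplexPlaces K) := by
  classical
  have hex : ∀ φ : K →+* ℂ, ex (fun _ : InfinitePlace K => 0) φ =
      if (InfinitePlace.mk φ).embedding = φ then 0 else 1 := by
    intro φ
    unfold ex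
    by_cases h : (InfinitePlace.mk φ).IsReal
    · rw [if_pos h, if_pos]
      rw [InfinitePlace.isReal_iff] at h
      rcases InfinitePlace.embedding_mk_eq φ with h1 | h1
      · exact h1
      · rw [h1] at h ⊢
        have h2 := ComplexEmbedding.isReal_iff.1 h
        have h3 : ComplexEmbedding.conjugate (ComplexEmbedding.conjugate φ) = φ := star_star φ
        rw [h3] at h2
        exact h2.symm
    · rw [if_neg h]
  have h1 : ∀ φ : K →+* ℂ, Gammaℝ (s + (ex (fun _ : InfinitePlace K => 0) φ : ℕ)) =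
      if (InfinitePlace.mk φ).embedding = φ then Gammaℝ s else Gammaℝ (s + 1) := by
    intro φ
    rw [hex]
    split_ifs
    · simp
    · simp
  rw [Finset.prod_congr rfl fun φ _ => h1 φ, Finset.prod_ite, Finset.prod_const, Finset.prod_const]
  have hA : (Finset.univ.filter fun φ : K →+* ℂ => (InfinitePlace.mk φ).embedding = φ).card =
      Fintype.card (InfinitePlace K) := by
    rw [← Finset.card_univ]
    symm
    refine Finset.card_bij (fun w _ => w.embedding) ?_ ?_ ?_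
    · intro w _
      rw [Finset.mem_filter]
      exact ⟨Finset.mem_univ _, by rw [InfinitePlace.mk_embedding]⟩
    · intro w _ w' _ h
      have := congrArg InfinitePlace.mk h
      rwa [InfinitePlace.mk_embedding, InfinitePlace.mk_embedding] at this
    · intro φ hφ
      exact ⟨InfinitePlace.mk φ, Finset.mem_univ _, (Finset.mem_filter.1 hφ).2⟩
  have hB : (Finset.univ.filter fun φ : K →+* ℂ => ¬ (InfinitePlace.mk φ).embedding = φ).card =
      InfinitePlace.nrComplexPlaces K := by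
    have h2 := Finset.card_filter_add_card_filter_not (s := (Finset.univ : Finset (K →+* ℂ)))
      (fun φ : K →+* ℂ => (InfinitePlace.mk φ).embedding = φ)
    rw [hA, Finset.card_univ, Embeddings.card K ℂ] at h2
    have h3 := InfinitePlace.card_add_two_mul_card_eq_rank K
    have h4 := InfinitePlace.card_eq_nrRealPlaces_add_nrComplexPlaces (K := K)
    omega
  rw [hA, hB]

variable {K}

/-- the entire function of the functional equation -/
structure IsXi (Ξ : ℂ → ℂ) (w : ℂ) : Prop where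
  diff : Differentiable ℂ Ξ
  eq : ∀ s : ℂ, 1 < s.re → Ξ s = s * (s - 1) *
    ((((discr K).natAbs : ℝ) : ℂ) ^ (s / 2) * (Gammaℝ s ^ (Fintype.card (InfinitePlace K)) *
        Gammaℝ (s + 1) ^ (InfinitePlace.nrComplexPlaces K)) * dedekindZeta K s)
  fe : ∀ s : ℂ, Ξ s = w * (starRingEnd ℂ) (Ξ (1 - (starRingEnd ℂ) s))

variable (K)

theorem exists_xi : ∃ (Ξ : ℂ → ℂ) (w : ℂ), IsXi (K := K) Ξ w := by
  obtain ⟨Ξ, w, h1, h2, h3, -⟩ := Pool.Agent.Y759.AR.unr Pool.Agent.Y824.AR.ft K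
    (fun _ => 0) (triv K) (triv_unr K)
  refine ⟨Ξ, w, h1, fun s hs => ?_, h3⟩
  rw [h2 s hs, LI_eq K hs]
  unfold GG
  rw [prod_gamma, absNorm_differentIdeal K]

theorem gammaR_ne {s : ℂ} (hs : 0 < s.re) : Gammaℝ s ≠ 0 := Gammaℝ_ne_zero_of_re_pos hs

theorem continuousAt_gammaR {s : ℂ} (hs : 0 < s.re) : ContinuousAt Gammaℝ s := by
  have h1 : ContinuousAt (fun s : ℂ => (Gammaℝ s)⁻¹) s :=
    differentiable_Gammaℝ_inv.continuous.continuousAt
  refine (h1.inv₀ (inv_ne_zero (gammaR_ne hs))).congr (Eventually.of_forall fun z => ?_)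
  exact inv_inv _

theorem disc_pos : (0 : ℝ) < ((discr K).natAbs : ℝ) := by
  exact_mod_cast Int.natAbs_pos.2 (discr_ne_zero K)

variable {K}

/-- the value at `s = 1` -/
theorem xi_one {Ξ : ℂ → ℂ} {w : ℂ} (h : IsXi (K := K) Ξ w) :
    Ξ 1 = ((2 ^ Fintype.card (InfinitePlace K) * Units.regulator K * classNumber K /
      Units.torsionOrder K : ℝ) : ℂ) := by
  set n := Fintype.card (InfinitePlace K) with hn
  set b := InfinitePlace.nrComplexPlaces K with hb
  have hR := disc_pos K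
  set R : ℝ := ((discr K).natAbs : ℝ) with hRdef
  have hRc : (R : ℂ) ≠ 0 := by exact_mod_cast hR.ne'
  -- the limit of the values at the real numbers `> 1`
  have e1 : Tendsto (fun s : ℝ => Ξ s) (𝓝[>] 1) (𝓝 (Ξ 1)) := by
    have h1 : ContinuousAt (fun s : ℝ => Ξ s) 1 :=
      (h.diff.continuous.comp Complex.continuous_ofReal).continuousAt
    have h2 := h1.tendsto.mono_left (nhdsWithin_le_nhds (s := Set.Ioi (1 : ℝ)))
    simpa using h2
  have e2 : Tendsto (fun s : ℝ => (s : ℂ) * ((R : ℂ) ^ ((s : ℂ) / 2) * (Gammaℝ s ^ n *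
      Gammaℝ ((s : ℂ) + 1) ^ b)) * (((s - 1 : ℝ) : ℂ) * dedekindZeta K s)) (𝓝[>] 1)
      (𝓝 (((1 : ℝ) : ℂ) * ((R : ℂ) ^ (((1 : ℝ) : ℂ) / 2) * (Gammaℝ ((1 : ℝ) : ℂ) ^ n *
        Gammaℝ (((1 : ℝ) : ℂ) + 1) ^ b)) * ((dedekindZeta_residue K : ℝ) : ℂ))) := by
    refine Tendsto.mul ?_ ?_
    · have hc : ContinuousAt (fun s : ℝ => (s : ℂ) * ((R : ℂ) ^ ((s : ℂ) / 2) * (Gammaℝ s ^ n *
          Gammaℝ ((s : ℂ) + 1) ^ b))) 1 := by
        have hof : ContinuousAt (fun s : ℝ => (s : ℂ)) 1 := Complex.continuous_ofReal.continuousAt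
        refine hof.mul (ContinuousAt.mul ?_ (ContinuousAt.mul (ContinuousAt.pow ?_ _)
          (ContinuousAt.pow ?_ _)))
        · exact (hof.div_const 2).const_cpow (Or.inl hRc)
        · have : ContinuousAt Gammaℝ ((1 : ℝ) : ℂ) := continuousAt_gammaR (by simp)
          exact ContinuousAt.comp (f := fun s : ℝ => (s : ℂ)) this hof
        · have : ContinuousAt Gammaℝ (((1 : ℝ) : ℂ) + 1) := continuousAt_gammaR (by simp)
          exact ContinuousAt.comp (f := fun s : ℝ => (s : ℂ) + 1) this (hof.add_const 1)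
      exact hc.tendsto.mono_left nhdsWithin_le_nhds
    · have h2 := tendsto_sub_one_mul_dedekindZeta_nhdsGT K
      refine h2.congr fun s => ?_
      push_cast
      rfl
  have e3 := e1.congr' (f₂ := fun s : ℝ => (s : ℂ) * ((R : ℂ) ^ ((s : ℂ) / 2) * (Gammaℝ s ^ n *
      Gammaℝ ((s : ℂ) + 1) ^ b)) * (((s - 1 : ℝ) : ℂ) * dedekindZeta K s)) (by
    filter_upwards [self_mem_nhdsWithin] with s hs
    rw [h.eq s (by simpa using hs), ← hRdef, ← hn, ← hb]
    push_cast
    ring)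
  have e4 := tendsto_nhds_unique e3 e2
  rw [e4]
  have g1 : Gammaℝ ((1 : ℝ) : ℂ) = 1 := by rw [Complex.ofReal_one, Gammaℝ_one]
  have g2 : Gammaℝ (((1 : ℝ) : ℂ) + 1) = ((Real.pi⁻¹ : ℝ) : ℂ) := by
    rw [Gammaℝ_def]
    have h1 : (((1 : ℝ) : ℂ) + 1) = 2 := by
      rw [Complex.ofReal_one]
      norm_num
    rw [h1, div_self two_ne_zero, Gamma_one, neg_div, div_self two_ne_zero, cpow_neg_one]
    push_cast
    ring
  have g3 : (R : ℂ) ^ (((1 : ℝ) : ℂ) / 2) = ((Real.sqrt R : ℝ) : ℂ) := by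
    rw [Real.sqrt_eq_rpow, Complex.ofReal_cpow hR.le]
    push_cast
    rfl
  rw [g1, g2, g3, dedekindZeta_residue_def]
  have hd : |((discr K : ℤ) : ℝ)| = R := by
    rw [hRdef, Nat.cast_natAbs, Int.cast_abs]
  rw [hd]
  have hn2 : n = InfinitePlace.nrRealPlaces K + b :=
    InfinitePlace.card_eq_nrRealPlaces_add_nrComplexPlaces (K := K)
  have hs : Real.sqrt R ≠ 0 := (Real.sqrt_pos.2 hR).ne'
  have ht : (Units.torsionOrder K : ℝ) ≠ 0 := by
    exact_mod_cast (Units.torsionOrder_pos K).ne'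
  have hpi : Real.pi ^ b ≠ 0 := pow_ne_zero _ Real.pi_ne_zero
  have key : Real.sqrt R * (Real.pi⁻¹) ^ b * (2 ^ InfinitePlace.nrRealPlaces K *
      (2 * Real.pi) ^ b * Units.regulator K * classNumber K /
        (Units.torsionOrder K * Real.sqrt R)) =
      2 ^ n * Units.regulator K * classNumber K / Units.torsionOrder K := by
    rw [hn2, mul_pow, inv_pow, pow_add]
    field_simp
  rw [Complex.ofReal_one, one_mul, one_pow, one_mul, ← key]
  push_cast
  ring

/-- `Ξ` is real on the real line -/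
theorem xi_conj {Ξ : ℂ → ℂ} {w : ℂ} (h : IsXi (K := K) Ξ w) (s : ℂ) :
    (starRingEnd ℂ) (Ξ ((starRingEnd ℂ) s)) = Ξ s := by
  have hR := disc_pos K
  have hd : Differentiable ℂ fun s => (starRingEnd ℂ) (Ξ ((starRingEnd ℂ) s)) := by
    intro s
    have h1 := (h.diff ((starRingEnd ℂ) s)).conj_conj
    rw [Complex.conj_conj] at h1
    exact h1
  have hreal : ∀ x : ℝ, 1 < x → (starRingEnd ℂ) (Ξ ((starRingEnd ℂ) (x : ℂ))) = Ξ x := by
    intro x hx
    have hx' : 1 < ((x : ℝ) : ℂ).re := by simpa using hx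
    rw [Complex.conj_ofReal, h.eq _ hx', map_mul, map_mul, map_mul, map_mul, map_mul, map_pow,
      map_pow, map_sub, map_one, Complex.conj_ofReal, conj_zeta K hx]
    have h1 : ∀ y : ℝ, (starRingEnd ℂ) (Gammaℝ y) = Gammaℝ y := by
      intro y
      rw [Gammaℝ_def, map_mul, ← Gamma_conj, map_div₀, Complex.conj_ofReal]
      have h2 : (starRingEnd ℂ) (2 : ℂ) = 2 := map_ofNat (starRingEnd ℂ) 2
      rw [h2]
      congr 1
      have h3 : ((Real.pi : ℝ) : ℂ) ^ (-(y : ℂ) / 2) = ((Real.pi ^ (-y / 2) : ℝ) : ℂ) := by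
        rw [Complex.ofReal_cpow Real.pi_pos.le]
        push_cast
        rfl
      rw [h3, Complex.conj_ofReal]
    have h2 := h1 (x + 1)
    rw [Complex.ofReal_add, Complex.ofReal_one] at h2
    rw [h1 x, h2]
    have h3 : ((((discr K).natAbs : ℝ)) : ℂ) ^ ((x : ℂ) / 2) =
        (((((discr K).natAbs : ℝ)) ^ (x / 2) : ℝ) : ℂ) := by
      rw [Complex.ofReal_cpow hR.le]
      push_cast
      rfl
    rw [h3, Complex.conj_ofReal]
  have h1 : AnalyticOnNhd ℂ (fun s => (starRingEnd ℂ) (Ξ ((starRingEnd ℂ) s))) Set.univ :=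
    fun z _ => hd.analyticAt z
  have h2 : AnalyticOnNhd ℂ Ξ Set.univ := fun z _ => h.diff.analyticAt z
  have h3 : ∃ᶠ z in 𝓝[≠] (2 : ℂ), (starRingEnd ℂ) (Ξ ((starRingEnd ℂ) z)) = Ξ z := by
    have h4 : Tendsto (fun x : ℝ => (x : ℂ)) (𝓝[>] (2 : ℝ)) (𝓝[≠] (2 : ℂ)) := by
      refine tendsto_nhdsWithin_iff.2 ⟨?_, ?_⟩
      · have h5 : ContinuousAt (fun x : ℝ => (x : ℂ)) 2 := Complex.continuous_ofReal.continuousAt
        have h6 := h5.tendsto.mono_left (nhdsWithin_le_nhds (s := Set.Ioi (2 : ℝ)))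
        simpa using h6
      · filter_upwards [self_mem_nhdsWithin] with x hx
        rw [Set.mem_compl_iff, Set.mem_singleton_iff]
        intro h5
        have h6 : x = 2 := by exact_mod_cast h5
        have h7 : 2 < x := hx
        rw [h6] at h7
        exact lt_irrefl _ h7
    refine h4.frequently (Eventually.frequently ?_)
    filter_upwards [self_mem_nhdsWithin] with x hx
    exact hreal x (lt_trans (by norm_num) hx)
  exact congrFun (AnalyticOnNhd.eq_of_frequently_eq h1 h2 h3) s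

/-- the value at `s = 0` -/
theorem xi_zero {Ξ : ℂ → ℂ} {w : ℂ} (h : IsXi (K := K) Ξ w) :
    (Ξ 0).im = 0 ∧ |(Ξ 0).re| = 2 ^ Fintype.card (InfinitePlace K) * Units.regulator K *
      classNumber K / Units.torsionOrder K := by
  have h0 : (Ξ 0).im = 0 := by
    have h1 := xi_conj h 0
    rw [map_zero] at h1
    exact Complex.conj_eq_iff_im.1 h1
  refine ⟨h0, ?_⟩
  have h1 := xi_one h
  have hpos : (0 : ℝ) < 2 ^ Fintype.card (InfinitePlace K) * Units.regulator K *
      classNumber K / Units.torsionOrder K := by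
    have := Units.regulator_pos K
    have h2 : (0 : ℝ) < classNumber K := by exact_mod_cast classNumber_pos K
    have h3 : (0 : ℝ) < Units.torsionOrder K := by exact_mod_cast Units.torsionOrder_pos K
    positivity
  set c : ℝ := 2 ^ Fintype.card (InfinitePlace K) * Units.regulator K *
      classNumber K / Units.torsionOrder K with hc
  have h2 := h.fe 0
  have h3 := h.fe 1
  rw [map_zero, sub_zero, h1, Complex.conj_ofReal] at h2
  rw [map_one, sub_self, h1] at h3
  have h4 : ‖Ξ 0‖ = ‖w‖ * c := by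
    rw [h2, norm_mul, Complex.norm_real, Real.norm_of_nonneg hpos.le]
  have h5 : c = ‖w‖ * ‖Ξ 0‖ := by
    have h6 := congrArg norm h3
    rw [norm_mul, RCLike.norm_conj, Complex.norm_real, Real.norm_of_nonneg hpos.le] at h6
    exact h6
  have h6 : ‖w‖ = 1 := by
    have h7 : c = ‖w‖ * ‖w‖ * c := by rw [mul_assoc, ← h4]; exact h5
    have h8 : ‖w‖ * ‖w‖ = 1 := by
      have : (‖w‖ * ‖w‖ - 1) * c = 0 := by linarith
      rcases mul_eq_zero.1 this with h9 | h9
      · linarith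
      · exact absurd h9 hpos.ne'
    have h9 := norm_nonneg w
    nlinarith
  rw [h6, one_mul] at h4
  rw [← h4]
  have h7 : Ξ 0 = (((Ξ 0).re : ℝ) : ℂ) := by
    apply Complex.ext
    · simp
    · simp [h0]
  conv_rhs => rw [h7]
  rw [Complex.norm_real, Real.norm_eq_abs]

variable (K)

/-- the continuation of the zeta function -/
theorem zeta_cont : ∃ Z : ℂ → ℂ, IsCont K Z ∧ ∃ q : ℝ,
    |q| = classNumber K / Units.torsionOrder K ∧
    Tendsto (fun s : ℂ => (s ^ (Fintype.card (InfinitePlace K) - 1))⁻¹ * Z s) (𝓝[≠] 0)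
      (𝓝 ((q * Units.regulator K : ℝ) : ℂ)) := by
  obtain ⟨Ξ, w, h⟩ := exists_xi K
  obtain ⟨n, hn⟩ : ∃ n, Fintype.card (InfinitePlace K) = n + 1 :=
    ⟨_, (Nat.succ_pred_eq_of_pos Fintype.card_pos).symm⟩
  set b := InfinitePlace.nrComplexPlaces K with hb
  have hR := disc_pos K
  have heq := h.eq
  set R : ℝ := ((discr K).natAbs : ℝ) with hRdef
  have hRc : (R : ℂ) ≠ 0 := by exact_mod_cast hR.ne'
  rw [hn] at heq
  have hdg : Differentiable ℂ fun s : ℂ => (Gammaℝ (s + 1))⁻¹ :=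
    differentiable_Gammaℝ_inv.comp (differentiable_id.add_const 1)
  have hdR : Differentiable ℂ fun s : ℂ => (R : ℂ) ^ (-(s / 2)) :=
    (differentiable_id.div_const 2).neg.const_cpow (Or.inl hRc)
  set Q : ℂ → ℂ := fun s => Ξ s * ((R : ℂ) ^ (-(s / 2)) * (gR s ^ (n + 1) *
    ((Gammaℝ (s + 1))⁻¹) ^ b)) with hQ
  have hQd : Differentiable ℂ Q :=
    h.diff.mul (hdR.mul ((differentiable_gR.pow _).mul (hdg.pow _)))
  refine ⟨fun s => (s - 1)⁻¹ * (s ^ n * Q s), ⟨fun s hs => ?_, fun s hs => ?_⟩, ?_⟩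
  · refine DifferentiableAt.mul ?_ ?_
    · exact (differentiableAt_id.sub_const 1).inv (sub_ne_zero.2 hs)
    · exact (differentiableAt_id.pow n).mul (hQd s)
  · have hs0 : (0 : ℝ) < s.re := by linarith
    have hs1 : s - 1 ≠ 0 := by
      intro h1
      rw [sub_eq_zero] at h1
      rw [h1] at hs
      norm_num at hs
    have hg1 := gammaR_ne hs0
    have hg2 : Gammaℝ (s + 1) ≠ 0 := gammaR_ne (by
      rw [Complex.add_re, Complex.one_re]
      linarith)
    have hg3 : s * gR s * Gammaℝ s = 1 := by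
      rw [← inv_GammaR, inv_mul_cancel₀ hg1]
    have hg4 : (R : ℂ) ^ (s / 2) * (R : ℂ) ^ (-(s / 2)) = 1 := by
      rw [cpow_neg, mul_inv_cancel₀]
      rw [Ne, cpow_eq_zero_iff]
      exact fun h2 => hRc h2.1
    have hg5 : Gammaℝ (s + 1) ^ b * ((Gammaℝ (s + 1))⁻¹) ^ b = 1 := by
      rw [← mul_pow, mul_inv_cancel₀ hg2, one_pow]
    simp only [hQ]
    rw [heq s hs]
    calc (s - 1)⁻¹ * (s ^ n * (s * (s - 1) * ((R : ℂ) ^ (s / 2) * (Gammaℝ s ^ (n + 1) *
            Gammaℝ (s + 1) ^ b) * dedekindZeta K s) * ((R : ℂ) ^ (-(s / 2)) * (gR s ^ (n + 1) *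
              ((Gammaℝ (s + 1))⁻¹) ^ b)))) =
          ((s - 1)⁻¹ * (s - 1)) * (s * gR s * Gammaℝ s) ^ (n + 1) *
            ((R : ℂ) ^ (s / 2) * (R : ℂ) ^ (-(s / 2))) *
            (Gammaℝ (s + 1) ^ b * ((Gammaℝ (s + 1))⁻¹) ^ b) * dedekindZeta K s := by ring
      _ = dedekindZeta K s := by
        rw [inv_mul_cancel₀ hs1, hg3, hg4, hg5]
        ring
  · obtain ⟨h1, h2⟩ := xi_zero h
    have hreg := Units.regulator_pos K
    refine ⟨-(Ξ 0).re / (2 ^ (n + 1) * Units.regulator K), ?_, ?_⟩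
    · rw [abs_div, abs_neg, h2, hn, abs_of_pos (by positivity)]
      have h3 : (Units.torsionOrder K : ℝ) ≠ 0 := by
        exact_mod_cast (Units.torsionOrder_pos K).ne'
      field_simp
    · have h3 : ((-(Ξ 0).re / (2 ^ (n + 1) * Units.regulator K) * Units.regulator K : ℝ) : ℂ) =
          (0 - 1)⁻¹ * Q 0 := by
        have h4 : Ξ 0 = (((Ξ 0).re : ℝ) : ℂ) := by
          apply Complex.ext
          · simp
          · simp [h1]
        have h5 : -(Ξ 0).re / (2 ^ (n + 1) * Units.regulator K) * Units.regulator K =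
            -(Ξ 0).re * (1 / 2) ^ (n + 1) := by
          rw [one_div, inv_pow]
          field_simp
        rw [h5]
        simp only [hQ]
        rw [gR_zero, zero_add, Gammaℝ_one, inv_one, one_pow, zero_div, neg_zero, cpow_zero]
        conv_rhs => rw [h4]
        push_cast
        ring
      rw [h3]
      have h6 : ContinuousAt (fun s : ℂ => (s - 1)⁻¹ * Q s) 0 := by
        refine ContinuousAt.mul (ContinuousAt.inv₀ (continuousAt_id.sub continuousAt_const) ?_)
          hQd.continuous.continuousAt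
        norm_num
      refine (h6.tendsto.mono_left nhdsWithin_le_nhds).congr' ?_
      filter_upwards [self_mem_nhdsWithin] with s hs
      have hs' : s ≠ 0 := hs
      rw [hn, Nat.add_sub_cancel]
      field_simp

end

/-- ZETA0X -/
theorem t_ZETA0X : S_ZETA0X := fun K _ _ => zeta_cont K

end Pool.Agent.H509.Z0
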