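import Pool.Agent.H509.Inv

/-!
# One set of generators of the class group decides Rubin's conjecture for all larger `S`
-/

set_option autoImplicit false
set_option linter.unusedSectionVars false
set_option linter.style.haveILetI false

open NumberField IsDedekindDomain Filter Topology

noncomputable section

namespace Pool.Agent.H509

open Pool.Agent.K3h30.RS Pool.Agent.K3h62.RS Pool.Agent.K3h3.RS Pool.Agent.K3h81.RL

variable {F H G : Type} [Field F] [NumberField F] [Field H] [NumberField H] [Algebra F H]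
  [CommGroup G] [Finite G] [MulSemiringAction G H]

/-- The classes of the prime ideals of `H` over `S` generate the ray class group of `H` modulo `T`,
up to exponents in `M`: for every prime ideal `Q` of `H` which is not over `S ∪ T` there are `n ∈ M`,
`n > 0`, and `x ∈ H^*`, `x ≡ 1` modulo all prime ideals over `T`, such that `x` has order `n` at `Q`
and order zero at all other prime ideals which are not over `S`. -/
def Generates (H : Type) [Field H] [NumberField H] [Algebra F H] (M : Submonoid ℕ)
    (S T : Set (HeightOneSpectrum (𝓞 F))) : Prop :=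
  ∀ Q : HeightOneSpectrum (𝓞 H), ¬ Above S Q → ¬ Above T Q →
    ∃ n ∈ M, 0 < n ∧ ∃ x : Hˣ, Q.valuation H (x : H) = WithZero.exp (-(n : ℤ)) ∧
      (∀ w : HeightOneSpectrum (𝓞 H), ¬ Above S w → w ≠ Q → w.valuation H (x : H) = 1) ∧
      ∀ w : HeightOneSpectrum (𝓞 H), Above T w → w.valuation H ((x : H) - 1) < 1

theorem Generates.mono {M : Submonoid ℕ} {S S' T : Set (HeightOneSpectrum (𝓞 F))}
    (h : Generates H M S T) (hS : S ⊆ S') : Generates H M S' T := by
  intro Q hQ hQT
  obtain ⟨n, hn, hn0, x, h1, h2, h3⟩ := h Q (fun h4 => hQ (above_mono hS h4)) hQT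
  exact ⟨n, hn, hn0, x, h1, fun w hw hne => h2 w (fun h4 => hw (above_mono hS h4)) hne, h3⟩

variable [IsGaloisGroup G F H]

theorem singleton_extra (D : RubinData F H G) {q : HeightOneSpectrum (𝓞 F)}
    (hq : q ∉ D.S) (hσ : D.σ q ≠ 1) :
    ∀ v ∈ ({q} : Finset (HeightOneSpectrum (𝓞 F))), v ∉ D.S ∧ D.σ v ≠ 1 := by
  intro v hv
  rw [Finset.mem_singleton] at hv
  rw [hv]
  exact ⟨hq, hσ⟩

/-- adding a prime ideal which does not split completely -/
theorem nonsplit_thm (D : RubinData F H G) {q : HeightOneSpectrum (𝓞 F)}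
    (hq : q ∉ D.S) (hσ : D.σ q ≠ 1) {T : Finset (HeightOneSpectrum (𝓞 F))} {M : Submonoid ℕ}
    (h : RubinM M D T) : RubinM M (D.addPrimes {q} (singleton_extra D hq hσ)) T := by
  obtain ⟨u, h1, h2, h3⟩ := h
  refine ⟨pushW D {q} (singleton_extra D hq hσ) T u, push_er D _ _ T u h1,
    push_stark D _ _ T u h2, fun ψ => ?_⟩
  obtain ⟨n, hn, z, hz⟩ := h3 (fun i => restrictG (U_mono D {q} (singleton_extra D hq hσ) T) (ψ i))
  refine ⟨n, hn, zV D {q} * z, ?_⟩
  refine (congrArg (fun x => (n : MonoidAlgebra ℚ G) * x)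
    (push_value D {q} (singleton_extra D hq hσ) T u ψ)).trans ?_
  rw [map_mul, ← hz]
  ring

open Classical in
/-- there are data for all larger sets -/
theorem exists_insert (D : RubinData F H G) {q : HeightOneSpectrum (𝓞 F)} (hq : q ∉ D.S) :
    ∃ D' : RubinData F H G, D'.S = insert q D.S := by
  by_cases hσ : D.σ q = 1
  · obtain ⟨Q, hQ⟩ := (Pool.Agent.K3h25.RS.t_OVER F H q).1
    refine ⟨addSplit D q hq hσ Q hQ, ?_⟩
    ext v
    rw [mem_split_S, Finset.mem_insert]
  · refine ⟨D.addPrimes {q} (singleton_extra D hq hσ), ?_⟩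
    change D.S ∪ {q} = _
    ext v
    simp [or_comm]

open Classical in
theorem exists_data (D : RubinData F H G) (W : Finset (HeightOneSpectrum (𝓞 F))) :
    ∃ D' : RubinData F H G, D'.S = D.S ∪ W := by
  induction W using Finset.induction_on with
  | empty => exact ⟨D, by rw [Finset.union_empty]⟩
  | insert q W hq ih =>
    obtain ⟨D', hD'⟩ := ih
    by_cases h : q ∈ D'.S
    · refine ⟨D', ?_⟩
      rw [Finset.union_insert, ← hD', Finset.insert_eq_of_mem h]
    · obtain ⟨D'', hD''⟩ := exists_insert D' h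
      refine ⟨D'', ?_⟩
      rw [hD'', hD', Finset.union_insert]

open Classical in
/-- adding one prime ideal -/
theorem step_up {M : Submonoid ℕ} (D : RubinData F H G) {T : Finset (HeightOneSpectrum (𝓞 F))}
    (hgen : Generates H M (D.S : Set (HeightOneSpectrum (𝓞 F)))
      (T : Set (HeightOneSpectrum (𝓞 F)))) {q : HeightOneSpectrum (𝓞 F)} (hq : q ∉ D.S)
    (hT : q ∉ T) (h : RubinM M D T) :
    ∃ D' : RubinData F H G, D'.S = insert q D.S ∧ RubinM M D' T := by
  by_cases hσ : D.σ q = 1
  · obtain ⟨Q, hQ⟩ := (Pool.Agent.K3h25.RS.t_OVER F H q).1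
    have hS' : (addSplit D q hq hσ Q hQ).S = insert q D.S := by
      ext v
      rw [mem_split_S, Finset.mem_insert]
    have hQS : ¬ Above (D.S : Set (HeightOneSpectrum (𝓞 F))) Q := by
      rw [above_iff hQ]
      exact fun h => hq (Finset.mem_coe.1 h)
    have hQT : ¬ Above (T : Set (HeightOneSpectrum (𝓞 F))) Q := by
      rw [above_iff hQ]
      exact fun h => hT (Finset.mem_coe.1 h)
    obtain ⟨n, hn, hn0, x, h1, h2, h3⟩ := hgen Q hQS hQT
    refine ⟨addSplit D q hq hσ Q hQ, hS', ?_⟩
    refine asc_thm (n := n) (y := x) D hq hσ hQ T hn0 hn ⟨fun w hw => ?_, h3⟩ ?_ h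
    · refine h2 w (fun h4 => hw ?_) ?_
      · obtain ⟨v, hv, hvw⟩ := above_mem h4
        rw [above_iff hvw]
        exact Finset.mem_coe.2 ((mem_split_S D hq hσ hQ).2 (Or.inr (Finset.mem_coe.1 hv)))
      · rintro rfl
        apply hw
        rw [above_iff hQ]
        exact Finset.mem_coe.2 ((mem_split_S D hq hσ hQ).2 (Or.inl rfl))
    · refine ordG_eq_nat D hq hσ hQ ?_ fun w hw hne => h2 w ?_ hne
      · rw [valuation_eq, WithZero.exp_inj, neg_inj] at h1
        exact h1
      · rw [above_iff hw]
        exact fun h => hq (Finset.mem_coe.1 h)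
  · refine ⟨D.addPrimes {q} (singleton_extra D hq hσ), ?_, nonsplit_thm D hq hσ h⟩
    change D.S ∪ {q} = _
    ext v
    simp [or_comm]

open Classical in
/-- adding finitely many prime ideals -/
theorem up {M : Submonoid ℕ} (D : RubinData F H G) {T : Finset (HeightOneSpectrum (𝓞 F))}
    (hgen : Generates H M (D.S : Set (HeightOneSpectrum (𝓞 F)))
      (T : Set (HeightOneSpectrum (𝓞 F)))) (W : Finset (HeightOneSpectrum (𝓞 F)))
    (hT : Disjoint W T) (h : RubinM M D T) :
    ∃ D' : RubinData F H G, D'.S = D.S ∪ W ∧ RubinM M D' T := by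
  induction W using Finset.induction_on with
  | empty => exact ⟨D, by rw [Finset.union_empty], h⟩
  | insert q W hq ih =>
    rw [Finset.disjoint_insert_left] at hT
    obtain ⟨D', hD', h'⟩ := ih hT.2
    by_cases h1 : q ∈ D'.S
    · refine ⟨D', ?_, h'⟩
      rw [Finset.union_insert, ← hD', Finset.insert_eq_of_mem h1]
    · have hgen' : Generates H M (D'.S : Set (HeightOneSpectrum (𝓞 F)))
          (T : Set (HeightOneSpectrum (𝓞 F))) := by
        refine hgen.mono ?_
        rw [hD']
        exact Finset.coe_subset.2 Finset.subset_union_left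
      obtain ⟨D'', hD'', h''⟩ := step_up D' hgen' h1 hT.1 h'
      exact ⟨D'', by rw [hD'', hD', Finset.union_insert], h''⟩

open Classical in
/-- removing one prime ideal which splits completely -/
theorem step_down {M : Submonoid ℕ} {D D' : RubinData F H G}
    {T : Finset (HeightOneSpectrum (𝓞 F))} (hT : Disjoint D'.S T)
    {q : HeightOneSpectrum (𝓞 F)} (hq : q ∉ D.S) (hσ : D.σ q = 1) (hS : D'.S = insert q D.S)
    (h : RubinM M D' T) : RubinM M D T := by
  obtain ⟨Q, hQ⟩ := (Pool.Agent.K3h25.RS.t_OVER F H q).1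
  have hS' : (addSplit D q hq hσ Q hQ).S = insert q D.S := by
    ext v
    rw [mem_split_S, Finset.mem_insert]
  have hqT : q ∉ T := fun h => Finset.disjoint_left.1 hT (by
    rw [hS]; exact Finset.mem_insert_self _ _) h
  refine desc_thm D hq hσ hQ T hqT M ?_
  refine rubinM_congr (hS.trans hS'.symm) ?_ h
  rw [hS', ← hS]
  exact hT

open Classical in
/-- removing finitely many prime ideals which split completely -/
theorem down {M : Submonoid ℕ} {D : RubinData F H G}
    {T : Finset (HeightOneSpectrum (𝓞 F))} (V : Finset (HeightOneSpectrum (𝓞 F)))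
    (hσ : ∀ v ∈ V, v ∉ D.S → D.σ v = 1) (hT : Disjoint (D.S ∪ V) T) :
    ∀ D' : RubinData F H G, D'.S = D.S ∪ V → RubinM M D' T → RubinM M D T := by
  induction V using Finset.induction_on with
  | empty =>
    intro D' hD' h
    rw [Finset.union_empty] at hD' hT
    exact rubinM_congr hD' hT h
  | insert q V hq ih =>
    intro D' hD' h
    rw [Finset.union_insert, Finset.disjoint_insert_left] at hT
    obtain ⟨D'', hD''⟩ := exists_data D V
    refine ih (fun v hv => hσ v (Finset.mem_insert_of_mem hv)) hT.2 D'' hD'' ?_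
    by_cases hqS : q ∈ D''.S
    · refine rubinM_congr ?_ ?_ h
      · rw [hD', Finset.union_insert, ← hD'', Finset.insert_eq_of_mem hqS]
      · rw [hD'']; exact hT.2
    · have h1 : q ∉ D.S := fun h => hqS (by rw [hD'']; exact Finset.mem_union_left _ h)
      have hle : D.S ⊆ D''.S := by rw [hD'']; exact Finset.subset_union_left
      refine step_down (D' := D') ?_ hqS ?_ ?_ h
      · rw [hD', Finset.union_insert, Finset.disjoint_insert_left]
        exact hT
      · rw [← sigma_eq hle hqS]
        exact hσ q (Finset.mem_insert_self _ _) h1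
      · rw [hD', hD'', Finset.union_insert]

open Classical in
/-- **The main theorem.** If the prime ideals over `S ∪ V` generate the ray class group modulo `T`
of `H` up to exponents in `M`, where the elements of `V` split completely in `H`, then the
conjecture for `S ∪ V` and `T` (with denominators in `M`) implies the conjecture for all `S' ⊇ S`
and `T`. -/
theorem main {M : Submonoid ℕ} (D : RubinData F H G) {T : Finset (HeightOneSpectrum (𝓞 F))}
    (V : Finset (HeightOneSpectrum (𝓞 F))) (hσ : ∀ v ∈ V, v ∉ D.S → D.σ v = 1)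
    (hVT : Disjoint V T)
    (hgen : Generates H M ((D.S ∪ V : Finset _) : Set (HeightOneSpectrum (𝓞 F)))
      (T : Set (HeightOneSpectrum (𝓞 F))))
    (D₁ : RubinData F H G) (hD₁ : D₁.S = D.S ∪ V) (h : RubinM M D₁ T)
    (D' : RubinData F H G) (hD' : D.S ⊆ D'.S) (hT : Disjoint D'.S T) : RubinM M D' T := by
  rw [← hD₁] at hgen
  obtain ⟨D₂, hD₂, h₂⟩ := up D₁ hgen D'.S hT h
  refine down (D := D') V (fun v hv hv' => ?_) ?_ D₂ ?_ h₂
  · rw [← sigma_eq hD' hv']
    exact hσ v hv fun h => hv' (hD' h)
  · rw [Finset.disjoint_union_left]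
    exact ⟨hT, hVT⟩
  · rw [hD₂, hD₁]
    ext v
    simp only [Finset.mem_union]
    constructor
    · rintro ((h | h) | h)
      · exact Or.inl (hD' h)
      · exact Or.inr h
      · exact Or.inl h
    · rintro (h | h)
      · exact Or.inr h
      · exact Or.inl (Or.inr h)

end Pool.Agent.H509
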