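import Pool.Agent.H509.Drop
import Pool.Graph.R_pool_sql_team_seeded_5cf16337.K3h66.RS.Mono

/-!
# Adding prime ideals to `T`
-/

set_option autoImplicit false
set_option linter.unusedSectionVars false
set_option linter.style.haveILetI false

open NumberField IsDedekindDomain Filter Topology

noncomputable section

namespace Pool.Agent.H509

open Pool.Agent.K3h30.RS Pool.Agent.K3h62.RS Pool.Agent.K3h3.RS Pool.Agent.K3h81.RL
open Pool.Agent.K3h66.RS (MM toQ_inj toQ_single)

variable {G A C : Type} [CommGroup G] [Finite G] [AddCommGroup A] [DistribMulAction G A]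
  [AddCommGroup C] [DistribMulAction G C]

theorem keyW (w : ℕ) (hL : S_LAM) (hE : S_EXT) (hDF : S_DETF) [AddGroup.FG C]
    (htor : ∀ c : C, IsOfFinAddOrder c → w • c = 0) (i : C →+ A)
    (hi : ∀ (γ : G) (c : C), i (γ • c) = γ • i c) (κ : A →+ C) (m₀ : ℕ) (hm₀ : 0 < m₀)
    (hκ : ∀ (γ : G) (a : A), κ (γ • a) = γ • κ a) (hiκ : ∀ a, i (κ a) = m₀ • a)
    (hκi : ∀ c, κ (i c) = m₀ • c) (I : Type) [Fintype I] [DecidableEq I] (q : I → ℕ) (σ : I → G)
    (χ : I → A →+ QZ) (m : I → ℕ) (hm0 : ∀ t, 0 < m t) (hm : ∀ t a, m t • χ t a = 0)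
    (hfrob : ∀ t a, χ t (σ t • a) = q t • χ t a) (r : ℕ) (f : Fin r → A →+ MonoidAlgebra ℚ G)
    (hf : ∀ j (γ : G) (a : A), f j (γ • a) = MonoidAlgebra.single γ 1 * f j a)
    (hfi : ∀ j (c : C), (∀ t (γ : G), χ t (γ • i c) = 0) → f j (i c) ∈ (toQ (G := G)).range) :
    (fun x : Fin r → A => (∏ t, (1 - MonoidAlgebra.single (σ t)⁻¹ (q t : ℚ))) *
      ((w : MonoidAlgebra ℚ G) ^ r * Matrix.det (Matrix.of fun a b => f a (x b)))) ∈
      Submodule.span (toQ (G := G)).range
        {h : (Fin r → A) → MonoidAlgebra ℚ G | ∃ y : Fin r → A → MonoidAlgebra ℚ G,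
          (∀ j, y j ∈ MM (G := G) i) ∧ h = fun x => Matrix.det (Matrix.of fun a b => y a (x b))} := by
  classical
  choose Λ hΛ1 hΛ2 using fun t : I => hL G C w htor
    ((χ t).comp i)
  let d : ∀ t : I, LocData G C w (q t) (σ t) := fun t =>
    ⟨(χ t).comp i, Λ t, hΛ1 t, hΛ2 t, fun a => by
      rw [AddMonoidHom.comp_apply, AddMonoidHom.comp_apply, hi, hfrob]⟩
  let m' : ℕ := ∏ t, m t
  have hm'0 : 0 < m' := Finset.prod_pos fun t _ => hm0 t
  have hm' : ∀ t a, m' • χ t a = 0 := by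
    intro t a
    obtain ⟨k, hk⟩ := Finset.dvd_prod_of_mem m (Finset.mem_univ t)
    change (∏ t, m t) • χ t a = 0
    rw [hk, mul_comm, mul_smul, hm, smul_zero]
  let B : AddSubgroup C :=
    { carrier := {c | ∀ (t : I) (γ : G), (χ t).comp i (γ • c) = 0}
      add_mem' := by
        intro a b ha hb t γ
        rw [smul_add, map_add, ha t γ, hb t γ, add_zero]
      zero_mem' := by
        intro t γ
        rw [smul_zero, map_zero]
      neg_mem' := by
        intro a ha t γ
        rw [smul_neg, map_neg, ha t γ, neg_zero] }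
  have hBmem : ∀ c : C, c ∈ B ↔ ∀ (t : I) (γ : G), (χ t).comp i (γ • c) = 0 := fun c => Iff.rfl
  have hBf : ∀ j (b : B), f j (i b) ∈ (toQ (G := G)).range := by
    intro j b
    refine hfi j _ fun t γ => ?_
    have := (hBmem _).1 b.2 t γ
    rwa [AddMonoidHom.comp_apply, hi] at this
  choose g hg using hBf
  let ψ : Fin r → B →+ MonoidAlgebra ℤ G := fun j => AddMonoidHom.mk' (g j) (by
    intro a b
    apply toQ_inj
    rw [map_add, hg, hg, hg, AddSubgroup.coe_add, map_add, map_add])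
  have hψ : ∀ j (b : B), toQ (ψ j b) = f j (i b) := hg
  have hψe : ∀ j (γ : G) (x y : B), (y : C) = γ • (x : C) →
      ψ j y = MonoidAlgebra.single γ 1 * ψ j x := by
    intro j γ x y hxy
    apply toQ_inj
    rw [map_mul, toQ_single, hψ, hψ, hxy, hi, hf]
  choose y a hy hya using fun j => hE G C I w m' hm'0 (fun t => (χ t).comp i)
    (fun t c => hm' t (i c)) Λ hΛ1 hΛ2 B hBmem (ψ j) (hψe j)
  -- the formula on `C`
  have hC : ∀ j (c : C), (w : MonoidAlgebra ℚ G) * f j (i c) = toQ (y j c) + ∑ t, toQ (a j t) * Λ t c := by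
    intro j c
    have hb : m' • c ∈ B := by
      rw [hBmem]
      intro t γ
      rw [smul_comm, map_nsmul, AddMonoidHom.comp_apply]
      exact hm' t _
    have h1 := hya j ⟨m' • c, hb⟩
    rw [hψ] at h1
    apply natCast_cancel hm'0
    have h2 : (m' : MonoidAlgebra ℚ G) * ((w : MonoidAlgebra ℚ G) * f j (i c)) =
        (w : MonoidAlgebra ℚ G) * f j (i (m' • c)) := by
      rw [map_nsmul, map_nsmul, nsmul_eq_mul]
      ring
    have h3 : (m' : MonoidAlgebra ℚ G) * toQ (y j c) = toQ (y j (m' • c)) := by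
      rw [map_nsmul, nsmul_eq_mul, map_mul, map_natCast]
    have h4 : ∀ t, (m' : MonoidAlgebra ℚ G) * (toQ (a j t) * Λ t c) =
        toQ (a j t) * Λ t (m' • c) := by
      intro t
      rw [map_nsmul, nsmul_eq_mul]
      ring
    rw [h2, h1, mul_add, h3, Finset.mul_sum]
    congr 1
    exact Finset.sum_congr rfl fun t _ => (h4 t).symm
  -- the extension to `A`
  let e : MonoidAlgebra ℚ G →+ MonoidAlgebra ℚ G :=
    DistribSMul.toAddMonoidHom (MonoidAlgebra ℚ G) ((m₀ : ℚ)⁻¹)
  have he : ∀ z, e z = ((m₀ : ℚ)⁻¹) • z := fun z => rfl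
  have hem : ∀ z, e (m₀ • z) = z := by
    intro z
    rw [he, ← Nat.cast_smul_eq_nsmul ℚ m₀ z, smul_smul, inv_mul_cancel₀, one_smul]
    exact_mod_cast hm₀.ne'
  have hemul : ∀ z z', e (z * z') = z * e z' := by
    intro z z'
    rw [he, he, mul_smul_comm]
  let Y : Fin r → A →+ MonoidAlgebra ℚ G := fun j =>
    e.comp (((toQ (G := G)).toAddMonoidHom.comp (y j)).comp κ)
  have hY : ∀ j x, Y j x = e (toQ (y j (κ x))) := fun j x => rfl
  let L : I → A →+ MonoidAlgebra ℚ G := fun t => e.comp ((Λ t).comp κ)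
  have hLL : ∀ t x, L t x = e (Λ t (κ x)) := fun t x => rfl
  have hA : ∀ j x, (w : MonoidAlgebra ℚ G) * f j x = Y j x + ∑ t, toQ (a j t) * L t x := by
    intro j x
    have h1 := hC j (κ x)
    rw [hiκ, map_nsmul] at h1
    have h2 := congrArg e h1
    rw [hemul, hem, map_add, map_sum] at h2
    rw [h2, hY]
    congr 1
    refine Finset.sum_congr rfl fun t _ => ?_
    rw [hemul, hLL]
  have hmain := hDF (MonoidAlgebra ℚ G) I A (toQ (G := G)).range (MM (G := G) i) Finset.univ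
    (fun t => 1 - MonoidAlgebra.single (σ t)⁻¹ (q t : ℚ)) r (fun j => ⇑(Y j))
    (fun j t => toQ (a j t)) (fun t => ⇑(L t)) ?_ ?_ ?_ ?_
  · have h5 : (fun x : Fin r → A => (∏ t, (1 - MonoidAlgebra.single (σ t)⁻¹ (q t : ℚ))) *
        ((w : MonoidAlgebra ℚ G) ^ r * Matrix.det (Matrix.of fun a b => f a (x b)))) =
        fun x : Fin r → A =>
        (∏ t, (1 - MonoidAlgebra.single (σ t)⁻¹ (q t : ℚ))) *
        Matrix.det (Matrix.of fun j b => Y j (x b) + ∑ t, toQ (a j t) * L t (x b)) := by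
      funext x
      rw [← det_natCast_mul]
      congr 2
      ext j b
      rw [Matrix.of_apply, Matrix.of_apply, hA]
    rw [h5]
    exact hmain
  · intro j
    refine ⟨Y j, fun γ x => ?_, fun c => ?_, rfl⟩
    · rw [hY, hY, hκ, hy, map_mul, toQ_single, hemul]
    · rw [hY, hκi, map_nsmul, map_nsmul, hem]
      exact ⟨_, rfl⟩
  · intro j t
    exact ⟨_, rfl⟩
  · intro t _
    refine ⟨1 - MonoidAlgebra.single (σ t)⁻¹ (q t : ℤ), ?_⟩
    rw [map_sub, map_one]
    congr 1
    simp [toQ]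
  · intro t _
    refine ⟨(AddMonoidHom.mulLeft (1 - MonoidAlgebra.single (σ t)⁻¹ (q t : ℚ))).comp (L t),
      fun γ x => ?_, fun c => ?_, rfl⟩
    · change (1 - MonoidAlgebra.single (σ t)⁻¹ (q t : ℚ)) * L t (γ • x) =
        MonoidAlgebra.single γ 1 * ((1 - MonoidAlgebra.single (σ t)⁻¹ (q t : ℚ)) * L t x)
      rw [hLL, hLL, hκ, hΛ1, hemul]
      ring
    · change (1 - MonoidAlgebra.single (σ t)⁻¹ (q t : ℚ)) * L t (i c) ∈ _
      rw [hLL, hκi, map_nsmul, hem]
      exact (d t).integral c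

variable {F H : Type} [Field F] [NumberField F] [Field H] [NumberField H] [Algebra F H]
  [MulSemiringAction G H]

open Classical in
/-- **Enlarging `T`.** -/
theorem mono_gen [hG : IsGaloisGroup G F H] (D : RubinData F H G) {M : Submonoid ℕ}
    {U : Subgroup Hˣ} (hU : U ≤ US D) (u : Wedge G D.r U)
    (T₀ T : Finset (HeightOneSpectrum (𝓞 F))) (hsub : T₀ ⊆ T)
    (hdis : Disjoint D.S T) {w : ℕ} (hwM : w ∈ M) (htor : Kills D w T₀)
    (hint : IntM M D hU u T₀) : IntM M D hU u T := by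
  intro f hfe hfi
  have hdis₀ : Disjoint D.S T₀ := hdis.mono_right hsub
  letI i1 := actionA (H := H) (G := G) Pool.Agent.K3h25.RS.t_TRANS
    (D.S : Set (HeightOneSpectrum (𝓞 F))) ∅
  letI i2 := actU D T₀
  have hfgA : AddGroup.FG (Additive (US D)) := fgA Pool.Agent.K3h25.RS.t_OVER D.S
  -- the inclusion
  let i : Additive (D.U T₀) →+ Additive (US D) :=
    MonoidHom.toAdditive (Subgroup.inclusion (U_le D T₀))
  have hiv : ∀ c : Additive (D.U T₀), ((Additive.toMul (i c) : US D) : Hˣ) =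
      ((Additive.toMul c : D.U T₀) : Hˣ) := fun c => rfl
  have hfgC : AddGroup.FG (Additive (D.U T₀)) := fgAdd D T₀
  have hi : ∀ (γ : G) (c : Additive (D.U T₀)), i (γ • c) = γ • i c := fun γ c => rfl
  have htor' : ∀ c : Additive (D.U T₀), IsOfFinAddOrder c → w • c = 0 := by
    intro c hc
    obtain ⟨n, hn, h1⟩ := isOfFinAddOrder_iff_nsmul_eq_zero.1 hc
    have h2 : ((Additive.toMul c : D.U T₀) : Hˣ) ^ n = 1 := by
      have := congrArg (fun z : Additive (D.U T₀) => ((Additive.toMul z : D.U T₀) : Hˣ)) h1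
      exact this
    have h3 := htor _ (Additive.toMul c : D.U T₀).2 (isOfFinOrder_iff_pow_eq_one.2 ⟨n, hn, h2⟩)
    apply Additive.toMul.injective
    exact Subtype.ext h3
  have hnot : ∀ t ∈ T, t ∉ D.S := fun t ht h => (Finset.disjoint_left.1 hdis h) ht
  obtain ⟨m₀, hm₀, hpow⟩ := exists_pow_US D T₀ hdis₀
  let κ : Additive (US D) →+ Additive (D.U T₀) := AddMonoidHom.mk'
    (fun a => Additive.ofMul ⟨((Additive.toMul a : US D) : Hˣ) ^ m₀, hpow (Additive.toMul a)⟩) (by
    intro a b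
    apply Additive.toMul.injective
    apply Subtype.ext
    change ((Additive.toMul (a + b) : US D) : Hˣ) ^ m₀ =
      ((Additive.toMul a : US D) : Hˣ) ^ m₀ * ((Additive.toMul b : US D) : Hˣ) ^ m₀
    rw [← mul_pow]
    rfl)
  have hκ : ∀ (γ : G) (a : Additive (US D)), κ (γ • a) = γ • κ a := by
    intro γ a
    apply Additive.toMul.injective
    apply Subtype.ext
    change (act γ ((Additive.toMul a : US D) : Hˣ)) ^ m₀ =
      act γ (((Additive.toMul a : US D) : Hˣ) ^ m₀)
    rw [act_pow]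
  have hiκ : ∀ a, i (κ a) = m₀ • a := by
    intro a
    apply Additive.toMul.injective
    apply Subtype.ext
    rfl
  have hκi : ∀ c, κ (i c) = m₀ • c := by
    intro c
    apply Additive.toMul.injective
    apply Subtype.ext
    rfl
  -- the characters at the other primes of `T`
  have hnot' : ∀ t : {t // t ∈ T \ T₀}, t.1 ∉ D.S := fun t =>
    hnot t.1 (Finset.mem_sdiff.1 t.2).1
  choose χ m hm0 hm hfrob hker hpow' using fun t : {t // t ∈ T \ T₀} =>
    exists_char (G := G) Pool.Agent.K3h44.RS.t_DLOG Pool.Agent.K3h44.RS.t_FROBU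
      Pool.Agent.K3h25.RS.t_TRANS Pool.Agent.K3h25.RS.t_OVER D.S t.1 (hnot' t) (D.σ t.1)
      (D.frob t.1 (hnot' t))
  have hf1 : ∀ j (γ : G) (a : Additive (US D)), f j (γ • a) = MonoidAlgebra.single γ 1 * f j a :=
    fun j γ a => hfe j γ (Additive.toMul a) (Additive.toMul (γ • a)) rfl
  have hf2 : ∀ j (c : Additive (D.U T₀)), (∀ t (γ : G), χ t (γ • i c) = 0) →
      f j (i c) ∈ (toQ (G := G)).range := by
    intro j c hc
    refine hfi j (Additive.toMul (i c)) ?_
    refine ⟨(Additive.toMul c : D.U T₀).2.1, fun w hw => ?_⟩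
    obtain ⟨t, ht, htw⟩ := above_mem hw
    by_cases htv : t ∈ T₀
    · exact (Additive.toMul c : D.U T₀).2.2 w ((above_iff htw).2 (Finset.mem_coe.2 htv))
    · exact (hker ⟨t, Finset.mem_sdiff.2 ⟨Finset.mem_coe.1 ht, htv⟩⟩ (Additive.toMul (i c))).1
        (fun γ => hc _ γ) w htw
  have hk := keyW w Pool.Agent.K3h73.RS.t_LAM Pool.Agent.K3h12.RSE.t_EXT
    Pool.Agent.K3h24.RS.Det.t_DETF htor' i hi κ m₀ hm₀ hκ hiκ hκi {t // t ∈ T \ T₀}
    (fun t => Ideal.absNorm t.1.asIdeal) (fun t => D.σ t.1) χ m hm0 hm hfrob D.r f hf1 hf2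
  -- the evaluation
  let pt : Fin u.n → Fin D.r → Additive (US D) := fun k j =>
    Additive.ofMul ⟨(u.x k j : Hˣ), hU (u.x k j).2⟩
  let N : Submodule (toQ (G := G)).range ((Fin D.r → Additive (US D)) → MonoidAlgebra ℚ G) :=
    { carrier := {h | ∃ n ∈ M, (n : MonoidAlgebra ℚ G) * (D.delta T₀ * ∑ k, u.c k * h (pt k)) ∈
        (toQ (G := G)).range}
      add_mem' := by
        rintro g h ⟨n, hn, hg⟩ ⟨n', hn', hh⟩
        refine ⟨n * n', mul_mem hn hn', ?_⟩
        change ((n * n' : ℕ) : MonoidAlgebra ℚ G) *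
          (D.delta T₀ * ∑ k, u.c k * (g (pt k) + h (pt k))) ∈ (toQ (G := G)).range
        have : ((n * n' : ℕ) : MonoidAlgebra ℚ G) *
            (D.delta T₀ * ∑ k, u.c k * (g (pt k) + h (pt k))) =
            (n' : MonoidAlgebra ℚ G) * ((n : MonoidAlgebra ℚ G) *
              (D.delta T₀ * ∑ k, u.c k * g (pt k))) + (n : MonoidAlgebra ℚ G) *
            ((n' : MonoidAlgebra ℚ G) * (D.delta T₀ * ∑ k, u.c k * h (pt k))) := by
          simp only [mul_add, Finset.sum_add_distrib]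
          push_cast
          ring
        rw [this]
        exact add_mem (mul_mem (natCast_mem _ _) hg) (mul_mem (natCast_mem _ _) hh)
      zero_mem' := by
        refine ⟨1, one_mem M, ?_⟩
        change ((1 : ℕ) : MonoidAlgebra ℚ G) *
          (D.delta T₀ * ∑ k, u.c k * (0 : MonoidAlgebra ℚ G)) ∈ (toQ (G := G)).range
        simp
      smul_mem' := by
        rintro z h ⟨n, hn, hh⟩
        refine ⟨n, hn, ?_⟩
        change (n : MonoidAlgebra ℚ G) *
          (D.delta T₀ * ∑ k, u.c k * ((z : MonoidAlgebra ℚ G) * h (pt k))) ∈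
          (toQ (G := G)).range
        have : (n : MonoidAlgebra ℚ G) *
            (D.delta T₀ * ∑ k, u.c k * ((z : MonoidAlgebra ℚ G) * h (pt k))) =
            z * ((n : MonoidAlgebra ℚ G) * (D.delta T₀ * ∑ k, u.c k * h (pt k))) := by
          have e1 : ∑ k, u.c k * ((z : MonoidAlgebra ℚ G) * h (pt k)) =
              (z : MonoidAlgebra ℚ G) * ∑ k, u.c k * h (pt k) := by
            rw [Finset.mul_sum]
            exact Finset.sum_congr rfl fun k _ => by ring
          rw [e1]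
          ring
        rw [this]
        exact mul_mem z.2 hh }
  have hle : Submodule.span (toQ (G := G)).range
      {h : (Fin D.r → Additive (US D)) → MonoidAlgebra ℚ G |
        ∃ y : Fin D.r → Additive (US D) → MonoidAlgebra ℚ G,
          (∀ j, y j ∈ MM (G := G) i) ∧ h = fun x => Matrix.det (Matrix.of fun a b => y a (x b))} ≤
      N := by
    rw [Submodule.span_le]
    rintro _ ⟨y, hy, rfl⟩
    choose g hg1 hg2 hg3 using hy
    obtain ⟨n, hn, h1⟩ := hint g (fun j γ x y hxy => by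
      have h3 : Additive.ofMul y = γ • Additive.ofMul x := by
        apply Additive.toMul.injective
        exact Subtype.ext hxy
      rw [h3]
      exact hg1 j γ _) (fun j x hx => hg2 j (Additive.ofMul ⟨(x : Hˣ), hx⟩))
    refine ⟨n, hn, ?_⟩
    have h2 : wval D hU g u = ∑ k, u.c k *
        (fun x : Fin D.r → Additive (US D) => Matrix.det (Matrix.of fun a b => y a (x b))) (pt k) := by
      unfold wval
      refine Finset.sum_congr rfl fun k _ => ?_
      congr 2
      refine Matrix.ext fun a b => ?_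
      change g a (pt k b) = y a (pt k b)
      rw [hg3 a]
    rw [h2] at h1
    exact h1
  obtain ⟨n, hn, hN⟩ := hle hk
  have hN' : (n : MonoidAlgebra ℚ G) * (D.delta T₀ * ∑ k, u.c k * ((∏ t : {t // t ∈ T \ T₀},
      (1 - MonoidAlgebra.single (D.σ t.1)⁻¹ (Ideal.absNorm t.1.asIdeal : ℚ))) *
      ((w : MonoidAlgebra ℚ G) ^ D.r * Matrix.det (Matrix.of fun a b => f a (pt k b))))) ∈
      (toQ (G := G)).range := hN
  refine ⟨n * w ^ D.r, mul_mem hn (pow_mem hwM _), ?_⟩
  have h5 : ((n * w ^ D.r : ℕ) : MonoidAlgebra ℚ G) * (D.delta T * wval D hU f u) =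
      (n : MonoidAlgebra ℚ G) * (D.delta T₀ * ∑ k, u.c k * ((∏ t : {t // t ∈ T \ T₀},
      (1 - MonoidAlgebra.single (D.σ t.1)⁻¹ (Ideal.absNorm t.1.asIdeal : ℚ))) *
      ((w : MonoidAlgebra ℚ G) ^ D.r * Matrix.det (Matrix.of fun a b => f a (pt k b))))) := by
    have h6 : D.delta T = D.delta T₀ * ∏ t : {t // t ∈ T \ T₀},
        (1 - MonoidAlgebra.single (D.σ t.1)⁻¹ (Ideal.absNorm t.1.asIdeal : ℚ)) := by
      unfold RubinData.delta
      rw [Finset.prod_coe_sort (T \ T₀) (fun t =>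
        (1 - MonoidAlgebra.single (D.σ t)⁻¹ (Ideal.absNorm t.asIdeal : ℚ))), mul_comm,
        Finset.prod_sdiff hsub]
    rw [h6]
    unfold wval
    simp only [Finset.mul_sum]
    refine Finset.sum_congr rfl fun k _ => ?_
    push_cast
    ring
  rw [h5]
  exact hN'

end Pool.Agent.H509
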