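import Pool.Graph.R_pool_sql_team_seeded_5cf16337.K3h81.RL.Mono

/-!
# The order at a prime ideal which splits completely
-/

set_option autoImplicit false
set_option linter.unusedSectionVars false

open NumberField IsDedekindDomain Filter Topology

noncomputable section

namespace Pool.Agent.H509

open Pool.Agent.K3h30.RS Pool.Agent.K3h62.RS Pool.Agent.K3h3.RS Pool.Agent.K3h81.RL

/-- the order at `Q` -/
def ordQ {H : Type} [Field H] [NumberField H] (Q : HeightOneSpectrum (𝓞 H)) :
    Additive Hˣ →+ ℤ :=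
  -(MonoidHom.toAdditiveLeft (Q.valuationOfNeZero (K := H)))

section

variable {H : Type} [Field H] [NumberField H]

theorem valuation_eq (Q : HeightOneSpectrum (𝓞 H)) (x : Hˣ) :
    Q.valuation H (x : H) = WithZero.exp (-(ordQ Q (Additive.ofMul x))) := by
  have h := HeightOneSpectrum.valuationOfNeZero_eq (K := H) Q x
  rw [← h]
  change _ = WithZero.exp (-(-(Multiplicative.toAdd (Q.valuationOfNeZero x))))
  rw [neg_neg]
  rfl

theorem ordQ_eq_zero (Q : HeightOneSpectrum (𝓞 H)) (x : Hˣ) :
    ordQ Q (Additive.ofMul x) = 0 ↔ Q.valuation H (x : H) = 1 := by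
  rw [valuation_eq, ← WithZero.exp_zero, WithZero.exp_inj, neg_eq_zero]

theorem ordQ_mul (Q : HeightOneSpectrum (𝓞 H)) (x y : Hˣ) :
    ordQ Q (Additive.ofMul (x * y)) = ordQ Q (Additive.ofMul x) + ordQ Q (Additive.ofMul y) := by
  rw [ofMul_mul, map_add]

theorem log_av (Q : HeightOneSpectrum (𝓞 H)) (x : Hˣ) :
    Real.log (av (Sum.inr Q : Place H) (x : H)) =
      -(Real.log (Ideal.absNorm Q.asIdeal : ℝ)) * (ordQ Q (Additive.ofMul x) : ℝ) := by
  change Real.log (HeightOneSpectrum.adicAbv H Q (x : H)) = _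
  rw [NumberField.HeightOneSpectrum.adicAbv_def, valuation_eq]
  have h : ((WithZeroMulInt.toNNReal (NumberField.HeightOneSpectrum.absNorm_ne_zero Q))
    (WithZero.exp (-(ordQ Q (Additive.ofMul x)))) : NNReal) =
    ((Ideal.absNorm Q.asIdeal : NNReal) ^ (-(ordQ Q (Additive.ofMul x)))) := by
    rw [WithZeroMulInt.toNNReal_neg_apply _ (WithZero.exp_ne_zero)]
    rfl
  rw [h]
  push_cast
  rw [Real.log_zpow]
  push_cast
  ring

end

end Pool.Agent.H509
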