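import Pool.Agent.H509.Ab2

/-!
# Popescu's conjecture: the change of `S`
-/

set_option autoImplicit false
set_option linter.unusedSectionVars false
set_option linter.style.haveILetI false

open NumberField IsDedekindDomain Filter Topology

noncomputable section

namespace Pool.Agent.H509

open Pool.Agent.K3h30.RS Pool.Agent.K3h62.RS Pool.Agent.K3h3.RS Pool.Agent.K3h81.RL
open Pool.Agent.N598.ST (AbRoot AbOm W)

variable {F H G : Type} [Field F] [NumberField F] [Field H] [NumberField H] [Algebra F H]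
  [CommGroup G] [Finite G] [MulSemiringAction G H]

/-- the integrality condition of Popescu's conjecture, with denominators in `M` -/
def PopInt (M : Submonoid ℕ) (D : RubinData F H G) (u : Wedge G D.r (D.U ∅)) : Prop :=
  ∀ (j : Fin D.r) (φ : Fin D.r → GHom G (D.U ∅)), ∃ n ∈ M, ∃ ε : D.U ∅,
    AbOm F (Units.torsionOrder H) ((ε : Hˣ) : H) ∧
    ∀ f : GHom G (D.U ∅), (n : MonoidAlgebra ℚ G) * ((Units.torsionOrder H : ℕ) :
      MonoidAlgebra ℚ G) * u.value (Function.update φ j f) = toQ (f.f (Additive.ofMul ε))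

/-- Popescu's conjecture, with denominators in `M` -/
def PopM (M : Submonoid ℕ) (D : RubinData F H G) : Prop :=
  ∃ u : Wedge G D.r (D.U ∅), D.InER u ∧ D.IsStark ∅ u ∧ PopInt M D u

theorem value_eq_zero {r : ℕ} {U : Subgroup Hˣ} (u : Wedge G r U) (ψ : Fin r → GHom G U)
    {i j : Fin r} (hij : i ≠ j) (h : ψ i = ψ j) : u.value ψ = 0 := by
  unfold Wedge.value
  refine Finset.sum_eq_zero fun k _ => ?_
  rw [Matrix.det_zero_of_row_eq hij, map_zero, mul_zero]
  ext b : 1
  simp only [Matrix.of_apply, h]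

theorem toQ_inj {a b : MonoidAlgebra ℤ G} (h : toQ a = toQ b) : a = b := by
  ext γ
  have h1 := congrArg (fun x : MonoidAlgebra ℚ G => x.coeff γ) h
  simpa [toQ, MonoidAlgebra.mapRingHom] using h1

theorem mem_U_act [IsGaloisGroup G F H] (D : RubinData F H G) (T : Finset (HeightOneSpectrum (𝓞 F))) :
    ∀ (γ : G), ∀ x ∈ D.U T, act γ x ∈ D.U T := fun γ x hx => act_mem_U D T γ x hx

theorem AbOm.powG' [IsGaloisGroup G F H] {w : ℕ} {x : Hˣ} (h : AbOm F w (x : H))
    (hw : AbOm F w (1 : H)) (ρ : MonoidAlgebra ℤ G) : AbOm F w ((powG x ρ : Hˣ) : H) := by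
  classical
  letI := Fintype.ofFinite G
  unfold powG
  rw [Units.coe_prod]
  refine Finset.prod_induction _ (fun z => AbOm F w z) (fun a b ha hb => ha.mul hb) hw
    fun γ _ => ?_
  rw [Units.val_zpow_eq_zpow_val]
  refine AbOm.zpow ?_ _
  rw [act_val]
  exact AbOm.smul' h γ

theorem abOm_one' (F H G : Type) [Field F] [NumberField F] [Field H] [NumberField H] [Algebra F H]
  [CommGroup G] [Finite G] [MulSemiringAction G H] [IsGaloisGroup G F H] {w : ℕ} :
    AbOm F w (1 : H) := by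
  rw [abOm_iff G]
  exact ⟨1, by simp, by simp⟩

section

variable [IsGaloisGroup G F H] (D : RubinData F H G)
  {q : HeightOneSpectrum (𝓞 F)} (hq : q ∉ D.S) (hσ : D.σ q = 1) {Q : HeightOneSpectrum (𝓞 H)}
  (hQ : Above {q} Q)

theorem cons_update' {r : ℕ} {α : Type*} (a : α) (φ : Fin r → α) (j : Fin r) (f : α) :
    Function.update (Fin.cons a φ : Fin (r + 1) → α) j.succ f =
      Fin.cons a (Function.update φ j f) := by
  ext i
  refine Fin.cases ?_ (fun i => ?_) i
  · rw [Function.update_of_ne (Fin.succ_ne_zero j).symm, Fin.cons_zero, Fin.cons_zero]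
  · rw [Fin.cons_succ]
    by_cases hi : i = j
    · subst hi
      rw [Function.update_self, Function.update_self]
    · rw [Function.update_of_ne hi, Function.update_of_ne (fun h => hi (Fin.succ_inj.1 h)),
        Fin.cons_succ]

theorem pop_desc {M : Submonoid ℕ} (h : PopM M (addSplit D q hq hσ Q hQ)) : PopM M D := by
  obtain ⟨n, y, hn0, hy, hn⟩ := exists_gen D hq hσ hQ ∅ (Finset.notMem_empty q)
  obtain ⟨u, h1, h2, h3⟩ := h
  change Wedge G (D.r + 1) ((addSplit D q hq hσ Q hQ).U ∅) at u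
  refine ⟨desc D hq hσ hQ ∅ hy hn u, desc_er D hq hσ hQ ∅ hy hn u h1,
    desc_stark D hq hσ hQ ∅ hn0 hy hn u h2, fun j φ => ?_⟩
  choose φ' hφ' using fun i => exists_ext_split D hq hσ hQ ∅ (φ i)
  obtain ⟨m, hm, ε, hε, hf⟩ := h3 (j.succ : Fin (D.r + 1))
    (Fin.cons (ordHom _ Q) φ' : Fin (D.r + 1) → GHom G _)
  have hf' : ∀ f : GHom G ((addSplit D q hq hσ Q hQ).U ∅), (m : MonoidAlgebra ℚ G) *
      ((Units.torsionOrder H : ℕ) : MonoidAlgebra ℚ G) *
      u.value (Fin.cons (ordHom _ Q) (Function.update φ' j f) : Fin (D.r + 1) → GHom G _) =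
        toQ (f.f (Additive.ofMul ε)) := by
    intro f
    rw [← hf f, ← cons_update']
    rfl
  have hord : ordG G Q (Additive.ofMul (ε : Hˣ)) = 0 := by
    have h4 := hf' (ordHom _ Q)
    rw [value_eq_zero u _ (Fin.succ_ne_zero j).symm, mul_zero] at h4
    · apply toQ_inj
      rw [map_zero]
      exact h4.symm
    · rw [Fin.cons_zero, Fin.cons_succ, Function.update_self]
  have hεU : (ε : Hˣ) ∈ D.U ∅ := mem_of_ordG D hq hσ hQ ∅ ε.2 hord
  refine ⟨m, hm, ⟨(ε : Hˣ)⁻¹, inv_mem hεU⟩, ?_, fun f => ?_⟩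
  · change AbOm F _ (((ε : Hˣ)⁻¹ : Hˣ) : H)
    rw [Units.val_inv_eq_inv_val]
    exact hε.inv
  · obtain ⟨f', hf''⟩ := exists_ext_split D hq hσ hQ ∅ f
    rw [desc_value D hq hσ hQ ∅ hn0 hy hn u (Function.update φ j f) (Function.update φ' j f') ?_,
      mul_neg, hf' f', ← map_neg]
    · congr 1
      have h5 : (Additive.ofMul (⟨(ε : Hˣ)⁻¹, inv_mem hεU⟩ : D.U ∅)) =
          -Additive.ofMul (⟨(ε : Hˣ), hεU⟩ : D.U ∅) := rfl
      rw [h5, map_neg, ← hf'']
    · intro i x
      by_cases hi : i = j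
      · subst hi
        rw [Function.update_self, Function.update_self]
        exact hf'' x
      · rw [Function.update_of_ne hi, Function.update_of_ne hi]
        exact hφ' i x

end

end Pool.Agent.H509
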