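import Pool.Agent.H509.PopRub

/-!
# Popescu's conjecture implies Rubin's conjecture if certain Sylow subgroups are cyclic
-/

set_option autoImplicit false
set_option linter.unusedSectionVars false
set_option linter.style.haveILetI false

open NumberField IsDedekindDomain Filter Topology

noncomputable section

namespace Pool.Agent.H509

open Pool.Agent.K3h30.RS Pool.Agent.K3h62.RS Pool.Agent.K3h3.RS Pool.Agent.K3h81.RL
open Pool.Agent.N598.ST (AbRoot AbOm W)

/-- a generator of a cyclic Sylow subgroup -/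
theorem exists_genSyl {G : Type} [CommGroup G] [Finite G] {p : ℕ} (hp : p.Prime)
    (h : ∀ P : Sylow p G, IsCyclic P) : ∃ σ : G, GenSyl p σ := by
  haveI := Fact.mk hp
  obtain ⟨P⟩ : Nonempty (Sylow p G) := inferInstance
  haveI := h P
  obtain ⟨g, hg⟩ := IsCyclic.exists_generator (α := P)
  obtain ⟨a, ha⟩ := (IsPGroup.iff_card.1 P.2 : ∃ n, Nat.card P = p ^ n)
  have hidx : ¬ p ∣ (P : Subgroup G).index := by
    have := P.not_dvd_index
    exact this
  refine ⟨(g : G), (P : Subgroup G).index, hidx, fun γ => ?_⟩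
  have hcop : Nat.Coprime (P : Subgroup G).index (p ^ a) :=
    (Nat.Coprime.pow_left a ((Nat.Prime.coprime_iff_not_dvd hp).2 hidx)).symm
  obtain ⟨v, k, hvk⟩ : ∃ v k : ℕ, (P : Subgroup G).index * v = 1 + p ^ a * k := by
    by_cases h1 : p ^ a = 1
    · have h0 : 0 < (P : Subgroup G).index := Nat.pos_of_ne_zero Subgroup.index_ne_zero_of_finite
      refine ⟨1, (P : Subgroup G).index - 1, ?_⟩
      rw [h1]
      omega
    · have h2 : 0 < p ^ a := pow_pos hp.pos a
      obtain ⟨s, -, hs⟩ := Nat.exists_mul_mod_eq_one_of_coprime hcop (by omega)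
      refine ⟨s, (P : Subgroup G).index * s / p ^ a, ?_⟩
      have h3 := Nat.mod_add_div ((P : Subgroup G).index * s) (p ^ a)
      rw [hs] at h3
      exact h3.symm
  have hmem : γ ^ ((P : Subgroup G).index * v) ∈ (P : Subgroup G) := by
    rw [pow_mul]
    exact pow_mem (Subgroup.pow_index_mem (P : Subgroup G) γ) v
  obtain ⟨i, hi⟩ := (mem_powers_iff_mem_zpowers.2 (hg ⟨_, hmem⟩) :
    (⟨γ ^ ((P : Subgroup G).index * v), hmem⟩ : P) ∈ Submonoid.powers g)
  have hi' : (g : G) ^ i = γ ^ ((P : Subgroup G).index * v) := congrArg Subtype.val hi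
  refine ⟨i, (γ ^ (p ^ a * k))⁻¹, ?_, ?_⟩
  · rw [hi', hvk, pow_add, pow_one, mul_inv_cancel_right]
  · have hcard : γ ^ (p ^ a * (P : Subgroup G).index) = 1 := by
      have h1 : p ^ a * (P : Subgroup G).index = Nat.card G := by
        rw [← ha]
        exact Subgroup.card_mul_index _
      rw [h1]
      exact pow_card_eq_one'
    rw [inv_pow, ← pow_mul]
    have h2 : p ^ a * k * (P : Subgroup G).index = p ^ a * (P : Subgroup G).index * k := by ring
    rw [h2, pow_mul, hcard, one_pow, inv_one]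

variable {F H G : Type} [Field F] [NumberField F] [Field H] [NumberField H] [Algebra F H]
  [CommGroup G] [Finite G] [MulSemiringAction G H] [IsGaloisGroup G F H]

open Classical in
/-- Chebotarev: a prime ideal with given Frobenius automorphism, outside a finite set -/
theorem exists_frob (D : RubinData F H G) (σ : G) (bad : Finset (HeightOneSpectrum (𝓞 F))) :
    ∃ t, t ∉ D.S ∧ t ∉ bad ∧ D.σ t = σ ∧
      ¬ ringChar (𝓞 F ⧸ t.asIdeal) ∣ Units.torsionOrder H := by
  obtain ⟨t, ht, P, hP, hfr⟩ := exists_of_pos (Pool.Agent.K3h73.RS.t_CHEB F H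
    (IsGaloisGroup.mulEquivAlgEquiv G F H σ)
    (bad ∪ D.S ∪ (finite_small F (Units.torsionOrder H)).toFinset))
  simp only [Finset.mem_union, not_or, Set.Finite.mem_toFinset, Set.mem_ofPred_eq, not_le] at ht
  obtain ⟨⟨h1, h2⟩, h3⟩ := ht
  have hfrob : IsFrob (H := H) t σ := by
    intro w hw x
    obtain ⟨γ, hγ⟩ := (Pool.Agent.K3h25.RS.t_TRANS F H G t P hP).2 w hw
    rw [hγ, smul_sub, smul_pow']
    let y : 𝓞 H := MulSemiringAction.toRingHom G (𝓞 H) γ x
    have hy : (y : H) = γ • (x : H) := rfl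
    have h4 := hfr y
    have h5 : (IsGaloisGroup.mulEquivAlgEquiv G F H σ) (y : H) = σ • (y : H) := rfl
    rw [h5, hy] at h4
    rw [← mul_smul, mul_comm γ σ, mul_smul]
    exact h4
  refine ⟨t, h2, h1, Pool.Agent.K3h23.RS.t_FROBUNIQ F H G t (D.unramified t h2) _ _
    (D.frob t h2) hfrob, fun h => ?_⟩
  exact absurd (Nat.le_of_dvd (Units.torsionOrder_pos H) h) (not_le.2 h3)

theorem Free.mono' {M M' : Submonoid ℕ} (hM : M ≤ M') {T : Finset (HeightOneSpectrum (𝓞 F))}
    (h : Free H M T) : Free H M' T := by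
  obtain ⟨w, hw, h1⟩ := h
  exact ⟨w, hM hw, h1⟩

theorem pop_rubin_empty (D : RubinData F H G) (hr : 0 < D.r) {M : Submonoid ℕ}
    (hw : Units.torsionOrder H ∈ M) (h : PopM M D) : RubinM M D ∅ := by
  obtain ⟨u, h1, h2, h3⟩ := h
  refine ⟨u, h1, h2, fun ψ => ?_⟩
  obtain ⟨n, hn, ε, -, hf⟩ := h3 ⟨0, hr⟩ ψ
  have h4 := hf (ψ ⟨0, hr⟩)
  rw [Function.update_eq_self] at h4
  refine ⟨n * Units.torsionOrder H, mul_mem hn hw, (ψ ⟨0, hr⟩).f (Additive.ofMul ε), ?_⟩
  rw [← h4]
  push_cast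
  ring

theorem free_empty {M : Submonoid ℕ} (hw : Units.torsionOrder H ∈ M) :
    Free H M (∅ : Finset (HeightOneSpectrum (𝓞 F))) :=
  ⟨_, hw, fun _ hζ _ => pow_torsionOrder hζ⟩

theorem free_single {M : Submonoid ℕ} {t : HeightOneSpectrum (𝓞 F)}
    (htw : ¬ ringChar (𝓞 F ⧸ t.asIdeal) ∣ Units.torsionOrder H) : Free H M {t} := by
  refine ⟨1, one_mem _, fun ζ hζ h => ?_⟩
  obtain ⟨w, hw⟩ := (Pool.Agent.K3h25.RS.t_OVER F H t).1
  rw [pow_one]
  refine root_eq_one htw (pow_torsionOrder hζ) hw (h w ?_)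
  rw [Finset.coe_singleton]
  exact hw

open Classical in
/-- the `p`-part of Popescu's conjecture for one `S` implies the `p`-part of Rubin's conjecture for
all `S` and `T` -/
theorem pop_rubin_at {p : ℕ} (hp : p.Prime)
    (hsyl : p ∣ Units.torsionOrder H → ∃ σ : G, GenSyl p σ) (D : RubinData F H G)
    (V : Finset (HeightOneSpectrum (𝓞 F))) (hV : SplitOutside D ∅ V)
    (hgen : Generates H (notDvd p hp) ((D.S ∪ V : Finset (HeightOneSpectrum (𝓞 F))) :
      Set (HeightOneSpectrum (𝓞 F))) ∅)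
    (D₁ : RubinData F H G) (hD₁ : D₁.S = D.S ∪ V) (hr : 0 < D₁.r)
    (h : PopM (notDvd p hp) D₁) (D' : RubinData F H G) (hD' : D.S ⊆ D'.S)
    (T : Finset (HeightOneSpectrum (𝓞 F))) (hT : Disjoint D'.S T)
    (hfree : Free H (notDvd p hp) T) : RubinM (notDvd p hp) D' T := by
  by_cases hpw : p ∣ Units.torsionOrder H
  · obtain ⟨σ, hσ⟩ := hsyl hpw
    obtain ⟨t, ht, -, htσ, htw⟩ := exists_frob D σ ∅
    obtain ⟨V₂, hV₂, hgen₂⟩ := exists_V' D ∅ {t}
    obtain ⟨t', ht'1, ht'2, ht'3⟩ := exists_split D {t}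
    obtain ⟨D₂, hD₂⟩ := exists_data D (insert t' V₂)
    have hsplit : SplitOutside D {t} (insert t' V₂) := by
      intro v hv
      rcases Finset.mem_insert.1 hv with rfl | hv
      · exact ⟨ht'1, ht'2, ht'3⟩
      · obtain ⟨h1, -, h3, h4⟩ := hV₂ v hv
        exact ⟨h1, h3, h4⟩
    have hDD₂ : D.S ⊆ D₂.S := by rw [hD₂]; exact Finset.subset_union_left
    have ht₂ : t ∉ D₂.S := by
      rw [hD₂, Finset.mem_union, not_or]
      exact ⟨ht, fun h => (hsplit t h).2.1 (Finset.mem_singleton_self t)⟩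
    have hr₂ : 0 < D₂.r := r_pos_of_split ht'1 ht'3 (by
      rw [hD₂]; exact Finset.mem_union_right _ (Finset.mem_insert_self _ _))
    have h₂ : PopM (notDvd p hp) D₂ :=
      pop_main' D V (fun v hv _ => (hV v hv).2.2) hgen D₁ hD₁ hr h D₂ hDD₂
    have h₃ : RubinM (notDvd p hp) D₂ {t} := by
      refine rubin_t_of_pop D₂ hr₂ hp h₂ ht₂ htw hpw ?_
      rw [← sigma_eq hDD₂ ht₂, htσ]
      exact hσ
    refine all_ST D (T₀ := {t}) (Finset.disjoint_singleton_right.2 ht) (free_single htw)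
      (insert t' V₂) hsplit ?_ D₂ hD₂ h₃ D' hD' T hT hfree
    refine (hgen₂.mono' bot_le).mono ?_
    refine Finset.coe_subset.2 fun v hv => ?_
    exact Finset.mem_union_right _ (Finset.mem_insert_of_mem hv)
  · have hw : Units.torsionOrder H ∈ notDvd p hp := hpw
    refine all_ST D (T₀ := ∅) (Finset.disjoint_empty_right _) (free_empty hw) V hV ?_ D₁ hD₁
      (pop_rubin_empty D₁ hr hw h) D' hD' T hT hfree
    rw [Finset.coe_empty]
    exact hgen

/-- an element of `ℚ[G]` which is integral at all prime numbers -/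
theorem mem_range_of_parts {z : MonoidAlgebra ℚ G}
    (h : ∀ p : ℕ, ∀ hp : p.Prime, ∃ n ∈ notDvd p hp, (n : MonoidAlgebra ℚ G) * z ∈
      (toQ (G := G)).range) : z ∈ (toQ (G := G)).range := by
  rw [mem_range_toQ]
  intro γ
  have h1 : (z.coeff γ).den = 1 := by
    by_contra hne
    obtain ⟨p, hp, hpd⟩ := Nat.exists_prime_and_dvd hne
    obtain ⟨n, hn, hnz⟩ := h p hp
    rw [mem_range_toQ] at hnz
    obtain ⟨k, hk⟩ := hnz γ
    rw [← nsmul_eq_mul, MonoidAlgebra.coeff_smul, Finsupp.smul_apply, nsmul_eq_mul] at hk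
    have h2 : (z.coeff γ).den ∣ n := by
      have h3 : (n : ℚ) * (z.coeff γ).num = k * (z.coeff γ).den := by
        have h4 := Rat.mul_den_eq_num (z.coeff γ)
        rw [← h4, ← mul_assoc, hk]
      have h5 : (n : ℤ) * (z.coeff γ).num = k * (z.coeff γ).den := by exact_mod_cast h3
      have h6 : ((z.coeff γ).den : ℤ) ∣ (n : ℤ) * (z.coeff γ).num := by
        rw [h5]
        exact dvd_mul_left _ _
      have h7 : IsCoprime ((z.coeff γ).den : ℤ) (z.coeff γ).num := by
        rw [Int.isCoprime_iff_gcd_eq_one, Int.gcd_comm]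
        have := (z.coeff γ).reduced
        rwa [Int.gcd_eq_natAbs, Int.natAbs_natCast]
      exact_mod_cast h7.dvd_of_dvd_mul_right h6
    exact hn (hpd.trans h2)
  refine ⟨(z.coeff γ).num, ?_⟩
  have h2 := Rat.num_div_den (z.coeff γ)
  rw [h1, Nat.cast_one, div_one] at h2
  exact h2.symm

/-- Rubin's conjecture from its parts -/
theorem rubin_of_parts (D : RubinData F H G) {T : Finset (HeightOneSpectrum (𝓞 F))}
    (hT : Disjoint D.S T) (h : ∀ p : ℕ, ∀ hp : p.Prime, RubinM (notDvd p hp) D T) :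
    RubinM ⊥ D T := by
  obtain ⟨u₀, e₀, s₀⟩ := exists_stark_empty D (h 2 Nat.prime_two)
  refine rubinM_of_intM D u₀ e₀ s₀ T hT fun f hf hft => ⟨1, one_mem _, ?_⟩
  rw [Nat.cast_one, one_mul]
  refine mem_range_of_parts fun p hp => ?_
  exact intM_of_rubinM D (U_le D ∅) u₀ e₀ s₀ T (h p hp) f hf hft

open Classical in
/-- Popescu's conjecture for one `S` implies Rubin's conjecture for all `S` and `T` -/
theorem pop_rubin (hsyl : ∀ p : ℕ, p.Prime → p ∣ Units.torsionOrder H → ∃ σ : G, GenSyl p σ)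
    (D : RubinData F H G) (V : Finset (HeightOneSpectrum (𝓞 F))) (hV : SplitOutside D ∅ V)
    (hgen : Generates H ⊥ ((D.S ∪ V : Finset (HeightOneSpectrum (𝓞 F))) :
      Set (HeightOneSpectrum (𝓞 F))) ∅)
    (D₁ : RubinData F H G) (hD₁ : D₁.S = D.S ∪ V) (hr : 0 < D₁.r)
    (h : PopM ⊥ D₁) (D' : RubinData F H G) (hD' : D.S ⊆ D'.S)
    (T : Finset (HeightOneSpectrum (𝓞 F))) (hT : Disjoint D'.S T)
    (hfree : Free H ⊥ T) : RubinM ⊥ D' T := by
  refine rubin_of_parts D' hT fun p hp => ?_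
  refine pop_rubin_at hp (hsyl p hp) D V hV (hgen.mono' bot_le) D₁ hD₁ hr ?_ D' hD' T hT
    (hfree.mono' bot_le)
  obtain ⟨u, h1, h2, h3⟩ := h
  refine ⟨u, h1, h2, fun j φ => ?_⟩
  obtain ⟨n, hn, h4⟩ := h3 j φ
  exact ⟨n, (bot_le : (⊥ : Submonoid ℕ) ≤ notDvd p hp) hn, h4⟩

end Pool.Agent.H509
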