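import Pool.Agent.H509.Pop

/-!
# Popescu's conjecture: from `S` to `S ∪ {q}`
-/

set_option autoImplicit false
set_option linter.unusedSectionVars false
set_option linter.style.haveILetI false

open NumberField IsDedekindDomain Filter Topology

noncomputable section

namespace Pool.Agent.H509

open Pool.Agent.K3h30.RS Pool.Agent.K3h62.RS Pool.Agent.K3h3.RS Pool.Agent.K3h81.RL
open Pool.Agent.N598.ST (AbRoot AbOm W)

variable {F H G : Type} [Field F] [NumberField F] [Field H] [NumberField H] [Algebra F H]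
  [CommGroup G] [Finite G] [MulSemiringAction G H] [IsGaloisGroup G F H]

theorem mem_U_empty_iff (D : RubinData F H G) {x : Hˣ} : x ∈ D.U ∅ ↔
    ∀ w : HeightOneSpectrum (𝓞 H), ¬ Above (D.S : Set (HeightOneSpectrum (𝓞 F))) w →
      w.valuation H (x : H) = 1 := by
  refine ⟨fun h => h.1, fun h => ⟨h, fun w hw => ?_⟩⟩
  obtain ⟨v, hv, -⟩ := hw
  rw [Finset.coe_empty] at hv
  exact absurd hv (Set.notMem_empty v)

theorem mem_U_of_pow (D : RubinData F H G) {x : Hˣ} {n : ℕ} (hn : n ≠ 0) (h : x ^ n ∈ D.U ∅) :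
    x ∈ D.U ∅ := by
  rw [mem_U_empty_iff] at h ⊢
  intro w hw
  have h1 := h w hw
  rw [Units.val_pow_eq_pow_val, map_pow] at h1
  rcases lt_trichotomy (w.valuation H (x : H)) 1 with h2 | h2 | h2
  · exact absurd h1 (pow_lt_one₀ zero_le h2 hn).ne
  · exact h2
  · exact absurd h1 (one_lt_pow₀ h2 hn).ne'

/-- a value at an element with an abelian root times the annihilator of the roots of unity -/
theorem exists_eigen (D : RubinData F H G) (ψ : GHom G (D.U ∅)) (ε : D.U ∅)
    (hε : AbOm F (Units.torsionOrder H) ((ε : Hˣ) : H)) :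
    ∃ (n : G → ℕ) (a : G → MonoidAlgebra ℤ G), (∀ γ, IsCyc H γ (n γ)) ∧
      ∀ γ, MonoidAlgebra.single γ 1 * ψ.f (Additive.ofMul ε) =
        (n γ : MonoidAlgebra ℤ G) * ψ.f (Additive.ofMul ε) +
          ((Units.torsionOrder H : ℕ) : MonoidAlgebra ℤ G) * a γ := by
  choose n hn using fun γ : G => exists_cyc (H := H) γ
  choose v hv using fun γ : G => exists_quot hε (hn γ)
  have hvU : ∀ γ, v γ ∈ D.U ∅ := by
    intro γ
    refine mem_U_of_pow D (Units.torsionOrder_ne_zero H) ?_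
    have h1 : v γ ^ (Units.torsionOrder H) = ((ε : Hˣ) ^ (n γ))⁻¹ * act γ (ε : Hˣ) := by
      rw [hv, inv_mul_cancel_left]
    rw [h1]
    exact mul_mem (inv_mem (pow_mem ε.2 _)) (mem_U_act D ∅ γ _ ε.2)
  refine ⟨n, fun γ => ψ.f (Additive.ofMul ⟨v γ, hvU γ⟩), hn, fun γ => ?_⟩
  rw [← ψ.equiv γ ε ⟨act γ (ε : Hˣ), mem_U_act D ∅ γ _ ε.2⟩ rfl]
  have h2 : (⟨act γ (ε : Hˣ), mem_U_act D ∅ γ _ ε.2⟩ : D.U ∅) =
      ε ^ (n γ) * (⟨v γ, hvU γ⟩ : D.U ∅) ^ (Units.torsionOrder H) := by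
    apply Subtype.ext
    exact hv γ
  rw [h2, ofMul_mul, map_add, ofMul_pow, ofMul_pow, map_nsmul, map_nsmul, nsmul_eq_mul,
    nsmul_eq_mul]

variable (D : RubinData F H G)
  {q : HeightOneSpectrum (𝓞 F)} (hq : q ∉ D.S) (hσ : D.σ q = 1) {Q : HeightOneSpectrum (𝓞 H)}
  (hQ : Above {q} Q)

theorem pop_asc {M : Submonoid ℕ} {n : ℕ} (hn0 : 0 < n) (hnM : n ∈ M) {y : Hˣ}
    (hy : y ∈ (addSplit D q hq hσ Q hQ).U ∅)
    (hn : ordG G Q (Additive.ofMul y) = (n : MonoidAlgebra ℤ G)) (hr : 0 < D.r)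
    (h : PopM M D) : PopM M (addSplit D q hq hσ Q hQ) := by
  classical
  obtain ⟨u, h1, h2, h3⟩ := h
  refine ⟨asc (n := n) D hq hσ hQ ∅ hy u, asc_er D hq hσ hQ ∅ hy u h1,
    (stark_split D hq hσ hQ ∅ u _ (asc_regulator D hq hσ hQ ∅ hn0 hy hn u)).2 h2, fun j φ => ?_⟩
  change Fin (D.r + 1) at j
  change Fin (D.r + 1) → GHom G ((addSplit D q hq hσ Q hQ).U ∅) at φ
  have hU' := mem_U_act (addSplit D q hq hσ Q hQ) ∅
  have key : ∀ i : Fin (D.r + 1), ∃ m ∈ M, ∃ ε : (addSplit D q hq hσ Q hQ).U ∅,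
      AbOm F (Units.torsionOrder H) ((ε : Hˣ) : H) ∧
      ∀ f : GHom G ((addSplit D q hq hσ Q hQ).U ∅),
        (m : MonoidAlgebra ℚ G) * ((Units.torsionOrder H : ℕ) : MonoidAlgebra ℚ G) *
        (toQ ((-1) ^ (i : ℕ) * (Function.update φ j f i).f (Additive.ofMul ⟨y, hy⟩)) *
          u.value (fun l => restrictG (U_le_split D hq hσ hQ ∅)
            (Function.update φ j f (i.succAbove l)))) = toQ (f.f (Additive.ofMul ε)) := by
    intro i
    by_cases hi : i = j
    · subst hi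
      let ψ : Fin D.r → GHom G (D.U ∅) := fun l =>
        restrictG (U_le_split D hq hσ hQ ∅) (φ (i.succAbove l))
      obtain ⟨m, hm, ε, hε, hf⟩ := h3 ⟨0, hr⟩ ψ
      have hc := hf (ψ ⟨0, hr⟩)
      rw [Function.update_eq_self] at hc
      obtain ⟨n', a, hn', ha⟩ := exists_eigen D (ψ ⟨0, hr⟩) ε hε
      have hab := abOm_powG (F := F) y _ a n' hn' ha
      set b := (ψ ⟨0, hr⟩).f (Additive.ofMul ε) with hb
      refine ⟨m, hm, ⟨powG y b ^ ((-1 : ℤ) ^ (i : ℕ)), zpow_mem (powG_mem hU' hy b) _⟩, ?_,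
        fun f => ?_⟩
      · change AbOm F _ ((powG y b ^ ((-1 : ℤ) ^ (i : ℕ)) : Hˣ) : H)
        rw [Units.val_zpow_eq_zpow_val]
        exact hab.zpow _
      · have h5 : (fun l => restrictG (U_le_split D hq hσ hQ ∅)
            (Function.update φ i f (i.succAbove l))) = ψ := by
          funext l
          rw [Function.update_of_ne (Fin.succAbove_ne i l)]
        have h6 : (Additive.ofMul (⟨powG y b ^ ((-1 : ℤ) ^ (i : ℕ)),
            zpow_mem (powG_mem hU' hy b) _⟩ : (addSplit D q hq hσ Q hQ).U ∅)) =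
            ((-1 : ℤ) ^ (i : ℕ)) • Additive.ofMul (⟨powG y b, powG_mem hU' hy b⟩ :
              (addSplit D q hq hσ Q hQ).U ∅) := rfl
        rw [h5, Function.update_self, h6, map_zsmul, ghom_powG hU' f ⟨y, hy⟩ b, zsmul_eq_mul,
          map_mul, map_mul, map_mul, ← hc]
        simp only [map_pow, map_neg, map_one, Int.cast_pow, Int.cast_neg, Int.cast_one]
        ring
    · obtain ⟨l, hl⟩ := Fin.exists_succAbove_eq (x := j) (y := i) (Ne.symm hi)
      obtain ⟨m, hm, ε, hε, hf⟩ := h3 l (fun l => restrictG (U_le_split D hq hσ hQ ∅)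
        (φ (i.succAbove l)))
      have hεU := U_le_split D hq hσ hQ ∅ ε.2
      refine ⟨m, hm, ⟨powG (ε : Hˣ) ((-1) ^ (i : ℕ) * (φ i).f (Additive.ofMul ⟨y, hy⟩)),
        powG_mem hU' hεU _⟩, AbOm.powG' hε (abOm_one' F H G) _, fun f => ?_⟩
      have h5 : (fun l => restrictG (U_le_split D hq hσ hQ ∅)
            (Function.update φ j f (i.succAbove l))) =
          Function.update (fun l => restrictG (U_le_split D hq hσ hQ ∅) (φ (i.succAbove l))) l
            (restrictG (U_le_split D hq hσ hQ ∅) f) := by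
        funext l'
        by_cases hl' : l' = l
        · subst hl'
          rw [hl, Function.update_self, Function.update_self]
        · rw [Function.update_of_ne hl', Function.update_of_ne]
          rw [← hl]
          exact fun h => hl' (Fin.succAbove_right_injective h)
      rw [h5, Function.update_of_ne hi, ghom_powG hU' f ⟨(ε : Hˣ), hεU⟩, mul_left_comm, hf]
      exact (map_mul toQ _ _).symm
  choose m hm ε hε hf using key
  refine ⟨(∏ i, m i) * n, mul_mem (Submonoid.prod_mem _ fun i _ => hm i) hnM,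
    ∏ i, (ε i) ^ (-(∏ l ∈ Finset.univ.erase i, (m l : ℤ))), ?_, fun f => ?_⟩
  · rw [Subgroup.val_finsetProd, Units.coe_prod]
    refine Finset.prod_induction _ (fun z => AbOm F (Units.torsionOrder H) z)
      (fun a b ha hb => ha.mul hb) (abOm_one' F H G) fun i _ => ?_
    rw [Subgroup.coe_zpow, Units.val_zpow_eq_zpow_val]
    exact (hε i).zpow _
  · have h5 := asc_value D hq hσ hQ ∅ hn0 hy u (Function.update φ j f)
    have h6 : (((∏ i, m i) * n : ℕ) : MonoidAlgebra ℚ G) *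
        ((Units.torsionOrder H : ℕ) : MonoidAlgebra ℚ G) *
        Wedge.value (r := D.r + 1) (asc (n := n) D hq hσ hQ ∅ hy u) (Function.update φ j f) =
        (∏ i, (m i : MonoidAlgebra ℚ G)) * ((Units.torsionOrder H : ℕ) : MonoidAlgebra ℚ G) *
          ((n : MonoidAlgebra ℚ G) *
        Wedge.value (r := D.r + 1) (asc (n := n) D hq hσ hQ ∅ hy u) (Function.update φ j f)) := by
      push_cast
      ring
    refine h6.trans ?_
    rw [h5, ofMul_prod, map_sum, map_sum, mul_neg, Finset.mul_sum, ← Finset.sum_neg_distrib]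
    refine Finset.sum_congr rfl fun i _ => ?_
    have h7 := hf i f
    rw [ofMul_zpow, map_zsmul, zsmul_eq_mul,
      ← Finset.mul_prod_erase Finset.univ _ (Finset.mem_univ i)]
    push_cast
    simp only [map_mul, map_neg, map_prod, map_natCast] at h7 ⊢
    linear_combination (-(∏ l ∈ Finset.univ.erase i, (m l : MonoidAlgebra ℚ G))) * h7

end Pool.Agent.H509
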