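import Pool.Agent.H509.PopMain
import Pool.Agent.H509.Fin

/-!
# Popescu's conjecture: the definition
-/

set_option autoImplicit false
set_option linter.unusedSectionVars false
set_option linter.style.haveILetI false

open NumberField IsDedekindDomain Filter Topology

noncomputable section

namespace Pool.Agent.H509

open Pool.Agent.K3h30.RS Pool.Agent.K3h62.RS Pool.Agent.K3h3.RS Pool.Agent.K3h81.RL
open Pool.Agent.N598.ST (AbRoot AbOm W)

variable {F H G : Type} [Field F] [NumberField F] [Field H] [NumberField H] [Algebra F H]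
  [CommGroup G] [Finite G] [MulSemiringAction G H]

/-- `R(u) = ∑_χ L^*(0, χ) e_(χ̄)`, `R(u_1 ∧ ... ∧ u_r) = det (- ∑_γ log |γ u_i|_(w_j) γ⁻¹)`: for all
characters `χ` the value of `χ` at `R(u)` is the limit of `s ^ (-r) L_S(χ⁻¹, s)` at `s = 0`. -/
def IsEvaluator (D : RubinData F H G) (u : Wedge G D.r (D.U ∅)) : Prop :=
  ∀ χ : G →* ℂˣ, Tendsto (fun s : ℂ => (s ^ D.r)⁻¹ * D.L χ⁻¹ s) (𝓝[≠] 0)
    (𝓝 (charValue χ (∑ k, toR (u.c k) *
      Matrix.det (Matrix.of fun a b => -reg G (D.w a) (u.x k b : Hˣ)))))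

/-- Popescu's conjecture for `H / F`, `S` and the places `v_1, ..., v_r` (all the places of `S` which
split completely), with denominators in the set `M` of natural numbers. The element `η' = u` is in
the part `e'` of `ℚ ⋀^r E`, `E = U_{S,∅}` (`InER`), `R(η') = ∑ L^*(0, χ) e_(χ̄)`, and for all
`φ_i ∈ E^* = Hom_G(E, ℤ[G])` (`i ≠ j`) there are `n ∈ M` and `ε ∈ E` with `H(ε^(1/w)) / F` abelian
(`w = w_H` the number of the roots of unity of `H`) such that `n w (φ_1 ∧ ... ∧ φ_r)(η')` (without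
`φ_j`) is the image of `± ε` in `ℚ E`, that is
`n w (φ_1 ∧ ... ∧ f ∧ ... ∧ φ_r)(η') = f (ε)` (`f` at the place `j`) for all `f ∈ E^*`. -/
def PopescuWith (M : Submonoid ℕ) (D : RubinData F H G) : Prop :=
  ∃ u : Wedge G D.r (D.U ∅), D.InER u ∧ IsEvaluator D u ∧
    ∀ (j : Fin D.r) (φ : Fin D.r → GHom G (D.U ∅)), ∃ n ∈ M, ∃ ε : D.U ∅,
      AbRoot F (Units.torsionOrder H) ((ε : Hˣ) : H) ∧
      ∀ f : GHom G (D.U ∅), (n : MonoidAlgebra ℚ G) * ((Units.torsionOrder H : ℕ) :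
        MonoidAlgebra ℚ G) * u.value (Function.update φ j f) = toQ (f.f (Additive.ofMul ε))

/-- Popescu's conjecture (the statement of Q1) -/
def Popescu (D : RubinData F H G) : Prop := PopescuWith ⊥ D

/-- The `p`-part of Popescu's conjecture: `w η'` is in `Λ ⊗ ℤ_(p)`. -/
def PopescuAt (p : ℕ) (hp : p.Prime) (D : RubinData F H G) : Prop := PopescuWith (notDvd p hp) D

/-- multiplication by a sign -/
def sgn {r : ℕ} {U : Subgroup Hˣ} (u : Wedge G r U) : Wedge G r U where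
  n := u.n
  c k := (-1) ^ r * u.c k
  x := u.x

theorem sgn_er (D : RubinData F H G) {U : Subgroup Hˣ} (u : Wedge G D.r U) (h : D.InER u) :
    D.InER (sgn u) := by
  intro χ hχ k
  have h1 := h χ hχ k
  change charValue χ (toR ((-1) ^ D.r * u.c k)) = 0
  rw [← cvQ_apply] at h1 ⊢
  rw [map_mul, h1, mul_zero]

theorem sgn_value {r : ℕ} {U : Subgroup Hˣ} (u : Wedge G r U) (ψ : Fin r → GHom G U) :
    (sgn u).value ψ = (-1) ^ r * u.value ψ := by
  unfold Wedge.value
  rw [Finset.mul_sum]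
  refine Finset.sum_congr rfl fun k _ => ?_
  exact mul_assoc _ _ _

theorem det_neg_reg {r : ℕ} {U : Subgroup Hˣ} (u : Wedge G r U) (w : Fin r → Place H) :
    ∑ k, toR (u.c k) * Matrix.det (Matrix.of fun a b => -reg G (w a) (u.x k b : Hˣ)) =
      (-1) ^ r * u.regulator w := by
  unfold Wedge.regulator
  rw [Finset.mul_sum]
  refine Finset.sum_congr rfl fun k _ => ?_
  have h1 : (Matrix.of fun a b => -reg G (w a) (u.x k b : Hˣ)) =
      -(Matrix.of fun a b => reg G (w a) (u.x k b : Hˣ)) := by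
    ext a b : 1
    rfl
  rw [h1, Matrix.det_neg, Fintype.card_fin]
  ring

theorem sgn_regulator {r : ℕ} {U : Subgroup Hˣ} (u : Wedge G r U) (w : Fin r → Place H) :
    (sgn u).regulator w = (-1) ^ r * u.regulator w := by
  unfold Wedge.regulator
  rw [Finset.mul_sum]
  refine Finset.sum_congr rfl fun k _ => ?_
  change toR ((-1) ^ r * u.c k) * _ = _
  rw [map_mul, map_pow, map_neg, map_one]
  exact mul_assoc _ _ _

theorem isEvaluator_iff (D : RubinData F H G) (u : Wedge G D.r (D.U ∅)) :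
    IsEvaluator D u ↔ D.IsStark ∅ (sgn u) := by
  unfold IsEvaluator RubinData.IsStark
  rw [det_neg_reg, sgn_regulator]
  have h1 : ∀ (χ : G →* ℂˣ) (s : ℂ), D.LT ∅ χ s = D.L χ s := by
    intro χ s
    unfold RubinData.LT
    rw [Finset.prod_empty, one_mul]
  simp only [h1]

theorem popescuWith_iff [IsGaloisGroup G F H] (M : Submonoid ℕ) (D : RubinData F H G) :
    PopescuWith M D ↔ PopM M D := by
  have hab := galois_of_group F H G
  have hsq : ∀ r : ℕ, ((-1 : MonoidAlgebra ℚ G) ^ r) * (-1) ^ r = 1 := by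
    intro r
    rw [← mul_pow, neg_one_mul, neg_neg, one_pow]
  have hflip : ∀ u : Wedge G D.r (D.U ∅), ∀ v : Wedge G D.r (D.U ∅),
      (∀ ψ, v.value ψ = (-1) ^ D.r * u.value ψ) →
      ∀ (j : Fin D.r) (φ : Fin D.r → GHom G (D.U ∅)) (n : ℕ) (ε : D.U ∅),
      (∀ f : GHom G (D.U ∅), (n : MonoidAlgebra ℚ G) * ((Units.torsionOrder H : ℕ) :
        MonoidAlgebra ℚ G) * u.value (Function.update φ j f) = toQ (f.f (Additive.ofMul ε))) →
      ∀ f : GHom G (D.U ∅), (n : MonoidAlgebra ℚ G) * ((Units.torsionOrder H : ℕ) :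
        MonoidAlgebra ℚ G) * v.value (Function.update φ j f) =
          toQ (f.f (Additive.ofMul (ε ^ ((-1 : ℤ) ^ D.r)))) := by
    intro u v huv j φ n ε h f
    rw [huv, ofMul_zpow, map_zsmul, zsmul_eq_mul, map_mul, ← h f]
    push_cast
    simp only [map_pow, map_neg, map_one]
    ring
  constructor
  · rintro ⟨u, h1, h2, h3⟩
    refine ⟨sgn u, sgn_er D u h1, (isEvaluator_iff D u).1 h2, fun j φ => ?_⟩
    obtain ⟨n, hn, ε, hε, hf⟩ := h3 j φ
    refine ⟨n, hn, ε ^ ((-1 : ℤ) ^ D.r), ?_, hflip u (sgn u) (sgn_value u) j φ n ε hf⟩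
    rw [Subgroup.coe_zpow, Units.val_zpow_eq_zpow_val]
    exact (abOm_of_abRoot hε).zpow _
  · rintro ⟨u, h1, h2, h3⟩
    have h4 : ∀ ψ, (sgn u).value ψ = (-1) ^ D.r * u.value ψ := sgn_value u
    refine ⟨sgn u, sgn_er D u h1, (isEvaluator_iff D _).2 ?_, fun j φ => ?_⟩
    · have h5 : (sgn (sgn u)) = u := by
        unfold sgn
        simp only [← mul_assoc, hsq, one_mul]
      rw [h5]
      exact h2
    · obtain ⟨n, hn, ε, hε, hf⟩ := h3 j φ
      refine ⟨n, hn, ε ^ ((-1 : ℤ) ^ D.r), ?_, hflip u (sgn u) (sgn_value u) j φ n ε hf⟩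
      rw [Subgroup.coe_zpow, Units.val_zpow_eq_zpow_val]
      exact (hε.zpow _).abRoot

/-- data with a completely split prime ideal have positive rank -/
theorem r_pos_of_split [IsGaloisGroup G F H] {D D₁ : RubinData F H G}
    {v : HeightOneSpectrum (𝓞 F)} (hv : v ∉ D.S) (hσ : D.σ v = 1) (hv₁ : v ∈ D₁.S) :
    0 < D₁.r := by
  obtain ⟨Q, hQ⟩ := (Pool.Agent.K3h25.RS.t_OVER F H v).1
  have h1 : InS (D₁.S : Set (HeightOneSpectrum (𝓞 F))) (Sum.inr Q : Place H) := by
    change Above (D₁.S : Set (HeightOneSpectrum (𝓞 F))) Q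
    rw [above_iff hQ]
    exact Finset.mem_coe.2 hv₁
  obtain ⟨i, -⟩ := D₁.all _ h1 (fun γ hγ => decomp_trivial D hv hσ hQ γ hγ)
  exact lt_of_le_of_lt (Nat.zero_le _) i.2

open Classical in
/-- there are sets `V` -/
theorem exists_V_nonempty [IsGaloisGroup G F H] (D : RubinData F H G)
    (bad : Finset (HeightOneSpectrum (𝓞 F))) :
    ∃ V : Finset (HeightOneSpectrum (𝓞 F)), V.Nonempty ∧ SplitOutside D bad V ∧
      Generates H ⊥ ((D.S ∪ V : Finset (HeightOneSpectrum (𝓞 F))) :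
        Set (HeightOneSpectrum (𝓞 F))) ∅ := by
  obtain ⟨V, hV1, hV2⟩ := exists_V' D bad ∅
  obtain ⟨t, ht1, ht2, ht3⟩ := exists_split D bad
  refine ⟨insert t V, Finset.insert_nonempty _ _, fun v hv => ?_, ?_⟩
  · rcases Finset.mem_insert.1 hv with rfl | hv
    · exact ⟨ht1, ht2, ht3⟩
    · obtain ⟨h1, h2, -, h4⟩ := hV1 v hv
      exact ⟨h1, h2, h4⟩
  · rw [Finset.coe_empty] at hV2
    refine hV2.mono (Finset.coe_subset.2 ?_)
    intro v hv
    exact Finset.mem_union_right _ (Finset.mem_insert_of_mem hv)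

end Pool.Agent.H509
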