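import Pool.Agent.H509.PopT

/-!
# From Popescu's conjecture to Rubin's conjecture for `T = {t}`
-/

set_option autoImplicit false
set_option linter.unusedSectionVars false
set_option linter.style.haveILetI false

open NumberField IsDedekindDomain Filter Topology

noncomputable section

namespace Pool.Agent.H509

open Pool.Agent.K3h30.RS Pool.Agent.K3h62.RS Pool.Agent.K3h3.RS Pool.Agent.K3h81.RL
open Pool.Agent.N598.ST (AbRoot AbOm W)

variable {F H G : Type} [Field F] [NumberField F] [Field H] [NumberField H] [Algebra F H]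
  [CommGroup G] [Finite G] [MulSemiringAction G H]

theorem det_expand {R : Type} [CommRing R] {r : ℕ} (N : R) (f h : Fin r → Fin r → R)
    (z : Fin r → R) (L : Fin r → R) (hf : ∀ i j, N * f i j = h i j + z i * L j) :
    N ^ r * Matrix.det (Matrix.of f) = Matrix.det (Matrix.of h) +
      ∑ i, z i * Matrix.det (Matrix.of (Function.update h i L)) := by
  have h1 := Pool.Agent.K3h24.RS.Det.det_rank_one (Matrix.of h) z L
  have h2 : (Matrix.of fun (a b : Fin r) => (Matrix.of h) a b + z a * L b) =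
      N • (Matrix.of f) := by
    ext a b : 1
    rw [Matrix.smul_apply, smul_eq_mul]
    simp only [Matrix.of_apply]
    exact (hf a b).symm
  rw [h2, Matrix.det_smul, Fintype.card_fin] at h1
  exact h1

theorem det_expand' {R : Type} [CommRing R] {r : ℕ} (N c : R) (f h : Fin r → Fin r → R)
    (z : Fin r → R) (L : Fin r → R) (g : Fin r → Fin r → Fin r → R)
    (hf : ∀ i j, N * f i j = h i j + z i * L j) (hg : ∀ i, g i = Function.update h i L) :
    N ^ r * (c * Matrix.det (Matrix.of f)) = c * Matrix.det (Matrix.of h) +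
      ∑ i, z i * (c * Matrix.det (Matrix.of (g i))) := by
  have h1 := det_expand N f h z L hf
  simp only [hg]
  rw [mul_left_comm, h1, mul_add, Finset.mul_sum]
  congr 1
  exact Finset.sum_congr rfl fun i _ => mul_left_comm _ _ _

/-- expansion of a value -/
theorem wval_expand (D : RubinData F H G) {U : Subgroup Hˣ} (hU : U ≤ US D) (N : ℕ)
    (f h : Fin D.r → Additive (US D) →+ MonoidAlgebra ℚ G) (z : Fin D.r → MonoidAlgebra ℤ G)
    (Λ : Additive (US D) →+ MonoidAlgebra ℚ G)
    (hf : ∀ i x, (N : MonoidAlgebra ℚ G) * f i x = h i x + toQ (z i) * Λ x)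
    (u : Wedge G D.r U) :
    (N : MonoidAlgebra ℚ G) ^ D.r * wval D hU f u =
      wval D hU h u + ∑ i, toQ (z i) * wval D hU (Function.update h i Λ) u := by
  have key : ∀ k : Fin u.n, (N : MonoidAlgebra ℚ G) ^ D.r * (u.c k * Matrix.det (Matrix.of
      fun (a b : Fin D.r) => f a (Additive.ofMul ⟨(u.x k b : Hˣ), hU (u.x k b).2⟩))) =
      u.c k * Matrix.det (Matrix.of
        fun (a b : Fin D.r) => h a (Additive.ofMul ⟨(u.x k b : Hˣ), hU (u.x k b).2⟩)) +
      ∑ i, toQ (z i) * (u.c k * Matrix.det (Matrix.of fun (a b : Fin D.r) =>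
        (Function.update h i Λ a) (Additive.ofMul ⟨(u.x k b : Hˣ), hU (u.x k b).2⟩))) := by
    intro k
    refine det_expand' (N : MonoidAlgebra ℚ G) (u.c k)
      (fun (a b : Fin D.r) => f a (Additive.ofMul ⟨(u.x k b : Hˣ), hU (u.x k b).2⟩))
      (fun (a b : Fin D.r) => h a (Additive.ofMul ⟨(u.x k b : Hˣ), hU (u.x k b).2⟩))
      (fun i => toQ (z i)) (fun b => Λ (Additive.ofMul ⟨(u.x k b : Hˣ), hU (u.x k b).2⟩))
      (fun i => fun (a b : Fin D.r) => (Function.update h i Λ a)
          (Additive.ofMul ⟨(u.x k b : Hˣ), hU (u.x k b).2⟩))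
      (fun i j => hf i _) fun i => ?_
    funext a
    by_cases ha : a = i
    · subst ha
      rw [Function.update_self, Function.update_self]
    · rw [Function.update_of_ne ha, Function.update_of_ne ha]
  unfold wval
  rw [Finset.mul_sum, Finset.sum_congr rfl fun k _ => key k, Finset.sum_add_distrib,
    Finset.sum_comm]
  simp only [Finset.mul_sum]

variable [IsGaloisGroup G F H]

/-- Rubin's conjecture for `T = {t}` from Popescu's conjecture, if there is one homomorphism for
all -/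
theorem intM_of_common {M : Submonoid ℕ} (D : RubinData F H G) (hr : 0 < D.r)
    (u₀ : Wedge G D.r (D.U ∅)) (hpop : PopInt M D u₀) {t : HeightOneSpectrum (𝓞 F)}
    (ht : t ∉ D.S) (htw : ¬ ringChar (𝓞 F ⧸ t.asIdeal) ∣ Units.torsionOrder H)
    (Λ : Additive (US D) →+ MonoidAlgebra ℚ G) (hΛ : IsEquiv D Λ) (hΛt : IntOn D {t} Λ)
    {N : ℕ} (hN : N ∈ M)
    (hdec : ∀ f : Additive (US D) →+ MonoidAlgebra ℚ G, IsEquiv D f → IntOn D {t} f →
      ∃ z : MonoidAlgebra ℤ G, ∀ x, (N : MonoidAlgebra ℚ G) * f x - toQ z * Λ x ∈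
        (toQ (G := G)).range) :
    IntM M D (U_le D ∅) u₀ {t} := by
  classical
  intro f hf hft
  choose z hz using fun i => hdec (f i) (hf i) (hft i)
  let h : Fin D.r → Additive (US D) →+ MonoidAlgebra ℚ G := fun i =>
    N • f i - (AddMonoidHom.mulLeft (toQ (z i))).comp Λ
  have hhx : ∀ i x, h i x = (N : MonoidAlgebra ℚ G) * f i x - toQ (z i) * Λ x := by
    intro i x
    change (N • f i) x - toQ (z i) * Λ x = _
    rw [AddMonoidHom.nsmul_apply, nsmul_eq_mul]
  have hheq : ∀ i, IsEquiv D (h i) := by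
    intro i γ x y hxy
    rw [hhx, hhx, hf i γ x y hxy, hΛ γ x y hxy]
    ring
  have hhint : ∀ i (x : US D), h i (Additive.ofMul x) ∈ (toQ (G := G)).range := by
    intro i x
    rw [hhx]
    exact hz i _
  have e1 := wval_expand D (U_le D ∅) N f h z Λ (fun i x => by rw [hhx]; ring) u₀
  choose n hn hnv using fun i => pop_c1 D u₀ hpop ht htw h hheq hhint i Λ hΛ hΛt
  obtain ⟨n', hn', hnv'⟩ := pop_c1 D u₀ hpop ht htw h hheq hhint ⟨0, hr⟩ (h ⟨0, hr⟩)
    (hheq _) (fun x _ => hhint _ x)
  rw [Function.update_eq_self] at hnv'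
  refine ⟨n' * (∏ i, n i) * N ^ D.r,
    mul_mem (mul_mem hn' (Submonoid.prod_mem _ fun i _ => hn i)) (pow_mem hN _), ?_⟩
  have e2 : (((n' * (∏ i, n i) * N ^ D.r : ℕ)) : MonoidAlgebra ℚ G) *
      (D.delta {t} * wval D (U_le D ∅) f u₀) =
      (∏ i, (n i : MonoidAlgebra ℚ G)) * ((n' : MonoidAlgebra ℚ G) *
        (D.delta {t} * wval D (U_le D ∅) h u₀)) +
      ∑ i, (n' : MonoidAlgebra ℚ G) * toQ (z i) *
        (∏ l ∈ Finset.univ.erase i, (n l : MonoidAlgebra ℚ G)) * ((n i : MonoidAlgebra ℚ G) *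
          (D.delta {t} * wval D (U_le D ∅) (Function.update h i Λ) u₀)) := by
    have e3 : ∀ i, (n' : MonoidAlgebra ℚ G) * toQ (z i) *
        (∏ l ∈ Finset.univ.erase i, (n l : MonoidAlgebra ℚ G)) * ((n i : MonoidAlgebra ℚ G) *
          (D.delta {t} * wval D (U_le D ∅) (Function.update h i Λ) u₀)) =
        (n' : MonoidAlgebra ℚ G) * (∏ l, (n l : MonoidAlgebra ℚ G)) * D.delta {t} *
          (toQ (z i) * wval D (U_le D ∅) (Function.update h i Λ) u₀) := by
      intro i
      rw [← Finset.mul_prod_erase Finset.univ (fun l => (n l : MonoidAlgebra ℚ G))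
        (Finset.mem_univ i)]
      ring
    rw [Finset.sum_congr rfl fun i _ => e3 i, ← Finset.mul_sum]
    push_cast
    linear_combination ((n' : MonoidAlgebra ℚ G) * (∏ l, (n l : MonoidAlgebra ℚ G)) *
      D.delta {t}) * e1
  rw [e2]
  refine add_mem (mul_mem ?_ hnv') (sum_mem fun i _ => mul_mem (mul_mem (mul_mem ?_ ⟨z i, rfl⟩)
    ?_) (hnv i))
  · exact prod_mem fun i _ => natCast_mem _ _
  · exact natCast_mem _ _
  · exact prod_mem fun i _ => natCast_mem _ _

end Pool.Agent.H509
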