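import Pool.Agent.H509.PopAsc

/-!
# Popescu's conjecture: one set decides all larger sets
-/

set_option autoImplicit false
set_option linter.unusedSectionVars false
set_option linter.style.haveILetI false

open NumberField IsDedekindDomain Filter Topology

noncomputable section

namespace Pool.Agent.H509

open Pool.Agent.K3h30.RS Pool.Agent.K3h62.RS Pool.Agent.K3h3.RS Pool.Agent.K3h81.RL
open Pool.Agent.N598.ST (AbRoot AbOm W)

variable {F H G : Type} [Field F] [NumberField F] [Field H] [NumberField H] [Algebra F H]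
  [CommGroup G] [Finite G] [MulSemiringAction G H] [IsGaloisGroup G F H]

theorem pop_nonsplit (D : RubinData F H G) {q : HeightOneSpectrum (𝓞 F)}
    (hq : q ∉ D.S) (hσ : D.σ q ≠ 1) {M : Submonoid ℕ} (h : PopM M D) :
    PopM M (D.addPrimes {q} (singleton_extra D hq hσ)) := by
  obtain ⟨u, h1, h2, h3⟩ := h
  refine ⟨pushW D {q} (singleton_extra D hq hσ) ∅ u, push_er D _ _ ∅ u h1,
    push_stark D _ _ ∅ u h2, fun j φ => ?_⟩
  change Fin D.r at j
  change Fin D.r → GHom G ((D.addPrimes {q} (singleton_extra D hq hσ)).U ∅) at φ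
  obtain ⟨n, hn, ε, hε, hf⟩ := h3 j
    (fun i => restrictG (U_mono D {q} (singleton_extra D hq hσ) ∅) (φ i))
  have hεU := U_mono D {q} (singleton_extra D hq hσ) ∅ ε.2
  have hU' := mem_U_act (D.addPrimes {q} (singleton_extra D hq hσ)) ∅
  refine ⟨n, hn, ⟨powG (ε : Hˣ) (zV D {q}), powG_mem hU' hεU _⟩,
    AbOm.powG' hε (abOm_one' F H G) _, fun f => ?_⟩
  have h5 : (fun i => restrictG (U_mono D {q} (singleton_extra D hq hσ) ∅)
      (Function.update φ j f i)) =
      Function.update (fun i => restrictG (U_mono D {q} (singleton_extra D hq hσ) ∅) (φ i)) j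
        (restrictG (U_mono D {q} (singleton_extra D hq hσ) ∅) f) := by
    funext i
    by_cases hi : i = j
    · subst hi
      rw [Function.update_self, Function.update_self]
    · rw [Function.update_of_ne hi, Function.update_of_ne hi]
  rw [ghom_powG hU' f ⟨(ε : Hˣ), hεU⟩, map_mul]
  refine (congrArg (fun x => (n : MonoidAlgebra ℚ G) * ((Units.torsionOrder H : ℕ) :
    MonoidAlgebra ℚ G) * x) (push_value D {q} (singleton_extra D hq hσ) ∅ u
      (Function.update φ j f))).trans ?_
  rw [h5]
  have h6 := hf (restrictG (U_mono D {q} (singleton_extra D hq hσ) ∅) f)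
  have h7 : toQ (f.f (Additive.ofMul ⟨(ε : Hˣ), hεU⟩)) =
    toQ ((restrictG (U_mono D {q} (singleton_extra D hq hσ) ∅) f).f (Additive.ofMul ε)) := rfl
  rw [h7]
  linear_combination toQ (zV D {q}) * h6

/-- The conjecture depends only on `S`. -/
theorem popM_congr {D₁ D₂ : RubinData F H G} (hS : D₁.S = D₂.S) {M : Submonoid ℕ}
    (h : PopM M D₁) : PopM M D₂ := by
  classical
  obtain ⟨e, he⟩ := exists_match hS
  choose γ hγ using he
  obtain ⟨u, h1, h2, h3⟩ := h
  have hU := U_eq hS ∅
  let g : MonoidAlgebra ℤ G := ∏ i, MonoidAlgebra.single (γ i) 1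
  let u' : Wedge G D₂.r (D₂.U ∅) :=
    { n := u.n
      c := fun k => toQ g * u.c k
      x := fun k j => ⟨(u.x k (e.symm j) : Hˣ), hU ▸ (u.x k (e.symm j)).2⟩ }
  refine ⟨u', ?_, ?_, ?_⟩
  · intro χ hχ k
    change charValue χ (toR (toQ g * u.c k)) = 0
    have h4 := h1 χ (fun h5 => hχ (active_congr hS h5)) k
    rw [← cvQ_apply] at h4 ⊢
    rw [map_mul, h4, mul_zero]
  · have h4 : u'.regulator D₂.w = u.regulator D₁.w := by
      unfold Wedge.regulator
      refine Finset.sum_congr rfl fun k _ => ?_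
      change toR (toQ g * u.c k) * Matrix.det (Matrix.of fun (a b : Fin D₂.r) =>
        reg G (D₂.w a) (u.x k (e.symm b) : Hˣ)) = _
      have h5 : Matrix.det (Matrix.of fun (a b : Fin D₂.r) =>
          reg G (D₂.w a) (u.x k (e.symm b) : Hˣ)) =
          Matrix.det (Matrix.of fun (a b : Fin D₁.r) =>
            reg G (D₂.w (e a)) (u.x k b : Hˣ)) := by
        rw [← Matrix.det_submatrix_equiv_self e]
        congr 1
        ext a b : 1
        simp
      have h6 : (Matrix.of fun (a b : Fin D₁.r) => reg G (D₁.w a) (u.x k b : Hˣ)) =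
          Matrix.of fun (a b : Fin D₁.r) => MonoidAlgebra.single (γ a) 1 *
            (Matrix.of fun (a b : Fin D₁.r) => reg G (D₂.w (e a)) (u.x k b : Hˣ)) a b := by
        ext a b : 1
        simp only [Matrix.of_apply]
        exact reg_conj (hγ a) _
      have h7 := Matrix.det_mul_column (fun a : Fin D₁.r => MonoidAlgebra.single (γ a) (1 : ℝ))
        (Matrix.of fun (a b : Fin D₁.r) => reg G (D₂.w (e a)) (u.x k b : Hˣ))
      have h8 : toR (toQ g) = ∏ a, MonoidAlgebra.single (γ a) (1 : ℝ) := by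
        change toR (toQ (∏ i, MonoidAlgebra.single (γ i) 1)) = _
        rw [map_prod, map_prod]
        refine Finset.prod_congr rfl fun i _ => ?_
        simp [toR, toQ]
      rw [h6, h7, h5, map_mul, h8]
      ring
    intro χ
    have h5 := h2 χ
    rw [← h4] at h5
    have hr : D₁.r = D₂.r := by
      have := Fintype.card_congr e
      rwa [Fintype.card_fin, Fintype.card_fin] at this
    refine h5.congr' ?_
    have h6 : ∀ᶠ s : ℂ in 𝓝[≠] 0, s ≠ 1 := by
      refine Filter.Eventually.filter_mono nhdsWithin_le_nhds ?_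
      exact isOpen_compl_singleton.mem_nhds (by simp)
    filter_upwards [h6] with s hs
    rw [LT_eq hS (Finset.disjoint_empty_right _) χ⁻¹ hs, hr]
  · intro j φ
    let tr : GHom G (D₂.U ∅) → GHom G (D₁.U ∅) := fun f =>
      { f := f.f.comp (MonoidHom.toAdditive (Subgroup.inclusion (le_of_eq hU)))
        equiv := fun γ x y hxy => f.equiv γ _ _ hxy }
    obtain ⟨n, hn, ε, hε, hf⟩ := h3 (e.symm j) (fun i => tr (φ (e i)))
    have hεU : (ε : Hˣ) ∈ D₂.U ∅ := hU ▸ ε.2
    have hU' := mem_U_act D₂ ∅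
    refine ⟨n, hn, ⟨powG (ε : Hˣ) g, powG_mem hU' hεU _⟩, AbOm.powG' hε (abOm_one' F H G) _,
      fun f => ?_⟩
    have h4 : ∀ ψ : Fin D₂.r → GHom G (D₂.U ∅),
        u'.value ψ = toQ g * u.value (fun i => tr (ψ (e i))) := by
      intro ψ
      unfold Wedge.value
      rw [Finset.mul_sum]
      refine Finset.sum_congr rfl fun k _ => ?_
      change (toQ g * u.c k) * toQ (Matrix.det (Matrix.of fun (a b : Fin D₂.r) =>
        (ψ a).f (Additive.ofMul ⟨(u.x k (e.symm b) : Hˣ), hU ▸ (u.x k (e.symm b)).2⟩))) = _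
      have h5 : Matrix.det (Matrix.of fun (a b : Fin D₂.r) =>
          (ψ a).f (Additive.ofMul ⟨(u.x k (e.symm b) : Hˣ), hU ▸ (u.x k (e.symm b)).2⟩)) =
          Matrix.det (Matrix.of fun (a b : Fin D₁.r) =>
            (tr (ψ (e a))).f (Additive.ofMul (u.x k b))) := by
        rw [← Matrix.det_submatrix_equiv_self e]
        congr 1
        ext a b : 1
        simp only [Matrix.submatrix_apply, Matrix.of_apply, Equiv.symm_apply_apply]
        rfl
      rw [h5, mul_assoc]
    have h6 : (fun i => tr (Function.update φ j f (e i))) =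
        Function.update (fun i => tr (φ (e i))) (e.symm j) (tr f) := by
      funext i
      by_cases hi : i = e.symm j
      · subst hi
        rw [Equiv.apply_symm_apply, Function.update_self, Function.update_self]
      · rw [Function.update_of_ne hi, Function.update_of_ne]
        exact fun h => hi ((Equiv.symm_apply_eq e).2 h.symm).symm
    rw [h4, h6, ghom_powG hU' f ⟨(ε : Hˣ), hεU⟩, map_mul]
    have h7 := hf (tr f)
    have h8 : toQ (f.f (Additive.ofMul ⟨(ε : Hˣ), hεU⟩)) =
      toQ ((tr f).f (Additive.ofMul ε)) := rfl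
    rw [h8]
    linear_combination toQ g * h7

/-- the rank does not decrease -/
theorem r_pos_mono {D D' : RubinData F H G} (hS : D.S ⊆ D'.S) (h : 0 < D.r) : 0 < D'.r := by
  have h1 : InS (D'.S : Set (HeightOneSpectrum (𝓞 F))) (D.w ⟨0, h⟩) := by
    have h2 := D.inS ⟨0, h⟩
    revert h2
    rcases D.w ⟨0, h⟩ with w | w
    · intro _
      exact trivial
    · intro h3
      exact above_mono (Finset.coe_subset.2 hS) h3
  obtain ⟨i, -⟩ := D'.all _ h1 (D.splits ⟨0, h⟩)
  exact lt_of_le_of_lt (Nat.zero_le _) i.2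

open Classical in
theorem pop_step_up {M : Submonoid ℕ} (D : RubinData F H G) (hr : 0 < D.r)
    (hgen : Generates H M (D.S : Set (HeightOneSpectrum (𝓞 F))) ∅)
    {q : HeightOneSpectrum (𝓞 F)} (hq : q ∉ D.S) (h : PopM M D) :
    ∃ D' : RubinData F H G, D'.S = insert q D.S ∧ PopM M D' := by
  by_cases hσ : D.σ q = 1
  · obtain ⟨Q, hQ⟩ := (Pool.Agent.K3h25.RS.t_OVER F H q).1
    have hS' : (addSplit D q hq hσ Q hQ).S = insert q D.S := by
      ext v
      rw [mem_split_S, Finset.mem_insert]
    have hQS : ¬ Above (D.S : Set (HeightOneSpectrum (𝓞 F))) Q := by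
      rw [above_iff hQ]
      exact fun h => hq (Finset.mem_coe.1 h)
    obtain ⟨n, hn, hn0, x, h1, h2, -⟩ := hgen Q hQS (by
      rintro ⟨v, hv, -⟩
      exact absurd hv (Set.notMem_empty v))
    refine ⟨addSplit D q hq hσ Q hQ, hS', ?_⟩
    refine pop_asc (n := n) (y := x) D hq hσ hQ hn0 hn ((mem_U_empty_iff _).2 fun w hw => ?_) ?_ hr h
    · refine h2 w (fun h4 => hw ?_) ?_
      · obtain ⟨v, hv, hvw⟩ := above_mem h4
        rw [above_iff hvw]
        exact Finset.mem_coe.2 ((mem_split_S D hq hσ hQ).2 (Or.inr (Finset.mem_coe.1 hv)))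
      · rintro rfl
        apply hw
        rw [above_iff hQ]
        exact Finset.mem_coe.2 ((mem_split_S D hq hσ hQ).2 (Or.inl rfl))
    · refine ordG_eq_nat D hq hσ hQ ?_ fun w hw hne => h2 w ?_ hne
      · rw [valuation_eq, WithZero.exp_inj, neg_inj] at h1
        exact h1
      · rw [above_iff hw]
        exact fun h => hq (Finset.mem_coe.1 h)
  · refine ⟨D.addPrimes {q} (singleton_extra D hq hσ), ?_, pop_nonsplit D hq hσ h⟩
    change D.S ∪ {q} = _
    ext v
    simp [or_comm]

open Classical in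
theorem pop_up {M : Submonoid ℕ} (D : RubinData F H G) (hr : 0 < D.r)
    (hgen : Generates H M (D.S : Set (HeightOneSpectrum (𝓞 F))) ∅)
    (W : Finset (HeightOneSpectrum (𝓞 F))) (h : PopM M D) :
    ∃ D' : RubinData F H G, D'.S = D.S ∪ W ∧ PopM M D' := by
  induction W using Finset.induction_on with
  | empty => exact ⟨D, by rw [Finset.union_empty], h⟩
  | insert q W hq ih =>
    obtain ⟨D', hD', h'⟩ := ih
    by_cases h1 : q ∈ D'.S
    · refine ⟨D', ?_, h'⟩
      rw [Finset.union_insert, ← hD', Finset.insert_eq_of_mem h1]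
    · have hle : D.S ⊆ D'.S := by
        rw [hD']
        exact Finset.subset_union_left
      obtain ⟨D'', hD'', h''⟩ := pop_step_up D' (r_pos_mono hle hr)
        (hgen.mono (Finset.coe_subset.2 hle)) h1 h'
      exact ⟨D'', by rw [hD'', hD', Finset.union_insert], h''⟩

open Classical in
theorem pop_step_down {M : Submonoid ℕ} {D D' : RubinData F H G}
    {q : HeightOneSpectrum (𝓞 F)} (hq : q ∉ D.S) (hσ : D.σ q = 1) (hS : D'.S = insert q D.S)
    (h : PopM M D') : PopM M D := by
  obtain ⟨Q, hQ⟩ := (Pool.Agent.K3h25.RS.t_OVER F H q).1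
  have hS' : (addSplit D q hq hσ Q hQ).S = insert q D.S := by
    ext v
    rw [mem_split_S, Finset.mem_insert]
  exact pop_desc D hq hσ hQ (popM_congr (hS.trans hS'.symm) h)

open Classical in
theorem pop_down {M : Submonoid ℕ} {D : RubinData F H G}
    (V : Finset (HeightOneSpectrum (𝓞 F)))
    (hσ : ∀ v ∈ V, v ∉ D.S → D.σ v = 1) :
    ∀ D' : RubinData F H G, D'.S = D.S ∪ V → PopM M D' → PopM M D := by
  induction V using Finset.induction_on with
  | empty =>
    intro D' hD' h
    rw [Finset.union_empty] at hD'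
    exact popM_congr hD' h
  | insert q V hq ih =>
    intro D' hD' h
    obtain ⟨D'', hD''⟩ := exists_data D V
    refine ih (fun v hv => hσ v (Finset.mem_insert_of_mem hv)) D'' hD'' ?_
    by_cases hqS : q ∈ D''.S
    · refine popM_congr ?_ h
      rw [hD', Finset.union_insert, ← hD'', Finset.insert_eq_of_mem hqS]
    · have h1 : q ∉ D.S := fun h => hqS (by rw [hD'']; exact Finset.mem_union_left _ h)
      have hle : D.S ⊆ D''.S := by rw [hD'']; exact Finset.subset_union_left
      refine pop_step_down (D' := D') hqS ?_ ?_ h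
      · rw [← sigma_eq hle hqS]
        exact hσ q (Finset.mem_insert_self _ _) h1
      · rw [hD', hD'', Finset.union_insert]

open Classical in
/-- **The main theorem for Popescu's conjecture.** -/
theorem pop_main' {M : Submonoid ℕ} (D : RubinData F H G)
    (V : Finset (HeightOneSpectrum (𝓞 F))) (hσ : ∀ v ∈ V, v ∉ D.S → D.σ v = 1)
    (hgen : Generates H M ((D.S ∪ V : Finset _) : Set (HeightOneSpectrum (𝓞 F))) ∅)
    (D₁ : RubinData F H G) (hD₁ : D₁.S = D.S ∪ V) (hr : 0 < D₁.r) (h : PopM M D₁)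
    (D' : RubinData F H G) (hD' : D.S ⊆ D'.S) : PopM M D' := by
  rw [← hD₁] at hgen
  obtain ⟨D₂, hD₂, h₂⟩ := pop_up D₁ hr hgen D'.S h
  refine pop_down (D := D') V (fun v hv hv' => ?_) D₂ ?_ h₂
  · rw [← sigma_eq hD' hv']
    exact hσ v hv fun h => hv' (hD' h)
  · rw [hD₂, hD₁]
    ext v
    simp only [Finset.mem_union]
    constructor
    · rintro ((h | h) | h)
      · exact Or.inl (hD' h)
      · exact Or.inr h
      · exact Or.inl h
    · rintro (h | h)
      · exact Or.inr h
      · exact Or.inl (Or.inr h)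

end Pool.Agent.H509
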