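import Pool.Agent.H509.Syl

/-!
# From Popescu's conjecture to Rubin's conjecture
-/

set_option autoImplicit false
set_option linter.unusedSectionVars false
set_option linter.style.haveILetI false

open NumberField IsDedekindDomain Filter Topology

noncomputable section

namespace Pool.Agent.H509

open Pool.Agent.K3h30.RS Pool.Agent.K3h62.RS Pool.Agent.K3h3.RS Pool.Agent.K3h81.RL
open Pool.Agent.N598.ST (AbRoot AbOm W)

variable {F H G : Type} [Field F] [NumberField F] [Field H] [NumberField H] [Algebra F H]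
  [CommGroup G] [Finite G] [MulSemiringAction G H] [IsGaloisGroup G F H]

/-- `σ` generates a Sylow `p`-subgroup, up to elements of order prime to `p` -/
def GenSyl {G : Type} [CommGroup G] (p : ℕ) (σ : G) : Prop :=
  ∃ N' : ℕ, ¬ p ∣ N' ∧ ∀ γ : G, ∃ (i : ℕ) (δ : G), γ = σ ^ i * δ ∧ δ ^ N' = 1

theorem rubin_t_of_pop (D : RubinData F H G) (hr : 0 < D.r) {p : ℕ} (hp : p.Prime)
    (h : PopM (notDvd p hp) D) {t : HeightOneSpectrum (𝓞 F)} (ht : t ∉ D.S)
    (htw : ¬ ringChar (𝓞 F ⧸ t.asIdeal) ∣ Units.torsionOrder H)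
    (hpw : p ∣ Units.torsionOrder H) (hgen : GenSyl p (D.σ t)) :
    RubinM (notDvd p hp) D {t} := by
  classical
  obtain ⟨u₀, e₀, s₀, hpop⟩ := h
  have hdis : Disjoint D.S {t} := Finset.disjoint_singleton_right.2 ht
  refine rubinM_of_intM D u₀ e₀ s₀ {t} hdis ?_
  letI := actS D
  haveI : AddGroup.FG (Additive (US D)) := fgA Pool.Agent.K3h25.RS.t_OVER D.S
  obtain ⟨χ, m, hm0, hm, hfrob, hker, -⟩ := exists_char (G := G) Pool.Agent.K3h44.RS.t_DLOG
    Pool.Agent.K3h44.RS.t_FROBU Pool.Agent.K3h25.RS.t_TRANS Pool.Agent.K3h25.RS.t_OVER D.S t ht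
    (D.σ t) (D.frob t ht)
  obtain ⟨ζ, hζ1, hζ2, hζ3⟩ := exists_zeta_unit H
  obtain ⟨-, hz2⟩ := char_zeta D htw χ hker hζ1 hζ2
  choose n hn using fun γ : G => exists_cyc (H := H) γ
  obtain ⟨N', hN', hgen'⟩ := hgen
  have hmemB : ∀ x : US D, (x : Hˣ) ∈ D.U {t} ↔ ∀ γ : G, χ (γ • Additive.ofMul x) = 0 := by
    intro x
    rw [hker]
    constructor
    · intro hx w hw
      exact hx.2 w (by rw [Finset.coe_singleton]; exact hw)
    · intro hx
      refine ⟨x.2.1, fun w hw => hx w ?_⟩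
      rw [Finset.coe_singleton] at hw
      exact hw
  obtain ⟨N, hN, Λ, hΛ1, hΛ2, hΛ3⟩ := exists_common_syl hp hm0 hm hfrob hN' hgen'
    (ζ := (Additive.ofMul (⟨ζ, zeta_mem_US D hζ1⟩ : US D))) (Units.torsionOrder_pos H) hpw
    (by
      apply Additive.toMul.injective
      exact Subtype.ext hζ1)
    (by
      intro a ha
      rw [isOfFinAddOrder_iff_nsmul_eq_zero] at ha
      obtain ⟨k, hk0, hk⟩ := ha
      have h1 : ((Additive.toMul a : US D) : Hˣ) ^ k = 1 :=
        congrArg (fun b : Additive (US D) => ((Additive.toMul b : US D) : Hˣ)) hk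
      obtain ⟨i, hi⟩ := hζ3 _ (pow_torsionOrder (isOfFinOrder_iff_pow_eq_one.2 ⟨k, hk0, h1⟩))
      refine ⟨i, ?_⟩
      apply Additive.toMul.injective
      exact Subtype.ext hi)
    hz2 n (by
      intro γ
      apply Additive.toMul.injective
      exact Subtype.ext (hn γ ζ hζ1))
  have hequi : ∀ f : Additive (US D) →+ MonoidAlgebra ℚ G, IsEquiv D f ↔ Equi f := by
    intro f
    constructor
    · intro hf γ a
      exact hf γ (Additive.toMul a) (Additive.toMul (γ • a)) rfl
    · intro hf γ x y hxy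
      have h1 : Additive.ofMul y = γ • Additive.ofMul x := by
        apply Additive.toMul.injective
        exact Subtype.ext hxy
      rw [h1, hf]
  have hint : ∀ f : Additive (US D) →+ MonoidAlgebra ℚ G, Equi f → (IntOn D {t} f ↔
      ∀ a, (∀ γ : G, χ (γ • a) = 0) → cl f a = 0) := by
    intro f hf
    constructor
    · intro h1 a ha
      have h2 := h1 (Additive.toMul a) ((hmemB (Additive.toMul a)).2 ha)
      rw [mem_range_toQ] at h2
      rw [cl_apply, QZ_zero]
      exact h2 1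
    · intro h1 x hx
      rw [mem_range_toQ]
      intro γ
      rw [← QZ_zero, coeff_eq hf]
      refine h1 _ fun δ => ?_
      rw [smul_smul]
      exact (hmemB x).1 hx _
  refine intM_of_common D hr u₀ hpop ht htw Λ ((hequi Λ).2 hΛ1) ((hint Λ hΛ1).2 hΛ2)
    (N := N) hN fun f hf hft => ?_
  exact hΛ3 f ((hequi f).1 hf) ((hint f ((hequi f).1 hf)).1 hft)

end Pool.Agent.H509
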