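import Pool.Agent.H509.Tate1
import Pool.Graph.R_pool_sql_team_seeded_5cf16337.K3h24.RS.Det

/-!
# Popescu's conjecture and `T = {t}`
-/

set_option autoImplicit false
set_option linter.unusedSectionVars false
set_option linter.style.haveILetI false

open NumberField IsDedekindDomain Filter Topology

noncomputable section

namespace Pool.Agent.H509

open Pool.Agent.K3h30.RS Pool.Agent.K3h62.RS Pool.Agent.K3h3.RS Pool.Agent.K3h81.RL
open Pool.Agent.N598.ST (AbRoot AbOm W)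

variable {F H G : Type} [Field F] [NumberField F] [Field H] [NumberField H] [Algebra F H]
  [CommGroup G] [Finite G] [MulSemiringAction G H]

theorem f_tors {A : Type} [AddCommGroup A] (f : A →+ MonoidAlgebra ℚ G) {a : A} {n : ℕ}
    (hn : 0 < n) (h : n • a = 0) : f a = 0 := by
  have h1 := congrArg f h
  rw [map_nsmul, map_zero, nsmul_eq_mul] at h1
  exact natCast_cancel hn (by rw [h1, mul_zero])

theorem wval_update_smul (D : RubinData F H G) {U : Subgroup Hˣ} (hU : U ≤ US D)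
    (f : Fin D.r → Additive (US D) →+ MonoidAlgebra ℚ G) (j : Fin D.r) (k : ℕ)
    (g : Additive (US D) →+ MonoidAlgebra ℚ G) (u : Wedge G D.r U) :
    wval D hU (Function.update f j (k • g)) u =
      (k : MonoidAlgebra ℚ G) * wval D hU (Function.update f j g) u := by
  unfold wval
  rw [Finset.mul_sum]
  refine Finset.sum_congr rfl fun l _ => ?_
  have h1 : ∀ g' : Additive (US D) →+ MonoidAlgebra ℚ G,
      (Matrix.of fun (a b : Fin D.r) => (Function.update f j g' a)
        (Additive.ofMul ⟨(u.x l b : Hˣ), hU (u.x l b).2⟩)) =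
      (Matrix.of fun (a b : Fin D.r) => f a
        (Additive.ofMul ⟨(u.x l b : Hˣ), hU (u.x l b).2⟩)).updateRow j
          (fun b => g' (Additive.ofMul ⟨(u.x l b : Hˣ), hU (u.x l b).2⟩)) := by
    intro g'
    ext a b : 1
    by_cases ha : a = j
    · subst ha
      rw [Matrix.updateRow_self, Matrix.of_apply, Function.update_self]
    · rw [Matrix.updateRow_ne ha, Matrix.of_apply, Function.update_of_ne ha, Matrix.of_apply]
  rw [h1, h1]
  have h2 : (fun b => (k • g) (Additive.ofMul ⟨(u.x l b : Hˣ), hU (u.x l b).2⟩)) =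
      (k : MonoidAlgebra ℚ G) •
        (fun b => g (Additive.ofMul ⟨(u.x l b : Hˣ), hU (u.x l b).2⟩)) := by
    funext b
    rw [AddMonoidHom.nsmul_apply, nsmul_eq_mul]
    rfl
  rw [h2, Matrix.det_updateRow_smul]
  ring

variable [IsGaloisGroup G F H]

/-- the value of the evaluator with one homomorphism which is only integral on `U_{S,{t}}` -/
theorem pop_c1 {M : Submonoid ℕ} (D : RubinData F H G) (u₀ : Wedge G D.r (D.U ∅))
    (hpop : PopInt M D u₀) {t : HeightOneSpectrum (𝓞 F)} (ht : t ∉ D.S)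
    (htw : ¬ ringChar (𝓞 F ⧸ t.asIdeal) ∣ Units.torsionOrder H)
    (h : Fin D.r → Additive (US D) →+ MonoidAlgebra ℚ G) (hh : ∀ i, IsEquiv D (h i))
    (hi : ∀ i (x : US D), h i (Additive.ofMul x) ∈ (toQ (G := G)).range) (j : Fin D.r)
    (g : Additive (US D) →+ MonoidAlgebra ℚ G) (hg : IsEquiv D g) (hgt : IntOn D {t} g) :
    ∃ n ∈ M, (n : MonoidAlgebra ℚ G) *
      (D.delta {t} * wval D (U_le D ∅) (Function.update h j g) u₀) ∈ (toQ (G := G)).range := by
  classical
  have hdis : Disjoint D.S {t} := Finset.disjoint_singleton_right.2 ht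
  obtain ⟨m, hm0, hm⟩ := exists_pow_US D {t} hdis
  have hmg : ∀ x : US D, (m • g) (Additive.ofMul x) ∈ (toQ (G := G)).range := by
    intro x
    rw [AddMonoidHom.nsmul_apply, ← map_nsmul]
    exact hgt (x ^ m) (hm x)
  have hmg' : IsEquiv D (m • g) := by
    intro γ x y hxy
    rw [AddMonoidHom.nsmul_apply, AddMonoidHom.nsmul_apply, hg γ x y hxy, nsmul_eq_mul,
      nsmul_eq_mul, mul_left_comm]
  choose φ hφ using fun i => exists_restrict D ∅ (h i) (hh i) (fun x _ => hi i x)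
  obtain ⟨f, hf⟩ := exists_restrict D ∅ (m • g) hmg' (fun x _ => hmg x)
  obtain ⟨n, hn, ε, hε, hval⟩ := hpop j φ
  have hεS : (ε : Hˣ) ∈ US D := U_le D ∅ ε.2
  have e1 : u₀.value (Function.update φ j f) =
      wval D (U_le D ∅) (Function.update h j (m • g)) u₀ := by
    unfold Wedge.value wval
    refine Finset.sum_congr rfl fun k _ => ?_
    rw [RingHom.map_det]
    congr 2
    ext a b : 1
    simp only [RingHom.mapMatrix_apply, Matrix.map_apply, Matrix.of_apply]
    by_cases ha : a = j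
    · subst ha
      rw [Function.update_self, Function.update_self, hf]
    · rw [Function.update_of_ne ha, Function.update_of_ne ha, hφ]
  have e2 := hval f
  rw [e1, wval_update_smul, hf, AddMonoidHom.nsmul_apply, nsmul_eq_mul] at e2
  have e3 : (n : MonoidAlgebra ℚ G) * ((Units.torsionOrder H : ℕ) : MonoidAlgebra ℚ G) *
      wval D (U_le D ∅) (Function.update h j g) u₀ = g (Additive.ofMul ⟨(ε : Hˣ), hεS⟩) := by
    refine natCast_cancel hm0 ?_
    rw [← e2]
    ring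
  obtain ⟨v, hv, hvε⟩ := tate1 D ht htw ⟨(ε : Hˣ), hεS⟩ hε
  have e4 : MonoidAlgebra.single (D.σ t) 1 * g (Additive.ofMul ⟨(ε : Hˣ), hεS⟩) =
      (Ideal.absNorm t.asIdeal : MonoidAlgebra ℚ G) * g (Additive.ofMul ⟨(ε : Hˣ), hεS⟩) +
        ((Units.torsionOrder H : ℕ) : MonoidAlgebra ℚ G) * g (Additive.ofMul v) := by
    rw [← hg (D.σ t) ⟨(ε : Hˣ), hεS⟩ ⟨act (D.σ t) (ε : Hˣ), act_mem_US D _ hεS⟩ rfl]
    have h5 : (⟨act (D.σ t) (ε : Hˣ), act_mem_US D _ hεS⟩ : US D) =
        (⟨(ε : Hˣ), hεS⟩ : US D) ^ (Ideal.absNorm t.asIdeal) * v ^ (Units.torsionOrder H) :=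
      Subtype.ext hvε
    rw [h5, ofMul_mul, ofMul_pow, ofMul_pow, map_add, map_nsmul, map_nsmul, nsmul_eq_mul,
      nsmul_eq_mul]
  obtain ⟨z, hz⟩ := hgt v hv
  refine ⟨n, hn, MonoidAlgebra.single (D.σ t)⁻¹ 1 * z, ?_⟩
  have hδ : D.delta {t} = 1 - MonoidAlgebra.single (D.σ t)⁻¹ (Ideal.absNorm t.asIdeal : ℚ) := by
    unfold RubinData.delta
    rw [Finset.prod_singleton]
  have hs : (MonoidAlgebra.single (D.σ t)⁻¹ (1 : ℚ)) * MonoidAlgebra.single (D.σ t) (1 : ℚ) = 1 := by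
    rw [MonoidAlgebra.single_mul_single, inv_mul_cancel, one_mul]
    rfl
  have hs2 : (MonoidAlgebra.single (D.σ t)⁻¹ (Ideal.absNorm t.asIdeal : ℚ) : MonoidAlgebra ℚ G) =
      (Ideal.absNorm t.asIdeal : MonoidAlgebra ℚ G) * MonoidAlgebra.single (D.σ t)⁻¹ (1 : ℚ) := by
    rw [← nsmul_eq_mul, MonoidAlgebra.smul_single, nsmul_eq_mul, mul_one]
  refine natCast_cancel (Units.torsionOrder_pos H) ?_
  rw [map_mul, hz, hδ, hs2]
  have hs3 : toQ (MonoidAlgebra.single (D.σ t)⁻¹ (1 : ℤ)) =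
      (MonoidAlgebra.single (D.σ t)⁻¹ (1 : ℚ) : MonoidAlgebra ℚ G) := by
    rw [toQ_single', Int.cast_one]
  rw [hs3]
  linear_combination (-(MonoidAlgebra.single (D.σ t)⁻¹ (1 : ℚ) : MonoidAlgebra ℚ G)) * e4 -
    (1 - (Ideal.absNorm t.asIdeal : MonoidAlgebra ℚ G) *
      MonoidAlgebra.single (D.σ t)⁻¹ (1 : ℚ)) * e3 +
    g (Additive.ofMul ⟨(ε : Hˣ), hεS⟩) * hs

end Pool.Agent.H509
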