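import Pool.Agent.H509.Add

/-!
# Powers with exponents in `ℤ[G]`
-/

set_option autoImplicit false
set_option linter.unusedSectionVars false
set_option linter.style.haveILetI false

open NumberField IsDedekindDomain Filter Topology

noncomputable section

namespace Pool.Agent.H509

open Pool.Agent.K3h30.RS Pool.Agent.K3h62.RS Pool.Agent.K3h3.RS Pool.Agent.K3h81.RL

variable {F H G : Type} [Field F] [NumberField F] [Field H] [NumberField H] [Algebra F H]
  [CommGroup G] [Finite G] [MulSemiringAction G H]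

/-- the power `x ^ ρ`, `ρ ∈ ℤ[G]` -/
def powG (x : Hˣ) (ρ : MonoidAlgebra ℤ G) : Hˣ :=
  letI := Fintype.ofFinite G
  ∏ γ : G, act γ x ^ (ρ.coeff γ)

theorem powG_mem {U : Subgroup Hˣ} (hU : ∀ (γ : G), ∀ x ∈ U, act γ x ∈ U) {x : Hˣ} (hx : x ∈ U)
    (ρ : MonoidAlgebra ℤ G) : powG x ρ ∈ U := by
  letI := Fintype.ofFinite G
  exact Subgroup.prod_mem _ fun γ _ => zpow_mem (hU γ x hx) _

theorem eq_sum_single {R : Type*} [Semiring R] (ρ : MonoidAlgebra R G) :
    letI := Fintype.ofFinite G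
    ρ = ∑ γ : G, MonoidAlgebra.single γ (ρ.coeff γ) := by
  classical
  letI := Fintype.ofFinite G
  ext γ
  rw [MonoidAlgebra.coeff_sum, Finsupp.finsetSum_apply, Finset.sum_eq_single γ]
  · simp
  · intro δ _ hδ
    simp [hδ]
  · intro h
    exact absurd (Finset.mem_univ γ) h

/-- homomorphisms compatible with `G` and powers -/
theorem map_powG {A : Type*} [CommRing A] (ι : MonoidAlgebra ℤ G →+* A) {U : Subgroup Hˣ}
    (hU : ∀ (γ : G), ∀ x ∈ U, act γ x ∈ U) (f : Additive U →+ A)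
    (hf : ∀ (γ : G) (x y : U), (y : Hˣ) = act γ (x : Hˣ) →
      f (Additive.ofMul y) = ι (MonoidAlgebra.single γ 1) * f (Additive.ofMul x))
    (x : U) (ρ : MonoidAlgebra ℤ G) (h : powG (x : Hˣ) ρ ∈ U) :
    f (Additive.ofMul ⟨powG (x : Hˣ) ρ, h⟩) = ι ρ * f (Additive.ofMul x) := by
  letI := Fintype.ofFinite G
  have h1 : (⟨powG (x : Hˣ) ρ, h⟩ : U) =
      ∏ γ : G, (⟨act γ (x : Hˣ), hU γ x x.2⟩ : U) ^ (ρ.coeff γ) := by
    apply Subtype.ext
    rw [Subgroup.val_finsetProd]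
    rfl
  rw [h1, ofMul_prod, map_sum]
  conv_rhs => rw [eq_sum_single ρ]
  rw [map_sum, Finset.sum_mul]
  refine Finset.sum_congr rfl fun γ _ => ?_
  rw [ofMul_zpow, map_zsmul, hf γ x _ rfl]
  have h2 : MonoidAlgebra.single γ (ρ.coeff γ) = (ρ.coeff γ) • MonoidAlgebra.single γ (1 : ℤ) := by
    rw [MonoidAlgebra.smul_single, smul_eq_mul, mul_one]
  rw [h2, map_zsmul, smul_mul_assoc]

theorem ghom_powG {U : Subgroup Hˣ} (hU : ∀ (γ : G), ∀ x ∈ U, act γ x ∈ U) (ψ : GHom G U)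
    (x : U) (ρ : MonoidAlgebra ℤ G) (h : powG (x : Hˣ) ρ ∈ U) :
    ψ.f (Additive.ofMul ⟨powG (x : Hˣ) ρ, h⟩) = ρ * ψ.f (Additive.ofMul x) := by
  have h1 := map_powG (A := MonoidAlgebra ℤ G) (RingHom.id _) hU ψ.f (by
    intro γ x y hxy
    rw [RingHom.id_apply]
    exact ψ.equiv γ x y hxy) x ρ h
  rw [h1, RingHom.id_apply]

theorem ordG_powG (Q : HeightOneSpectrum (𝓞 H)) (x : Hˣ) (ρ : MonoidAlgebra ℤ G) :
    ordG G Q (Additive.ofMul (powG x ρ)) = ρ * ordG G Q (Additive.ofMul x) := by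
  refine map_powG (RingHom.id _) (U := ⊤) (fun _ _ _ => Subgroup.mem_top _)
    ((ordG G Q).comp (MonoidHom.toAdditive (Subgroup.subtype ⊤))) ?_ ⟨x, Subgroup.mem_top _⟩ ρ
    (Subgroup.mem_top _)
  rintro γ x y hxy
  change ordG G Q (Additive.ofMul (y : Hˣ)) = _
  rw [hxy, ordG_act]
  rfl

/-- the regulator as a homomorphism -/
def regHom (G : Type) [CommGroup G] [Finite G] [MulSemiringAction G H] (w : Place H) :
    Additive Hˣ →+ MonoidAlgebra ℝ G where
  toFun x := reg G w (Additive.toMul x)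
  map_zero' := by
    have h2 := Pool.Agent.K3h4.RL.reg_mul (G := G) w (1 : Hˣ) 1
    rw [mul_one] at h2
    exact (add_eq_left.1 h2.symm)
  map_add' x y := by rw [toMul_add, Pool.Agent.K3h4.RL.reg_mul]

theorem reg_powG (w : Place H) (x : Hˣ) (ρ : MonoidAlgebra ℤ G) :
    reg G w (powG x ρ) = toR (toQ ρ) * reg G w x := by
  refine map_powG (toR.comp (toQ (G := G))) (U := ⊤) (fun _ _ _ => Subgroup.mem_top _)
    ((regHom G w).comp (MonoidHom.toAdditive (Subgroup.subtype ⊤))) ?_ ⟨x, Subgroup.mem_top _⟩ ρ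
    (Subgroup.mem_top _)
  rintro γ x y hxy
  change reg G w (y : Hˣ) = _ * reg G w (x : Hˣ)
  rw [hxy, Pool.Agent.K3h4.RL.reg_act]
  congr 1
  simp [toR, toQ]

end Pool.Agent.H509
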