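import Pool.Graph.R_pool_sql_team_seeded_3997aac3.Q182.MZ.LF
import Pool.Graph.R_pool_sql_team_seeded_3997aac3.Q111.EX.Fin
import Pool.Graph.R_pool_sql_team_seeded_3997aac3.Q38.EX.NrmB
import Pool.Graph.R_pool_sql_team_seeded_3997aac3.Q275.EX.Res

/-!
# Unramified characters and principal divisors

If the character `ψ` of the Galois group of `M / K` is unramified at all places of `K` and trivial on
the decomposition groups of the primes over `A`, then the Artin map followed by `ψ` kills the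
divisors `prin x + a`, `a` supported in `A`.
-/

set_option autoImplicit false
set_option linter.unusedSectionVars false
set_option linter.deprecated false

namespace Pool.Agent.H509.Rec

open NumberField IsDedekindDomain
open Pool.Agent.Q92.AR (Dv prin Pr Ray RayD art nmD nu up Cong Pos frob IsFrobenius Unramified Ram
  prin_mul prin_div prin_one prin_inv mem_Pr val_eq_one nmD_single art_single frob_spec)
open Pool.Agent.Q20.EX (CongAt Split Inert)
open Pool.Agent.Q5.MZ (PosRam)
open Pool.Agent.Q125.AR (mem_under prin_eq_zero_of_valuation prin_mem_Pr Ray_mono Ram_mono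
  art_eq_sum chi_frob)
open Pool.Agent.Q182.MZ (fixReal nm_prin)
open Pool.Agent.Q38.EX (near_one near_mul val_nat_lt_one)

section one

variable {K L : Type} [Field K] [NumberField K] [Field L] [NumberField L] [Algebra K L]
  [IsGalois K L]

theorem act_of_frob {v : HeightOneSpectrum (𝓞 K)} {g : L ≃ₐ[K] L} (hg : IsFrobenius v g) :
    ∃ w : HeightOneSpectrum (𝓞 L), w.under (𝓞 K) = v ∧ Pool.Agent.TeamU.act g w = w := by
  obtain ⟨w, hwm, hwv, hw⟩ := hg
  have hw0 : w ≠ ⊥ := by
    rintro rfl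
    apply v.ne_bot
    rw [← hwv, ← RingHom.ker_eq_comap_bot]
    exact (RingHom.injective_iff_ker_eq_bot _).1 (FaithfulSMul.algebraMap_injective (𝓞 K) (𝓞 L))
  refine ⟨⟨w, hwm.isPrime, hw0⟩, HeightOneSpectrum.ext hwv, ?_⟩
  apply HeightOneSpectrum.ext
  symm
  have hmax : (Pool.Agent.TeamU.act g ⟨w, hwm.isPrime, hw0⟩).asIdeal.IsMaximal :=
    (Pool.Agent.TeamU.act g ⟨w, hwm.isPrime, hw0⟩).isMaximal
  refine (hmax.eq_of_le hwm.ne_top ?_).symm
  intro x hx
  rw [Pool.Agent.TeamU.mem_act] at hx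
  set y := (RingOfIntegers.mapRingEquiv g.toRingEquiv).symm x with hy
  have hxy : (x : L) = g (y : L) := by
    have h1 : x = (RingOfIntegers.mapRingEquiv g.toRingEquiv) y := by
      rw [hy, RingEquiv.apply_symm_apply]
    rw [h1]
    rfl
  obtain ⟨z, hz, hz2⟩ := hw y
  have hx2 : x = z + y ^ Ideal.absNorm v.asIdeal := by
    apply RingOfIntegers.ext
    change (x : L) = (z : L) + (y : L) ^ Ideal.absNorm v.asIdeal
    rw [hz2, hxy]
    ring
  have hn : Ideal.absNorm v.asIdeal ≠ 0 := by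
    rw [Ne, Ideal.absNorm_eq_zero_iff]
    exact v.ne_bot
  rw [hx2]
  exact w.add_mem hz (Ideal.pow_mem_of_mem _ hx _ (Nat.pos_of_ne_zero hn))

theorem act_of_inert {w : HeightOneSpectrum (𝓞 L)} {g : L ≃ₐ[K] L} (hg : Inert w g) :
    Pool.Agent.TeamU.act g w = w := by
  apply HeightOneSpectrum.ext
  have hmax : (Pool.Agent.TeamU.act g w).asIdeal.IsMaximal := (Pool.Agent.TeamU.act g w).isMaximal
  refine hmax.eq_of_le w.isPrime.ne_top ?_
  intro x hx
  rw [Pool.Agent.TeamU.mem_act] at hx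
  set y := (RingOfIntegers.mapRingEquiv g.toRingEquiv).symm x with hy
  have hxy : (x : L) = g (y : L) := by
    have h1 : x = (RingOfIntegers.mapRingEquiv g.toRingEquiv) y := by
      rw [hy, RingEquiv.apply_symm_apply]
    rw [h1]
    rfl
  have h1 : (w.valuation L) (algebraMap (𝓞 L) L (x - y)) < 1 := by
    rw [map_sub]
    change w.valuation L ((x : L) - (y : L)) < 1
    rw [hxy]
    exact hg y
  have h2 : x - y ∈ w.asIdeal := (w.valuation_lt_one_iff_mem (K := L) _).1 h1
  have h3 : x = (x - y) + y := by ring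
  rw [h3]
  exact w.asIdeal.add_mem h2 hx

/-- divisors supported at primes with trivial `ψ (frob)` -/
theorem art_supp (θ : (L ≃ₐ[K] L) →* ℂˣ) {A : Set (HeightOneSpectrum (𝓞 K))}
    (hA : ∀ v ∈ A, θ (frob L v) = 1) (a : Dv K) (ha : ∀ v, v ∉ A → a v = 0) : art θ a = 0 := by
  rw [art_eq_sum]
  refine Finset.sum_eq_zero fun v hv => ?_
  have h1 : v ∈ A := by
    by_contra h
    exact (Finsupp.mem_support_iff.1 hv) (ha v h)
  rw [hA v h1, ofMul_one, smul_zero]

theorem art_norm_zero' (θ : (L ≃ₐ[K] L) →* ℂˣ) {A : Set (HeightOneSpectrum (𝓞 K))}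
    (hA : ∀ v ∈ A, θ (frob L v) = 1) {N : ℕ} (hN : N ≠ 0) (hR : Ram K L N)
    (D : Dv L) (hD : ∀ w : HeightOneSpectrum (𝓞 L), (N : 𝓞 L) ∈ w.asIdeal →
      w.under (𝓞 K) ∉ A → D w = 0) : art θ (nmD K L D) = 0 := by
  classical
  have e := Finsupp.filter_pos_add_filter_neg D (fun w => w.under (𝓞 K) ∈ A)
  rw [← e, map_add, map_add]
  have e2 : art θ (nmD K L (D.filter (fun w => ¬ w.under (𝓞 K) ∈ A))) = 0 := by
    refine (Pool.Agent.Q92.AR.all_NKer K L θ N hN).1 hR _ fun w hw => ?_
    rw [Finsupp.filter_apply]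
    split_ifs with h
    · rfl
    · exact hD w hw h
  have e1 : art θ (nmD K L (D.filter (fun w => w.under (𝓞 K) ∈ A))) = 0 := by
    rw [← Finsupp.sum_single (D.filter (fun w => w.under (𝓞 K) ∈ A)), Finsupp.sum, map_sum,
      map_sum]
    refine Finset.sum_eq_zero fun w hw => ?_
    have h2 : w.under (𝓞 K) ∈ A := by
      by_contra h
      exact (Finsupp.mem_support_iff.1 hw) (Finsupp.filter_apply_neg _ _ h)
    rw [nmD_single, art_single, hA _ h2, ofMul_one, smul_zero]
  rw [e1, e2, add_zero]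

/-- **Reciprocity for unramified extensions in which the primes of `A` split completely.** -/
theorem recA (θ : (L ≃ₐ[K] L) →* ℂˣ) (A : Set (HeightOneSpectrum (𝓞 K)))
    (hun : ∀ v : HeightOneSpectrum (𝓞 K), Unramified L v)
    (hre : ∀ φ : K →+* ℝ, ∃ χ : L →+* ℝ, χ.comp (algebraMap K L) = φ)
    (hA : ∀ v ∈ A, Split L v) {N : ℕ} (hN : N ≠ 0) (hR : Ram K L N)
    (hker : ∀ x ∈ Ray K N, art θ (prin x) = 0) (x : Kˣ) (a : Dv K) (ha : ∀ v, v ∉ A → a v = 0)
    (hD : prin x + a ∈ Pr K N) : art θ (prin x + a) = 0 := by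
  have hfr : ∀ v ∈ A, θ (frob L v) = 1 := by
    intro v hv
    obtain ⟨w, hw, hw2⟩ := act_of_frob (frob_spec (M := L) v)
    rw [hA v hv w hw _ hw2, map_one]
  have hun1 : ∀ v : HeightOneSpectrum (𝓞 K), (N : 𝓞 K) ∈ v.asIdeal → v ∉ A →
      v.valuation K (x : K) = 1 := by
    intro v hv hvA
    have h1 := hD v hv
    rw [Finsupp.add_apply, ha v hvA, add_zero] at h1
    rw [Pool.Agent.Q125.AR.valuation_eq_exp, h1, neg_zero, WithZero.exp_zero]
  obtain ⟨y, hy1, hy2, hy3, hy4⟩ := Pool.Agent.Q38.EX.nrm K L N x hN (by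
    intro v hv
    by_cases h : v ∈ A
    · exact Or.inr (Or.inl (hA v h))
    · exact Or.inr (Or.inr ⟨hun v, hun1 v hv h⟩))
  have hpr : PosRam L (x / nu K L y) := fun φ hφ => absurd (hre φ) hφ
  obtain ⟨t, ht1, ht2⟩ := fixReal hN hpr
  have hray : (x / nu K L y) * nu K L t ∈ Ray K N := by
    refine ⟨fun v hv => ?_, ht2⟩
    rw [Units.val_mul, Units.val_div_eq_div_val]
    exact near_mul _ (val_nat_lt_one hv) (hy3 v hv)
      ((Pool.Agent.Q106.AR.nm K L).2.1 N t hN ht1 v hv)
  have h1 := hker _ hray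
  have h2 : art θ (prin (nu K L t)) = 0 := by
    rw [← nm_prin]
    refine ((Pool.Agent.Q92.AR.all_NKer K L θ N hN).1 hR) _ fun w hw => ?_
    exact prin_eq_zero_of_valuation (near_one _ (val_nat_lt_one hw) (ht1 w hw))
  have h3 : art θ (prin (nu K L y)) = 0 := by
    rw [← nm_prin]
    refine art_norm_zero' θ hfr hN hR _ fun w hw hwA => ?_
    exact prin_eq_zero_of_valuation (hy4 w hw (hun1 _ (mem_under.2 hw) hwA))
  rw [prin_mul, map_add, h2, add_zero, prin_div, map_sub, h3, sub_zero] at h1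
  rw [map_add, h1, art_supp θ hfr a ha, add_zero]

end one

section two

variable {K M : Type} [Field K] [NumberField K] [Field M] [NumberField M] [Algebra K M]
  [IsGalois K M]

/-- complex conjugation for an embedding of `M` which is real on `K` -/
theorem exists_conj (φ : K →+* ℝ) : ∃ (ι : M →+* ℂ) (g : M ≃ₐ[K] M),
    (∀ x : K, ι (algebraMap K M x) = ((φ x : ℝ) : ℂ)) ∧ ∀ x : M, ι (g x) = (starRingEnd ℂ) (ι x) := by
  let φc : K →+* ℂ := (algebraMap ℝ ℂ).comp φ
  let _ : Algebra K ℂ := φc.toAlgebra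
  let ι : M →ₐ[K] ℂ := IsAlgClosed.lift
  have hιK : ∀ x : K, ι (algebraMap K M x) = ((φ x : ℝ) : ℂ) := fun x => ι.commutes x
  have hcc : ∀ x : K, (starRingEnd ℂ) (algebraMap K ℂ x) = algebraMap K ℂ x := by
    intro x
    change (starRingEnd ℂ) ((φ x : ℝ) : ℂ) = ((φ x : ℝ) : ℂ)
    exact Complex.conj_ofReal _
  let ι' : M →ₐ[K] ℂ := { ((starRingEnd ℂ).comp (ι : M →+* ℂ)) with
    commutes' := fun x => by
      change (starRingEnd ℂ) (ι (algebraMap K M x)) = _
      rw [ι.commutes, hcc] }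
  -- the image of `M` is stable
  have hnorm : Normal K M := inferInstance
  have hrange : ∀ x : M, ∃ y : M, ι y = ι' x := by
    intro x
    have hint : IsIntegral K x := Algebra.IsIntegral.isIntegral x
    have hsp : ((minpoly K x).map (algebraMap K M)).Splits := hnorm.splits x
    have h1 : Polynomial.eval₂ (algebraMap K ℂ) (ι' x) (minpoly K x) = 0 := by
      have h2 := congrArg ι' (minpoly.aeval K x)
      rw [← Polynomial.aeval_algHom_apply, map_zero] at h2
      exact h2
    have h3 : ((minpoly K x).map (algebraMap K ℂ)).IsRoot (ι' x) := by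
      rw [Polynomial.IsRoot.def, Polynomial.eval_map, h1]
    have h4 : (minpoly K x).map (algebraMap K ℂ) =
        ((minpoly K x).map (algebraMap K M)).map (ι : M →+* ℂ) := by
      rw [Polynomial.map_map]
      congr 1
      exact (ι.comp_algebraMap).symm
    rw [h4] at h3
    have h5 : ι' x ∈ (((minpoly K x).map (algebraMap K M)).map (ι : M →+* ℂ)).roots := by
      rw [Polynomial.mem_roots]
      · exact h3
      · rw [← h4]
        exact Polynomial.map_ne_zero (minpoly.ne_zero hint)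
    rw [hsp.roots_map] at h5
    obtain ⟨y, -, hy⟩ := Multiset.mem_map.1 h5
    exact ⟨y, hy⟩
  choose f hf using hrange
  have hinj : Function.Injective ι := ι.toRingHom.injective
  let g : M →ₐ[K] M :=
    { toFun := f
      map_one' := hinj (by rw [hf, map_one, map_one])
      map_mul' := fun x y => hinj (by rw [hf, map_mul, map_mul, hf, hf])
      map_zero' := hinj (by rw [hf, map_zero, map_zero])
      map_add' := fun x y => hinj (by rw [hf, map_add, map_add, hf, hf])
      commutes' := fun x => hinj (by rw [hf, ι'.commutes, ι.commutes]) }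
  refine ⟨(ι : M →+* ℂ), AlgEquiv.ofBijective g (Algebra.IsAlgebraic.algHom_bijective _), hιK, ?_⟩
  intro x
  exact hf x

/-- **Reciprocity for characters unramified at all places.** -/
theorem recB (ψ : (M ≃ₐ[K] M) →* ℂˣ) (A : Set (HeightOneSpectrum (𝓞 K)))
    (hin : ∀ (w : HeightOneSpectrum (𝓞 M)) (g : M ≃ₐ[K] M), Inert w g → ψ g = 1)
    (hA : ∀ w : HeightOneSpectrum (𝓞 M), w.under (𝓞 K) ∈ A → ∀ g : M ≃ₐ[K] M,
      Pool.Agent.TeamU.act g w = w → ψ g = 1)
    (hre : ∀ (ι : M →+* ℂ) (g : M ≃ₐ[K] M), (∀ x : M, ι (g x) = (starRingEnd ℂ) (ι x)) → ψ g = 1) :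
    ∃ N : ℕ, N ≠ 0 ∧ Ram K M N ∧ ∀ N' : ℕ, N' ≠ 0 → N ∣ N' → ∀ (x : Kˣ) (a : Dv K),
      (∀ v, v ∉ A → a v = 0) → prin x + a ∈ Pr K N' → art ψ (prin x + a) = 0 := by
  obtain ⟨L, hLgal, θ', hinj, hθ'⟩ := Pool.Agent.Q111.EX.exists_quot ψ
  have hfix : ∀ g : M ≃ₐ[K] M, ψ g = 1 → ∀ x : L, g (algebraMap L M x) = algebraMap L M x := by
    intro g hg x
    have h1 : AlgEquiv.restrictNormal g L = 1 := hinj (by rw [hθ', hg, map_one])
    rw [← AlgEquiv.restrictNormal_commutes g L x, h1]
    rfl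
  have hun : ∀ v : HeightOneSpectrum (𝓞 K), Unramified L v := fun v =>
    Pool.Agent.Q111.EX.unram_of_inert (M := M) v fun w _ g hg => hfix g (hin w g hg)
  have hsplit : ∀ v ∈ A, Split L v := by
    intro v hv
    refine Pool.Agent.Q111.EX.split_of_inj θ' hinj (hun v) ?_
    have h2 : IsFrobenius v (AlgEquiv.restrictNormal (frob M v) L) :=
      Pool.Agent.Q225.AR.fr.1 K L M v (frob M v) (frob_spec v)
    have h3 := chi_frob (hun v) (frob_spec (M := L) v) h2 θ'
    rw [h3, hθ']
    obtain ⟨w, hw, hw2⟩ := act_of_frob (frob_spec (M := M) v)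
    exact hA w (by rw [hw]; exact hv) _ hw2
  have hreal : ∀ φ : K →+* ℝ, ∃ χ : L →+* ℝ, χ.comp (algebraMap K L) = φ := by
    intro φ
    obtain ⟨ι, g, hι, hg⟩ := exists_conj (M := M) φ
    have h1 := hfix g (hre ι g hg)
    have h2 : ∀ x : L, (starRingEnd ℂ) (ι (algebraMap L M x)) = ι (algebraMap L M x) := by
      intro x
      rw [← hg, h1]
    have h3 : ∀ x : L, (((ι (algebraMap L M x)).re : ℝ) : ℂ) = ι (algebraMap L M x) := fun x =>
      Complex.conj_eq_iff_re.1 (h2 x)
    have hcast : Function.Injective (fun r : ℝ => (r : ℂ)) := Complex.ofReal_injective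
    refine ⟨{ toFun := fun x => (ι (algebraMap L M x)).re
              map_one' := by rw [map_one, map_one, Complex.one_re]
              map_mul' := fun x y => hcast (by
                simp only [Complex.ofReal_mul]
                rw [h3, h3, h3, map_mul, map_mul])
              map_zero' := by rw [map_zero, map_zero, Complex.zero_re]
              map_add' := fun x y => by rw [map_add, map_add, Complex.add_re] }, ?_⟩
    ext x
    change (ι (algebraMap L M (algebraMap K L x))).re = φ x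
    rw [← IsScalarTower.algebraMap_apply K L M, hι, Complex.ofReal_re]
  obtain ⟨N1, hN1, hR1, h1⟩ := Pool.Agent.Q92.AR.recip K L θ'
  obtain ⟨N2, hN2, hR2, -⟩ := Pool.Agent.Q92.AR.recip K M ψ
  refine ⟨N1 * N2, mul_ne_zero hN1 hN2, Ram_mono (dvd_mul_left N2 N1) hR2, ?_⟩
  intro N' hN' hdvd x a ha hD
  have hRM : Ram K M N' := Ram_mono ((dvd_mul_left N2 N1).trans hdvd) hR2
  have hRL : Ram K L N' := Ram_mono ((dvd_mul_right N1 N2).trans hdvd) hR1
  rw [← Pool.Agent.Q111.EX.art_quot ψ θ' hθ' N' hRM _ hD]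
  exact recA θ' A hun hreal hsplit hN' hRL
    (fun x hx => h1 x (Ray_mono ((dvd_mul_right N1 N2).trans hdvd) hx)) x a ha hD

end two

end Pool.Agent.H509.Rec
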