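import Pool.Agent.H509.Tch
import Pool.Graph.R_pool_sql_team_seeded_5cf16337.K3h92.RS.Fix

/-!
# The residue fields of the unramified prime ideals
-/

set_option autoImplicit false
set_option linter.unusedSectionVars false
set_option linter.style.haveILetI false

open NumberField IsDedekindDomain Filter Topology

noncomputable section

namespace Pool.Agent.H509

open Pool.Agent.K3h30.RS Pool.Agent.K3h62.RS Pool.Agent.K3h3.RS Pool.Agent.K3h81.RL
open Pool.Agent.K3h92.RS (inertia_bot frob_key frob_mem lies)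

variable {F H G : Type} [Field F] [NumberField F] [Field H] [NumberField H] [Algebra F H]
  [CommGroup G] [Finite G] [MulSemiringAction G H]

theorem frob_pow {v : HeightOneSpectrum (𝓞 F)} {σ : G} (hσ : IsFrob (H := H) v σ)
    {w : HeightOneSpectrum (𝓞 H)} (hw : Above {v} w) :
    ∀ (k : ℕ) (x : 𝓞 H), σ ^ k • x - x ^ (Ideal.absNorm v.asIdeal) ^ k ∈ w.asIdeal := by
  intro k
  induction k with
  | zero =>
    intro x
    simp
  | succ k ih =>
    intro x
    have h1 := ih (σ • x)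
    have h2 := frob_key hσ hw x
    have h3 : (σ • x) ^ (Ideal.absNorm v.asIdeal) ^ k -
        (x ^ Ideal.absNorm v.asIdeal) ^ (Ideal.absNorm v.asIdeal) ^ k ∈ w.asIdeal := by
      have h4 := sub_dvd_pow_sub_pow (σ • x) (x ^ Ideal.absNorm v.asIdeal)
        ((Ideal.absNorm v.asIdeal) ^ k)
      obtain ⟨c, hc⟩ := h4
      rw [hc]
      exact w.asIdeal.mul_mem_right _ h2
    have h5 := w.asIdeal.add_mem h1 h3
    rw [sub_add_sub_cancel, ← pow_mul, smul_smul, ← pow_succ] at h5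
    rwa [pow_succ' (Ideal.absNorm v.asIdeal)]

/-- the norm of a prime ideal over an unramified prime ideal -/
theorem absNorm_order [IsGaloisGroup G F H] {v : HeightOneSpectrum (𝓞 F)}
    (hsq : Squarefree (v.asIdeal.map (algebraMap (𝓞 F) (𝓞 H)))) {σ : G}
    (hσ : IsFrob (H := H) v σ) {w : HeightOneSpectrum (𝓞 H)} (hw : Above {v} w) :
    Ideal.absNorm w.asIdeal = Ideal.absNorm v.asIdeal ^ orderOf σ := by
  have hwp := w.isPrime
  have hvp := v.isPrime
  have hvm := v.isMaximal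
  have hwm := w.isMaximal
  have hwv := lies hw
  have hlo : w.asIdeal.LiesOver v.asIdeal := ⟨hwv.symm⟩
  letI : Field (𝓞 F ⧸ v.asIdeal) := Ideal.Quotient.field v.asIdeal
  letI : Field (𝓞 H ⧸ w.asIdeal) := Ideal.Quotient.field w.asIdeal
  haveI hf1 : Finite (𝓞 F ⧸ v.asIdeal) := Ideal.finiteQuotientOfFreeOfNeBot _ v.ne_bot
  haveI hf2 : Finite (𝓞 H ⧸ w.asIdeal) := Ideal.finiteQuotientOfFreeOfNeBot _ w.ne_bot
  letI := Fintype.ofFinite (𝓞 F ⧸ v.asIdeal)
  letI := Fintype.ofFinite (𝓞 H ⧸ w.asIdeal)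
  have hqv : Fintype.card (𝓞 F ⧸ v.asIdeal) = Ideal.absNorm v.asIdeal := by
    rw [← Nat.card_eq_fintype_card]
    rfl
  have hqw : Fintype.card (𝓞 H ⧸ w.asIdeal) = Ideal.absNorm w.asIdeal := by
    rw [← Nat.card_eq_fintype_card]
    rfl
  have hk : Fintype.card (𝓞 H ⧸ w.asIdeal) = Fintype.card (𝓞 F ⧸ v.asIdeal) ^
      Module.finrank (𝓞 F ⧸ v.asIdeal) (𝓞 H ⧸ w.asIdeal) := Module.card_eq_pow_finrank
  set k := Module.finrank (𝓞 F ⧸ v.asIdeal) (𝓞 H ⧸ w.asIdeal) with hkdef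
  have hkpos : 0 < k := Module.finrank_pos
  rw [hqv, hqw] at hk
  have hN := two_le_absNorm v
  -- the order divides `k`
  have h1 : σ ^ k = 1 := by
    have h2 : σ ^ k ∈ w.asIdeal.inertia G := by
      intro x
      have h3 := frob_pow hσ hw k x
      have h4 : x ^ (Ideal.absNorm v.asIdeal) ^ k - x ∈ w.asIdeal := by
        rw [← Ideal.Quotient.eq, map_pow, ← hk, ← hqw]
        exact FiniteField.pow_card _
      have h5 := w.asIdeal.add_mem h3 h4
      rw [sub_add_sub_cancel] at h5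
      exact h5
    rwa [inertia_bot v hsq w hw, Subgroup.mem_bot] at h2
  have h2 : orderOf σ ∣ k := orderOf_dvd_of_pow_eq_one h1
  -- and conversely
  have h3 : Ideal.absNorm w.asIdeal ≤ Ideal.absNorm v.asIdeal ^ orderOf σ := by
    have h4 : ∀ x : 𝓞 H ⧸ w.asIdeal, x ^ (Ideal.absNorm v.asIdeal ^ orderOf σ) = x := by
      intro x
      obtain ⟨x, rfl⟩ := Ideal.Quotient.mk_surjective x
      have h5 := frob_pow hσ hw (orderOf σ) x
      rw [pow_orderOf_eq_one, one_smul] at h5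
      rw [← map_pow, eq_comm, Ideal.Quotient.eq]
      exact h5
    have hpos : 0 < orderOf σ := orderOf_pos σ
    have h5 : 1 < Ideal.absNorm v.asIdeal ^ orderOf σ := Nat.one_lt_pow hpos.ne' (by omega)
    have h6 : (Polynomial.X ^ (Ideal.absNorm v.asIdeal ^ orderOf σ) - Polynomial.X :
        Polynomial (𝓞 H ⧸ w.asIdeal)) ≠ 0 := FiniteField.X_pow_card_sub_X_ne_zero _ h5
    have h7 : (Finset.univ : Finset (𝓞 H ⧸ w.asIdeal)).val ≤
        (Polynomial.X ^ (Ideal.absNorm v.asIdeal ^ orderOf σ) - Polynomial.X :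
          Polynomial (𝓞 H ⧸ w.asIdeal)).roots := by
      rw [Finset.val_le_iff_val_subset]
      intro x _
      rw [Polynomial.mem_roots h6]
      simp [Polynomial.IsRoot, h4 x]
    have h8 := Multiset.card_le_card h7
    have h9 := Polynomial.card_roots' (Polynomial.X ^ (Ideal.absNorm v.asIdeal ^ orderOf σ) -
      Polynomial.X : Polynomial (𝓞 H ⧸ w.asIdeal))
    rw [FiniteField.X_pow_card_sub_X_natDegree_eq _ h5] at h9
    rw [← hqw]
    exact h8.trans h9
  rw [hk] at h3 ⊢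
  have h4 : k ≤ orderOf σ := (Nat.pow_le_pow_iff_right (by omega)).1 h3
  rw [Nat.le_antisymm h4 (Nat.le_of_dvd hkpos h2)]

/-- a prime element with given value of the character -/
theorem exists_root_char (w : HeightOneSpectrum (𝓞 H)) (χ : Additive (unitsAt w) →+ QZ)
    (hχ : ∀ x : unitsAt w, χ (Additive.ofMul x) = 0 ↔ w.valuation H (((x : Hˣ) : H) - 1) < 1) :
    ∃ (a : 𝓞 H) (x : unitsAt w), ((x : Hˣ) : H) = (a : H) ∧
      χ (Additive.ofMul x) = (((1 : ℚ) / ((Ideal.absNorm w.asIdeal - 1 : ℕ) : ℚ) : ℚ) : QZ) := by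
  have hwm := w.isMaximal
  letI : Field (𝓞 H ⧸ w.asIdeal) := Ideal.Quotient.field w.asIdeal
  haveI hf2 : Finite (𝓞 H ⧸ w.asIdeal) := Ideal.finiteQuotientOfFreeOfNeBot _ w.ne_bot
  letI := Fintype.ofFinite (𝓞 H ⧸ w.asIdeal)
  have hqw : Fintype.card (𝓞 H ⧸ w.asIdeal) = Ideal.absNorm w.asIdeal := by
    rw [← Nat.card_eq_fintype_card]
    rfl
  set m := Ideal.absNorm w.asIdeal - 1 with hm
  have hm0 : 0 < m := absNorm_sub_pos w
  -- a generator
  obtain ⟨g, hg⟩ := IsCyclic.exists_generator (α := (𝓞 H ⧸ w.asIdeal)ˣ)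
  have hord : orderOf g = m := by
    rw [orderOf_eq_card_of_forall_mem_zpowers hg, Nat.card_units, Nat.card_eq_fintype_card, hqw]
  obtain ⟨b, hb⟩ := Ideal.Quotient.mk_surjective (g : 𝓞 H ⧸ w.asIdeal)
  have hbw : b ∉ w.asIdeal := by
    intro h
    rw [← Ideal.Quotient.eq_zero_iff_mem, hb] at h
    exact g.ne_zero h
  have hb0 : (b : H) ≠ 0 := by
    intro h
    have : b = 0 := by exact_mod_cast h
    rw [this] at hbw
    exact hbw w.asIdeal.zero_mem
  have hbv : w.valuation H (b : H) = 1 := by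
    apply le_antisymm (w.valuation_le_one b)
    rw [← not_lt, w.valuation_lt_one_iff_mem]
    exact hbw
  let z : unitsAt w := ⟨Units.mk0 (b : H) hb0, hbv⟩
  have hz : ∀ k : ℕ, k • χ (Additive.ofMul z) = 0 ↔ m ∣ k := by
    intro k
    rw [← map_nsmul, ← ofMul_pow, hχ]
    have e : (((z ^ k : unitsAt w) : Hˣ) : H) - 1 = ((b ^ k - 1 : 𝓞 H) : H) := by
      have : ((z ^ k : unitsAt w) : Hˣ) = (Units.mk0 (b : H) hb0) ^ k := rfl
      rw [this, Units.val_pow_eq_pow_val]
      push_cast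
      rfl
    rw [e, w.valuation_lt_one_iff_mem, ← Ideal.Quotient.eq_zero_iff_mem, map_sub, map_pow, hb,
      map_one, sub_eq_zero, ← hord, orderOf_dvd_iff_pow_eq_one, Units.ext_iff,
      Units.val_pow_eq_pow_val, Units.val_one]
  have hao : addOrderOf (χ (Additive.ofMul z)) = m := by
    apply Nat.dvd_antisymm
    · rw [addOrderOf_dvd_iff_nsmul_eq_zero]
      exact (hz m).2 dvd_rfl
    · exact (hz _).1 (addOrderOf_nsmul_eq_zero _)
  haveI : Fact ((0 : ℚ) < 1) := ⟨one_pos⟩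
  obtain ⟨j, hj, hjm, hj'⟩ := (AddCircle.addOrderOf_eq_pos_iff hm0).1 hao
  -- the inverse of `j` modulo `m`
  have hcop : Nat.Coprime j m := hjm
  obtain ⟨i, hi⟩ : ∃ i : ℕ, j * i ≡ 1 [MOD m] := by
    rcases Nat.lt_or_ge 1 m with h | h
    · obtain ⟨i, -, hi⟩ := Nat.exists_mul_mod_eq_one_of_coprime hcop h
      exact ⟨i, by rw [Nat.ModEq, hi, Nat.mod_eq_of_lt h]⟩
    · have h1 : m = 1 := by omega
      exact ⟨0, by rw [h1]; exact Nat.modEq_one⟩
  refine ⟨b ^ i, z ^ i, ?_, ?_⟩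
  · have : ((z ^ i : unitsAt w) : Hˣ) = (Units.mk0 (b : H) hb0) ^ i := rfl
    rw [this, Units.val_pow_eq_pow_val]
    push_cast
    rfl
  · rw [ofMul_pow, map_nsmul, ← hj', ← AddCircle.coe_nsmul, ← sub_eq_zero, ← AddCircle.coe_sub,
      QZ_zero]
    obtain ⟨k, hk⟩ := (Nat.modEq_iff_dvd.1 hi.symm)
    refine ⟨k, ?_⟩
    have hmq : (m : ℚ) ≠ 0 := by positivity
    have hk' : (j : ℚ) * i - 1 = m * k := by
      have := congrArg (fun z : ℤ => (z : ℚ)) hk
      push_cast at this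
      exact this
    rw [nsmul_eq_mul]
    field_simp
    linear_combination hk'

end Pool.Agent.H509
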