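import Pool.Agent.H509.RubPop1

/-!
# Rubin's conjecture for the sets `T = {t}` implies Popescu's conjecture
-/

set_option autoImplicit false
set_option linter.unusedSectionVars false
set_option linter.style.haveILetI false

open NumberField IsDedekindDomain Filter Topology

noncomputable section

namespace Pool.Agent.H509

open Pool.Agent.K3h30.RS Pool.Agent.K3h62.RS Pool.Agent.K3h3.RS Pool.Agent.K3h81.RL
open Pool.Agent.N598.ST (AbRoot AbOm W)

theorem det_updateRow_sum {R : Type*} [CommRing R] {r : ℕ} (M : Matrix (Fin r) (Fin r) R)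
    (j : Fin r) (v : Fin r → R) :
    Matrix.det (M.updateRow j v) = ∑ b, v b * Matrix.det (M.updateRow j (Pi.single b 1)) := by
  rw [Matrix.det_eq_sum_mul_adjugate_row _ j]
  refine Finset.sum_congr rfl fun b _ => ?_
  rw [Matrix.updateRow_self, Matrix.adjugate_apply, Matrix.updateRow_idem]

variable {F H G : Type} [Field F] [NumberField F] [Field H] [NumberField H] [Algebra F H]
  [CommGroup G] [Finite G] [MulSemiringAction G H]

/-- the element `σ_t - N t` of the group ring -/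
def dG (G : Type) [CommGroup G] (σ : G) (n : ℕ) : MonoidAlgebra ℤ G :=
  MonoidAlgebra.single σ 1 - (n : MonoidAlgebra ℤ G)

theorem powG_dG (x : Hˣ) (σ : G) (n : ℕ) : powG x (dG G σ n) = act σ x * (x ^ n)⁻¹ := by
  unfold dG
  rw [sub_eq_add_neg, powG_add, powG_neg, powG_nat]
  congr 1
  have h1 := powG_act (H := H) x σ 1
  have h2 := powG_nat (G := G) (H := H) x 1
  rw [Nat.cast_one, pow_one] at h2
  rw [mul_one, h2] at h1
  exact h1

variable [IsGaloisGroup G F H]

/-- the evaluations are given by an element of `ℚ ⊗ U_S` -/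
theorem exists_repr (D : RubinData F H G) (u₀ : Wedge G D.r (D.U ∅))
    (h : Fin D.r → Additive (US D) →+ MonoidAlgebra ℚ G)
    (hi : ∀ i (x : US D), h i (Additive.ofMul x) ∈ (toQ (G := G)).range) (j : Fin D.r) :
    ∃ N : ℕ, 0 < N ∧ ∃ x : US D, ∀ g : Additive (US D) →+ MonoidAlgebra ℚ G, IsEquiv D g →
      (N : MonoidAlgebra ℚ G) * wval D (U_le D ∅) (Function.update h j g) u₀ =
        g (Additive.ofMul x) := by
  classical
  obtain ⟨N, hN, hNc⟩ := exists_denom_all u₀.c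
  let X : Fin u₀.n → Fin D.r → US D := fun k b => ⟨(u₀.x k b : Hˣ), U_le D ∅ (u₀.x k b).2⟩
  let M : Fin u₀.n → Matrix (Fin D.r) (Fin D.r) (MonoidAlgebra ℚ G) := fun k =>
    Matrix.of fun a b => h a (Additive.ofMul (X k b))
  have hC : ∀ k b, Matrix.det ((M k).updateRow j (Pi.single b 1)) ∈ (toQ (G := G)).range := by
    intro k b
    choose z hz using fun a c => hi a (X k c)
    refine ⟨Matrix.det ((Matrix.of fun a c => z a c).updateRow j (Pi.single b 1)), ?_⟩
    rw [RingHom.map_det]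
    congr 1
    ext a c : 1
    rw [RingHom.mapMatrix_apply, Matrix.map_apply]
    by_cases ha : a = j
    · subst ha
      rw [Matrix.updateRow_self, Matrix.updateRow_self]
      by_cases hc : c = b
      · subst hc
        rw [Pi.single_eq_same, Pi.single_eq_same, map_one]
      · rw [Pi.single_eq_of_ne hc, Pi.single_eq_of_ne hc, map_zero]
    · rw [Matrix.updateRow_ne ha, Matrix.updateRow_ne ha]
      exact hz a c
  have hρ : ∀ k b, ∃ ρ : MonoidAlgebra ℤ G, toQ ρ = (N : MonoidAlgebra ℚ G) * u₀.c k *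
      Matrix.det ((M k).updateRow j (Pi.single b 1)) := by
    intro k b
    obtain ⟨ρ, hρ⟩ := mul_mem (hNc k) (hC k b)
    exact ⟨ρ, hρ⟩
  choose ρ hρ using hρ
  have hst : ∀ (γ : G), ∀ x ∈ US D, act γ x ∈ US D := fun γ x hx => act_mem_US D γ hx
  refine ⟨N, hN, ∏ k, ∏ b, ⟨powG (X k b : Hˣ) (ρ k b), powG_mem hst (X k b).2 _⟩, fun g hg => ?_⟩
  rw [ofMul_prod, map_sum]
  unfold wval
  rw [Finset.mul_sum]
  refine Finset.sum_congr rfl fun k _ => ?_
  rw [ofMul_prod, map_sum]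
  have e1 : (Matrix.of fun (a b : Fin D.r) => (Function.update h j g a)
      (Additive.ofMul ⟨(u₀.x k b : Hˣ), U_le D ∅ (u₀.x k b).2⟩)) =
      (M k).updateRow j (fun b => g (Additive.ofMul (X k b))) := by
    ext a b : 1
    by_cases ha : a = j
    · subst ha
      rw [Matrix.updateRow_self, Matrix.of_apply, Function.update_self]
    · rw [Matrix.updateRow_ne ha, Matrix.of_apply, Function.update_of_ne ha]
      rfl
  rw [e1, det_updateRow_sum, Finset.mul_sum, Finset.mul_sum]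
  refine Finset.sum_congr rfl fun b _ => ?_
  have e2 := map_powG (toQ (G := G)) hst g (by
    intro γ x y hxy
    rw [hg γ x y hxy, toQ_single', Int.cast_one]) (X k b) (ρ k b) (powG_mem hst (X k b).2 _)
  rw [e2, hρ]
  ring

theorem kills_single (D : RubinData F H G) {t : HeightOneSpectrum (𝓞 F)}
    (htw : ¬ ringChar (𝓞 F ⧸ t.asIdeal) ∣ Units.torsionOrder H) : Kills D 1 {t} := by
  intro x hx hfin
  obtain ⟨w, hw⟩ := (Pool.Agent.K3h25.RS.t_OVER F H t).1
  rw [pow_one]
  refine root_eq_one htw (pow_torsionOrder hfin) hw (hx.2 w ?_)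
  rw [Finset.coe_singleton]
  exact hw

/-- the element with the value `(σ_t - N t)` times the evaluation -/
theorem exists_beta (D : RubinData F H G) (u₀ : Wedge G D.r (D.U ∅))
    (h : Fin D.r → Additive (US D) →+ MonoidAlgebra ℚ G) (hh : ∀ i, IsEquiv D (h i))
    (hi : ∀ i (x : US D), h i (Additive.ofMul x) ∈ (toQ (G := G)).range) (j : Fin D.r)
    {t : HeightOneSpectrum (𝓞 F)} (ht : t ∉ D.S)
    (htw : ¬ ringChar (𝓞 F ⧸ t.asIdeal) ∣ Units.torsionOrder H)
    (hint : IntM ⊥ D (U_le D ∅) u₀ {t}) :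
    ∃ β : D.U {t}, ∀ g : Additive (US D) →+ MonoidAlgebra ℚ G, IsEquiv D g →
      g (Additive.ofMul ⟨(β : Hˣ), U_le D {t} β.2⟩) =
        toQ (dG G (D.σ t) (Ideal.absNorm t.asIdeal)) *
          wval D (U_le D ∅) (Function.update h j g) u₀ := by
  classical
  have hdis : Disjoint D.S {t} := Finset.disjoint_singleton_right.2 ht
  obtain ⟨N, hN, x, hx⟩ := exists_repr D u₀ h hi j
  obtain ⟨m, hm0, hm⟩ := exists_pow_US D {t} hdis
  have hst : ∀ (γ : G), ∀ x ∈ US D, act γ x ∈ US D := fun γ x hx => act_mem_US D γ hx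
  have hstT : ∀ (γ : G), ∀ x ∈ D.U {t}, act γ x ∈ D.U {t} := mem_U_act D {t}
  let z : D.U {t} := ⟨powG ((x : Hˣ) ^ m) (dG G (D.σ t) (Ideal.absNorm t.asIdeal)),
    powG_mem hstT (hm x) _⟩
  have hgz : ∀ g : Additive (US D) →+ MonoidAlgebra ℚ G, IsEquiv D g →
      g (Additive.ofMul ⟨(z : Hˣ), U_le D {t} z.2⟩) = ((N * m : ℕ) : MonoidAlgebra ℚ G) *
        (toQ (dG G (D.σ t) (Ideal.absNorm t.asIdeal)) *
          wval D (U_le D ∅) (Function.update h j g) u₀) := by
    intro g hg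
    have e2 := map_powG (toQ (G := G)) hst g (by
      intro γ x y hxy
      rw [hg γ x y hxy, toQ_single', Int.cast_one]) (x ^ m)
        (dG G (D.σ t) (Ideal.absNorm t.asIdeal)) (powG_mem hst (x ^ m).2 _)
    have e3 : g (Additive.ofMul ⟨(z : Hˣ), U_le D {t} z.2⟩) =
        toQ (dG G (D.σ t) (Ideal.absNorm t.asIdeal)) * g (Additive.ofMul (x ^ m)) := e2
    rw [e3, ofMul_pow, map_nsmul, ← hx g hg, nsmul_eq_mul]
    push_cast
    ring
  have hδ : toQ (dG G (D.σ t) (Ideal.absNorm t.asIdeal)) =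
      MonoidAlgebra.single (D.σ t) 1 * D.delta {t} := by
    unfold dG RubinData.delta
    rw [Finset.prod_singleton, map_sub, map_natCast, toQ_single', Int.cast_one, mul_sub, mul_one,
      MonoidAlgebra.single_mul_single, mul_inv_cancel, one_mul]
    congr 1
  obtain ⟨α, hα⟩ := exists_root_U D {t} hdis (kills_single D htw) (Nat.mul_pos hN hm0) z (by
    intro g hg hgt
    obtain ⟨n, hn, b, hb⟩ := hint (Function.update h j g) (by
      intro i
      by_cases hij : i = j
      · subst hij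
        rw [Function.update_self]
        exact hg
      · rw [Function.update_of_ne hij]
        exact hh i) (by
      intro i
      by_cases hij : i = j
      · subst hij
        rw [Function.update_self]
        exact hgt
      · rw [Function.update_of_ne hij]
        exact fun x _ => hi i x)
    rw [Submonoid.mem_bot.1 hn, Nat.cast_one, one_mul] at hb
    refine ⟨MonoidAlgebra.single (D.σ t) 1 * b, ?_⟩
    rw [hgz g hg, map_mul, hb, hδ, toQ_single', Int.cast_one, mul_assoc])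
  refine ⟨α, fun g hg => ?_⟩
  refine natCast_cancel (Nat.mul_pos hN hm0) ?_
  rw [← hgz g hg, ← hα, ← nsmul_eq_mul, ← map_nsmul, ← ofMul_pow]
  rfl

/-- `x ^ (σ_t - N t)` is one modulo the prime ideals over `t` -/
theorem val_dG (D : RubinData F H G) {t : HeightOneSpectrum (𝓞 F)} (ht : t ∉ D.S) {x : Hˣ}
    (hx : x ∈ US D) {w : HeightOneSpectrum (𝓞 H)} (hw : Above {t} w) :
    w.valuation H (((powG x (dG G (D.σ t) (Ideal.absNorm t.asIdeal)) : Hˣ) : H) - 1) < 1 := by
  have hv : w.valuation H (x : H) = 1 := hx.1 w (by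
    rw [above_iff hw]
    exact fun h => ht (Finset.mem_coe.1 h))
  have h1 := Pool.Agent.K3h44.RS.t_FROBU F H G t (D.σ t) (D.frob t ht) w hw x hv
  rw [powG_dG, Units.val_mul, Units.val_inv_eq_inv_val, Units.val_pow_eq_pow_val, act_val]
  have h3 : D.σ t • (x : H) * ((x : H) ^ (Ideal.absNorm t.asIdeal))⁻¹ - 1 =
      (D.σ t • (x : H) - (x : H) ^ (Ideal.absNorm t.asIdeal)) *
        ((x : H) ^ (Ideal.absNorm t.asIdeal))⁻¹ := by
    have : (x : H) ^ (Ideal.absNorm t.asIdeal) ≠ 0 := pow_ne_zero _ x.ne_zero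
    field_simp
  rw [h3, map_mul, map_inv₀, map_pow, hv, one_pow, inv_one, mul_one]
  exact h1

theorem val_mul_inv_sub_one {w : HeightOneSpectrum (𝓞 H)} {a b : Hˣ}
    (ha : w.valuation H ((a : H) - 1) < 1) (hb : w.valuation H ((b : H) - 1) < 1) :
    w.valuation H (((a * b⁻¹ : Hˣ) : H) - 1) < 1 := by
  have hb1 : w.valuation H (b : H) = 1 := by
    have h := Valuation.map_one_add_of_lt (w.valuation H) hb
    rwa [add_sub_cancel] at h
  have h1 : ((a * b⁻¹ : Hˣ) : H) - 1 = (((a : H) - 1) - ((b : H) - 1)) * (b : H)⁻¹ := by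
    rw [Units.val_mul, Units.val_inv_eq_inv_val]
    have := b.ne_zero
    field_simp
    ring
  rw [h1, map_mul, map_inv₀, hb1, inv_one, mul_one]
  exact lt_of_le_of_lt (Valuation.map_sub _ _ _) (max_lt ha hb)

open Classical in
/-- **Rubin's conjecture for the sets `T = {t}` implies Popescu's conjecture.** -/
theorem pop_of_rubin (D : RubinData F H G) (bad : Finset (HeightOneSpectrum (𝓞 F)))
    (hrub : ∀ t, t ∉ D.S → t ∉ bad → ¬ ringChar (𝓞 F ⧸ t.asIdeal) ∣ Units.torsionOrder H →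
      RubinM ⊥ D {t}) : PopM ⊥ D := by
  obtain ⟨t₀, h1, h2, -, h3⟩ := exists_frob D 1 bad
  obtain ⟨u₀, e₀, s₀⟩ := exists_stark_empty D (hrub t₀ h1 h2 h3)
  refine ⟨u₀, e₀, s₀, fun j φ => ?_⟩
  -- homomorphisms on the group of the `S`-units
  have hmem : ∀ x : US D, (x : Hˣ) ∈ D.U ∅ := fun x => mem_U_empty D x.2
  let ι : Additive (US D) →+ Additive (D.U ∅) := MonoidHom.toAdditive
    { toFun := fun x => ⟨(x : Hˣ), hmem x⟩
      map_one' := rfl
      map_mul' := fun _ _ => rfl }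
  let tr : GHom G (D.U ∅) → Additive (US D) →+ MonoidAlgebra ℚ G := fun f =>
    (toQ (G := G)).toAddMonoidHom.comp (f.f.comp ι)
  have htr : ∀ (f : GHom G (D.U ∅)) (x : US D), tr f (Additive.ofMul x) =
      toQ (f.f (Additive.ofMul ⟨(x : Hˣ), hmem x⟩)) := fun f x => rfl
  have htr1 : ∀ f, IsEquiv D (tr f) := by
    intro f γ x y hxy
    rw [htr, htr, f.equiv γ ⟨(x : Hˣ), hmem x⟩ ⟨(y : Hˣ), hmem y⟩ hxy, map_mul, toQ_single',
      Int.cast_one]
  have htr2 : ∀ f (x : US D), tr f (Additive.ofMul x) ∈ (toQ (G := G)).range :=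
    fun f x => ⟨_, (htr f x).symm⟩
  let h : Fin D.r → Additive (US D) →+ MonoidAlgebra ℚ G := fun i => tr (φ i)
  have hval : ∀ f : GHom G (D.U ∅), u₀.value (Function.update φ j f) =
      wval D (U_le D ∅) (Function.update h j (tr f)) u₀ := by
    intro f
    unfold Wedge.value wval
    refine Finset.sum_congr rfl fun k _ => ?_
    rw [RingHom.map_det]
    congr 2
    ext a b : 1
    simp only [RingHom.mapMatrix_apply, Matrix.map_apply, Matrix.of_apply]
    by_cases ha : a = j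
    · subst ha
      rw [Function.update_self, Function.update_self]
      rfl
    · rw [Function.update_of_ne ha, Function.update_of_ne ha]
      rfl
  -- the elements `β t`
  have hβ : ∀ t : HeightOneSpectrum (𝓞 F), ∃ β : Hˣ,
      (t ∉ D.S ∧ t ∉ bad ∧ ¬ ringChar (𝓞 F ⧸ t.asIdeal) ∣ Units.torsionOrder H) →
      ∃ hβ : β ∈ D.U {t}, ∀ g : Additive (US D) →+ MonoidAlgebra ℚ G, IsEquiv D g →
        g (Additive.ofMul ⟨β, U_le D {t} hβ⟩) =
          toQ (dG G (D.σ t) (Ideal.absNorm t.asIdeal)) *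
            wval D (U_le D ∅) (Function.update h j g) u₀ := by
    intro t
    by_cases ht : t ∉ D.S ∧ t ∉ bad ∧ ¬ ringChar (𝓞 F ⧸ t.asIdeal) ∣ Units.torsionOrder H
    · obtain ⟨β, hβ⟩ := exists_beta D u₀ h (fun i => htr1 _) (fun i x => htr2 _ x) j ht.1 ht.2.2
        (intM_of_rubinM D (U_le D ∅) u₀ e₀ s₀ {t} (hrub t ht.1 ht.2.1 ht.2.2))
      exact ⟨(β : Hˣ), fun _ => ⟨β.2, hβ⟩⟩
    · exact ⟨1, fun h => absurd h ht⟩
  choose β hβ using hβ
  have hst : ∀ (γ : G), ∀ x ∈ US D, act γ x ∈ US D := fun γ x hx => act_mem_US D γ hx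
  -- the relation between `β t` and `β t'`
  have hcomm : ∀ t t' : HeightOneSpectrum (𝓞 F),
      (t ∉ D.S ∧ t ∉ bad ∧ ¬ ringChar (𝓞 F ⧸ t.asIdeal) ∣ Units.torsionOrder H) →
      (t' ∉ D.S ∧ t' ∉ bad ∧ ¬ ringChar (𝓞 F ⧸ t'.asIdeal) ∣ Units.torsionOrder H) →
      powG (β t) (dG G (D.σ t') (Ideal.absNorm t'.asIdeal)) =
        powG (β t') (dG G (D.σ t) (Ideal.absNorm t.asIdeal)) := by
    intro t t' ht ht'
    obtain ⟨hb, hbv⟩ := hβ t ht
    obtain ⟨hb', hbv'⟩ := hβ t' ht'
    have hy1 : powG (β t) (dG G (D.σ t') (Ideal.absNorm t'.asIdeal)) ∈ US D :=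
      powG_mem hst (U_le D {t} hb) _
    have hy2 : powG (β t') (dG G (D.σ t) (Ideal.absNorm t.asIdeal)) ∈ US D :=
      powG_mem hst (U_le D {t'} hb') _
    have hy : powG (β t) (dG G (D.σ t') (Ideal.absNorm t'.asIdeal)) *
        (powG (β t') (dG G (D.σ t) (Ideal.absNorm t.asIdeal)))⁻¹ ∈ US D :=
      mul_mem hy1 (inv_mem hy2)
    have hfin := tors_of_values D ⟨_, hy⟩ (by
      intro g hg
      have hg' : ∀ (γ : G) (x y : US D), (y : Hˣ) = act γ (x : Hˣ) →
          g (Additive.ofMul y) = toQ (MonoidAlgebra.single γ 1) * g (Additive.ofMul x) := by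
        intro γ x y hxy
        rw [hg γ x y hxy, toQ_single', Int.cast_one]
      have e1 := map_powG (toQ (G := G)) hst g hg' ⟨β t, U_le D {t} hb⟩
        (dG G (D.σ t') (Ideal.absNorm t'.asIdeal)) hy1
      have e2 := map_powG (toQ (G := G)) hst g hg' ⟨β t', U_le D {t'} hb'⟩
        (dG G (D.σ t) (Ideal.absNorm t.asIdeal)) hy2
      have e3 : Additive.ofMul (⟨_, hy⟩ : US D) = Additive.ofMul (⟨_, hy1⟩ : US D) -
          Additive.ofMul (⟨_, hy2⟩ : US D) := by
        rw [sub_eq_add_neg]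
        rfl
      rw [e3, map_sub, e1, e2, hbv g hg, hbv' g hg]
      ring)
    obtain ⟨w, hw⟩ := (Pool.Agent.K3h25.RS.t_OVER F H t).1
    have hone := root_eq_one ht.2.2 (pow_torsionOrder hfin) hw (val_mul_inv_sub_one
      (by
        have h4 : powG (β t) (dG G (D.σ t') (Ideal.absNorm t'.asIdeal)) ∈ D.U {t} :=
          powG_mem (mem_U_act D {t}) hb _
        refine h4.2 w ?_
        rw [Finset.coe_singleton]
        exact hw)
      (val_dG D ht.1 (U_le D {t'} hb') hw))
    exact mul_inv_eq_one.1 hone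
  -- the group of the good integers
  let I : AddSubgroup ℤ :=
    { carrier := {c | ∃ ε : US D,
        (∀ g : Additive (US D) →+ MonoidAlgebra ℚ G, IsEquiv D g → g (Additive.ofMul ε) =
          (c : MonoidAlgebra ℚ G) * wval D (U_le D ∅) (Function.update h j g) u₀) ∧
        ∀ t, (t ∉ D.S ∧ t ∉ bad ∧ ¬ ringChar (𝓞 F ⧸ t.asIdeal) ∣ Units.torsionOrder H) →
          powG (ε : Hˣ) (dG G (D.σ t) (Ideal.absNorm t.asIdeal)) = (β t) ^ c}
      zero_mem' := ⟨1, fun g _ => by rw [ofMul_one, map_zero, Int.cast_zero, zero_mul],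
        fun t _ => by
          change powG (1 : Hˣ) _ = _
          rw [powG_one_left, zpow_zero]⟩
      add_mem' := by
        rintro a b ⟨ε, h1, h2⟩ ⟨ε', h1', h2'⟩
        refine ⟨ε * ε', fun g hg => ?_, fun t ht => ?_⟩
        · rw [ofMul_mul, map_add, h1 g hg, h1' g hg]
          push_cast
          ring
        · change powG ((ε : Hˣ) * (ε' : Hˣ)) _ = _
          rw [powG_mul_left, h2 t ht, h2' t ht, zpow_add]
      neg_mem' := by
        rintro a ⟨ε, h1, h2⟩
        refine ⟨ε⁻¹, fun g hg => ?_, fun t ht => ?_⟩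
        · rw [ofMul_inv, map_neg, h1 g hg]
          push_cast
          ring
        · rw [zpow_neg, ← h2 t ht]
          symm
          apply inv_eq_of_mul_eq_one_left
          rw [← powG_mul_left]
          change powG ((ε⁻¹ : Hˣ) * (ε : Hˣ)) _ = 1
          rw [inv_mul_cancel, powG_one_left] }
  have hw : ((Units.torsionOrder H : ℕ) : ℤ) ∈ I := by
    refine torsionOrder_mem D bad I fun t ht1 ht2 ht3 ht4 => ?_
    obtain ⟨hb, hbv⟩ := hβ t ⟨ht1, ht2, ht4⟩
    have hN : 1 ≤ Ideal.absNorm t.asIdeal := by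
      rw [Nat.one_le_iff_ne_zero, Ne, Ideal.absNorm_eq_zero_iff]
      exact t.ne_bot
    have h5 : -((Ideal.absNorm t.asIdeal - 1 : ℕ) : ℤ) ∈ I := by
      refine ⟨⟨β t, U_le D {t} hb⟩, fun g hg => ?_, fun t' ht' => ?_⟩
      · rw [hbv g hg, ht3]
        unfold dG
        rw [map_sub, map_natCast, toQ_single', Int.cast_one]
        push_cast [Nat.cast_sub hN]
        rw [MonoidAlgebra.one_def]
        ring
      · have h6 := hcomm t t' ⟨ht1, ht2, ht4⟩ ht'
        change powG (β t) _ = _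
        rw [h6, ht3, powG_dG, act_one]
        rw [Nat.cast_sub hN, neg_sub, Nat.cast_one, zpow_sub, zpow_one, zpow_natCast]
    have h6 := neg_mem h5
    rw [neg_neg] at h6
    exact h6
  obtain ⟨ε, hε1, hε2⟩ := hw
  refine ⟨1, Submonoid.mem_bot.2 rfl, ⟨(ε : Hˣ), hmem ε⟩, ?_, fun f => ?_⟩
  · choose τ hτ1 hτ2 hτ3 hτ4 using fun γ : G => exists_frob D γ bad
    refine abOm_of_quots (ε : Hˣ) (n := fun γ => Ideal.absNorm (τ γ).asIdeal) (fun γ => ?_)
      (fun γ => β (τ γ)) (fun γ => ?_) (fun γ δ => ?_)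
    · have h7 := isCyc_frob (hτ4 γ) (D.frob (τ γ) (hτ1 γ))
      rw [hτ3] at h7
      exact h7
    · have h7 := hε2 (τ γ) ⟨hτ1 γ, hτ2 γ, hτ4 γ⟩
      rw [powG_dG, hτ3, zpow_natCast] at h7
      rw [← h7, mul_comm (act γ (ε : Hˣ)), mul_inv_cancel_left]
    · have h7 := hcomm (τ γ) (τ δ) ⟨hτ1 γ, hτ2 γ, hτ4 γ⟩ ⟨hτ1 δ, hτ2 δ, hτ4 δ⟩
      rw [powG_dG, powG_dG, hτ3, hτ3, mul_inv_eq_iff_eq_mul, mul_right_comm,
        eq_mul_inv_iff_mul_eq] at h7
      exact h7
  · rw [Nat.cast_one, one_mul, hval, ← htr f ε, hε1 (tr f) (htr1 f), Int.cast_natCast]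

end Pool.Agent.H509
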