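import Pool.Agent.H509.Cyc

/-!
# Families of elements `ε ^ (σ_t - N t) = β_t ^ w` and abelian roots; divisibility in `U_{S,T}`
-/

set_option autoImplicit false
set_option linter.unusedSectionVars false
set_option linter.style.haveILetI false

open NumberField IsDedekindDomain Filter Topology

noncomputable section

namespace Pool.Agent.H509

open Pool.Agent.K3h30.RS Pool.Agent.K3h62.RS Pool.Agent.K3h3.RS Pool.Agent.K3h81.RL
open Pool.Agent.N598.ST (AbRoot AbOm W)

variable {F H G : Type} [Field F] [NumberField F] [Field H] [NumberField H] [Algebra F H]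
  [CommGroup G] [Finite G] [MulSemiringAction G H]

theorem powG_mul (x : Hˣ) (a b : MonoidAlgebra ℤ G) : powG (powG x a) b = powG x (a * b) := by
  letI := Fintype.ofFinite G
  have h1 : powHom x (a * b) = ∑ γ : G, (b.coeff γ) • powHom x (MonoidAlgebra.single γ 1 * a) := by
    conv_lhs => rw [eq_sum_single b]
    rw [Finset.mul_sum, map_sum]
    refine Finset.sum_congr rfl fun γ _ => ?_
    rw [← map_zsmul]
    congr 1
    have h2 : MonoidAlgebra.single γ (b.coeff γ) = (b.coeff γ) • MonoidAlgebra.single γ (1 : ℤ) := by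
      rw [MonoidAlgebra.smul_single, smul_eq_mul, mul_one]
    rw [h2, mul_smul_comm, mul_comm]
  have h3 : powG x (a * b) = ∏ γ : G, powG x (MonoidAlgebra.single γ 1 * a) ^ (b.coeff γ) := by
    have h4 := congrArg Additive.toMul h1
    rw [toMul_sum] at h4
    exact h4
  rw [h3]
  unfold powG
  refine Finset.prod_congr rfl fun γ _ => ?_
  congr 1
  exact (powG_act x γ a).symm

theorem powG_mul_left (x y : Hˣ) (a : MonoidAlgebra ℤ G) :
    powG (x * y) a = powG x a * powG y a := by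
  letI := Fintype.ofFinite G
  unfold powG
  rw [← Finset.prod_mul_distrib]
  refine Finset.prod_congr rfl fun γ _ => ?_
  have h1 : act γ (x * y) = act γ x * act γ y := act_map_mul γ x y
  rw [h1, mul_zpow]

theorem powG_one_left (a : MonoidAlgebra ℤ G) : powG (1 : Hˣ) a = 1 := by
  letI := Fintype.ofFinite G
  unfold powG
  refine Finset.prod_eq_one fun γ _ => ?_
  rw [act_map_one, one_zpow]

variable [IsGaloisGroup G F H]

/-- the converse of `exists_quots` -/
theorem abOm_of_quots (ε : Hˣ) {n : G → ℕ} (hn : ∀ γ, IsCyc H γ (n γ)) (u : G → Hˣ)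
    (h1 : ∀ γ, act γ ε = ε ^ (n γ) * (u γ) ^ (Units.torsionOrder H))
    (h2 : ∀ γ δ, act δ (u γ) * (u δ) ^ (n γ) = act γ (u δ) * (u γ) ^ (n δ)) :
    AbOm F (Units.torsionOrder H) (ε : H) := by
  have hw := Units.torsionOrder_ne_zero H
  rw [abOm_iff G]
  obtain ⟨z, hz⟩ := IsAlgClosed.exists_pow_nat_eq (algebraMap H (AlgebraicClosure H)
    (ε : H)) (Units.torsionOrder_pos H)
  refine ⟨z, hz, ?_⟩
  have hε : algebraMap H (AlgebraicClosure H) (ε : H) ≠ 0 :=
    (map_ne_zero _).2 (Units.ne_zero _)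
  have hz0 : z ≠ 0 := by
    rintro rfl
    rw [zero_pow hw] at hz
    exact hε hz.symm
  have key : ∀ σ : AlgebraicClosure H ≃ₐ[F] AlgebraicClosure H, ∀ γ : G,
      (∀ h : H, σ (algebraMap H _ h) = algebraMap H (AlgebraicClosure H) (γ • h)) →
      ∃ ξ : Hˣ, ξ ^ (Units.torsionOrder H) = 1 ∧
        σ z = algebraMap H (AlgebraicClosure H) ((ξ * u γ : Hˣ) : H) * z ^ (n γ) := by
    intro σ γ hσ
    have h4 : algebraMap H (AlgebraicClosure H) ((u γ : Hˣ) : H) ≠ 0 :=
      (map_ne_zero _).2 (Units.ne_zero _)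
    have h5 : (σ z / (algebraMap H (AlgebraicClosure H) ((u γ : Hˣ) : H) *
        z ^ (n γ))) ^ (Units.torsionOrder H) = 1 := by
      have h3 : (σ z) ^ (Units.torsionOrder H) =
          (algebraMap H (AlgebraicClosure H) ((u γ : Hˣ) : H) *
            z ^ (n γ)) ^ (Units.torsionOrder H) := by
        rw [← map_pow, hz, hσ, ← act_val, h1, mul_pow, pow_right_comm z, hz, Units.val_mul,
          map_mul, Units.val_pow_eq_pow_val, Units.val_pow_eq_pow_val, map_pow, map_pow, mul_comm]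
      rw [div_pow, h3, div_self]
      exact pow_ne_zero _ (mul_ne_zero h4 (pow_ne_zero _ hz0))
    obtain ⟨ξ, hξ, hξz⟩ := root_in_H h5
    refine ⟨ξ, hξ, ?_⟩
    rw [Units.val_mul, map_mul, hξz, mul_assoc, div_mul_cancel₀]
    exact mul_ne_zero h4 (pow_ne_zero _ hz0)
  have half : ∀ σ τ : AlgebraicClosure H ≃ₐ[F] AlgebraicClosure H, ∀ γ δ : G,
      (∀ h : H, σ (algebraMap H _ h) = algebraMap H (AlgebraicClosure H) (γ • h)) →
      ∀ ξ ξ' : Hˣ, ξ ^ (Units.torsionOrder H) = 1 → ξ' ^ (Units.torsionOrder H) = 1 →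
      σ z = algebraMap H (AlgebraicClosure H) ((ξ * u γ : Hˣ) : H) * z ^ (n γ) →
      τ z = algebraMap H (AlgebraicClosure H) ((ξ' * u δ : Hˣ) : H) * z ^ (n δ) →
      σ (τ z) = algebraMap H (AlgebraicClosure H) ((ξ ^ (n δ) * ξ' ^ (n γ) *
        (act γ (u δ) * (u γ) ^ (n δ)) : Hˣ) : H) * z ^ (n γ * n δ) := by
    intro σ τ γ δ hσ ξ ξ' hξ hξ' h3 h4
    rw [h4, map_mul, hσ, map_pow, h3, ← act_val, act_map_mul, hn γ ξ' hξ', mul_pow,
      ← map_pow, ← Units.val_pow_eq_pow_val, ← mul_assoc, ← map_mul, ← Units.val_mul, ← pow_mul,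
      mul_pow]
    congr 3
    have aux : ∀ a b c d : Hˣ, a * b * (c * d) = c * a * (b * d) := by
      intro a b c d
      ext
      push_cast
      ring
    exact aux _ _ _ _
  intro σ τ
  obtain ⟨γ, hγ⟩ := exists_restr G σ
  obtain ⟨δ, hδ⟩ := exists_restr G τ
  obtain ⟨ξ, hξ, h3⟩ := key σ γ hγ
  obtain ⟨ξ', hξ', h4⟩ := key τ δ hδ
  rw [half σ τ γ δ hγ ξ ξ' hξ hξ' h3 h4, half τ σ δ γ hδ ξ' ξ hξ' hξ h4 h3, mul_comm (n δ) (n γ),
    h2 γ δ, mul_comm (ξ' ^ n γ)]

/-- an `S`-unit on which all homomorphisms to `ℚ[G]` vanish is a root of unity -/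
theorem tors_of_values (D : RubinData F H G) (y : US D)
    (h : ∀ g : Additive (US D) →+ MonoidAlgebra ℚ G, IsEquiv D g → g (Additive.ofMul y) = 0) :
    IsOfFinOrder (y : Hˣ) := by
  letI := actS D
  haveI : AddGroup.FG (Additive (US D)) := fgA Pool.Agent.K3h25.RS.t_OVER D.S
  by_contra hcon
  have hne : (Units.torsionOrder H) • (Additive.ofMul y) ≠ 0 := by
    intro h0
    apply hcon
    rw [isOfFinOrder_iff_pow_eq_one]
    refine ⟨_, Units.torsionOrder_pos H, ?_⟩
    exact congrArg (fun b : Additive (US D) => ((Additive.toMul b : US D) : Hˣ)) h0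
  obtain ⟨c, hc⟩ := CharacterModule.exists_character_apply_ne_zero_of_ne_zero hne
  let χ : Additive (US D) →+ QZ := c
  have hw' : ∀ a : Additive (US D), IsOfFinAddOrder a → (Units.torsionOrder H) • a = 0 := by
    intro a ha
    rw [isOfFinAddOrder_iff_nsmul_eq_zero] at ha
    obtain ⟨k, hk0, hk⟩ := ha
    have h1 : ((Additive.toMul a : US D) : Hˣ) ^ k = 1 :=
      congrArg (fun b : Additive (US D) => ((Additive.toMul b : US D) : Hˣ)) hk
    have h2 := pow_torsionOrder (isOfFinOrder_iff_pow_eq_one.2 ⟨k, hk0, h1⟩)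
    apply Additive.toMul.injective
    exact Subtype.ext h2
  obtain ⟨Λ, hΛ1, hΛ2⟩ := Pool.Agent.K3h73.RS.t_LAM G (Additive (US D)) _ hw' χ
  have hΛ : IsEquiv D Λ := by
    intro γ x z hxz
    have h1 : Additive.ofMul z = γ • Additive.ofMul x := by
      apply Additive.toMul.injective
      exact Subtype.ext hxz
    rw [h1, hΛ1]
  have h1 := hΛ2 1 (Additive.ofMul y)
  rw [h Λ hΛ, inv_one, one_smul] at h1
  apply hc
  change χ ((Units.torsionOrder H) • (Additive.ofMul y)) = 0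
  rw [map_nsmul, ← h1]
  rfl

/-- divisibility in the torsion free module `U_{S,T}` can be tested with homomorphisms -/
theorem exists_root_U (D : RubinData F H G) (T : Finset (HeightOneSpectrum (𝓞 F)))
    (hT : Disjoint D.S T) (hk : Kills D 1 T) {N : ℕ} (hN : 0 < N) (z : D.U T)
    (h : ∀ g : Additive (US D) →+ MonoidAlgebra ℚ G, IsEquiv D g → IntOn D T g →
      ∃ b : MonoidAlgebra ℤ G, g (Additive.ofMul ⟨(z : Hˣ), U_le D T z.2⟩) =
        (N : MonoidAlgebra ℚ G) * toQ b) :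
    ∃ α : D.U T, α ^ N = z := by
  letI := actU D T
  haveI := fgAdd D T
  by_contra hcon
  push Not at hcon
  let P : AddSubgroup (Additive (D.U T)) := (nsmulAddMonoidHom (α := Additive (D.U T)) N).range
  have hzP : Additive.ofMul z ∉ P := by
    rintro ⟨a, ha⟩
    exact hcon (Additive.toMul a) (congrArg Additive.toMul ha)
  have hne : (QuotientAddGroup.mk' P) (Additive.ofMul z) ≠ 0 := by
    intro h0
    exact hzP ((QuotientAddGroup.eq_zero_iff _).1 h0)
  obtain ⟨c, hc⟩ := CharacterModule.exists_character_apply_ne_zero_of_ne_zero hne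
  let c' : (Additive (D.U T) ⧸ P) →+ QZ := c
  let χ : Additive (D.U T) →+ QZ := c'.comp (QuotientAddGroup.mk' P)
  have hχN : ∀ a, N • χ a = 0 := by
    intro a
    rw [← map_nsmul]
    change c' (QuotientAddGroup.mk' P (N • a)) = 0
    have h1 : QuotientAddGroup.mk' P (N • a) = 0 :=
      (QuotientAddGroup.eq_zero_iff _).2 ⟨a, rfl⟩
    rw [h1, map_zero]
  have hw' : ∀ a : Additive (D.U T), IsOfFinAddOrder a → 1 • a = 0 := by
    intro a ha
    rw [isOfFinAddOrder_iff_nsmul_eq_zero] at ha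
    obtain ⟨k, hk0, hk1⟩ := ha
    have h1 : ((Additive.toMul a : D.U T) : Hˣ) ^ k = 1 :=
      congrArg (fun b : Additive (D.U T) => ((Additive.toMul b : D.U T) : Hˣ)) hk1
    have h2 := hk _ (Additive.toMul a : D.U T).2 (isOfFinOrder_iff_pow_eq_one.2 ⟨k, hk0, h1⟩)
    apply Additive.toMul.injective
    exact Subtype.ext h2
  obtain ⟨Λ, hΛ1, hΛ2⟩ := Pool.Agent.K3h73.RS.t_LAM G (Additive (D.U T)) 1 hw' χ
  obtain ⟨f, hf1, hf2⟩ := exists_ratExt D T hT (N • Λ) (by
    intro γ x y hxy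
    have h1 : Additive.ofMul y = γ • Additive.ofMul x := by
      apply Additive.toMul.injective
      exact Subtype.ext hxy
    rw [h1, AddMonoidHom.nsmul_apply, AddMonoidHom.nsmul_apply, hΛ1, nsmul_eq_mul, nsmul_eq_mul,
      mul_left_comm])
  have hint : IntOn D T f := by
    intro x hx
    rw [hf2 x hx, mem_range_toQ]
    intro γ
    rw [← QZ_zero, AddMonoidHom.nsmul_apply, MonoidAlgebra.coeff_smul, Finsupp.smul_apply]
    have h1 := hΛ2 γ (Additive.ofMul ⟨(x : Hˣ), hx⟩)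
    have h2 : ((N • (Λ (Additive.ofMul ⟨(x : Hˣ), hx⟩)).coeff γ : ℚ) : QZ) =
        N • (((Λ (Additive.ofMul ⟨(x : Hˣ), hx⟩)).coeff γ : ℚ) : QZ) := rfl
    rw [h2, h1, one_smul, hχN]
  obtain ⟨b, hb⟩ := h f hf1 hint
  rw [hf2 _ z.2, AddMonoidHom.nsmul_apply, nsmul_eq_mul] at hb
  have h3 := natCast_cancel hN hb
  have h4 := hΛ2 1 (Additive.ofMul z)
  rw [inv_one, one_smul, one_smul] at h4
  apply hc
  change χ (Additive.ofMul z) = 0
  rw [← h4]
  have h5 : Λ (Additive.ofMul z) = toQ b := h3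
  rw [h5, QZ_zero]
  exact (mem_range_toQ _).1 ⟨b, rfl⟩ 1

end Pool.Agent.H509
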