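import Pool.Agent.H509.Ord
import Pool.Graph.R_pool_sql_team_seeded_5cf16337.K3h43.RS.Split

/-!
# Adding a prime ideal which splits completely to `S`
-/

set_option autoImplicit false
set_option linter.unusedSectionVars false
set_option linter.style.haveILetI false

open NumberField IsDedekindDomain Filter Topology

noncomputable section

namespace Pool.Agent.H509

open Pool.Agent.K3h30.RS Pool.Agent.K3h62.RS Pool.Agent.K3h3.RS Pool.Agent.K3h81.RL

variable {F H G : Type} [Field F] [NumberField F] [Field H] [NumberField H] [Algebra F H]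
  [CommGroup G] [Finite G] [MulSemiringAction G H]

/-- the norms of `Q` and `q` are equal if the Frobenius automorphism is trivial -/
theorem absNorm_eq {q : HeightOneSpectrum (𝓞 F)} (hq : IsFrob (H := H) q (1 : G))
    {Q : HeightOneSpectrum (𝓞 H)} (hQ : Above {q} Q) :
    Ideal.absNorm Q.asIdeal = Ideal.absNorm q.asIdeal := by
  have hQ' := above_singleton.1 hQ
  haveI := Pool.Agent.K3h43.RS.finite_quot Q
  haveI := Pool.Agent.K3h43.RS.finite_quot q
  apply le_antisymm
  · -- all elements of the residue field are roots of `X ^ Nq - X`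
    have hmax := Q.isMaximal
    letI := Ideal.Quotient.field Q.asIdeal
    letI := Fintype.ofFinite (𝓞 H ⧸ Q.asIdeal)
    have h1 : ∀ x : 𝓞 H ⧸ Q.asIdeal, x ^ Ideal.absNorm q.asIdeal = x := by
      intro x
      obtain ⟨x, rfl⟩ := Ideal.Quotient.mk_surjective x
      have h2 := hq Q hQ x
      rw [one_smul] at h2
      have e : (x : H) - (x : H) ^ Ideal.absNorm q.asIdeal =
          ((x - x ^ Ideal.absNorm q.asIdeal : 𝓞 H) : H) := by
        push_cast; rfl
      rw [e, Q.valuation_lt_one_iff_mem] at h2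
      rw [← map_pow, eq_comm, Ideal.Quotient.eq]
      exact h2
    have h2 : 1 < Ideal.absNorm q.asIdeal := by
      have := two_le_absNorm q
      omega
    rw [Ideal.absNorm_apply Q.asIdeal, Submodule.cardQuot_apply, Nat.card_eq_fintype_card]
    have h3 : (Polynomial.X ^ Ideal.absNorm q.asIdeal - Polynomial.X :
        Polynomial (𝓞 H ⧸ Q.asIdeal)) ≠ 0 := FiniteField.X_pow_card_sub_X_ne_zero _ h2
    have h4 : (Finset.univ : Finset (𝓞 H ⧸ Q.asIdeal)).val ≤
        (Polynomial.X ^ Ideal.absNorm q.asIdeal - Polynomial.X :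
          Polynomial (𝓞 H ⧸ Q.asIdeal)).roots := by
      rw [Finset.val_le_iff_val_subset]
      intro x _
      rw [Polynomial.mem_roots h3]
      simp [Polynomial.IsRoot, h1 x]
    have h5 := Multiset.card_le_card h4
    have h6 := Polynomial.card_roots' (Polynomial.X ^ Ideal.absNorm q.asIdeal - Polynomial.X :
          Polynomial (𝓞 H ⧸ Q.asIdeal))
    rw [FiniteField.X_pow_card_sub_X_natDegree_eq _ h2] at h6
    exact h5.trans h6
  · let f : 𝓞 F ⧸ q.asIdeal →+* 𝓞 H ⧸ Q.asIdeal :=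
      Ideal.quotientMap Q.asIdeal (algebraMap (𝓞 F) (𝓞 H)) hQ'.ge
    have hf : Function.Injective f := Ideal.quotientMap_injective' hQ'.le
    rw [Ideal.absNorm_apply, Ideal.absNorm_apply, Submodule.cardQuot_apply,
      Submodule.cardQuot_apply]
    exact Nat.card_le_card_of_injective f hf

/-- the `G`-homomorphism `x ↦ ∑ ord_Q(γ⁻¹ x) γ` -/
def ordG (G : Type) [CommGroup G] [Finite G] [MulSemiringAction G H]
    (Q : HeightOneSpectrum (𝓞 H)) : Additive Hˣ →+ MonoidAlgebra ℤ G where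
  toFun x := letI := Fintype.ofFinite G
    ∑ γ : G, MonoidAlgebra.single γ (ordQ Q (Additive.ofMul (act γ⁻¹ (Additive.toMul x))))
  map_zero' := by
    refine Finset.sum_eq_zero fun γ _ => ?_
    rw [toMul_zero, act_map_one, ofMul_one, map_zero, MonoidAlgebra.single_zero]
  map_add' x y := by
    rw [← Finset.sum_add_distrib]
    refine Finset.sum_congr rfl fun γ _ => ?_
    rw [toMul_add, act_map_mul, ordQ_mul, MonoidAlgebra.single_add]

theorem ordG_apply (Q : HeightOneSpectrum (𝓞 H)) (x : Hˣ) :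
    letI := Fintype.ofFinite G
    ordG G Q (Additive.ofMul x) =
      ∑ γ : G, MonoidAlgebra.single γ (ordQ Q (Additive.ofMul (act γ⁻¹ x))) := rfl

theorem coeff_ordG (Q : HeightOneSpectrum (𝓞 H)) (x : Hˣ) (γ : G) :
    (ordG G Q (Additive.ofMul x)).coeff γ = ordQ Q (Additive.ofMul (act γ⁻¹ x)) := by
  classical
  letI := Fintype.ofFinite G
  rw [ordG_apply, MonoidAlgebra.coeff_sum, Finsupp.finsetSum_apply]
  rw [Finset.sum_eq_single γ]
  · simp
  · intro δ _ hδ
    simp [hδ]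
  · intro h
    exact absurd (Finset.mem_univ γ) h

theorem ordG_act (Q : HeightOneSpectrum (𝓞 H)) (δ : G) (x : Hˣ) :
    ordG G Q (Additive.ofMul (act δ x)) =
      MonoidAlgebra.single δ 1 * ordG G Q (Additive.ofMul x) := by
  ext γ
  rw [coeff_ordG, coeff_single_mul', one_mul, coeff_ordG, ← act_mul]
  congr 3
  rw [mul_inv, inv_inv, mul_comm]

/-- the regulator at `Q` is given by the order at `Q` -/
theorem reg_Q (Q : HeightOneSpectrum (𝓞 H)) (x : Hˣ) :
    reg G (Sum.inr Q : Place H) x = MonoidAlgebra.single 1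
      (-(Real.log (Ideal.absNorm Q.asIdeal : ℝ))) *
      toR (toQ (ordG G Q (Additive.ofMul x))) := by
  letI := Fintype.ofFinite G
  rw [ordG_apply, map_sum, map_sum, Finset.mul_sum]
  unfold reg
  refine Finset.sum_congr rfl fun γ _ => ?_
  have h1 : toQ (MonoidAlgebra.single γ (ordQ Q (Additive.ofMul (act γ⁻¹ x)))) =
      MonoidAlgebra.single γ ((ordQ Q (Additive.ofMul (act γ⁻¹ x)) : ℤ) : ℚ) := by
    simp [toQ]
  rw [h1, toR_single, MonoidAlgebra.single_mul_single, one_mul, log_av]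
  congr 2

/-- `U_{S,T}` is the kernel of the orders -/
theorem ordG_eq_zero (Q : HeightOneSpectrum (𝓞 H)) (x : Hˣ) :
    ordG G Q (Additive.ofMul x) = 0 ↔ ∀ γ : G, Q.valuation H ((act γ x : Hˣ) : H) = 1 := by
  constructor
  · intro h γ
    have h1 := coeff_ordG (G := G) Q x γ⁻¹
    rw [h, inv_inv] at h1
    rw [← ordQ_eq_zero, ← h1]
    rfl
  · intro h
    ext γ
    rw [coeff_ordG]
    exact (ordQ_eq_zero Q _).2 (h γ⁻¹)

theorem decomp_trivial [IsGaloisGroup G F H] (D : RubinData F H G) {q : HeightOneSpectrum (𝓞 F)}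
    (hq : q ∉ D.S) (hσ : D.σ q = 1) {Q : HeightOneSpectrum (𝓞 H)} (hQ : Above {q} Q) (γ : G)
    (h : Fixes (Sum.inr Q : Place H) γ) : γ = 1 := by
  have h1 := Pool.Agent.K3h92.RS.t_DECOMP F H G q (D.unramified q hq) (D.σ q) (D.frob q hq) Q hQ γ h
  rw [hσ, Subgroup.mem_zpowers_iff] at h1
  obtain ⟨k, hk⟩ := h1
  rw [← hk, one_zpow]

theorem conj_symm {w w' : Place H} (h : Conj G w w') : Conj G w' w := by
  obtain ⟨γ, hγ⟩ := h
  refine ⟨γ⁻¹, fun x => ?_⟩
  rw [hγ, smul_inv_smul]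

theorem conj_trans {w w' w'' : Place H} (h : Conj G w w') (h' : Conj G w' w'') :
    Conj G w w'' := by
  obtain ⟨γ, hγ⟩ := h
  obtain ⟨γ', hγ'⟩ := h'
  refine ⟨γ' * γ, fun x => ?_⟩
  rw [hγ, hγ', mul_smul]

theorem conj_above [IsGaloisGroup G F H] {q : HeightOneSpectrum (𝓞 F)}
    {Q Q' : HeightOneSpectrum (𝓞 H)} (hQ : Above {q} Q) (hQ' : Above {q} Q') :
    Conj G (Sum.inr Q' : Place H) (Sum.inr Q) := by
  obtain ⟨γ, hγ⟩ := (Pool.Agent.K3h25.RS.t_TRANS F H G q Q hQ).2 Q' hQ'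
  refine ⟨γ, fun x => ?_⟩
  change HeightOneSpectrum.adicAbv H Q' x = HeightOneSpectrum.adicAbv H Q (γ • x)
  have h1 : Ideal.absNorm Q'.asIdeal = Ideal.absNorm Q.asIdeal := by
    obtain ⟨γ', hγ'⟩ : ∃ γ' : G, ∀ x : 𝓞 H, x ∈ Q'.asIdeal ↔ γ' • x ∈ Q.asIdeal := by
      refine ⟨γ, fun x => ?_⟩
      rw [← Q'.valuation_lt_one_iff_mem (K := H), ← Q.valuation_lt_one_iff_mem (K := H), hγ]
      rfl
    rw [Ideal.absNorm_apply, Ideal.absNorm_apply, Submodule.cardQuot_apply,
      Submodule.cardQuot_apply]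
    refine Nat.card_congr ?_
    refine (Ideal.quotientEquiv Q'.asIdeal Q.asIdeal (MulSemiringAction.toRingEquiv G (𝓞 H) γ') ?_).toEquiv
    ext y
    refine Iff.trans ?_ (Ideal.mem_map_iff_of_surjective
      ((MulSemiringAction.toRingEquiv G (𝓞 H) γ' : 𝓞 H ≃+* 𝓞 H) : 𝓞 H →+* 𝓞 H)
      (RingEquiv.surjective _)).symm
    constructor
    · intro hy
      refine ⟨γ'⁻¹ • y, ?_, ?_⟩
      · rw [hγ', smul_inv_smul]; exact hy
      · exact smul_inv_smul γ' y
    · rintro ⟨x, hx, rfl⟩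
      exact (hγ' x).1 hx
  rw [NumberField.HeightOneSpectrum.adicAbv_def, NumberField.HeightOneSpectrum.adicAbv_def, hγ]
  congr 2
  simp only [h1]

end Pool.Agent.H509
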