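import Pool.Agent.H509.PopInt

/-!
# The local characters if the Frobenius automorphism generates the Sylow subgroup
-/

set_option autoImplicit false
set_option linter.unusedSectionVars false
set_option linter.style.haveILetI false

open NumberField IsDedekindDomain Filter Topology

noncomputable section

namespace Pool.Agent.H509

open Pool.Agent.K3h30.RS Pool.Agent.K3h62.RS Pool.Agent.K3h3.RS Pool.Agent.K3h81.RL
open Pool.Agent.N598.ST (AbRoot AbOm W)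

/-- congruences and elements of finite order -/
theorem smul_congr {A : Type} [AddCommGroup A] {N : ℕ} {z : A} (hz : N • z = 0) {a b : ℤ}
    (h : (N : ℤ) ∣ a - b) : a • z = b • z := by
  obtain ⟨c, hc⟩ := h
  have h1 : a = b + c * N := by linarith
  rw [h1, add_smul, mul_smul, natCast_zsmul, hz, smul_zero, add_zero]

section algebra

variable {G A : Type} [CommGroup G] [Finite G] [AddCommGroup A] [DistribMulAction G A]

theorem op_single_pow (σ : G) (q : ℕ) {ρ : A →+ QZ}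
    (h : op (MonoidAlgebra.single σ 1) ρ = q • ρ) (i : ℕ) :
    op (MonoidAlgebra.single (σ ^ i) 1) ρ = (q ^ i) • ρ := by
  induction i with
  | zero =>
    rw [pow_zero, pow_zero, one_smul]
    ext a
    rw [op_single, one_smul, one_smul]
  | succ i ih =>
    have h1 : (MonoidAlgebra.single (σ ^ (i + 1)) 1 : MonoidAlgebra ℤ G) =
        MonoidAlgebra.single σ 1 * MonoidAlgebra.single (σ ^ i) 1 := by
      rw [MonoidAlgebra.single_mul_single, one_mul, pow_succ']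
    rw [h1, op_mul, ih, op_nsmul, h, smul_smul, pow_succ]

/-- **Verification of the hypotheses of `exists_common_lam`.** -/
theorem exists_common_syl [AddGroup.FG A] {p : ℕ} (hp : p.Prime) {m w q : ℕ} (hm : 0 < m)
    {χ : A →+ QZ} (hχ : ∀ a, m • χ a = 0) {σ : G} (hσ : ∀ a, χ (σ • a) = q • χ a)
    {N' : ℕ} (hN' : ¬ p ∣ N') (hgen : ∀ γ : G, ∃ (i : ℕ) (δ : G), γ = σ ^ i * δ ∧ δ ^ N' = 1)
    {ζ : A} (hw0 : 0 < w) (hpw : p ∣ w) (hζ : w • ζ = 0)
    (hζ' : ∀ a : A, IsOfFinAddOrder a → ∃ j : ℕ, a = j • ζ)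
    (hχζ : ∀ k : ℕ, k • χ ζ = 0 → w ∣ k) (n : G → ℕ) (hn : ∀ γ : G, γ • ζ = n γ • ζ) :
    ∃ N : ℕ, ¬ p ∣ N ∧ ∃ Λ : A →+ MonoidAlgebra ℚ G, Equi Λ ∧
      (∀ a, (∀ γ : G, χ (γ • a) = 0) → cl Λ a = 0) ∧
      ∀ f : A →+ MonoidAlgebra ℚ G, Equi f → (∀ a, (∀ γ : G, χ (γ • a) = 0) → cl f a = 0) →
        ∃ z : MonoidAlgebra ℤ G, ∀ a,
          (N : MonoidAlgebra ℚ G) * f a - toQ z * Λ a ∈ (toQ (G := G)).range := by
  classical
  letI := Fintype.ofFinite G
  -- the complement of the Sylow subgroup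
  let K : Subgroup G := (powMonoidHom N' : G →* G).ker
  have hK : ∀ δ : G, δ ∈ K ↔ δ ^ N' = 1 := fun δ => MonoidHom.mem_ker
  letI : Fintype K := Fintype.ofFinite K
  set N₁ := Fintype.card K with hN₁
  have hpN₁ : ¬ p ∣ N₁ := by
    intro h
    haveI := Fact.mk hp
    obtain ⟨x, hx⟩ := exists_prime_orderOf_dvd_card p h
    have h1 : orderOf x ∣ N' := by
      apply orderOf_dvd_of_pow_eq_one
      exact Subtype.ext ((hK x).1 x.2)
    rw [hx] at h1
    exact hN' h1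
  have hN₁pos : 0 < N₁ := Fintype.card_pos
  obtain ⟨B, m', hm', hmB⟩ := Nat.exists_eq_pow_mul_and_not_dvd hm.ne' p hp.one_lt.ne'
  obtain ⟨b, w', hw', hwb⟩ := Nat.exists_eq_pow_mul_and_not_dvd hw0.ne' p hp.one_lt.ne'
  have hwm : w ∣ m := hχζ m (hχ ζ)
  -- congruences for `n`
  have hord : ∀ k l : ℕ, k • ζ = l • ζ → (w : ℤ) ∣ (k : ℤ) - l := by
    have aux : ∀ k l : ℕ, l ≤ k → k • ζ = l • ζ → (w : ℤ) ∣ (k : ℤ) - l := by
      intro k l hlk h
      have h1 : (k - l) • ζ = 0 := by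
        have h2 : (k - l) • ζ + l • ζ = k • ζ := by
          rw [← add_smul, Nat.sub_add_cancel hlk]
        rw [h] at h2
        exact add_eq_right.1 h2
      have h3 := hχζ (k - l) (by rw [← map_nsmul, h1, map_zero])
      have h4 : ((k - l : ℕ) : ℤ) = (k : ℤ) - l := by
        push_cast [hlk]
        ring
      rw [← h4]
      exact_mod_cast h3
    intro k l h
    rcases le_total l k with h1 | h1
    · exact aux k l h1 h
    · rw [dvd_sub_comm]
      exact aux l k h1 h.symm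
  have hn1 : (w : ℤ) ∣ (n 1 : ℤ) - 1 := by
    have h := hord (n 1) 1 (by rw [← hn, one_smul, one_smul])
    simpa using h
  have hnmul : ∀ γ δ : G, (w : ℤ) ∣ (n (γ * δ) : ℤ) - n γ * n δ := by
    intro γ δ
    have h := hord (n (γ * δ)) (n δ * n γ) (by
      rw [← hn, mul_smul, hn δ]
      have h1 : γ • (n δ • ζ) = n δ • (γ • ζ) :=
        map_nsmul (DistribSMul.toAddMonoidHom A γ) (n δ) ζ
      rw [h1, hn γ, smul_smul])
    push_cast at h
    rw [mul_comm (n γ : ℤ)]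
    exact h
  have hnpow : ∀ (γ : G) (k : ℕ), (w : ℤ) ∣ (n (γ ^ k) : ℤ) - (n γ : ℤ) ^ k := by
    intro γ k
    induction k with
    | zero => simpa using hn1
    | succ k ih =>
      have h1 := hnmul (γ ^ k) γ
      rw [← pow_succ] at h1
      have h2 : (n (γ ^ (k + 1)) : ℤ) - (n γ : ℤ) ^ (k + 1) =
          ((n (γ ^ (k + 1)) : ℤ) - n (γ ^ k) * n γ) +
            ((n (γ ^ k) : ℤ) - (n γ : ℤ) ^ k) * n γ := by ring
      rw [h2]
      exact dvd_add h1 (Dvd.dvd.mul_right ih _)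
  -- the exponent
  obtain ⟨s, l, hs⟩ : ∃ s : ℕ, ∃ l : ℕ, p ^ B * s = 1 + N₁ * l := by
    have hcop : Nat.Coprime (p ^ B) N₁ :=
      Nat.Coprime.pow_left B ((Nat.Prime.coprime_iff_not_dvd hp).2 hpN₁)
    by_cases h1 : N₁ = 1
    · refine ⟨1, p ^ B - 1, ?_⟩
      have : 0 < p ^ B := pow_pos hp.pos B
      rw [h1]
      omega
    · obtain ⟨s, -, hs⟩ := Nat.exists_mul_mod_eq_one_of_coprime hcop (by omega)
      refine ⟨s, p ^ B * s / N₁, ?_⟩
      have h2 := Nat.mod_add_div (p ^ B * s) N₁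
      rw [hs] at h2
      exact h2.symm
  have hdvdp : (p : ℤ) ∣ w := by exact_mod_cast hpw
  let c : G → ℤ := fun δ => (n δ⁻¹ : ℤ) ^ (p ^ B * s)
  have hcpow : ∀ x y : ℤ, (p : ℤ) ∣ x - y →
      ((p ^ B : ℕ) : ℤ) ∣ x ^ (p ^ B * s) - y ^ (p ^ B * s) := by
    intro x y h
    have h1 := dvd_sub_pow_of_dvd_sub (R := ℤ) (p := p) h B
    have h2 : ((p ^ B : ℕ) : ℤ) ∣ (p : ℤ) ^ (B + 1) := by
      push_cast
      exact pow_dvd_pow _ (Nat.le_succ B)
    rw [pow_mul, pow_mul]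
    exact (h2.trans h1).trans (sub_dvd_pow_sub_pow _ _ s)
  have hcmul : ∀ δ ε : G, ((p ^ B : ℕ) : ℤ) ∣ c (δ * ε) - c δ * c ε := by
    intro δ ε
    have h1 := hcpow (n (δ * ε)⁻¹) (n δ⁻¹ * n ε⁻¹) (by
      rw [mul_inv]
      exact hdvdp.trans (hnmul δ⁻¹ ε⁻¹))
    rw [mul_pow] at h1
    exact h1
  have hc1 : ((p ^ B : ℕ) : ℤ) ∣ c 1 - 1 := by
    have h1 := hcpow (n (1 : G)⁻¹) 1 (by
      rw [inv_one]
      exact hdvdp.trans hn1)
    rw [one_pow] at h1
    exact h1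
  have hcn : ∀ δ ∈ K, (w : ℤ) ∣ c δ * n δ - 1 := by
    intro δ hδ
    have e1 : (n δ⁻¹ : ℤ) ^ N₁ ≡ 1 [ZMOD w] := by
      have h1 : (δ⁻¹) ^ N₁ = 1 := by
        have h2 : (⟨δ⁻¹, inv_mem hδ⟩ : K) ^ N₁ = 1 := pow_card_eq_one
        exact congrArg Subtype.val h2
      have h2 := hnpow δ⁻¹ N₁
      rw [h1] at h2
      have h3 : (n δ⁻¹ : ℤ) ^ N₁ ≡ n 1 [ZMOD w] := Int.modEq_iff_dvd.2 h2
      have h4 : (n 1 : ℤ) ≡ 1 [ZMOD w] := (Int.modEq_iff_dvd.2 (by simpa using hn1)).symm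
      exact h3.trans h4
    have e2 : (n δ⁻¹ : ℤ) * n δ ≡ 1 [ZMOD w] := by
      have h2 := hnmul δ⁻¹ δ
      rw [inv_mul_cancel] at h2
      have h3 : (n δ⁻¹ : ℤ) * n δ ≡ n 1 [ZMOD w] := Int.modEq_iff_dvd.2 h2
      have h4 : (n 1 : ℤ) ≡ 1 [ZMOD w] := (Int.modEq_iff_dvd.2 (by simpa using hn1)).symm
      exact h3.trans h4
    have e3 : c δ * n δ ≡ 1 [ZMOD w] := by
      have h1 : c δ * n δ = (n δ⁻¹ * n δ) * ((n δ⁻¹ : ℤ) ^ N₁) ^ l := by
        change (n δ⁻¹ : ℤ) ^ (p ^ B * s) * n δ = _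
        rw [hs, pow_add, pow_mul, pow_one]
        ring
      rw [h1]
      have h2 := e2.mul (e1.pow l)
      rw [one_pow, one_mul] at h2
      exact h2
    exact Int.modEq_iff_dvd.1 e3.symm
  -- the characters
  set χ' : A →+ QZ := m' • χ with hχ'
  have hχ'B : ∀ a, (p ^ B) • χ' a = 0 := by
    intro a
    rw [hχ', AddMonoidHom.nsmul_apply, smul_smul, ← hmB, hχ]
  set E : MonoidAlgebra ℤ G := ∑ δ : K, MonoidAlgebra.single (δ : G) (c δ) with hE
  set ρ : A →+ QZ := op E χ' with hρ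
  have hρa : ∀ a, ρ a = ∑ δ : K, c δ • χ' ((δ : G) • a) := by
    intro a
    rw [hρ, hE, op_sum, AddMonoidHom.finsetSum_apply]
    exact Finset.sum_congr rfl fun δ _ => op_single _ _ _ _
  have hρB : ∀ a, (p ^ B) • ρ a = 0 := by
    intro a
    rw [hρa, Finset.smul_sum]
    refine Finset.sum_eq_zero fun δ _ => ?_
    rw [smul_comm, hχ'B, smul_zero]
  have hk1 : ∀ ε ∈ K, op (MonoidAlgebra.single ε 1) ρ = c ε⁻¹ • ρ := by
    intro ε hε
    ext a
    rw [op_single, one_smul, AddMonoidHom.zsmul_apply, hρa, hρa, Finset.smul_sum]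
    refine Fintype.sum_equiv (Equiv.mulRight (⟨ε, hε⟩ : K)) _ _ fun δ => ?_
    rw [Equiv.coe_mulRight, smul_smul, smul_smul]
    refine smul_congr (hχ'B _) ?_
    have h1 := hcmul ((δ : G) * ε) ε⁻¹
    rw [mul_inv_cancel_right] at h1
    rw [mul_comm (c ε⁻¹)]
    exact h1
  have hk2 : op (MonoidAlgebra.single σ 1) ρ = q • ρ := by
    rw [hρ, ← op_mul, mul_comm, op_mul]
    have h1 : op (MonoidAlgebra.single σ 1) χ' = q • χ' := by
      ext a
      rw [op_single, one_smul, hχ', AddMonoidHom.nsmul_apply, AddMonoidHom.nsmul_apply,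
        AddMonoidHom.nsmul_apply, hσ, smul_comm]
    rw [h1, op_nsmul]
  have hk : ∀ γ : G, ∃ k : ℤ, op (MonoidAlgebra.single γ 1) ρ = k • ρ := by
    intro γ
    obtain ⟨i, δ, rfl, hδ⟩ := hgen γ
    refine ⟨(q : ℤ) ^ i * c δ⁻¹, ?_⟩
    have h1 : (MonoidAlgebra.single (σ ^ i * δ) 1 : MonoidAlgebra ℤ G) =
        MonoidAlgebra.single (σ ^ i) 1 * MonoidAlgebra.single δ 1 := by
      rw [MonoidAlgebra.single_mul_single, one_mul]
    rw [h1, op_mul, hk1 δ ((hK δ).2 hδ), op_zsmul, op_single_pow σ q hk2 i, ← natCast_zsmul,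
      smul_smul, mul_comm]
    push_cast
    rfl
  have hEρ : op E ρ = N₁ • ρ := by
    ext a
    have h1 : (op E ρ) a = ∑ δ : K, (c δ * c (δ : G)⁻¹) • ρ a := by
      rw [hE, op_sum, AddMonoidHom.finsetSum_apply]
      refine Finset.sum_congr rfl fun δ _ => ?_
      have h2 := congrArg (fun φ : A →+ QZ => φ a) (hk1 δ δ.2)
      simp only [op_single, one_smul, AddMonoidHom.zsmul_apply] at h2
      rw [op_single, h2, smul_smul]
    rw [h1, AddMonoidHom.nsmul_apply]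
    have h3 : ∀ δ : K, (c δ * c (δ : G)⁻¹) • ρ a = ρ a := by
      intro δ
      have h4 : (c δ * c (δ : G)⁻¹) • ρ a = (1 : ℤ) • ρ a := by
        refine smul_congr (hρB a) ?_
        have h5 := hcmul (δ : G) (δ : G)⁻¹
        rw [mul_inv_cancel] at h5
        have h6 : c (δ : G) * c (δ : G)⁻¹ - 1 =
            (c 1 - 1) - (c 1 - c (δ : G) * c (δ : G)⁻¹) := by ring
        rw [h6]
        exact dvd_sub hc1 h5
      rw [h4, one_smul]
    rw [Finset.sum_congr rfl fun δ _ => h3 δ, Finset.sum_const, Finset.card_univ]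
  -- the values at `ζ`
  have hwζ : w • χ' ζ = 0 := by
    rw [← map_nsmul, hζ, map_zero]
  have hρζ : ρ ζ = N₁ • χ' ζ := by
    rw [hρa]
    have h3 : ∀ δ : K, c δ • χ' ((δ : G) • ζ) = χ' ζ := by
      intro δ
      rw [hn, map_nsmul, ← natCast_zsmul, smul_smul]
      have h4 : (c δ * (n (δ : G) : ℤ)) • χ' ζ = (1 : ℤ) • χ' ζ :=
        smul_congr hwζ (hcn δ δ.2)
      rw [h4, one_smul]
    rw [Finset.sum_congr rfl fun δ _ => h3 δ, Finset.sum_const, Finset.card_univ]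
  have h3a : ∀ a : A, IsOfFinAddOrder a → (N₁ • χ' - ρ) a = 0 := by
    intro a ha
    obtain ⟨j, rfl⟩ := hζ' a ha
    rw [map_nsmul, AddMonoidHom.sub_apply, AddMonoidHom.nsmul_apply, hρζ, sub_self, smul_zero]
  have hw'm' : w' ∣ m' := by
    have h1 : w' ∣ p ^ B * m' := (Dvd.intro_left (p ^ b) hwb.symm).trans (hmB ▸ hwm)
    have h2 : Nat.Coprime w' (p ^ B) :=
      ((Nat.Coprime.pow_left B ((Nat.Prime.coprime_iff_not_dvd hp).2 hw'))).symm
    exact h2.dvd_of_dvd_mul_left h1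
  have h3b : ∀ a : A, IsOfFinAddOrder a → ((p ^ b) • ρ) a = 0 := by
    intro a ha
    obtain ⟨j, rfl⟩ := hζ' a ha
    rw [AddMonoidHom.nsmul_apply, map_nsmul, hρζ, hχ', AddMonoidHom.nsmul_apply]
    obtain ⟨d, hd⟩ := hw'm'
    have h1 : (p ^ b) • j • N₁ • m' • χ ζ = (j * N₁ * d) • (w • χ ζ) := by
      rw [smul_smul, smul_smul, smul_smul, smul_smul, hwb, hd]
      congr 1
      ring
    rw [h1, ← map_nsmul, hζ, map_zero, smul_zero]
  have h4 : ∀ k : ℤ, (∀ a : A, IsOfFinAddOrder a → (k • ρ) a = 0) → ((p ^ b : ℕ) : ℤ) ∣ k := by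
    intro k hk0
    have h1 := hk0 ζ (isOfFinAddOrder_iff_nsmul_eq_zero.2 ⟨w, hw0, hζ⟩)
    rw [AddMonoidHom.zsmul_apply, hρζ, hχ', AddMonoidHom.nsmul_apply] at h1
    have h2 : (k.natAbs * (N₁ * m')) • χ ζ = 0 := by
      rcases Int.natAbs_eq k with h3 | h3
      · rw [h3] at h1
        rw [natCast_zsmul, smul_smul, smul_smul, mul_assoc] at h1
        exact h1
      · rw [h3, neg_smul, natCast_zsmul, neg_eq_zero, smul_smul, smul_smul, mul_assoc] at h1
        exact h1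
    have h3 := hχζ _ h2
    have h5 : p ^ b ∣ k.natAbs * (N₁ * m') := (Dvd.intro w' hwb.symm).trans h3
    have h6 : Nat.Coprime (p ^ b) (N₁ * m') :=
      Nat.Coprime.pow_left b ((Nat.Prime.coprime_iff_not_dvd hp).2 fun h =>
        (hp.dvd_mul.1 h).elim hpN₁ hm')
    have h7 := h6.dvd_of_dvd_mul_right h5
    exact Int.natCast_dvd.2 h7
  obtain ⟨Λ, h5, h6, h7⟩ := exists_common_lam (P := p ^ b) (m' := m') (N₁ := N₁) hm hχ hρ hEρ hk
    h3a h3b h4
  refine ⟨N₁ * N₁ * m', fun h => ?_, Λ, h5, h6, h7⟩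
  rcases hp.dvd_mul.1 h with h | h
  · exact (hp.dvd_mul.1 h).elim hpN₁ hpN₁
  · exact hm' h

end algebra

end Pool.Agent.H509
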