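import Pool.Agent.H509.PopDef
import Pool.Agent.H509.Common

/-!
# Elements with abelian roots and the groups `U_{S,{t}}`
-/

set_option autoImplicit false
set_option linter.unusedSectionVars false
set_option linter.style.haveILetI false

open NumberField IsDedekindDomain Filter Topology

noncomputable section

namespace Pool.Agent.H509

open Pool.Agent.K3h30.RS Pool.Agent.K3h62.RS Pool.Agent.K3h3.RS Pool.Agent.K3h81.RL
open Pool.Agent.N598.ST (AbRoot AbOm W)

/-- an element of `ℚ / ℤ` of order `w` generates the elements killed by `w` -/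
theorem QZ_gen {w : ℕ} (hw : 0 < w) {z : QZ} (h0 : w • z = 0) (h1 : ∀ k : ℕ, k • z = 0 → w ∣ k)
    {y : QZ} (hy : w • y = 0) : ∃ i : ℤ, y = i • z := by
  obtain ⟨k, hk⟩ := Pool.Agent.K3h12.RSE.torsion_form w hw z h0
  obtain ⟨l, hl⟩ := Pool.Agent.K3h12.RSE.torsion_form w hw y hy
  have hw1 : w • (((w : ℚ)⁻¹ : ℚ) : QZ) = 0 := by
    have h2 : ((w • ((w : ℚ)⁻¹) : ℚ) : QZ) = 0 := by
      rw [AddCircle.coe_eq_zero_iff]
      refine ⟨1, ?_⟩
      have hm' : (w : ℚ) ≠ 0 := by positivity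
      rw [nsmul_eq_mul, mul_inv_cancel₀ hm', one_zsmul]
    exact h2
  have hgcd : Int.gcd k w = 1 := by
    have hd := Int.gcd_dvd_left k w
    have hd2 : Int.gcd k w ∣ w := by exact_mod_cast Int.gcd_dvd_right k w
    obtain ⟨k', hk'⟩ := hd
    obtain ⟨w', hw'⟩ := hd2
    have h2 : w' • z = 0 := by
      rw [hk, ← natCast_zsmul, smul_smul]
      have h3 : (w' : ℤ) * k = k' * (w : ℤ) := by
        conv_lhs => rw [hk']
        conv_rhs => rw [hw']
        push_cast
        ring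
      rw [h3, mul_smul, natCast_zsmul, hw1, smul_zero]
    have h4 := Nat.le_of_dvd (Nat.pos_of_ne_zero (by
      rintro rfl
      rw [mul_zero] at hw'
      omega)) (h1 w' h2)
    have hw'0 : 0 < w' := Nat.pos_of_ne_zero (by
      rintro rfl
      rw [mul_zero] at hw'
      omega)
    have h5 : 0 < Int.gcd k w := Nat.pos_of_ne_zero (by
      intro h
      rw [h, zero_mul] at hw'
      omega)
    by_contra h6
    have h7 : 2 * w' ≤ Int.gcd k w * w' := Nat.mul_le_mul_right w' (by omega)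
    omega
  have hbez := Int.gcd_eq_gcd_ab k w
  rw [hgcd] at hbez
  refine ⟨l * Int.gcdA k w, ?_⟩
  have h8 : (((w : ℚ)⁻¹ : ℚ) : QZ) = Int.gcdA k w • z := by
    rw [hk, smul_smul]
    have h9 : Int.gcdA k w * k = 1 - Int.gcdB k w * (w : ℤ) := by
      have : ((1 : ℕ) : ℤ) = 1 := rfl
      rw [this] at hbez
      linear_combination -hbez
    rw [h9, sub_smul, one_smul, mul_smul, natCast_zsmul, hw1, smul_zero, sub_zero]
  rw [hl, h8, smul_smul]

variable {F H G : Type} [Field F] [NumberField F] [Field H] [NumberField H] [Algebra F H]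
  [CommGroup G] [Finite G] [MulSemiringAction G H]

/-- roots of unity which are one modulo a prime ideal -/
theorem root_eq_one {t : HeightOneSpectrum (𝓞 F)}
    (ht : ¬ ringChar (𝓞 F ⧸ t.asIdeal) ∣ Units.torsionOrder H) {ζ : Hˣ}
    (hζ : ζ ^ (Units.torsionOrder H) = 1) {w : HeightOneSpectrum (𝓞 H)} (hw : Above {t} w)
    (hval : w.valuation H ((ζ : H) - 1) < 1) : ζ = 1 := by
  by_contra hne
  have hfin : IsOfFinOrder ζ := isOfFinOrder_iff_pow_eq_one.2 ⟨_, Units.torsionOrder_pos H, hζ⟩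
  obtain ⟨p, hp, hpn⟩ := Nat.exists_prime_and_dvd (fun h => hne (orderOf_eq_one_iff.mp h) :
    orderOf ζ ≠ 1)
  obtain ⟨m, h1, h2⟩ := exists_prime_pow hfin hp hpn
  refine ht ?_
  rw [ringChar_of_root hp h1 h2 hw (by
    rw [Units.val_pow_eq_pow_val]
    exact Pool.Agent.K3h30.RS.pow_sub_one_lt hval m)]
  exact hpn.trans (orderOf_dvd_of_pow_eq_one hζ)

/-- the torsion of `H^*` consists of the `w`-th roots of unity -/
theorem pow_torsionOrder {ζ : Hˣ} (hζ : IsOfFinOrder ζ) : ζ ^ (Units.torsionOrder H) = 1 := by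
  obtain ⟨n, hn, h1⟩ := isOfFinOrder_iff_pow_eq_one.1 hζ
  have hint : IsIntegral ℤ (ζ : H) := by
    refine IsIntegral.of_pow hn ?_
    rw [← Units.val_pow_eq_pow_val, h1, Units.val_one]
    exact isIntegral_one
  have hint' : IsIntegral ℤ ((ζ⁻¹ : Hˣ) : H) := by
    refine IsIntegral.of_pow hn ?_
    rw [← Units.val_pow_eq_pow_val, inv_pow, h1, inv_one, Units.val_one]
    exact isIntegral_one
  let x : (𝓞 H)ˣ :=
    { val := ⟨(ζ : H), hint⟩
      inv := ⟨((ζ⁻¹ : Hˣ) : H), hint'⟩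
      val_inv := Subtype.ext (by
        change (ζ : H) * ((ζ⁻¹ : Hˣ) : H) = 1
        rw [← Units.val_mul, mul_inv_cancel, Units.val_one])
      inv_val := Subtype.ext (by
        change ((ζ⁻¹ : Hˣ) : H) * (ζ : H) = 1
        rw [← Units.val_mul, inv_mul_cancel, Units.val_one]) }
  have hx : x ∈ Units.torsion H := by
    rw [Units.torsion, CommGroup.mem_torsion, isOfFinOrder_iff_pow_eq_one]
    refine ⟨n, hn, ?_⟩
    ext
    change ((x ^ n : (𝓞 H)ˣ) : H) = 1
    push_cast
    change (ζ : H) ^ n = 1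
    rw [← Units.val_pow_eq_pow_val, h1, Units.val_one]
  have h2 : (⟨x, hx⟩ : Units.torsion H) ^ (Units.torsionOrder H) = 1 := by
    have h3 := pow_card_eq_one' (x := (⟨x, hx⟩ : Units.torsion H))
    exact h3
  have h4 : x ^ (Units.torsionOrder H) = 1 := congrArg Subtype.val h2
  ext
  have h5 := congrArg (fun y : (𝓞 H)ˣ => algebraMap (𝓞 H) H (y : 𝓞 H)) h4
  simp only [Units.val_pow_eq_pow_val, Units.val_one, map_pow, map_one] at h5 ⊢
  exact h5

variable [IsGaloisGroup G F H]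

/-- the Frobenius automorphism acts on the roots of unity as the power with the norm -/
theorem isCyc_frob {t : HeightOneSpectrum (𝓞 F)}
    (ht : ¬ ringChar (𝓞 F ⧸ t.asIdeal) ∣ Units.torsionOrder H) {σ : G}
    (hσ : IsFrob (H := H) t σ) : IsCyc H σ (Ideal.absNorm t.asIdeal) := by
  intro ζ hζ
  obtain ⟨w, hw⟩ := (Pool.Agent.K3h25.RS.t_OVER F H t).1
  have hfin : IsOfFinOrder ζ := isOfFinOrder_iff_pow_eq_one.2 ⟨_, Units.torsionOrder_pos H, hζ⟩
  have hval : w.valuation H (ζ : H) = 1 := val_of_finOrder hfin w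
  have h1 := Pool.Agent.K3h44.RS.t_FROBU F H G t σ hσ w hw ζ hval
  have h2 : act σ ζ * (ζ ^ (Ideal.absNorm t.asIdeal))⁻¹ = 1 := by
    refine root_eq_one ht ?_ hw ?_
    · rw [mul_pow, inv_pow, ← act_pow, hζ, act_map_one, pow_right_comm, hζ, one_pow, inv_one,
        mul_one]
    · rw [Units.val_mul, Units.val_inv_eq_inv_val, Units.val_pow_eq_pow_val, act_val]
      have h3 : σ • (ζ : H) * ((ζ : H) ^ (Ideal.absNorm t.asIdeal))⁻¹ - 1 =
          (σ • (ζ : H) - (ζ : H) ^ (Ideal.absNorm t.asIdeal)) *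
            ((ζ : H) ^ (Ideal.absNorm t.asIdeal))⁻¹ := by
        have : (ζ : H) ^ (Ideal.absNorm t.asIdeal) ≠ 0 := pow_ne_zero _ ζ.ne_zero
        field_simp
      rw [h3, map_mul, map_inv₀, map_pow, hval, one_pow, inv_one, mul_one]
      exact h1
  exact mul_inv_eq_one.1 h2

/-- the family of the quotients for an element with an abelian root -/
theorem exists_quots {ε : Hˣ} (h : AbOm F (Units.torsionOrder H) (ε : H)) {n : G → ℕ}
    (hn : ∀ γ, IsCyc H γ (n γ)) :
    ∃ u : G → Hˣ, (∀ γ, act γ ε = ε ^ (n γ) * (u γ) ^ (Units.torsionOrder H)) ∧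
      ∀ γ δ, act δ (u γ) * (u δ) ^ (n γ) = act γ (u δ) * (u γ) ^ (n δ) := by
  have hw := Units.torsionOrder_ne_zero H
  rw [abOm_iff G] at h
  obtain ⟨z, hz, hc⟩ := h
  choose σ hσ using fun γ : G => exists_lift (H := H) F γ
  have hε : algebraMap H (AlgebraicClosure H) (ε : H) ≠ 0 :=
    (map_ne_zero _).2 ε.ne_zero
  have hz0 : z ≠ 0 := by
    rintro rfl
    rw [zero_pow hw] at hz
    exact hε hz.symm
  have hfix : ∀ γ : G, ∀ τ : AlgebraicClosure H ≃ₐ[H] AlgebraicClosure H,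
      τ (σ γ z / z ^ (n γ)) = σ γ z / z ^ (n γ) := by
    intro γ τ
    have h1 : (τ z / z) ^ (Units.torsionOrder H) = 1 := by
      rw [div_pow, ← map_pow, hz, AlgEquiv.commutes, div_self hε]
    obtain ⟨ξ, hξ, hξz⟩ := root_in_H h1
    have h2 : τ z = algebraMap H _ (ξ : H) * z := by
      rw [hξz, div_mul_cancel₀ _ hz0]
    have h3 : τ (σ γ z) = σ γ (τ z) := hc (τ.restrictScalars F) (σ γ)
    have h4 : ((γ • (ξ : H) : H)) = (ξ : H) ^ (n γ) := by
      have := hn γ ξ hξ
      rw [← act_val, this, Units.val_pow_eq_pow_val]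
    rw [map_div₀, map_pow, h3, h2, map_mul, hσ, h4, map_pow, mul_pow, mul_div_mul_left]
    exact pow_ne_zero _ ((map_ne_zero _).2 ξ.ne_zero)
  have hgal : IsGalois H (AlgebraicClosure H) := inferInstance
  choose u hu using fun γ : G =>
    (InfiniteGalois.mem_range_algebraMap_iff_fixed (k := H) (σ γ z / z ^ (n γ))).2 (hfix γ)
  have hu0 : ∀ γ, u γ ≠ 0 := by
    intro γ h0
    have h1 := hu γ
    rw [h0, map_zero] at h1
    exact (div_ne_zero ((map_ne_zero _).2 hz0) (pow_ne_zero _ hz0)) h1.symm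
  refine ⟨fun γ => Units.mk0 (u γ) (hu0 γ), fun γ => ?_, fun γ δ => ?_⟩
  · ext
    apply (algebraMap H (AlgebraicClosure H)).injective
    rw [act_val, Units.val_mul, Units.val_pow_eq_pow_val, Units.val_pow_eq_pow_val, Units.val_mk0,
      map_mul, map_pow, map_pow, hu, ← hσ, ← hz, map_pow, div_pow, pow_right_comm,
      mul_div_cancel₀]
    exact pow_ne_zero _ (pow_ne_zero _ hz0)
  · ext
    apply (algebraMap H (AlgebraicClosure H)).injective
    rw [Units.val_mul, Units.val_mul, act_val, act_val, Units.val_pow_eq_pow_val,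
      Units.val_pow_eq_pow_val, Units.val_mk0, Units.val_mk0, map_mul, map_mul, ← hσ, ← hσ,
      map_pow, map_pow, hu, hu, map_div₀, map_div₀, map_pow, map_pow, hc (σ δ) (σ γ)]
    have h1 : (σ δ z : AlgebraicClosure H) ≠ 0 := (map_ne_zero _).2 hz0
    have h2 : (σ γ z : AlgebraicClosure H) ≠ 0 := (map_ne_zero _).2 hz0
    rw [div_pow, div_pow, div_mul_div_comm, div_mul_div_comm]
    rw [div_eq_div_iff (mul_ne_zero (pow_ne_zero _ h1) (pow_ne_zero _ (pow_ne_zero _ hz0)))
      (mul_ne_zero (pow_ne_zero _ h2) (pow_ne_zero _ (pow_ne_zero _ hz0)))]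
    ring

end Pool.Agent.H509
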