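import Pool.Agent.H509.Tate

/-!
# Elements with abelian roots and the groups `U_{S,{t}}`, II
-/

set_option autoImplicit false
set_option linter.unusedSectionVars false
set_option linter.style.haveILetI false

open NumberField IsDedekindDomain Filter Topology

noncomputable section

namespace Pool.Agent.H509

open Pool.Agent.K3h30.RS Pool.Agent.K3h62.RS Pool.Agent.K3h3.RS Pool.Agent.K3h81.RL
open Pool.Agent.N598.ST (AbRoot AbOm W)

variable {F H G : Type} [Field F] [NumberField F] [Field H] [NumberField H] [Algebra F H]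
  [CommGroup G] [Finite G] [MulSemiringAction G H] [IsGaloisGroup G F H]

/-- the action on the `S`-units -/
@[reducible] def actS (D : RubinData F H G) : DistribMulAction G (Additive (US D)) :=
  actionA (H := H) (G := G) Pool.Agent.K3h25.RS.t_TRANS (D.S : Set (HeightOneSpectrum (𝓞 F))) ∅

theorem zeta_mem_US (D : RubinData F H G) {ζ : Hˣ} (hζ : ζ ^ (Units.torsionOrder H) = 1) :
    ζ ∈ US D :=
  ⟨fun w _ => val_of_finOrder (isOfFinOrder_iff_pow_eq_one.2 ⟨_, Units.torsionOrder_pos H, hζ⟩) w,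
    fun w hw => by
      obtain ⟨v, hv, -⟩ := hw
      exact absurd hv (Set.notMem_empty v)⟩

theorem mem_US_of_pow (D : RubinData F H G) {x : Hˣ} {n : ℕ} (hn : n ≠ 0) (h : x ^ n ∈ US D) :
    x ∈ US D := by
  refine ⟨fun w hw => ?_, fun w hw => by
    obtain ⟨v, hv, -⟩ := hw
    exact absurd hv (Set.notMem_empty v)⟩
  have h1 := h.1 w hw
  rw [Units.val_pow_eq_pow_val, map_pow] at h1
  rcases lt_trichotomy (w.valuation H (x : H)) 1 with h2 | h2 | h2
  · exact absurd h1 (pow_lt_one₀ zero_le h2 hn).ne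
  · exact h2
  · exact absurd h1 (one_lt_pow₀ h2 hn).ne'

theorem act_mem_US (D : RubinData F H G) (γ : G) {x : Hˣ} (hx : x ∈ US D) : act γ x ∈ US D :=
  act_mem Pool.Agent.K3h25.RS.t_TRANS _ _ γ hx

/-- the primitive root of unity as a unit -/
theorem exists_zeta_unit (H : Type) [Field H] [NumberField H] :
    ∃ ζ : Hˣ, ζ ^ (Units.torsionOrder H) = 1 ∧ (∀ k : ℕ, ζ ^ k = 1 → Units.torsionOrder H ∣ k) ∧
      ∀ x : Hˣ, x ^ (Units.torsionOrder H) = 1 → ∃ i : ℕ, x = ζ ^ i := by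
  obtain ⟨ζ, hζ⟩ := exists_zeta H
  have : NeZero (Units.torsionOrder H) := ⟨Units.torsionOrder_ne_zero H⟩
  let z : Hˣ := (hζ.isUnit (Units.torsionOrder_ne_zero H)).unit
  have hz : (z : H) = ζ := rfl
  refine ⟨z, ?_, fun k hk => ?_, fun x hx => ?_⟩
  · ext
    rw [Units.val_pow_eq_pow_val, hz, hζ.pow_eq_one, Units.val_one]
  · refine hζ.dvd_of_pow_eq_one k ?_
    rw [← hz, ← Units.val_pow_eq_pow_val, hk, Units.val_one]
  · have h1 : (x : H) ^ (Units.torsionOrder H) = 1 := by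
      rw [← Units.val_pow_eq_pow_val, hx, Units.val_one]
    obtain ⟨i, -, hi⟩ := hζ.eq_pow_of_pow_eq_one h1
    refine ⟨i, ?_⟩
    ext
    rw [Units.val_pow_eq_pow_val, hz, hi]

/-- the character at `t` and the roots of unity -/
theorem char_zeta (D : RubinData F H G) {t : HeightOneSpectrum (𝓞 F)}
    (htw : ¬ ringChar (𝓞 F ⧸ t.asIdeal) ∣ Units.torsionOrder H)
    (χ : Additive (US D) →+ QZ)
    (hker : letI := actS D
      ∀ x : US D, (∀ γ : G, χ (γ • Additive.ofMul x) = 0) ↔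
        ∀ w : HeightOneSpectrum (𝓞 H), Above {t} w → w.valuation H (((x : Hˣ) : H) - 1) < 1)
    {ζ : Hˣ} (hζ : ζ ^ (Units.torsionOrder H) = 1)
    (hζ' : ∀ k : ℕ, ζ ^ k = 1 → Units.torsionOrder H ∣ k) :
    (Units.torsionOrder H) • χ (Additive.ofMul ⟨ζ, zeta_mem_US D hζ⟩) = 0 ∧
    ∀ k : ℕ, k • χ (Additive.ofMul ⟨ζ, zeta_mem_US D hζ⟩) = 0 → Units.torsionOrder H ∣ k := by
  letI := actS D
  have hpow : ∀ k : ℕ, k • χ (Additive.ofMul ⟨ζ, zeta_mem_US D hζ⟩) =
      χ (Additive.ofMul ((⟨ζ, zeta_mem_US D hζ⟩ : US D) ^ k)) := by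
    intro k
    rw [ofMul_pow, map_nsmul]
  constructor
  · have h1 : (⟨ζ, zeta_mem_US D hζ⟩ : US D) ^ (Units.torsionOrder H) = 1 := Subtype.ext hζ
    rw [hpow, h1, ofMul_one, map_zero]
  · intro k hk
    rw [hpow] at hk
    apply hζ'
    have hzk : (ζ ^ k) ^ (Units.torsionOrder H) = 1 := by
      rw [pow_right_comm, hζ, one_pow]
    obtain ⟨w, hw⟩ := (Pool.Agent.K3h25.RS.t_OVER F H t).1
    refine root_eq_one htw hzk hw ?_
    refine (hker ((⟨ζ, zeta_mem_US D hζ⟩ : US D) ^ k)).1 (fun γ => ?_) w hw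
    obtain ⟨n, hn⟩ := exists_cyc (H := H) γ
    have h2 : γ • Additive.ofMul ((⟨ζ, zeta_mem_US D hζ⟩ : US D) ^ k) =
        n • Additive.ofMul ((⟨ζ, zeta_mem_US D hζ⟩ : US D) ^ k) := by
      rw [← ofMul_pow]
      apply Additive.toMul.injective
      apply Subtype.ext
      exact hn (ζ ^ k) hzk
    rw [h2, map_nsmul, hk, smul_zero]

/-- **Tate's lemma.** If `ε` has an abelian `w`-th root then `ε ^ (σ_t - N t)` is the `w`-th power of
an element of `U_{S,{t}}`. -/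
theorem tate1 (D : RubinData F H G) {t : HeightOneSpectrum (𝓞 F)} (ht : t ∉ D.S)
    (htw : ¬ ringChar (𝓞 F ⧸ t.asIdeal) ∣ Units.torsionOrder H) (ε : US D)
    (hε : AbOm F (Units.torsionOrder H) ((ε : Hˣ) : H)) :
    ∃ v : US D, (v : Hˣ) ∈ D.U {t} ∧
      act (D.σ t) (ε : Hˣ) = (ε : Hˣ) ^ (Ideal.absNorm t.asIdeal) *
        (v : Hˣ) ^ (Units.torsionOrder H) := by
  classical
  letI := actS D
  have hw0 := Units.torsionOrder_ne_zero H
  obtain ⟨χ, m, hm0, hm, hfrob, hker, -⟩ := exists_char (G := G) Pool.Agent.K3h44.RS.t_DLOG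
    Pool.Agent.K3h44.RS.t_FROBU Pool.Agent.K3h25.RS.t_TRANS Pool.Agent.K3h25.RS.t_OVER D.S t ht
    (D.σ t) (D.frob t ht)
  choose n₀ hn₀ using fun γ : G => exists_cyc (H := H) γ
  let n : G → ℕ := Function.update n₀ (D.σ t) (Ideal.absNorm t.asIdeal)
  have hn : ∀ γ, IsCyc H γ (n γ) := by
    intro γ
    by_cases hγ : γ = D.σ t
    · rw [hγ]
      change IsCyc H (D.σ t) (Function.update n₀ (D.σ t) _ (D.σ t))
      rw [Function.update_self]
      exact isCyc_frob htw (D.frob t ht)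
    · change IsCyc H γ (Function.update n₀ (D.σ t) _ γ)
      rw [Function.update_of_ne hγ]
      exact hn₀ γ
  have hnσ : n (D.σ t) = Ideal.absNorm t.asIdeal := Function.update_self _ _ _
  obtain ⟨u, hu1, hu2⟩ := exists_quots hε hn
  have huS : ∀ γ, u γ ∈ US D := by
    intro γ
    refine mem_US_of_pow D hw0 ?_
    have h1 : u γ ^ (Units.torsionOrder H) = ((ε : Hˣ) ^ (n γ))⁻¹ * act γ (ε : Hˣ) := by
      rw [hu1, inv_mul_cancel_left]
    rw [h1]
    exact mul_mem (inv_mem (pow_mem ε.2 _)) (act_mem_US D γ ε.2)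
  let a : G → Additive (US D) := fun γ => Additive.ofMul ⟨u γ, huS γ⟩
  have ha1 : D.σ t • Additive.ofMul ε = (Ideal.absNorm t.asIdeal) • Additive.ofMul ε +
      (Units.torsionOrder H) • a (D.σ t) := by
    apply Additive.toMul.injective
    apply Subtype.ext
    have h1 := hu1 (D.σ t)
    rw [hnσ] at h1
    exact h1
  have ha2 : ∀ γ : G, γ • a (D.σ t) + (Ideal.absNorm t.asIdeal) • a γ =
      D.σ t • a γ + (n γ) • a (D.σ t) := by
    intro γ
    apply Additive.toMul.injective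
    apply Subtype.ext
    have h1 := hu2 (D.σ t) γ
    rw [hnσ] at h1
    exact h1
  have hχ1 : (Units.torsionOrder H) • χ (a (D.σ t)) = 0 := by
    have h1 := congrArg χ ha1
    rw [map_add, hfrob, map_nsmul, map_nsmul] at h1
    exact (add_eq_left.1 h1.symm)
  have hχ2 : ∀ γ : G, χ (γ • a (D.σ t)) = (n γ) • χ (a (D.σ t)) := by
    intro γ
    have h1 := congrArg χ (ha2 γ)
    rw [map_add, map_add, hfrob, map_nsmul, map_nsmul, add_comm] at h1
    exact add_left_cancel h1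
  obtain ⟨ζ, hζ1, hζ2, -⟩ := exists_zeta_unit H
  obtain ⟨hz1, hz2⟩ := char_zeta D htw χ hker hζ1 hζ2
  obtain ⟨i, hi⟩ := QZ_gen (Units.torsionOrder_pos H) hz1 hz2 hχ1
  have hvS : u (D.σ t) * (ζ ^ i)⁻¹ ∈ US D :=
    mul_mem (huS _) (inv_mem (zpow_mem (zeta_mem_US D hζ1) _))
  refine ⟨⟨u (D.σ t) * (ζ ^ i)⁻¹, hvS⟩, ⟨hvS.1, fun w hw => ?_⟩, ?_⟩
  · rw [Finset.coe_singleton] at hw
    refine (hker ⟨u (D.σ t) * (ζ ^ i)⁻¹, hvS⟩).1 (fun γ => ?_) w hw
    have h1 : Additive.ofMul (⟨u (D.σ t) * (ζ ^ i)⁻¹, hvS⟩ : US D) =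
        a (D.σ t) - i • Additive.ofMul (⟨ζ, zeta_mem_US D hζ1⟩ : US D) := by
      rw [sub_eq_add_neg]
      rfl
    have h2 : γ • Additive.ofMul (⟨ζ, zeta_mem_US D hζ1⟩ : US D) =
        (n γ) • Additive.ofMul (⟨ζ, zeta_mem_US D hζ1⟩ : US D) := by
      apply Additive.toMul.injective
      apply Subtype.ext
      exact hn γ ζ hζ1
    have h3 : γ • (i • Additive.ofMul (⟨ζ, zeta_mem_US D hζ1⟩ : US D)) =
        i • (γ • Additive.ofMul (⟨ζ, zeta_mem_US D hζ1⟩ : US D)) :=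
      map_zsmul (DistribSMul.toAddMonoidHom (Additive (US D)) γ) i _
    rw [h1, smul_sub, map_sub, hχ2, h3, h2, map_zsmul, map_nsmul, hi]
    have h4 : n γ • i • χ (Additive.ofMul (⟨ζ, zeta_mem_US D hζ1⟩ : US D)) =
        i • n γ • χ (Additive.ofMul (⟨ζ, zeta_mem_US D hζ1⟩ : US D)) := by
      rw [smul_comm]
    rw [h4, sub_self]
  · have h1 := hu1 (D.σ t)
    rw [hnσ] at h1
    rw [h1]
    congr 1
    change u (D.σ t) ^ _ = (u (D.σ t) * (ζ ^ i)⁻¹) ^ _
    rw [mul_pow, inv_pow, ← zpow_natCast (ζ ^ i), ← zpow_mul, mul_comm i, zpow_mul, zpow_natCast,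
      hζ1, one_zpow, inv_one, mul_one]

end Pool.Agent.H509
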