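import Pool.Agent.H509.Cls2
import Pool.Graph.R_pool_sql_team_seeded_5cf16337.K3h66.RS.Mono
import Pool.Graph.R_pool_sql_team_seeded_5cf16337.K3h36.RS.APPROX0
import Pool.Graph.R_pool_sql_team_seeded_5cf16337.K3h30.RS.Dich
import Pool.Graph.R_pool_sql_team_seeded_5cf16337.K3h23.RS.Tors

/-!
# The change of `T`, locally at `p`
-/

set_option autoImplicit false
set_option linter.unusedSectionVars false
set_option linter.style.haveILetI false

open NumberField IsDedekindDomain Filter Topology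

noncomputable section

namespace Pool.Agent.H509

open Pool.Agent.K3h30.RS Pool.Agent.K3h62.RS Pool.Agent.K3h3.RS Pool.Agent.K3h81.RL

theorem exists_of_pos {F : Type} [Field F] [NumberField F] {P : HeightOneSpectrum (𝓞 F) → Prop}
    (hP : PosProportion P) : ∃ v, P v := by
  by_contra hcon
  push Not at hcon
  obtain ⟨c, hc, hX⟩ := hP
  have h1 : ∀ᶠ X : ℕ in atTop, (1 : ℝ) ≤ (Nat.primeCounting X : ℝ) :=
    (tendsto_natCast_atTop_atTop.comp Nat.tendsto_primeCounting).eventually_ge_atTop _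
  obtain ⟨X, h2, h3⟩ := (hX.and h1).exists
  have h4 : Nat.card {v : HeightOneSpectrum (𝓞 F) // P v ∧ Ideal.absNorm v.asIdeal ≤ X} = 0 := by
    rw [Nat.card_eq_zero]
    left
    exact ⟨fun v => hcon v.1 v.2.1⟩
  rw [h4, Nat.cast_zero] at h2
  nlinarith

variable {F H G : Type} [Field F] [NumberField F] [Field H] [NumberField H] [Algebra F H]
  [CommGroup G] [Finite G] [MulSemiringAction G H]

/-- a prime ideal is useful for `p` if it splits completely in `H`, its norm is not `1` modulo `p`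
and its residue characteristic is large -/
def Useful (D : RubinData F H G) (p : ℕ) (t : HeightOneSpectrum (𝓞 F)) : Prop :=
  t ∉ D.S ∧ D.σ t = 1 ∧ ¬ p ∣ Ideal.absNorm t.asIdeal - 1 ∧
    Module.finrank ℚ F + 1 < ringChar (𝓞 F ⧸ t.asIdeal)

open Classical in
theorem exists_useful [IsGaloisGroup G F H] (D : RubinData F H G) {p : ℕ} (hp : p.Prime)
    (hz : ¬ ∃ ζ : H, ζ ^ p = 1 ∧ ζ ≠ 1) (bad : Finset (HeightOneSpectrum (𝓞 F))) :
    ∃ t, Useful D p t ∧ t ∉ bad := by
  obtain ⟨P, hP, hP'⟩ := Pool.Agent.K3h36.RS.t_APPROX0 Pool.Agent.K3h73.RS.t_CHEB F H G p hp hz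
  obtain ⟨t, ht⟩ := exists_of_pos (posProportion_diff hP
    (bad ∪ D.S ∪ (finite_small F (Module.finrank ℚ F + 1)).toFinset))
  simp only [Finset.mem_union, not_or, Set.Finite.mem_toFinset, Set.mem_ofPred_eq, not_le] at ht
  obtain ⟨h1, ⟨h2, h3⟩, h4⟩ := ht
  obtain ⟨h5, h6⟩ := hP' t h1
  exact ⟨t, ⟨h3, Pool.Agent.K3h23.RS.t_FROBUNIQ F H G t (D.unramified t h3) _ _ (D.frob t h3) h5,
    h6, h4⟩, h2⟩

/-- `M`-integrality of `δ_T u` -/
def IntM (M : Submonoid ℕ) (D : RubinData F H G) {U : Subgroup Hˣ} (hU : U ≤ US D)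
    (u : Wedge G D.r U) (T : Finset (HeightOneSpectrum (𝓞 F))) : Prop :=
  ∀ f : Fin D.r → Additive (US D) →+ MonoidAlgebra ℚ G, (∀ i, IsEquiv D (f i)) →
    (∀ i, IntOn D T (f i)) → ∃ n ∈ M,
      (n : MonoidAlgebra ℚ G) * (D.delta T * wval D hU f u) ∈ (toQ (G := G)).range

/-- uniqueness of the Stark element -/
theorem uniq : S_UNIQ :=
  Pool.Agent.K3h3.RS.t_UNIQ (Pool.Agent.K3h40.RS.t_SPANREG Pool.Agent.K3h40.RS.t_LOGINJ)

theorem delta_empty (D : RubinData F H G) : D.delta ∅ = 1 := by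
  unfold RubinData.delta
  rw [Finset.prod_empty]

theorem intM_of_rubinM [IsGaloisGroup G F H] {M : Submonoid ℕ} (D : RubinData F H G)
    {U₀ : Subgroup Hˣ} (h₀ : U₀ ≤ US D) (u₀ : Wedge G D.r U₀) (e₀ : D.InER u₀)
    (s₀ : D.IsStark ∅ u₀) (T : Finset (HeightOneSpectrum (𝓞 F))) (h : RubinM M D T) :
    IntM M D h₀ u₀ T := by
  obtain ⟨u, e, s, hint⟩ := h
  intro f hf hi
  have h1 := uniq F H G D ∅ T U₀ (D.U T) h₀ (U_le D T) u₀ u e₀ e s₀ s f hf
  rw [delta_empty, one_mul] at h1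
  rw [h1]
  choose ψ hψ using fun i => exists_restrict D T (f i) (hf i) (hi i)
  obtain ⟨n, hn, z, hz⟩ := hint ψ
  refine ⟨n, hn, z, ?_⟩
  rw [← hz]
  congr 1
  unfold Wedge.value wval
  refine Finset.sum_congr rfl fun k _ => ?_
  congr 1
  rw [RingHom.map_det]
  congr 1
  ext i j : 1
  simp only [RingHom.mapMatrix_apply, Matrix.map_apply, Matrix.of_apply]
  exact hψ i (u.x k j)

/-- powers of `S`-units are in `U_{S,T}` -/
theorem exists_pow_US [IsGaloisGroup G F H] (D : RubinData F H G)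
    (T : Finset (HeightOneSpectrum (𝓞 F))) (hT : Disjoint D.S T) :
    ∃ m : ℕ, 0 < m ∧ ∀ x : US D, (x : Hˣ) ^ m ∈ D.U T := by
  obtain ⟨m, hm, hm'⟩ := exists_exp (H := H) T
  refine ⟨m, hm, fun x => ⟨(pow_mem x.2 m).1, fun w hw => ?_⟩⟩
  rw [Units.val_pow_eq_pow_val]
  refine hm' w hw _ (x.2.1 w ?_)
  obtain ⟨v, hv, hvw⟩ := above_mem hw
  rw [above_iff hvw]
  exact fun h => Finset.disjoint_left.1 hT (Finset.mem_coe.1 h) (Finset.mem_coe.1 hv)

theorem rubinM_of_intM [IsGaloisGroup G F H] {M : Submonoid ℕ} (D : RubinData F H G)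
    (u₀ : Wedge G D.r (D.U ∅)) (e₀ : D.InER u₀) (s₀ : D.IsStark ∅ u₀)
    (T : Finset (HeightOneSpectrum (𝓞 F))) (hT : Disjoint D.S T)
    (h : IntM M D (U_le D ∅) u₀ T) : RubinM M D T := by
  obtain ⟨m, hm0, hm⟩ := exists_pow_US D T hT
  refine ⟨moved D u₀ 1 m hm, moved_er D u₀ 1 m hm e₀, ?_, ?_⟩
  · refine Pool.Agent.K3h62.RS.t_LFUN F H G D ∅ T (D.delta T) ?_ (D.U ∅) (D.U T) u₀ _ ?_ s₀
    · rw [delta_empty, one_mul]
    · rw [moved_regulator D u₀ 1 hm0 hm, mul_one]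
  · intro ψ
    -- the rational extension
    let f : Fin D.r → Additive (US D) →+ MonoidAlgebra ℚ G := fun i =>
      { toFun := fun x => ((m : ℚ)⁻¹) • toQ ((ψ i).f (Additive.ofMul
          ⟨((Additive.toMul x : US D) : Hˣ) ^ m, hm (Additive.toMul x)⟩))
        map_zero' := by
          have : (Additive.ofMul (⟨((Additive.toMul (0 : Additive (US D)) : US D) : Hˣ) ^ m,
              hm (Additive.toMul 0)⟩ : D.U T)) = 0 := by
            apply Additive.toMul.injective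
            ext
            simp
          rw [this, map_zero, map_zero, smul_zero]
        map_add' := by
          intro x y
          rw [← smul_add, ← map_add, ← map_add]
          congr 3
          apply Additive.toMul.injective
          ext
          simp [mul_pow] }
    have hfm : ∀ i (x : US D), toQ ((ψ i).f (Additive.ofMul ⟨(x : Hˣ) ^ m, hm x⟩)) =
        (m : MonoidAlgebra ℚ G) * f i (Additive.ofMul x) := by
      intro i x
      change _ = (m : MonoidAlgebra ℚ G) * (((m : ℚ)⁻¹) •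
        toQ ((ψ i).f (Additive.ofMul ⟨(x : Hˣ) ^ m, hm x⟩)))
      rw [mul_smul_comm]
      have h3 : (m : MonoidAlgebra ℚ G) = ((m : ℚ)) • (1 : MonoidAlgebra ℚ G) := by
        rw [Algebra.smul_def, mul_one, map_natCast]
      rw [h3, smul_mul_assoc, one_mul, smul_smul, inv_mul_cancel₀ (by positivity), one_smul]
    have hf1 : ∀ i, IsEquiv D (f i) := by
      intro i γ x y hxy
      apply natCast_cancel hm0
      rw [← hfm, mul_left_comm, ← hfm]
      have h3 : toQ (MonoidAlgebra.single γ (1 : ℤ)) = MonoidAlgebra.single γ (1 : ℚ) := by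
        simp [toQ]
      rw [← h3, ← map_mul]
      congr 1
      refine (ψ i).equiv γ _ _ ?_
      change (y : Hˣ) ^ m = act γ ((x : Hˣ) ^ m)
      rw [hxy, act_pow]
    have hf2 : ∀ i, IntOn D T (f i) := by
      intro i x hx
      refine ⟨(ψ i).f (Additive.ofMul ⟨(x : Hˣ), hx⟩), ?_⟩
      apply natCast_cancel hm0
      rw [← hfm]
      have h3 : (Additive.ofMul (⟨(x : Hˣ) ^ m, hm x⟩ : D.U T)) =
          m • Additive.ofMul (⟨(x : Hˣ), hx⟩ : D.U T) := rfl
      rw [h3, map_nsmul, nsmul_eq_mul, map_mul, map_natCast]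
    obtain ⟨n, hn, z, hz⟩ := h f hf1 hf2
    refine ⟨n, hn, z, ?_⟩
    rw [hz]
    congr 1
    unfold Wedge.value wval
    rw [Finset.mul_sum]
    change (∑ k : Fin u₀.n, (((m : ℚ)⁻¹ ^ D.r) • (D.delta T * (1 * u₀.c k))) *
      toQ (Matrix.det (Matrix.of fun i j =>
        (ψ i).f (Additive.ofMul ⟨(u₀.x k j : Hˣ) ^ m, hm ⟨(u₀.x k j : Hˣ),
          mem_US_of_mem D ∅ (u₀.x k j).2⟩⟩)))) = _
    refine Finset.sum_congr rfl fun k _ => ?_
    rw [RingHom.map_det]
    have h4 : (toQ (G := G)).mapMatrix (Matrix.of fun i j =>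
        (ψ i).f (Additive.ofMul ⟨(u₀.x k j : Hˣ) ^ m, hm ⟨(u₀.x k j : Hˣ),
          mem_US_of_mem D ∅ (u₀.x k j).2⟩⟩)) =
        Matrix.of fun i j => (m : MonoidAlgebra ℚ G) *
          f i (Additive.ofMul ⟨(u₀.x k j : Hˣ), U_le D ∅ (u₀.x k j).2⟩) := by
      ext i j : 1
      simp only [RingHom.mapMatrix_apply, Matrix.map_apply, Matrix.of_apply]
      exact hfm i ⟨(u₀.x k j : Hˣ), U_le D ∅ (u₀.x k j).2⟩
    rw [h4, det_natCast_mul, smul_natCast_mul hm0, one_mul, mul_assoc]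

/-- a common denominator prime to `p` -/
theorem exists_common {U : Subgroup Hˣ} [IsGaloisGroup G F H] (D : RubinData F H G) (hU : U ≤ US D)
    (u : Wedge G D.r U) {p : ℕ} (hp : p.Prime) (T : Finset (HeightOneSpectrum (𝓞 F)))
    (hT : Disjoint D.S T) (h : IntM (notDvd p hp) D hU u T) : ∃ n : ℕ, ¬ p ∣ n ∧
      ∀ f : Fin D.r → Additive (US D) →+ MonoidAlgebra ℚ G, (∀ i, IsEquiv D (f i)) →
        (∀ i, IntOn D T (f i)) →
        (n : MonoidAlgebra ℚ G) * (D.delta T * wval D hU f u) ∈ (toQ (G := G)).range := by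
  obtain ⟨m, hm0, hm⟩ := exists_pow_US D T hT
  obtain ⟨N, hN, hN'⟩ := exists_denom_all u.c
  have hall : ∀ f : Fin D.r → Additive (US D) →+ MonoidAlgebra ℚ G, (∀ i, IsEquiv D (f i)) →
        (∀ i, IntOn D T (f i)) →
        ((N * m ^ D.r : ℕ) : MonoidAlgebra ℚ G) * (D.delta T * wval D hU f u) ∈
          (toQ (G := G)).range := by
    intro f _ hi
    have h1 : ((N * m ^ D.r : ℕ) : MonoidAlgebra ℚ G) * (D.delta T * wval D hU f u) =
        D.delta T * ∑ k, ((N : MonoidAlgebra ℚ G) * u.c k) *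
          Matrix.det (Matrix.of fun i j => (m : MonoidAlgebra ℚ G) *
            f i (Additive.ofMul ⟨(u.x k j : Hˣ), hU (u.x k j).2⟩)) := by
      unfold wval
      simp only [det_natCast_mul, Finset.mul_sum]
      refine Finset.sum_congr rfl fun k _ => ?_
      push_cast
      ring
    rw [h1]
    refine mul_mem (delta_mem D T) (sum_mem fun k _ => mul_mem (hN' k) ?_)
    have h2 : ∀ i j, ∃ z : MonoidAlgebra ℤ G, toQ z = (m : MonoidAlgebra ℚ G) *
        f i (Additive.ofMul ⟨(u.x k j : Hˣ), hU (u.x k j).2⟩) := by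
      intro i j
      obtain ⟨z, hz⟩ := hi i (⟨(u.x k j : Hˣ), hU (u.x k j).2⟩ ^ m)
        (hm ⟨(u.x k j : Hˣ), hU (u.x k j).2⟩)
      refine ⟨z, ?_⟩
      rw [hz, ofMul_pow, map_nsmul, nsmul_eq_mul]
    choose z hz using h2
    have h3 : (Matrix.of fun i j => (m : MonoidAlgebra ℚ G) *
            f i (Additive.ofMul ⟨(u.x k j : Hˣ), hU (u.x k j).2⟩)) =
        (toQ (G := G)).mapMatrix (Matrix.of z) := by
      ext i j : 1
      simp only [RingHom.mapMatrix_apply, Matrix.map_apply, Matrix.of_apply]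
      exact (hz i j).symm
    rw [h3, ← RingHom.map_det]
    exact ⟨_, rfl⟩
  obtain ⟨a, n, hn, hNe⟩ := Nat.exists_eq_pow_mul_and_not_dvd
    (Nat.mul_pos hN (pow_pos hm0 D.r)).ne' p hp.one_lt.ne'
  refine ⟨n, hn, fun f hf hi => ?_⟩
  obtain ⟨n', hn', h2⟩ := h f hf hi
  have h1 := hall f hf hi
  rw [hNe] at h1
  -- Bezout
  have hcop : Nat.Coprime (p ^ a) n' :=
    Nat.Coprime.pow_left a ((Nat.Prime.coprime_iff_not_dvd hp).2 hn')
  have hbez := Nat.gcd_eq_gcd_ab (p ^ a) n'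
  rw [Nat.Coprime] at hcop
  rw [hcop] at hbez
  set z := D.delta T * wval D hU f u
  have h3 : (n : MonoidAlgebra ℚ G) * z = ((Nat.gcdA (p ^ a) n' : ℤ) : MonoidAlgebra ℚ G) *
      (((p ^ a * n : ℕ) : MonoidAlgebra ℚ G) * z) +
      ((Nat.gcdB (p ^ a) n' : ℤ) : MonoidAlgebra ℚ G) * ((n : MonoidAlgebra ℚ G) *
        ((n' : MonoidAlgebra ℚ G) * z)) := by
    have h4 : (1 : MonoidAlgebra ℚ G) = ((p ^ a : ℕ) : MonoidAlgebra ℚ G) *
        ((Nat.gcdA (p ^ a) n' : ℤ) : MonoidAlgebra ℚ G) + (n' : MonoidAlgebra ℚ G) *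
        ((Nat.gcdB (p ^ a) n' : ℤ) : MonoidAlgebra ℚ G) := by
      have h5 := congrArg (fun k : ℤ => (k : MonoidAlgebra ℚ G)) hbez
      push_cast at h5 ⊢
      exact h5
    have h5 : (n : MonoidAlgebra ℚ G) * z = (1 : MonoidAlgebra ℚ G) *
      ((n : MonoidAlgebra ℚ G) * z) := by rw [one_mul]
    rw [h5]
    conv_lhs => rw [h4]
    push_cast
    ring
  rw [h3]
  exact add_mem (mul_mem (intCast_mem _ _) h1)
    (mul_mem (intCast_mem _ _) (mul_mem (natCast_mem _ _) h2))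

/-- from `{v}` to larger sets `T` -/
theorem intM_mono {U : Subgroup Hˣ} [IsGaloisGroup G F H] (D : RubinData F H G) (hU : U ≤ US D)
    (u : Wedge G D.r U) {p : ℕ} (hp : p.Prime) (v : HeightOneSpectrum (𝓞 F))
    (T : Finset (HeightOneSpectrum (𝓞 F))) (hv : v ∈ T) (hT : Disjoint D.S T)
    (hchar : Module.finrank ℚ F + 1 < ringChar (𝓞 F ⧸ v.asIdeal))
    (h : IntM (notDvd p hp) D hU u {v}) : IntM (notDvd p hp) D hU u T := by
  have hvS : v ∉ D.S := fun h => Finset.disjoint_left.1 hT h hv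
  obtain ⟨n, hn, h1⟩ := exists_common D hU u hp {v} (Finset.disjoint_singleton_right.2 hvS) h
  let u' : Wedge G D.r U := ⟨u.n, fun k => (n : MonoidAlgebra ℚ G) * u.c k, u.x⟩
  have hval : ∀ f : Fin D.r → Additive (US D) →+ MonoidAlgebra ℚ G,
      wval D hU f u' = (n : MonoidAlgebra ℚ G) * wval D hU f u := by
    intro f
    unfold wval
    rw [Finset.mul_sum]
    refine Finset.sum_congr rfl fun k _ => ?_
    rw [← mul_assoc]
  have h2 : IntAt D hU u' {v} := by
    intro f hf hi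
    rw [hval, mul_left_comm]
    exact h1 f hf hi
  have h3 := Pool.Agent.K3h66.RS.t_MONO F H G D U hU u' v T hv hT
    (Pool.Agent.K3h23.RS.t_TORS Pool.Agent.K3h36.RS.t_NOZETA F H G D v hvS hchar) h2
  intro f hf hi
  refine ⟨n, hn, ?_⟩
  have h4 := h3 f hf hi
  rw [hval, mul_left_comm] at h4
  exact h4

open Classical in
/-- removing a useful prime ideal from `T` -/
theorem intM_drop {U : Subgroup Hˣ} [IsGaloisGroup G F H] (D : RubinData F H G) (hU : U ≤ US D)
    (u : Wedge G D.r U) {p : ℕ} (hp : p.Prime) {t : HeightOneSpectrum (𝓞 F)}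
    (ht : Useful D p t) (T : Finset (HeightOneSpectrum (𝓞 F)))
    (h : IntM (notDvd p hp) D hU u (insert t T)) : IntM (notDvd p hp) D hU u T := by
  by_cases htT : t ∈ T
  · rwa [Finset.insert_eq_of_mem htT] at h
  · intro f hf hi
    obtain ⟨n, hn, h1⟩ := h f hf (fun i x hx => hi i x ⟨hx.1, fun w hw => hx.2 w (by
      obtain ⟨v, hv, hvw⟩ := above_mem hw
      rw [above_iff hvw]
      exact Finset.mem_coe.2 (Finset.mem_insert_of_mem (Finset.mem_coe.1 hv)))⟩)
    refine ⟨n * (Ideal.absNorm t.asIdeal - 1), mul_mem hn ht.2.2.1, ?_⟩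
    rw [delta_insert D htT, ht.2.1, inv_one] at h1
    have h2 : (1 - MonoidAlgebra.single (1 : G) (Ideal.absNorm t.asIdeal : ℚ)) =
        -(((Ideal.absNorm t.asIdeal - 1 : ℕ) : MonoidAlgebra ℚ G)) := by
      have h3 : 1 ≤ Ideal.absNorm t.asIdeal := by
        have := two_le_absNorm t
        omega
      push_cast [h3]
      rw [← MonoidAlgebra.natCast_def]
      ring
    rw [h2] at h1
    have h4 : ((n * (Ideal.absNorm t.asIdeal - 1) : ℕ) : MonoidAlgebra ℚ G) *
        (D.delta T * wval D hU f u) = -((n : MonoidAlgebra ℚ G) *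
        (-((Ideal.absNorm t.asIdeal - 1 : ℕ) : MonoidAlgebra ℚ G) * D.delta T * wval D hU f u)) := by
      push_cast
      ring
    rw [h4]
    exact neg_mem h1

open Classical in
/-- **All `T`.** -/
theorem all_T [IsGaloisGroup G F H] (D : RubinData F H G) {p : ℕ} (hp : p.Prime)
    {t : HeightOneSpectrum (𝓞 F)} (ht : Useful D p t) (h : RubinM (notDvd p hp) D {t})
    (T : Finset (HeightOneSpectrum (𝓞 F))) (hT : Disjoint D.S T) :
    RubinM (notDvd p hp) D T := by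
  obtain ⟨u, e, s, -⟩ := id h
  obtain ⟨_, _, hden⟩ := exists_den D {t} u e s
  obtain ⟨u₀, e₀, s₀, -⟩ := hden ∅ (Finset.disjoint_empty_right _)
  refine rubinM_of_intM D u₀ e₀ s₀ T hT ?_
  refine intM_drop D (U_le D ∅) u₀ hp ht T ?_
  refine intM_mono D (U_le D ∅) u₀ hp t (insert t T) (Finset.mem_insert_self _ _) ?_ ht.2.2.2 ?_
  · rw [Finset.disjoint_insert_right]
    exact ⟨ht.1, hT⟩
  · exact intM_of_rubinM D (U_le D ∅) u₀ e₀ s₀ {t} h

/-- generation modulo a useful prime ideal -/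
theorem generates_useful [IsGaloisGroup G F H] (D : RubinData F H G) {p : ℕ} (hp : p.Prime)
    {t : HeightOneSpectrum (𝓞 F)} (ht : Useful D p t) {S : Set (HeightOneSpectrum (𝓞 F))}
    (htS : t ∉ S) (h : Generates H (notDvd p hp) S ∅) :
    Generates H (notDvd p hp) S {t} := by
  intro Q hQS hQt
  obtain ⟨n, hn, hn0, x, h1, h2, -⟩ := h Q hQS (fun h => by
    obtain ⟨v, hv, -⟩ := h
    exact absurd hv (Set.notMem_empty v))
  have hN : 0 < Ideal.absNorm t.asIdeal - 1 := absNorm_sub_pos t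
  refine ⟨n * (Ideal.absNorm t.asIdeal - 1), mul_mem hn ht.2.2.1, Nat.mul_pos hn0 hN,
    x ^ (Ideal.absNorm t.asIdeal - 1), ?_, fun w hw hne => ?_, fun w hw => ?_⟩
  · rw [Units.val_pow_eq_pow_val, map_pow, h1, ← WithZero.exp_nsmul]
    congr 1
    push_cast
    rw [nsmul_eq_mul]
    ring
  · rw [Units.val_pow_eq_pow_val, map_pow, h2 w hw hne, one_pow]
  · have hwt : Above {t} w := hw
    have h3 : w.valuation H (x : H) = 1 := by
      refine h2 w ?_ ?_
      · rw [above_iff hwt]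
        exact htS
      · rintro rfl
        exact hQt hw
    have h4 : Ideal.absNorm w.asIdeal = Ideal.absNorm t.asIdeal :=
      absNorm_eq (ht.2.1 ▸ D.frob t ht.1) hwt
    rw [Units.val_pow_eq_pow_val, ← h4]
    exact pow_norm_sub_one w h3

open Classical in
/-- **One case for all `S` and `T`.** -/
theorem mainB [IsGaloisGroup G F H] (D : RubinData F H G) {p : ℕ} (hp : p.Prime)
    (hz : ¬ ∃ ζ : H, ζ ^ p = 1 ∧ ζ ≠ 1) (V : Finset (HeightOneSpectrum (𝓞 F)))
    (hσ : ∀ v ∈ V, v ∉ D.S → D.σ v = 1)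
    (hgen : Generates H (notDvd p hp) ((D.S ∪ V : Finset (HeightOneSpectrum (𝓞 F))) :
      Set (HeightOneSpectrum (𝓞 F))) ∅)
    {t : HeightOneSpectrum (𝓞 F)} (ht : Useful D p t) (htV : t ∉ V)
    (D₁ : RubinData F H G) (hD₁ : D₁.S = D.S ∪ V) (h : RubinM (notDvd p hp) D₁ {t})
    (D' : RubinData F H G) (hD' : D.S ⊆ D'.S) (T : Finset (HeightOneSpectrum (𝓞 F)))
    (hT : Disjoint D'.S T) : RubinM (notDvd p hp) D' T := by
  obtain ⟨t', ht', ht'2⟩ := exists_useful D hp hz (D₁.S ∪ D'.S)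
  rw [Finset.mem_union, not_or] at ht'2
  have hle : D.S ⊆ D₁.S := by rw [hD₁]; exact Finset.subset_union_left
  have ht1 : Useful D₁ p t := by
    refine ⟨?_, ?_, ht.2.2⟩
    · rw [hD₁, Finset.mem_union, not_or]
      exact ⟨ht.1, htV⟩
    · rw [← sigma_eq hle]
      · exact ht.2.1
      · rw [hD₁, Finset.mem_union, not_or]
        exact ⟨ht.1, htV⟩
  have h1 : RubinM (notDvd p hp) D₁ {t'} :=
    all_T D₁ hp ht1 h {t'} (Finset.disjoint_singleton_right.2 ht'2.1)
  have ht'V : t' ∉ V := fun h => ht'2.1 (by rw [hD₁]; exact Finset.mem_union_right _ h)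
  have h2 : RubinM (notDvd p hp) D' {t'} := by
    refine main D V hσ (Finset.disjoint_singleton_right.2 ht'V) ?_ D₁ hD₁ h1 D' hD'
      (Finset.disjoint_singleton_right.2 ht'2.2)
    rw [Finset.coe_singleton]
    refine generates_useful D hp ht' ?_ hgen
    rw [← hD₁]
    exact fun h => ht'2.1 (Finset.mem_coe.1 h)
  refine all_T D' hp ⟨ht'2.2, ?_, ht'.2.2⟩ h2 T hT
  rw [← sigma_eq hD' ht'2.2]
  exact ht'.2.1

end Pool.Agent.H509
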