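import Pool.Agent.H509.AllST

/-!
# The roots of unity congruent to one modulo `T`
-/

set_option autoImplicit false
set_option linter.unusedSectionVars false
set_option linter.style.haveILetI false

open NumberField IsDedekindDomain Filter Topology

noncomputable section

namespace Pool.Agent.H509

open Pool.Agent.K3h30.RS Pool.Agent.K3h62.RS Pool.Agent.K3h3.RS Pool.Agent.K3h81.RL

variable {F H G : Type} [Field F] [NumberField F] [Field H] [NumberField H] [Algebra F H]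
  [CommGroup G] [Finite G] [MulSemiringAction G H]

/-- a root of unity of prime order `p` which is congruent to one modulo `v` has `p` as residue
characteristic -/
theorem ringChar_of_root {p : ℕ} (hp : p.Prime) {y : Hˣ} (hyp : y ^ p = 1) (hy1 : y ≠ 1)
    {v : HeightOneSpectrum (𝓞 F)} {w : HeightOneSpectrum (𝓞 H)} (hw : Above {v} w)
    (hval : w.valuation H ((y : H) - 1) < 1) : ringChar (𝓞 F ⧸ v.asIdeal) = p := by
  have hyv : w.valuation H (y : H) = 1 := val_one_of_sub hval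
  have hyH1 : (y : H) ≠ 1 := fun h => hy1 (Units.ext h)
  have hypH : (y : H) ^ p = 1 := by
    rw [← Units.val_pow_eq_pow_val, hyp, Units.val_one]
  have hgeom : ∑ i ∈ Finset.range p, (y : H) ^ i = 0 := by
    have h1 := geom_sum_mul (y : H) p
    rw [hypH, sub_self] at h1
    rcases mul_eq_zero.mp h1 with h | h
    · exact h
    · exact absurd (sub_eq_zero.mp h) hyH1
  have hpow : ∀ i : ℕ, w.valuation H ((y : H) ^ i - 1) < 1 :=
    fun i => Pool.Agent.K3h30.RS.pow_sub_one_lt hval i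
  have hpval : w.valuation H ((p : ℕ) : H) < 1 := by
    have h1 : ((p : ℕ) : H) = -∑ i ∈ Finset.range p, ((y : H) ^ i - 1) := by
      rw [Finset.sum_sub_distrib, hgeom, Finset.sum_const, Finset.card_range, nsmul_one]
      ring
    rw [h1, Valuation.map_neg]
    exact Valuation.map_sum_lt _ one_ne_zero fun i _ => hpow i
  have hpw : ((p : ℕ) : 𝓞 H) ∈ w.asIdeal := by
    rw [← HeightOneSpectrum.valuation_lt_one_iff_mem (K := H)]
    have h1 : ((((p : ℕ) : 𝓞 H)) : H) = ((p : ℕ) : H) := map_natCast (algebraMap (𝓞 H) H) p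
    have h2 : w.valuation H ((((p : ℕ) : 𝓞 H)) : H) < 1 := by
      rw [h1]
      exact hpval
    exact h2
  have hpv : ((p : ℕ) : 𝓞 F) ∈ v.asIdeal := by
    obtain ⟨v', hv', hvw⟩ := hw
    rw [Set.mem_singleton_iff] at hv'
    subst hv'
    rw [← hvw, Ideal.mem_comap, map_natCast]
    exact hpw
  have := v.isMaximal
  have : Nontrivial (𝓞 F ⧸ v.asIdeal) := Ideal.Quotient.nontrivial_iff.mpr v.isPrime.ne_top
  have h0 : ((p : ℕ) : 𝓞 F ⧸ v.asIdeal) = 0 := by
    have h1 : (Ideal.Quotient.mk v.asIdeal) ((p : ℕ) : 𝓞 F) = 0 :=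
      Ideal.Quotient.eq_zero_iff_mem.mpr hpv
    rwa [map_natCast] at h1
  have hdvd := ringChar.dvd h0
  rcases (Nat.dvd_prime hp).mp hdvd with h | h
  · exfalso
    have h2 : ((1 : ℕ) : 𝓞 F ⧸ v.asIdeal) = 0 := by
      rw [ringChar.spec, h]
    rw [Nat.cast_one] at h2
    exact one_ne_zero h2
  · exact h

/-- a power of prime order -/
theorem exists_prime_pow {x : Hˣ} (hfin : IsOfFinOrder x) {p : ℕ} (hp : p.Prime)
    (hpn : p ∣ orderOf x) : ∃ m : ℕ, (x ^ m) ^ p = 1 ∧ x ^ m ≠ 1 := by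
  have hn0 : 0 < orderOf x := hfin.orderOf_pos
  obtain ⟨m, hm⟩ := hpn
  have hm0 : 0 < m := by
    rcases Nat.eq_zero_or_pos m with h | h
    · rw [h, mul_zero] at hm
      omega
    · exact h
  refine ⟨m, ?_, fun h => ?_⟩
  · rw [← pow_mul, mul_comm m p, ← hm, pow_orderOf_eq_one]
  · have h1 := orderOf_dvd_of_pow_eq_one h
    have h2 := Nat.le_of_dvd hm0 h1
    have h3 : 2 * m ≤ p * m := Nat.mul_le_mul_right m hp.two_le
    omega

/-- No `p`-th root of unity of `H` except for `1` is congruent to one modulo all prime ideals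
over `T`. -/
def PFree (H : Type) [Field H] [NumberField H] [Algebra F H] (p : ℕ)
    (T : Finset (HeightOneSpectrum (𝓞 F))) : Prop :=
  ∀ ζ : Hˣ, ζ ^ p = 1 →
    (∀ v : HeightOneSpectrum (𝓞 H), Above (T : Set (HeightOneSpectrum (𝓞 F))) v →
      v.valuation H ((ζ : H) - 1) < 1) → ζ = 1

theorem val_of_finOrder {x : Hˣ} (h : IsOfFinOrder x) (w : HeightOneSpectrum (𝓞 H)) :
    w.valuation H (x : H) = 1 := by
  obtain ⟨n, hn, h1⟩ := isOfFinOrder_iff_pow_eq_one.1 h
  have h2 : w.valuation H ((x : H) ^ n) = 1 := by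
    rw [← Units.val_pow_eq_pow_val, h1, Units.val_one, map_one]
  rw [map_pow] at h2
  rcases lt_trichotomy (w.valuation H (x : H)) 1 with h3 | h3 | h3
  · exact absurd h2 (pow_lt_one₀ zero_le h3 hn.ne').ne
  · exact h3
  · exact absurd h2 (one_lt_pow₀ h3 hn.ne').ne'

variable [IsGaloisGroup G F H]

/-- admissible sets -/
theorem allowed_free (D : RubinData F H G) {T : Finset (HeightOneSpectrum (𝓞 F))}
    (hT : D.Allowed T) : Free H ⊥ T := by
  refine ⟨1, one_mem _, fun ζ hζ h => ?_⟩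
  rw [pow_one]
  rcases hT.2 with ⟨v, hv, v', hv', hne⟩ | ⟨v, hv, hchar⟩
  · by_contra hx1
    have hn1 : orderOf ζ ≠ 1 := fun h => hx1 (orderOf_eq_one_iff.mp h)
    obtain ⟨p, hp, hpn⟩ := Nat.exists_prime_and_dvd hn1
    obtain ⟨m, h1, h2⟩ := exists_prime_pow hζ hp hpn
    have h3 : ∀ v ∈ T, ringChar (𝓞 F ⧸ v.asIdeal) = p := by
      intro v hv
      obtain ⟨w, hw⟩ := (Pool.Agent.K3h25.RS.t_OVER F H v).1
      refine ringChar_of_root hp h1 h2 hw ?_
      rw [Units.val_pow_eq_pow_val]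
      exact Pool.Agent.K3h30.RS.pow_sub_one_lt (h w ((above_iff hw).2 (Finset.mem_coe.2 hv))) m
    exact hne ((h3 v hv).trans (h3 v' hv').symm)
  · have hvS : v ∉ D.S := fun h => Finset.disjoint_left.1 hT.1 h hv
    refine Pool.Agent.K3h23.RS.t_TORS Pool.Agent.K3h36.RS.t_NOZETA F H G D v hvS hchar ζ
      ⟨fun w _ => val_of_finOrder hζ w, fun w hw => h w (above_mono ?_ hw)⟩ hζ
    exact Finset.coe_subset.2 (Finset.singleton_subset_iff.2 hv)

/-- the torsion of `H^*` -/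
theorem exists_tors (D : RubinData F H G) : ∃ e : ℕ, 0 < e ∧ ∀ ζ : Hˣ, IsOfFinOrder ζ → ζ ^ e = 1 := by
  haveI := fgAdd D ∅
  obtain ⟨e, he, h⟩ := exists_torsion (Additive (D.U ∅))
  refine ⟨e, he, fun ζ hζ => ?_⟩
  have hmem : ζ ∈ D.U ∅ := mem_U_empty D ⟨fun w _ => val_of_finOrder hζ w, fun w hw => by
    obtain ⟨v, hv, -⟩ := hw
    exact absurd hv (Set.notMem_empty v)⟩
  obtain ⟨n, hn, h1⟩ := isOfFinOrder_iff_pow_eq_one.1 hζ
  have h2 := h (Additive.ofMul ⟨ζ, hmem⟩) (isOfFinAddOrder_iff_nsmul_eq_zero.2 ⟨n, hn, by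
    apply Additive.toMul.injective
    exact Subtype.ext h1⟩)
  have h3 := congrArg (fun z : Additive (D.U ∅) => ((Additive.toMul z : D.U ∅) : Hˣ)) h2
  exact h3

theorem pfree_free (D : RubinData F H G) {p : ℕ} (hp : p.Prime)
    {T : Finset (HeightOneSpectrum (𝓞 F))} (hT : PFree H p T) : Free H (notDvd p hp) T := by
  obtain ⟨e, he, h⟩ := exists_tors D
  obtain ⟨a, w, hw, hew⟩ := Nat.exists_eq_pow_mul_and_not_dvd he.ne' p hp.one_lt.ne'
  refine ⟨w, hw, fun ζ hζ h1 => ?_⟩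
  have h2 : ¬ p ∣ orderOf ζ := by
    intro hpn
    obtain ⟨m, h3, h4⟩ := exists_prime_pow hζ hp hpn
    refine h4 (hT _ h3 fun v hv => ?_)
    rw [Units.val_pow_eq_pow_val]
    exact Pool.Agent.K3h30.RS.pow_sub_one_lt (h1 v hv) m
  have h3 : orderOf ζ ∣ p ^ a * w := by
    rw [← hew]
    exact orderOf_dvd_of_pow_eq_one (h ζ hζ)
  have h4 : Nat.Coprime (orderOf ζ) (p ^ a) :=
    (Nat.Coprime.pow_left a ((Nat.Prime.coprime_iff_not_dvd hp).2 h2)).symm
  exact orderOf_dvd_iff_pow_eq_one.1 (h4.dvd_of_dvd_mul_left h3)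

end Pool.Agent.H509
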